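import Pool.Agent.Helper77.SK.Defs
import Pool.Agent.Helper86.Poly.Fun2

/-!
# Shared definitions of the reduction from `k`-SAT to unique `k`-SAT
-/

set_option autoImplicit false

namespace Pool.Agent.Helper77.SK

open Pool.Agent.Helper86.PT

/-! ### Averages over strings of coin tosses -/

/-- The average of `f` over all bit strings of length `r`. -/
noncomputable def E : ℕ → (List Bool → ℝ) → ℝ
  | 0, f => f []
  | r + 1, f => (E r (fun w => f (true :: w)) + E r (fun w => f (false :: w))) / 2

/-! ### Counters -/

/-- The binary value of a bit list, least significant bit first. -/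
def bval : List Bool → ℕ
  | [] => 0
  | b :: l => (if b then 1 else 0) + 2 * bval l

/-- Predecessor of a binary counter of fixed length (for positive value). -/
def dec : List Bool → List Bool
  | [] => []
  | true :: l => false :: l
  | false :: l => true :: dec l

/-- All bits are `false`. -/
def isZ (l : List Bool) : Bool := l.all (fun b => !b)

/-! ### Parity constraints -/

/-- The number of bits of an index: the least `b` with `n ≤ 2 ^ b` is obtained by `n` steps. -/
def lg (n : ℕ) : ℕ := Nat.clog 2 n

/-- The slots of the constraint that is read from the bits `u`: the first bit is the right hand side,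
then there are `w` blocks of `b` bits; a block is a variable `< n` or empty. -/
def slots (n b w : ℕ) (u : List Bool) : List (List ℕ) :=
  (List.range w).map fun i =>
    let v := bval ((u.drop (1 + i * b)).take b)
    if v < n then [v] else []

/-- The parity of the values of the variables in the list. -/
def par (x : ℕ → Bool) : List ℕ → Bool
  | [] => false
  | i :: V => xor (x i) (par x V)

/-- Clauses for `par x V = β`: one for each sign pattern. -/
def direct : List ℕ → Bool → Frm
  | [], β => if β then [[]] else []
  | i :: V, β => (direct V β).map (fun C => (i, true) :: C) ++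
      (direct V (!β)).map (fun C => (i, false) :: C)

/-- Clauses of width at most `k` for `par x V.flatten = β`, with new variables `y`, `y + 1`, …;
`fuel` bounds the number of cuts. -/
def chain (k : ℕ) : ℕ → ℕ → List (List ℕ) → Bool → Frm
  | 0, _, V, β => direct V.flatten β
  | fuel + 1, y, V, β =>
    if V.length ≤ k then direct V.flatten β
    else direct (y :: (V.take (k - 1)).flatten) false ++
      chain k fuel (y + 1) ([y] :: V.drop (k - 1)) β

/-- The number of new variables for a constraint with `w` slots. -/
def naux (k : ℕ) : ℕ → ℕ → ℕ
  | 0, _ => 0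
  | fuel + 1, w => if w ≤ k then 0 else 1 + naux k fuel (w - (k - 2))

/-- All clauses for `r` constraints which are read from `u` (each from `m` bits); the constraint
which is the `e`-th from the last one has `w e` slots; `y` is the next new variable. -/
def gen (k n b m : ℕ) (w : ℕ → ℕ) : ℕ → ℕ → List Bool → Frm
  | 0, _, _ => []
  | r + 1, y, u => chain k (w (r + 1)) y (slots n b (w (r + 1)) u) (u.headD false) ++
      gen k n b m w r (y + naux k (w (r + 1)) (w (r + 1))) (u.drop m)

/-- The total number of new variables. -/
def nall (k : ℕ) (w : ℕ → ℕ) (r : ℕ) : ℕ := ∑ e ∈ Finset.range r, naux k (w (e + 1)) (w (e + 1))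

/-- The assignment `x` satisfies all `r` parity constraints read from `u`. -/
def Meets (n b m : ℕ) (w : ℕ → ℕ) (x : ℕ → Bool) : ℕ → List Bool → Prop
  | 0, _ => True
  | r + 1, u => par x (slots n b (w (r + 1)) u).flatten = u.headD false ∧
      Meets n b m w x r (u.drop m)

/-- Extension of an assignment of `n` variables by `false`. -/
def ext {n : ℕ} (x : Fin n → Bool) : ℕ → Bool := fun i => if h : i < n then x ⟨i, h⟩ else false

/-- Removing repeated clauses. -/
def ddp (F : Frm) : Frm := F.foldl (fun acc C => if acc.contains C then acc else C :: acc) []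

/-! ### The vectors of numbers of constraints -/

/-- The width of the `e`-th constraint from the last one if the last `t_0` constraints have the width
`v 0`, the `t_1` constraints before them the width `v 1`, and so on. -/
def widv : (ℕ → ℕ) → List ℕ → ℕ → ℕ
  | _, [], _ => 1
  | v, t :: ts, e => if e ≤ t then v 0 else widv (fun j => v (j + 1)) ts (e - t)

/-- The first `j` with `e ≤ a j`. -/
noncomputable def lev (a : ℕ → ℕ) (e : ℕ) : ℕ := sInf {j | e ≤ a j}

/-- The vector with code `t`: the `j`-th entry is the `j`-th digit of `t` in base `n + 1`, but
at most `p j * n / q`. -/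
def vec (q : ℕ) : (ℕ → ℕ) → ℕ → ℕ → ℕ → List ℕ
  | _, 0, _, _ => []
  | p, J + 1, n, t => min (t % (n + 1)) (p 0 * n / q) :: vec q (fun j => p (j + 1)) J n (t / (n + 1))

/-- The reduction: the parity constraints are read from the coin tosses; their numbers for each
width are coded by the number `x.2.1`. -/
def build (k q W J : ℕ) (v p : ℕ → ℕ) (x : (ℕ × Frm) × (ℕ × List Bool)) : ℕ × Frm :=
  (x.1.1 + nall k (widv v (vec q p (J + 1) x.1.1 x.2.1)) (vec q p (J + 1) x.1.1 x.2.1).sum,
    ddp (x.1.2 ++ gen k x.1.1 (lg x.1.1) (W * lg x.1.1 + 1)
      (widv v (vec q p (J + 1) x.1.1 x.2.1)) (vec q p (J + 1) x.1.1 x.2.1).sum x.1.1 x.2.2))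

end Pool.Agent.Helper77.SK
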