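import Pool.Agent.Helper77.SK.Calc

/-!
# Exhaustive search solves `k`-SAT with exponent one
-/

set_option autoImplicit false

namespace Pool.Agent.Helper77.SK

open Pool.Agent.Helper86.PT

namespace Brute

/-! ### The counter -/

theorem dec_length (l : List Bool) : (dec l).length = l.length := by
  induction l with
  | nil => rfl
  | cons b l ih => cases b <;> simp [dec, ih]

theorem bval_isZ {l : List Bool} (h : isZ l = true) : bval l = 0 := by
  induction l with
  | nil => rfl
  | cons b l ih =>
    simp only [isZ, List.all_cons, Bool.and_eq_true, Bool.not_eq_true'] at h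
    have := ih (by simpa [isZ] using h.2)
    simp [bval, h.1, this]

theorem bval_pos {l : List Bool} (h : isZ l = false) : 0 < bval l := by
  induction l with
  | nil => simp [isZ] at h
  | cons b l ih =>
    cases b with
    | true => simp [bval]
    | false =>
      have h' : isZ l = false := by simpa [isZ] using h
      have := ih h'
      simp [bval, this]

theorem bval_dec {l : List Bool} (h : isZ l = false) : bval (dec l) + 1 = bval l := by
  induction l with
  | nil => simp [isZ] at h
  | cons b l ih =>
    cases b with
    | true => simp [dec, bval]; omega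
    | false =>
      have h' : isZ l = false := by simpa [isZ] using h
      have := ih h'
      simp only [dec, bval, if_true, Bool.false_eq_true, if_false]
      omega

theorem bval_inj : ∀ {l l' : List Bool}, l.length = l'.length → bval l = bval l' → l = l' := by
  intro l
  induction l with
  | nil => intro l' h _; exact (List.length_eq_zero_iff.mp (by simpa using h.symm)).symm
  | cons b l ih =>
    intro l' h h'
    cases l' with
    | nil => simp at h
    | cons b' l' =>
      simp only [bval] at h'
      have hb : b = b' := by cases b <;> cases b' <;> simp at h' ⊢ <;> omega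
      subst hb
      rw [ih (by simpa using h) (by omega)]

theorem bval_lt (l : List Bool) : bval l < 2 ^ l.length := by
  induction l with
  | nil => simp [bval]
  | cons b l ih =>
    simp only [bval, List.length_cons, pow_succ]
    split <;> omega

theorem bval_replicate (n : ℕ) : bval (List.replicate n true) + 1 = 2 ^ n := by
  induction n with
  | zero => rfl
  | succ n ih => rw [List.replicate_succ]; simp only [bval, if_true, pow_succ]; omega

/-! ### Evaluation of formulas -/

/-- The value of the formula `F` at the assignment given by the list `x`. -/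
def ev (F : Frm) (x : List Bool) : Bool :=
  F.all fun C => C.any fun l => decide (x.getD l.1 false = l.2)

theorem ev_ofFn {k n : ℕ} {F : Frm} (hF : IsCNF k n F) (x : Fin n → Bool) :
    ev F (List.ofFn x) = true ↔ x ∈ sols n F := by
  simp only [ev, List.all_eq_true, List.any_eq_true, decide_eq_true_eq, sols, Set.mem_ofPred_eq]
  refine forall₂_congr fun C hC => ?_
  refine exists_congr fun l => and_congr_right fun hl => ?_
  have h := (hF.2 C hC).2 l hl
  rw [List.getD_eq_getElem?_getD, List.getElem?_ofFn]
  simp [h]

theorem exists_ev {k n : ℕ} {F : Frm} (hF : IsCNF k n F) :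
    (∃ y : List Bool, y.length = n ∧ ev F y = true) ↔ (sols n F).Nonempty := by
  constructor
  · rintro ⟨y, rfl, hy⟩
    refine ⟨fun i => y.get i, (ev_ofFn hF _).mp ?_⟩
    rwa [List.ofFn_get]
  · rintro ⟨x, hx⟩
    exact ⟨List.ofFn x, by simp, (ev_ofFn hF x).mpr hx⟩

/-! ### The algorithm -/

/-- The states: the formula, the counter, `stopped`, `answer`. -/
abbrev BQ := Frm × List Bool × Bool × Bool

/-- One step of the search. -/
def bstep (q : BQ) : BQ :=
  bif ev q.1 q.2.1 then (q.1, q.2.1, true, true)
  else bif isZ q.2.1 then (q.1, q.2.1, true, false) else (q.1, dec q.2.1, false, false)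

theorem poly_ev : Poly (fun p : Frm × List Bool => ev p.1 p.2) := by
  refine Poly.all (l := fun p : Frm × List Bool => p.1)
    (f := fun p C => C.any fun l => decide (p.2.getD l.1 false = l.2)) (Poly.fst Poly.id) ?_
  refine Poly.any (l := fun p : (Frm × List Bool) × Cls => p.2)
    (f := fun p l => decide (p.1.2.getD l.1 false = l.2)) (Poly.snd Poly.id) ?_
  exact Poly.beqBool (Poly.getD (Poly.snd (Poly.fst (Poly.fst Poly.id)))
    (Poly.fst (Poly.snd Poly.id)) (Helper86.PT.Poly.const false)) (Poly.snd (Poly.snd Poly.id))

theorem poly_bstep : Poly bstep := by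
  have h1 : Poly (fun q : BQ => q.1) := Poly.fst Poly.id
  have h2 : Poly (fun q : BQ => q.2.1) := Poly.fst (Poly.snd Poly.id)
  exact Poly.cond (Poly.comp poly_ev (Poly.pair h1 h2))
    (Poly.pair h1 (Poly.pair h2 (Helper86.PT.Poly.const (true, true))))
    (Poly.cond (poly_isZ h2) (Poly.pair h1 (Poly.pair h2 (Helper86.PT.Poly.const (true, false))))
      (Poly.pair h1 (Poly.pair (poly_dec h2) (Helper86.PT.Poly.const (false, false)))))

/-- Exhaustive search. -/
def brute : Alg (ℕ × Frm) where
  Q := BQ
  W := Bool
  init p := (p.2, List.replicate p.1 true, false, false)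
  blank := false
  addr _ := T.nil
  step p := (bstep p.1, p.2.1)
  stop q := q.2.2.1
  ans q := q.2.2.2
  poly_init := Poly.polyTime (Poly.pair (Poly.snd Poly.id)
    (Poly.pair (Poly.replicate (Poly.fst Poly.id) (Helper86.PT.Poly.const true)) (Helper86.PT.Poly.const (false, false))))
  poly_addr := Poly.polyTime (Helper86.PT.Poly.const T.nil)
  poly_step := Poly.polyTime (Poly.pair (Poly.comp poly_bstep (Poly.fst Poly.id))
    (Poly.fst (Poly.snd Poly.id)))
  poly_stop := Poly.polyTime (Poly.fst (Poly.snd (Poly.snd Poly.id)))
  poly_ans := Poly.polyTime (Poly.snd (Poly.snd (Poly.snd Poly.id)))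

/-- A configuration of the search. -/
def bc (q : BQ) (mem : T → Bool) : brute.Cfg := (q, mem)

theorem next_bc (q : BQ) (mem : T → Bool) (b : Bool) :
    brute.next (bc q mem) b = bc (bstep q) mem := by
  show ((bstep q, Function.update mem T.nil (mem T.nil)) : BQ × (T → Bool)) = (bstep q, mem)
  rw [Function.update_eq_self]

theorem tsz_state {F : Frm} {x : List Bool} {a b : Bool} :
    tsz ((F, x, a, b) : BQ) ≤ tsz F + (x.length * 4 + 1) + 9 := by
  rw [tsz_pair, tsz_pair, tsz_pair]
  have h1 := tsz_bool_le a
  have h2 := tsz_bool_le b
  have h3 : tsz x ≤ x.length * (3 + 1) + 1 := tsz_list_le le_rfl (fun c _ => tsz_bool_le c)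
  omega

theorem halts_stop {m : ℕ} (t : ℕ) {q : BQ} {mem : T → Bool} (h : q.2.2.1 = true)
    (hm : tsz q ≤ m) : brute.Halts m t (bc q mem) := by
  cases t with
  | zero => exact ⟨h, hm⟩
  | succ t => exact ⟨hm, Or.inl h⟩

theorem pYes_stop (t : ℕ) {q : BQ} {mem : T → Bool} (h : q.2.2.1 = true) :
    brute.pYes t (bc q mem) = if q.2.2.2 = true then 1 else 0 := by
  cases t with
  | zero =>
    show (if q.2.2.1 = true ∧ q.2.2.2 = true then (1 : ℝ) else 0) = _
    simp [h]
  | succ t =>
    show (if q.2.2.1 = true then (if q.2.2.2 = true then (1 : ℝ) else 0) else _) = _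
    rw [if_pos h]

theorem pYes_step (t : ℕ) {F : Frm} {x : List Bool} {a : Bool} {mem : T → Bool} :
    brute.pYes (t + 1) (bc (F, x, false, a) mem) =
      brute.pYes t (bc (bstep (F, x, false, a)) mem) := by
  show (if (false : Bool) = true then _ else
    (brute.pYes t (brute.next (bc (F, x, false, a) mem) true) +
      brute.pYes t (brute.next (bc (F, x, false, a) mem) false)) / 2) = _
  rw [if_neg (by decide), next_bc, next_bc]
  ring

theorem halts_run {m : ℕ} {F : Frm} (t : ℕ) : ∀ (x : List Bool) (a : Bool) (mem : T → Bool),
    bval x < t → tsz F + (x.length * 4 + 1) + 9 ≤ m →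
    (∀ u, tsz (mem u) ≤ m) →
    brute.Halts m t (bc (F, x, false, a) mem) := by
  induction t with
  | zero => intro x a mem h; exact absurd h (Nat.not_lt_zero _)
  | succ t ih =>
    intro x a mem h hm hmem
    refine ⟨tsz_state.trans hm, Or.inr ⟨hmem _, fun b => ?_⟩⟩
    rw [next_bc]
    unfold bstep
    cases he : ev F x with
    | true =>
      simp only [cond_true]
      exact halts_stop t rfl (tsz_state.trans hm)
    | false =>
      cases hz : isZ x with
      | true =>
        simp only [cond_true, cond_false]
        exact halts_stop t rfl (tsz_state.trans hm)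
      | false =>
        simp only [cond_false]
        have := bval_dec hz
        exact ih (dec x) false mem (by omega) (by rw [dec_length]; exact hm) hmem

theorem pYes_run {F : Frm} (t : ℕ) : ∀ (x : List Bool) (a : Bool) (mem : T → Bool),
    bval x < t →
    ((∃ y : List Bool, y.length = x.length ∧ bval y ≤ bval x ∧ ev F y = true) →
      brute.pYes t (bc (F, x, false, a) mem) = 1) ∧
    ((¬ ∃ y : List Bool, y.length = x.length ∧ bval y ≤ bval x ∧ ev F y = true) →
      brute.pYes t (bc (F, x, false, a) mem) = 0) := by
  induction t with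
  | zero => intro x a mem h; exact absurd h (Nat.not_lt_zero _)
  | succ t ih =>
    intro x a mem h
    rw [pYes_step]
    unfold bstep
    cases he : ev F x with
    | true =>
      simp only [cond_true]
      rw [pYes_stop t rfl]
      exact ⟨fun _ => rfl, fun hn => absurd ⟨x, rfl, le_rfl, he⟩ hn⟩
    | false =>
      cases hz : isZ x with
      | true =>
        simp only [cond_true, cond_false]
        rw [pYes_stop t rfl]
        refine ⟨?_, fun _ => by simp⟩
        rintro ⟨y, hy1, hy2, hy3⟩
        have h0 := bval_isZ hz
        rw [bval_inj hy1 (by omega), he] at hy3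
        exact absurd hy3 (by decide)
      | false =>
        simp only [cond_false]
        have hd := bval_dec hz
        obtain ⟨i1, i2⟩ := ih (dec x) false mem (by omega)
        rw [dec_length] at i1 i2
        constructor
        · rintro ⟨y, hy1, hy2, hy3⟩
          refine i1 ⟨y, hy1, ?_, hy3⟩
          by_contra hlt
          rw [bval_inj hy1 (by omega), he] at hy3
          exact absurd hy3 (by decide)
        · intro hn
          exact i2 (fun ⟨y, hy1, hy2, hy3⟩ => hn ⟨y, hy1, by omega, hy3⟩)

end Brute

open Brute in
/-- Exhaustive search solves `k`-SAT in `2 ^ n` steps. -/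
theorem solvedIn_one (k : ℕ) : SolvedIn k False 1 := by
  obtain ⟨d, hd⟩ := size_frm k
  refine ⟨brute, 1, d + 25, fun n F hF _ => ⟨2 ^ n, ?_, ?_, ?_, ?_⟩⟩
  · rw [one_mul, one_mul, Real.rpow_natCast]
    push_cast
    exact le_rfl
  · refine halts_run (F := F) (2 ^ n) (List.replicate n true) false (fun _ => false) ?_ ?_ ?_
    · have := bval_replicate n
      omega
    · have h1 := hd n F hF
      rw [tsz_pair, tsz_nat] at h1
      rw [List.length_replicate]
      have h2 : n ^ d + 2 * n ≤ n ^ (d + 25) + 3 := by
        rcases Nat.lt_or_ge n 2 with hn | hn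
        · have : n ^ d ≤ 1 := by
            interval_cases n
            · exact pow_le_one' (by norm_num) d
            · simp
          omega
        · have h3 : n ^ (d + 2) ≤ n ^ (d + 25) := Nat.pow_le_pow_right (by omega) (by omega)
          have h4 : 1 ≤ n ^ d := Nat.one_le_pow _ _ (by omega)
          rw [pow_add] at h3
          have h5 : 2 * n ≤ n ^ 2 := by nlinarith
          obtain ⟨u, hu⟩ := Nat.exists_eq_add_of_le h4
          obtain ⟨v, hv⟩ := Nat.exists_eq_add_of_le (show 1 ≤ n ^ 2 by omega)
          rw [hu, hv] at h3
          rw [hv] at h5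
          rw [hu]
          nlinarith [Nat.zero_le (u * v)]
      omega
    · intro u
      have := tsz_bool_le false
      show tsz false ≤ _
      have : 1 ≤ 0 + (d + 25) := by omega
      calc tsz false ≤ 3 := tsz_bool_le _
        _ ≤ n ^ (d + 25) + (d + 25) := by omega
  · intro hn
    refine (pYes_run (F := F) (2 ^ n) (List.replicate n true) false (fun _ => false) ?_).2 ?_
    · have := bval_replicate n
      omega
    · rintro ⟨y, hy1, -, hy3⟩
      rw [List.length_replicate] at hy1
      exact hn ((exists_ev hF).mp ⟨y, hy1, hy3⟩)
  · intro hn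
    obtain ⟨y, hy1, hy3⟩ := (exists_ev hF).mpr hn
    have h1 := bval_lt y
    have h2 := bval_replicate n
    rw [hy1] at h1
    have h := (pYes_run (F := F) (2 ^ n) (List.replicate n true) false (fun _ => false)
      (by omega)).1 ⟨y, by rw [List.length_replicate]; exact hy1, by omega, hy3⟩
    exact le_trans (by norm_num) (le_of_eq h.symm)

end Pool.Agent.Helper77.SK
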