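import Pool.Agent.Helper77.SK.Basic
import Pool.Agent.Helper87.Cog.OfTM2

/-!
# Connection of the model with the calculus of polynomial time functions
-/

set_option autoImplicit false

namespace Pool.Agent.Helper86.PT.SKCalc

open Pool.Agent.Helper77.SK Turing

variable {α β γ : Type} [TEnc α] [TEnc β] [TEnc γ]

/-! ### Sizes of strings -/

theorem tsz_bits_le (l : List Bool) : tsz l ≤ 5 * l.length + 1 := by
  induction l with
  | nil => rfl
  | cons a l ih =>
    rw [tsz_cons, List.length_cons]
    have := tsz_bool_le a
    omega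

theorem tsz_tenc_le (x : α) : tsz (tenc x) ≤ 5 * tsz x + 1 := tsz_bits_le _

/-! ### Machines and programs -/

theorem poly_tenc' {f : α → β} (hf : Poly f) : Poly (fun a => tenc (f a)) := by
  obtain ⟨b, hb, hbm, hb'⟩ := hf.size_bound
  obtain ⟨c, n, p, hc, hp, hrun⟩ := hf
  refine ⟨.seq c inC, max n 2, fun k => p k + (11 * b k + 3),
    ⟨hc.mono (le_max_left _ _), inC_bdd.mono (le_max_right _ _)⟩,
    hp.add (((PB.const 11).mul hb).add (PB.const 3)), fun x => ?_⟩
  refine ((hrun x).seq (run_inC _)).mono ?_
  have h1 : (tenc (f x)).length ≤ b (tsz x) := hb' x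
  show p (tsz x) + (11 * (tenc (f x)).length + 3) ≤ p (tsz x) + (11 * b (tsz x) + 3)
  omega

theorem poly_of_polyTime {f : α → β} (h : PolyTime f) : Poly f := by
  obtain ⟨h⟩ := h
  obtain ⟨F, hF, hF'⟩ := Pool.Agent.Helper87.OfTM2.poly_of_TM2 h
  obtain ⟨b, hb, hbm, hb'⟩ := hF.size_bound
  obtain ⟨c, n, p, hc, hp, hrun⟩ := hF
  obtain ⟨q, hq, hqm, hpq⟩ := hp.exists_mono
  refine ⟨.seq inC (.seq c outC), max n 2,
    fun k => (11 * k + 3) + (q (5 * k + 1) + (12 * b (5 * k + 1) + 5)),
    ⟨inC_bdd.mono (le_max_right _ _), hc.mono (le_max_left _ _),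
      outC_bdd.mono (le_max_right _ _)⟩, ?_, fun x => ?_⟩
  · have lin : ∀ (a b : ℕ) {f : ℕ → ℕ}, PB f → PB (fun k => a * f k + b) := fun a b _ hf =>
      ((PB.const a).mul hf).add (PB.const b)
    exact (lin 11 3 PB.id).add ((hq.comp (lin 5 1 PB.id)).add
      (lin 12 5 (hb.comp (lin 5 1 PB.id))))
  · have h1 := run_inC (tenc x)
    have h2 : RunsIn c (st0 (tenc (tenc x))) (st0 (tenc (F (tenc x)))) (p (tsz (tenc x))) :=
      hrun (tenc x)
    have h3 := run_outC (F (tenc x))
    rw [hF'] at h2 h3
    refine (h1.seq (h2.seq h3)).mono ?_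
    have h4 := hpq (tsz (tenc x))
    have h5 := hqm (tsz_tenc_le x)
    have h6 := hb' (tenc x)
    rw [hF'] at h6
    have h7 := hbm (tsz_tenc_le x)
    have h8 := length_le_tsz (tenc (f x))
    have h9 : (tenc x).length = tsz x := rfl
    simp only
    omega

theorem polyTime_of_poly {f : α → β} (h : Poly f) : PolyTime f := by
  obtain ⟨c, n0, p, hc, hp, hrun⟩ := h
  set n := max n0 2 with hn
  have hc' : c.Bdd (n + 1) := hc.mono (by omega)
  obtain ⟨k, hk⟩ := hp.add (PB.const 1)
  refine ⟨{ tm := machine n c
            inputAlphabet := Equiv.refl Bool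
            outputAlphabet := Equiv.refl Bool
            time := (Polynomial.X + 2) ^ k
            outputsFun := fun a => ?_ }⟩
  have e1 : List.map (Equiv.refl Bool).invFun (tenc a) = tenc a := List.map_id _
  have e2 : List.map (Equiv.refl Bool).invFun (tenc (f a)) = tenc (f a) := List.map_id _
  have hexa : ∃ t, t ≤ ((Polynomial.X + 2) ^ k : Polynomial ℕ).eval (tenc a).length ∧
      (flip bind (machine n c).step)^[t] (some (initList (machine n c)
        (List.map (Equiv.refl Bool).invFun (tenc a))))
        = some (haltList (machine n c) (List.map (Equiv.refl Bool).invFun (tenc (f a)))) := by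
    obtain ⟨t, ht, hr⟩ := hrun a
    refine ⟨t + 1, ?_, ?_⟩
    · have h1 := hk (tsz a)
      simp only [Polynomial.eval_pow, Polynomial.eval_add, Polynomial.eval_X,
        Polynomial.eval_ofNat]
      have h2 : (tenc a).length = tsz a := rfl
      rw [h2]
      exact (Nat.add_le_add_right ht 1).trans h1
    · let Φ : List Bool → List Bool → Prop := fun l l' =>
        (flip bind (machine n c).step)^[t + 1] (some (initList (machine n c) l))
          = some (haltList (machine n c) l')
      have h1 : Φ (tenc a) (tenc (f a)) := machine_run hc' hr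
      have h2 : Φ (List.map (Equiv.refl Bool).invFun (tenc a))
          (List.map (Equiv.refl Bool).invFun (tenc (f a))) := by
        rw [e1, e2]
        exact h1
      exact h2
  exact { steps := hexa.choose
          evals_in_steps := hexa.choose_spec.2
          steps_le_m := hexa.choose_spec.1 }

/-! ### Equality -/

theorem enc_append_inj (a : T) : ∀ (b : T) (r r' : List Bool), a.enc ++ r = b.enc ++ r' →
    a = b ∧ r = r' := by
  induction a with
  | nil =>
    intro b r r' h
    cases b with
    | nil =>
      simp only [T.enc, List.cons_append, List.nil_append, List.cons.injEq, true_and] at h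
      exact ⟨rfl, h⟩
    | cons c d => simp [T.enc] at h
  | cons x y ihx ihy =>
    intro b r r' h
    cases b with
    | nil => simp [T.enc] at h
    | cons c d =>
      simp only [T.enc, List.cons_append, List.cons.injEq, true_and, List.append_assoc] at h
      obtain ⟨h1, h2⟩ := ihx _ _ _ h
      obtain ⟨h3, h4⟩ := ihy _ _ _ h2
      exact ⟨by rw [h1, h3], h4⟩

theorem tenc_injective : Function.Injective (tenc : α → List Bool) := by
  intro a b h
  have h1 : (toT a).enc ++ [] = (toT b).enc ++ [] := by
    rw [List.append_nil, List.append_nil]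
    exact h
  exact TEnc.inj (enc_append_inj _ _ _ _ h1).1

theorem poly_eqBits {f g : α → List Bool} (hf : Poly f) (hg : Poly g) :
    Poly (fun a => decide (f a = g a)) := by
  have h := Poly.and (Poly.eqNat (Poly.length hf) (Poly.length hg))
    (Poly.all (l := fun a => List.range (f a).length)
      (f := fun a i => decide ((f a).getD i false = (g a).getD i false))
      (Poly.range (Poly.length hf))
      (Poly.beqBool (Poly.getD (hf.comp (Poly.fst Poly.id)) (Poly.snd Poly.id) (Poly.const false))
        (Poly.getD (hg.comp (Poly.fst Poly.id)) (Poly.snd Poly.id) (Poly.const false))))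
  refine h.congr fun a => ?_
  rw [Bool.eq_iff_iff]
  simp only [Bool.and_eq_true, decide_eq_true_eq, List.all_eq_true, List.mem_range]
  constructor
  · rintro ⟨h1, h2⟩
    refine List.ext_getElem h1 fun i hi hi' => ?_
    have := h2 i hi
    rwa [List.getD_eq_getElem _ _ hi, List.getD_eq_getElem _ _ hi'] at this
  · intro h1
    rw [h1]
    exact ⟨rfl, fun i _ => rfl⟩

theorem poly_decEq' [DecidableEq β] {f g : α → β} (hf : Poly f) (hg : Poly g) :
    Poly (fun a => decide (f a = g a)) := by
  refine (poly_eqBits (poly_tenc' hf) (poly_tenc' hg)).congr fun a => ?_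
  rw [decide_eq_decide]
  exact ⟨fun h => tenc_injective h, fun h => by rw [h]⟩

theorem poly_tszLe' {f : α → β} {m : α → ℕ} (hf : Poly f) (hm : Poly m) :
    Poly (fun a => decide (tsz (f a) ≤ m a)) :=
  Poly.le (Poly.length (poly_tenc' hf)) hm

/-! ### Arithmetic -/

theorem filter_range_lt (n m : ℕ) :
    (List.range n).filter (fun i => decide (i < m)) = List.range (min n m) := by
  induction n with
  | zero => simp
  | succ n ih =>
    rw [List.range_succ, List.filter_append, ih, List.filter_cons, List.filter_nil]
    by_cases h : n < m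
    · rw [if_pos (by simpa using h), min_eq_left (by omega), min_eq_left (by omega),
        List.range_succ]
    · rw [if_neg (by simpa using h), min_eq_right (by omega), min_eq_right (by omega),
        List.append_nil]

theorem poly_divConst' (q : ℕ) {f : α → ℕ} (hf : Poly f) : Poly (fun a => f a / q) := by
  rcases Nat.eq_zero_or_pos q with rfl | hq
  · exact (Poly.const 0).congr fun a => (Nat.div_zero _).symm
  · have h := Poly.length (Poly.filter (l := fun a => List.range (f a))
      (f := fun a i => decide (q * (i + 1) ≤ f a)) (Poly.range hf)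
      (Poly.le (Poly.mul (Poly.const q) (Poly.succ (Poly.snd Poly.id)))
        (hf.comp (Poly.fst Poly.id))))
    refine h.congr fun a => ?_
    have h1 : (List.range (f a)).filter (fun i => decide (q * (i + 1) ≤ f a)) =
        (List.range (f a)).filter (fun i => decide (i < f a / q)) := by
      refine List.filter_congr fun i _ => ?_
      rw [decide_eq_decide, ← Nat.succ_le_iff (m := i), Nat.le_div_iff_mul_le hq, Nat.succ_eq_add_one]
      rw [mul_comm]
    rw [h1, filter_range_lt, List.length_range, min_eq_right (Nat.div_le_self _ _)]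

theorem poly_take' {l : α → List β} {n : α → ℕ} (hl : Poly l) (hn : Poly n) :
    Poly (fun a => (l a).take (n a)) := by
  have h := Poly.reverse (Poly.drop (Poly.reverse hl) (Poly.sub (Poly.length hl) hn))
  refine h.congr fun a => ?_
  rw [List.drop_reverse, List.reverse_reverse]
  by_cases h : n a ≤ (l a).length
  · congr 1
    omega
  · rw [List.take_of_length_le (by omega), List.take_of_length_le (by omega)]

/-- One step of the subtraction of one with borrow. -/
def decStep (s : Bool × List Bool) (b : Bool) : Bool × List Bool :=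
  (s.1 && !b, (bif s.1 then !b else b) :: s.2)

theorem decStep_spec (l : List Bool) : ∀ (c : Bool) (acc : List Bool),
    (l.foldl decStep (c, acc)).2.reverse = acc.reverse ++ (bif c then dec l else l) := by
  induction l with
  | nil => intro c acc; cases c <;> simp [dec]
  | cons b l ih =>
    intro c acc
    rw [List.foldl_cons, show decStep (c, acc) b = (c && !b, (bif c then !b else b) :: acc) from rfl,
      ih]
    cases c <;> cases b <;> simp [dec]

theorem decStep_length (l : List Bool) : ∀ (c : Bool) (acc : List Bool),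
    (l.foldl decStep (c, acc)).2.length = acc.length + l.length := by
  induction l with
  | nil => intro c acc; rfl
  | cons b l ih =>
    intro c acc
    rw [List.foldl_cons, show decStep (c, acc) b = (c && !b, (bif c then !b else b) :: acc) from rfl,
      ih]
    simp only [List.length_cons]
    omega

theorem poly_dec' {f : α → List Bool} (hf : Poly f) : Poly (fun a => dec (f a)) := by
  obtain ⟨b, hb, -, hb'⟩ := hf.size_bound
  have h := Poly.foldl (l := f) (g := fun _ => (true, ([] : List Bool)))
    (f := fun _ s b => decStep s b) hf (Poly.const _)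
    (Poly.pair (Poly.and (Poly.fst (Poly.fst (Poly.snd Poly.id)))
        (Poly.not (Poly.snd (Poly.snd Poly.id))))
      (Poly.cons (Poly.cond (Poly.fst (Poly.fst (Poly.snd Poly.id)))
        (Poly.not (Poly.snd (Poly.snd Poly.id))) (Poly.snd (Poly.snd Poly.id)))
        (Poly.snd (Poly.fst (Poly.snd Poly.id)))))
    (B := fun k => b k * (3 + 1) + 1 + 4) (((hb.mul (PB.const (3 + 1))).add (PB.const 1)).add
      (PB.const 4)) (by
      intro a i
      have h1 : ∀ s : Bool × List Bool, tsz s ≤ 3 + (tsz s.2 + 1) := by
        rintro ⟨c, l⟩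
        rw [tsz_pair]
        show tsz c + tsz l + 1 ≤ 3 + (tsz l + 1)
        have := tsz_bool_le c
        omega
      refine (h1 _).trans ?_
      have h2 : tsz (((f a).take i).foldl decStep (true, [])).2 ≤ b (tsz a) * (3 + 1) + 1 := by
        refine tsz_list_le ?_ (fun c _ => tsz_bool_le c)
        rw [decStep_length]
        have h3 := length_le_tsz ((f a).take i)
        have h4 := tsz_take (f a) i
        have h5 := hb' a
        simp only [List.length_nil]
        omega
      refine (Nat.add_le_add_left (Nat.add_le_add_right h2 1) 3).trans ?_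
      omega)
  refine (Poly.reverse (Poly.snd h)).congr fun a => ?_
  rw [decStep_spec]
  simp

theorem poly_isZ' {f : α → List Bool} (hf : Poly f) : Poly (fun a => isZ (f a)) :=
  Poly.all (f := fun _ b => !b) hf (Poly.not (Poly.snd Poly.id))

theorem lg_iter (n i : ℕ) : (fun s : ℕ × ℕ => if s.1 < n then (2 * s.1, s.2 + 1) else s)^[i] (1, 0)
    = (2 ^ min i (Nat.clog 2 n), min i (Nat.clog 2 n)) := by
  induction i with
  | zero => simp
  | succ i ih =>
    rw [Function.iterate_succ_apply', ih]
    have h1 : 2 ^ min i (Nat.clog 2 n) < n ↔ min i (Nat.clog 2 n) < Nat.clog 2 n :=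
      (Nat.lt_clog_iff_pow_lt (by omega)).symm
    simp only
    by_cases h : i < Nat.clog 2 n
    · have e1 : min i (Nat.clog 2 n) = i := min_eq_left h.le
      have e2 : min (i + 1) (Nat.clog 2 n) = i + 1 := min_eq_left h
      rw [e1] at h1
      rw [e1, e2, if_pos (h1.mpr h), pow_succ]
      simp only [Prod.mk.injEq, and_true]
      ring
    · have e1 : min i (Nat.clog 2 n) = Nat.clog 2 n := min_eq_right (by omega)
      have e2 : min (i + 1) (Nat.clog 2 n) = Nat.clog 2 n := min_eq_right (by omega)
      rw [e1] at h1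
      rw [e1, e2, if_neg (by rw [h1]; omega)]

theorem clog_le (n : ℕ) : Nat.clog 2 n ≤ n :=
  (Nat.clog_le_iff_le_pow (by omega)).mpr Nat.lt_two_pow_self.le

theorem two_pow_min_le (n i : ℕ) : 2 ^ min i (Nat.clog 2 n) ≤ 2 * n + 1 := by
  rcases Nat.eq_zero_or_pos (min i (Nat.clog 2 n)) with h | h
  · rw [h]; omega
  · obtain ⟨j, hj⟩ : ∃ j, min i (Nat.clog 2 n) = j + 1 := ⟨_, (Nat.succ_pred_eq_of_pos h).symm⟩
    have h1 : j < Nat.clog 2 n := by omega
    have h2 : 2 ^ j < n := (Nat.lt_clog_iff_pow_lt (by omega)).mp h1
    rw [hj, pow_succ]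
    omega

theorem poly_lg' {f : α → ℕ} (hf : Poly f) : Poly (fun a => lg (f a)) := by
  obtain ⟨b, hb, -, hb'⟩ := hf.size_bound
  have h := Poly.natIter (n := f) (g := fun _ => ((1, 0) : ℕ × ℕ))
    (f := fun a s => if s.1 < f a then (2 * s.1, s.2 + 1) else s) hf (Poly.const _)
    (Poly.ite (c := fun p : α × (ℕ × ℕ) => p.2.1 < f p.1)
      (Poly.lt (Poly.fst (Poly.snd Poly.id)) (hf.comp (Poly.fst Poly.id)))
      (Poly.pair (Poly.mul (Poly.const 2) (Poly.fst (Poly.snd Poly.id)))
        (Poly.succ (Poly.snd (Poly.snd Poly.id)))) (Poly.snd Poly.id))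
    (B := fun k => 3 * b k + 6) (((PB.const 3).mul hb).add (PB.const 6)) (by
      intro a i hi
      rw [lg_iter, tsz_pair, tsz_nat, tsz_nat]
      have h1 := two_pow_min_le (f a) i
      have h2 := hb' a
      rw [tsz_nat] at h2
      have h3 : min i (Nat.clog 2 (f a)) ≤ f a := (min_le_left _ _).trans hi
      omega)
  refine (Poly.snd h).congr fun a => ?_
  rw [lg_iter, lg]
  exact min_eq_right (clog_le _)

/-! ### Formulas -/

theorem contains_eq_any (l : List Cls) (b : Cls) :
    l.contains b = l.any (fun c => decide (c = b)) := by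
  rw [Bool.eq_iff_iff, List.contains_iff_mem, List.any_eq_true]
  constructor
  · intro h
    exact ⟨b, h, by simp⟩
  · rintro ⟨c, hc, he⟩
    have : c = b := by simpa using he
    rwa [← this]

/-- One step of the removal of repetitions. -/
def ddpStep (acc : List Cls) (C : Cls) : List Cls := if acc.contains C then acc else C :: acc

theorem tsz_ddp (l : List Cls) : ∀ acc : List Cls,
    tsz (l.foldl ddpStep acc) + 1 ≤ tsz acc + tsz l := by
  induction l with
  | nil => intro acc; rw [tsz_nil]; exact le_refl _
  | cons C l ih =>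
    intro acc
    rw [List.foldl_cons]
    have h1 := ih (ddpStep acc C)
    have h2 : tsz (ddpStep acc C) ≤ tsz C + tsz acc + 1 := by
      unfold ddpStep
      split_ifs
      · omega
      · rw [tsz_cons]
    rw [tsz_cons C l]
    omega

theorem poly_ddp' {f : α → List Cls} (hf : Poly f) : Poly (fun a => ddp (f a)) := by
  obtain ⟨b, hb, -, hb'⟩ := hf.size_bound
  have hc : Poly (fun p : α × List Cls × Cls => p.2.1.contains p.2.2) := by
    refine (Poly.any (l := fun p : α × List Cls × Cls => p.2.1)
      (f := fun p C => decide (C = p.2.2)) (Poly.fst (Poly.snd Poly.id))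
      (poly_decEq' (Poly.snd Poly.id) (Poly.snd (Poly.snd (Poly.fst Poly.id))))).congr fun p => ?_
    exact (contains_eq_any _ _).symm
  have h := Poly.foldl (l := f) (g := fun _ => ([] : List Cls))
    (f := fun _ acc C => ddpStep acc C) hf (Poly.const _)
    (Poly.ite (c := fun p : α × List Cls × Cls => p.2.1.contains p.2.2 = true)
      (hc.congr fun p => Bool.decide_eq_true.symm) (Poly.fst (Poly.snd Poly.id))
      (Poly.cons (Poly.snd (Poly.snd Poly.id)) (Poly.fst (Poly.snd Poly.id)))) hb (by
      intro a i
      have h1 := tsz_ddp ((f a).take i) []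
      have h2 := tsz_take (f a) i
      have h3 := hb' a
      rw [tsz_nil] at h1
      refine le_trans ?_ h3
      refine le_trans ?_ h2
      exact Nat.le_of_succ_le_succ (h1.trans (Nat.add_comm _ _).le))
  exact h.congr fun a => rfl

theorem nodup_foldl (l : List Cls) : ∀ acc : List Cls, acc.Nodup → (l.foldl ddpStep acc).Nodup := by
  induction l with
  | nil => intro acc h; exact h
  | cons C l ih =>
    intro acc h
    rw [List.foldl_cons]
    refine ih _ ?_
    unfold ddpStep
    split_ifs with hc
    · exact h
    · refine List.nodup_cons.mpr ⟨fun hm => hc ?_, h⟩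
      exact List.contains_iff_mem.mpr hm

theorem mem_foldl (l : List Cls) : ∀ (acc : List Cls) (C : Cls),
    C ∈ l.foldl ddpStep acc ↔ C ∈ acc ∨ C ∈ l := by
  induction l with
  | nil => intro acc C; simp
  | cons D l ih =>
    intro acc C
    rw [List.foldl_cons, ih]
    have h1 : C ∈ ddpStep acc D ↔ C ∈ acc ∨ C = D := by
      unfold ddpStep
      split_ifs with hc
      · have := List.contains_iff_mem.mp hc
        constructor
        · exact fun h => Or.inl h
        · rintro (h | rfl)
          · exact h
          · exact this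
      · rw [List.mem_cons]
        exact or_comm
    rw [h1, List.mem_cons]
    tauto

/-- All clauses of length at most `k` on `n` variables. -/
def allC (n : ℕ) : ℕ → List Cls
  | 0 => [[]]
  | k + 1 => [] :: (allC n k).flatMap fun C =>
      (List.range n).flatMap fun i => [(i, true) :: C, (i, false) :: C]

theorem mem_allC (n k : ℕ) : ∀ C : Cls, C.length ≤ k → (∀ l ∈ C, l.1 < n) → C ∈ allC n k := by
  induction k with
  | zero =>
    intro C h _
    have : C = [] := List.length_eq_zero_iff.mp (Nat.le_zero.mp h)
    subst this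
    exact List.mem_singleton.mpr rfl
  | succ k ih =>
    intro C h h'
    cases C with
    | nil => exact List.mem_cons_self
    | cons l C =>
      rw [List.length_cons] at h
      refine List.mem_cons_of_mem _ (List.mem_flatMap.mpr ⟨C, ih C (by omega)
        fun l hl => h' l (List.mem_cons_of_mem _ hl), List.mem_flatMap.mpr ⟨l.1,
          List.mem_range.mpr (h' l (by simp)), ?_⟩⟩)
      rcases l with ⟨i, b⟩
      cases b <;> simp

theorem length_allC (n k : ℕ) : (allC n k).length ≤ (2 * n + 1) ^ k := by
  induction k with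
  | zero => simp [allC]
  | succ k ih =>
    have h1 : (allC n (k + 1)).length = (allC n k).length * (n * 2) + 1 := by
      rw [allC, List.length_cons, List.length_flatMap]
      congr 1
      have : ∀ l : List Cls, (l.map fun C => ((List.range n).flatMap fun i =>
          [((i, true) :: C : Cls), (i, false) :: C]).length).sum = l.length * (n * 2) := by
        intro l
        have h : ∀ C : Cls, ((List.range n).flatMap fun i =>
            [((i, true) :: C : Cls), (i, false) :: C]).length = n * 2 := by
          intro C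
          rw [List.length_flatMap]
          simp
        simp only [h]
        simp
      exact this _
    rw [h1, pow_succ]
    have h2 : 1 ≤ (2 * n + 1) ^ k := Nat.one_le_pow _ _ (by omega)
    nlinarith

theorem size_frm' (k : ℕ) : ∃ d, ∀ n F, IsCNF k n F → tsz ((n, F) : ℕ × List Cls) ≤ n ^ d + d := by
  -- a polynomial bound
  have hPB : PB (fun n => (2 * n + 1) + ((2 * n + 1) ^ k * ((k * ((2 * n + 5) + 1) + 1) + 1) + 1)
      + 1) := by
    have lin : ∀ (a b : ℕ) {f : ℕ → ℕ}, PB f → PB (fun k => a * f k + b) := fun a b _ hf =>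
      ((PB.const a).mul hf).add (PB.const b)
    refine PB.add (PB.add (lin 2 1 PB.id) (PB.add (PB.mul ((lin 2 1 PB.id).pow k)
      (PB.add (PB.add (PB.mul (PB.const k) (PB.add (lin 2 5 PB.id) (PB.const 1))) (PB.const 1))
        (PB.const 1))) (PB.const 1))) (PB.const 1)
  obtain ⟨j, hj⟩ := hPB
  refine ⟨3 ^ j + 2 * j, fun n F hF => ?_⟩
  have h1 : F.length ≤ (2 * n + 1) ^ k := by
    refine le_trans ?_ (length_allC n k)
    exact (hF.1.subperm fun C hC => mem_allC n k C (hF.2 C hC).1 (hF.2 C hC).2).length_le
  have h2 : ∀ C ∈ F, tsz C ≤ k * ((2 * n + 5) + 1) + 1 := by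
    intro C hC
    refine tsz_list_le (hF.2 C hC).1 fun l hl => ?_
    have h3 := (hF.2 C hC).2 l hl
    rcases l with ⟨i, b⟩
    rw [tsz_pair, tsz_nat]
    have := tsz_bool_le b
    simp only at h3
    omega
  have h3 := tsz_list_le h1 h2
  have h4 : tsz ((n, F) : ℕ × List Cls) ≤ (n + 2) ^ j := by
    refine le_trans ?_ (hj n)
    rw [tsz_pair, tsz_nat]
    exact Nat.add_le_add_right (Nat.add_le_add_left h3 _) _
  refine h4.trans ?_
  rcases Nat.lt_or_ge n 2 with h | h
  · have h5 : (n + 2) ^ j ≤ 3 ^ j := Nat.pow_le_pow_left (by omega) j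
    omega
  · have h5 : (n + 2) ^ j ≤ (n ^ 2) ^ j := Nat.pow_le_pow_left (by nlinarith) j
    rw [← pow_mul] at h5
    have h6 : n ^ (2 * j) ≤ n ^ (3 ^ j + 2 * j) :=
      Nat.pow_le_pow_right (by omega) (Nat.le_add_left _ _)
    exact (h5.trans h6).trans (Nat.le_add_right _ _)

end Pool.Agent.Helper86.PT.SKCalc

namespace Pool.Agent.Helper77.SK

open Pool.Agent.Helper86.PT

variable {α β : Type} [TEnc α] [TEnc β]

theorem PolyTime.poly {f : α → β} (h : PolyTime f) : Poly f := SKCalc.poly_of_polyTime h

theorem Poly.polyTime {f : α → β} (h : Poly f) : PolyTime f := SKCalc.polyTime_of_poly h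

theorem poly_tenc {f : α → β} (hf : Poly f) : Poly (fun a => tenc (f a)) := SKCalc.poly_tenc' hf

theorem poly_decEq [DecidableEq β] {f g : α → β} (hf : Poly f) (hg : Poly g) :
    Poly (fun a => decide (f a = g a)) := SKCalc.poly_decEq' hf hg

theorem poly_tszLe {f : α → β} {m : α → ℕ} (hf : Poly f) (hm : Poly m) :
    Poly (fun a => decide (tsz (f a) ≤ m a)) := SKCalc.poly_tszLe' hf hm

theorem poly_divConst (q : ℕ) {f : α → ℕ} (hf : Poly f) : Poly (fun a => f a / q) :=
  SKCalc.poly_divConst' q hf

theorem poly_take {l : α → List β} {n : α → ℕ} (hl : Poly l) (hn : Poly n) :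
    Poly (fun a => (l a).take (n a)) := SKCalc.poly_take' hl hn

theorem poly_dec {f : α → List Bool} (hf : Poly f) : Poly (fun a => dec (f a)) :=
  SKCalc.poly_dec' hf

theorem poly_isZ {f : α → List Bool} (hf : Poly f) : Poly (fun a => isZ (f a)) :=
  SKCalc.poly_isZ' hf

theorem poly_lg {f : α → ℕ} (hf : Poly f) : Poly (fun a => lg (f a)) := SKCalc.poly_lg' hf

theorem poly_ddp {f : α → Frm} (hf : Poly f) : Poly (fun a => ddp (f a)) := SKCalc.poly_ddp' hf

theorem nodup_ddp (F : Frm) : (ddp F).Nodup := SKCalc.nodup_foldl F [] List.nodup_nil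

theorem mem_ddp (F : Frm) (C : Cls) : C ∈ ddp F ↔ C ∈ F := by
  have h : C ∈ ddp F ↔ C ∈ ([] : List Cls) ∨ C ∈ F := SKCalc.mem_foldl F [] C
  rw [h]
  simp

theorem size_frm (k : ℕ) : ∃ d, ∀ n F, IsCNF k n F → tsz ((n, F) : ℕ × Frm) ≤ n ^ d + d :=
  SKCalc.size_frm' k

end Pool.Agent.Helper77.SK
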