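import Pool.Agent.Helper77.SK.Sem
import Pool.Agent.Helper77.SK.Calc

/-!
# The combined algorithm: repeated runs of an algorithm on random formulas, with a clock
-/

set_option autoImplicit false

namespace Pool.Agent.Helper77.SK

open Pool.Agent.Helper86 Pool.Agent.Helper86.PT

section

variable (A : Alg (ℕ × Frm)) (B rep clk lim : ℕ × ℕ → ℕ)
  (bld : (ℕ × Frm) × (ℕ × List Bool) → ℕ × Frm)

/-- The phases: collecting coin tosses (and how many are missing); running `A` with a clock;
finished. -/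
abbrev Ph := (List Bool × ℕ) ⊕ ((List Bool × A.Q) ⊕ Bool)

/-- The states of the combined algorithm: input, number of constraints, counter of the runs,
phase. -/
abbrev CSt := (ℕ × Frm) × ((ℕ × List Bool) × Ph A)

/-- Begin a run. -/
def runStart (x : ℕ × Frm) (t : ℕ) (j : List Bool) : CSt A := (x, (t, j), .inl ([], B (x.1, t)))

/-- Begin the runs with `t` constraints. -/
def tStart (x : ℕ × Frm) (t : ℕ) : CSt A :=
  runStart A B x t (List.replicate (rep (x.1, t) + 1) true)

/-- After a run. -/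
def nextRun (x : ℕ × Frm) (t : ℕ) (j : List Bool) : CSt A :=
  if isZ j = true then (if t = 0 then (x, (t, j), .inr (.inr false)) else tStart A B rep x (t - 1))
  else runStart A B x t (dec j)

/-- A transition in the first phase. -/
def stepL (p : (CSt A × A.W × Bool) × (List Bool × ℕ)) : CSt A × A.W :=
  if p.2.2 = 0 then ((p.1.1.1, p.1.1.2.1, .inr (.inl
    (List.replicate (clk (p.1.1.1.1, p.1.1.2.1.1)) true,
      A.init (bld (p.1.1.1, (p.1.1.2.1.1, p.2.1)))))), p.1.2.1)
  else ((p.1.1.1, p.1.1.2.1, .inl (p.1.2.2 :: p.2.1, p.2.2 - 1)), p.1.2.1)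

/-- A transition in the second phase. -/
def stepR (p : (CSt A × A.W × Bool) × (List Bool × A.Q)) : CSt A × A.W :=
  if A.stop p.2.2 = true then
    (if A.ans p.2.2 = true then ((p.1.1.1, p.1.1.2.1, .inr (.inr true)), p.1.2.1)
      else (nextRun A B rep p.1.1.1 p.1.1.2.1.1 p.1.1.2.1.2, p.1.2.1))
  else if isZ p.2.1 = true then (nextRun A B rep p.1.1.1 p.1.1.2.1.1 p.1.1.2.1.2, p.1.2.1)
  else if tsz p.2.2 ≤ lim (p.1.1.1.1, p.1.1.2.1.1) then
    (if tsz p.1.2.1 ≤ lim (p.1.1.1.1, p.1.1.2.1.1) then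
      ((p.1.1.1, p.1.1.2.1, .inr (.inl (dec p.2.1, (A.step (p.2.2, p.1.2.1, p.1.2.2)).1))),
        (A.step (p.2.2, p.1.2.1, p.1.2.2)).2)
      else (nextRun A B rep p.1.1.1 p.1.1.2.1.1 p.1.1.2.1.2, p.1.2.1))
  else (nextRun A B rep p.1.1.1 p.1.1.2.1.1 p.1.1.2.1.2, p.1.2.1)

/-- The transition function. -/
def stepC (p : CSt A × A.W × Bool) : CSt A × A.W :=
  match p.1.2.2 with
  | .inl a => stepL A clk bld (p, a)
  | .inr a => match a with
    | .inl a => stepR A B rep lim (p, a)
    | .inr _ => (p.1, p.2.1)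

/-- The address. -/
def addrC (q : CSt A) : T :=
  match q.2.2 with
  | .inl _ => T.nil
  | .inr a => match a with
    | .inl a => T.cons (toT q.2.1) (A.addr a.2)
    | .inr _ => T.nil

/-- Stopped. -/
def stopC (q : CSt A) : Bool :=
  match q.2.2 with
  | .inl _ => false
  | .inr a => match a with
    | .inl _ => false
    | .inr _ => true

/-- The answer. -/
def ansC (q : CSt A) : Bool :=
  match q.2.2 with
  | .inl _ => false
  | .inr a => match a with
    | .inl _ => false
    | .inr b => b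

variable {A B rep clk lim bld}

theorem poly_replicate_true {α : Type} [TEnc α] {n : α → ℕ} (hn : Poly n) :
    Poly (fun a => List.replicate (n a) true) :=
  PT.Poly.replicate (b := fun _ : α => true) hn (PT.Poly.const true)

variable (hB : Poly B) (hrep : Poly rep) (hclk : Poly clk) (hlim : Poly lim) (hbld : Poly bld)

include hB in
theorem poly_runStart {α : Type} [TEnc α] {x : α → ℕ × Frm} {t : α → ℕ} {j : α → List Bool}
    (hx : Poly x) (ht : Poly t) (hj : Poly j) :
    Poly (fun a => runStart A B (x a) (t a) (j a)) := by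
  unfold runStart
  exact hx.pair ((ht.pair hj).pair (PT.Poly.inl ((PT.Poly.const []).pair (hB.comp (hx.fst.pair ht)))))

include hB hrep in
theorem poly_tStart {α : Type} [TEnc α] {x : α → ℕ × Frm} {t : α → ℕ}
    (hx : Poly x) (ht : Poly t) : Poly (fun a => tStart A B rep (x a) (t a)) := by
  unfold tStart
  exact poly_runStart hB hx ht (poly_replicate_true (hrep.comp (hx.fst.pair ht)).succ)

include hB hrep in
theorem poly_nextRun {α : Type} [TEnc α] {x : α → ℕ × Frm} {t : α → ℕ} {j : α → List Bool}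
    (hx : Poly x) (ht : Poly t) (hj : Poly j) :
    Poly (fun a => nextRun A B rep (x a) (t a) (j a)) := by
  unfold nextRun
  refine PT.Poly.ite (c := fun a => isZ (j a) = true) ?_ (PT.Poly.ite (c := fun a => t a = 0) ?_ ?_ ?_) ?_
  · exact (poly_isZ hj).congr fun a => by simp
  · exact PT.Poly.isZero ht
  · exact hx.pair ((ht.pair hj).pair (PT.Poly.inr (PT.Poly.inr (PT.Poly.const false))))
  · exact poly_tStart hB hrep hx ht.pred
  · exact poly_runStart hB hx ht (poly_dec hj)


include hclk hbld in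
theorem poly_stepL : Poly (stepL A clk bld) := by
  unfold stepL
  have hx : Poly (fun p : (CSt A × A.W × Bool) × (List Bool × ℕ) => p.1.1.1) :=
    PT.Poly.id.fst.fst.fst
  have ht : Poly (fun p : (CSt A × A.W × Bool) × (List Bool × ℕ) => p.1.1.2.1) :=
    PT.Poly.id.fst.fst.snd.fst
  have hu : Poly (fun p : (CSt A × A.W × Bool) × (List Bool × ℕ) => p.2.1) := PT.Poly.id.snd.fst
  have hr : Poly (fun p : (CSt A × A.W × Bool) × (List Bool × ℕ) => p.2.2) := PT.Poly.id.snd.snd
  have hw : Poly (fun p : (CSt A × A.W × Bool) × (List Bool × ℕ) => p.1.2.1) :=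
    PT.Poly.id.fst.snd.fst
  have hc : Poly (fun p : (CSt A × A.W × Bool) × (List Bool × ℕ) => p.1.2.2) :=
    PT.Poly.id.fst.snd.snd
  refine PT.Poly.ite (c := fun p : (CSt A × A.W × Bool) × (List Bool × ℕ) => p.2.2 = 0) ?_ ?_ ?_
  · exact PT.Poly.isZero hr
  · refine PT.Poly.pair (hx.pair (ht.pair (PT.Poly.inr (PT.Poly.inl (PT.Poly.pair ?_ ?_))))) hw
    · exact poly_replicate_true (hclk.comp (hx.fst.pair ht.fst))
    · exact A.poly_init.poly.comp (hbld.comp (hx.pair (ht.fst.pair hu)))
  · exact (hx.pair (ht.pair (PT.Poly.inl ((hc.cons hu).pair hr.pred)))).pair hw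

include hB hrep hlim in
theorem poly_stepR : Poly (stepR A B rep lim) := by
  unfold stepR
  have hx : Poly (fun p : (CSt A × A.W × Bool) × (List Bool × A.Q) => p.1.1.1) :=
    PT.Poly.id.fst.fst.fst
  have ht : Poly (fun p : (CSt A × A.W × Bool) × (List Bool × A.Q) => p.1.1.2.1) :=
    PT.Poly.id.fst.fst.snd.fst
  have hκ : Poly (fun p : (CSt A × A.W × Bool) × (List Bool × A.Q) => p.2.1) := PT.Poly.id.snd.fst
  have hq : Poly (fun p : (CSt A × A.W × Bool) × (List Bool × A.Q) => p.2.2) := PT.Poly.id.snd.snd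
  have hw : Poly (fun p : (CSt A × A.W × Bool) × (List Bool × A.Q) => p.1.2.1) :=
    PT.Poly.id.fst.snd.fst
  have hc : Poly (fun p : (CSt A × A.W × Bool) × (List Bool × A.Q) => p.1.2.2) :=
    PT.Poly.id.fst.snd.snd
  have hn := (poly_nextRun (A := A) hB hrep hx ht.fst ht.snd).pair hw
  have hs := A.poly_step.poly.comp (hq.pair (hw.pair hc))
  refine PT.Poly.ite (c := fun p : (CSt A × A.W × Bool) × (List Bool × A.Q) =>
    A.stop p.2.2 = true) ?_ (PT.Poly.ite (c := fun p : (CSt A × A.W × Bool) × (List Bool × A.Q) =>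
    A.ans p.2.2 = true) ?_ ?_ hn) (PT.Poly.ite (c := fun p : (CSt A × A.W × Bool) ×
    (List Bool × A.Q) => isZ p.2.1 = true) ?_ hn (PT.Poly.ite (c := fun p :
    (CSt A × A.W × Bool) × (List Bool × A.Q) => tsz p.2.2 ≤ lim (p.1.1.1.1, p.1.1.2.1.1)) ?_
    (PT.Poly.ite (c := fun p : (CSt A × A.W × Bool) × (List Bool × A.Q) =>
    tsz p.1.2.1 ≤ lim (p.1.1.1.1, p.1.1.2.1.1)) ?_ ?_ hn) hn))
  · exact (A.poly_stop.poly.comp hq).congr fun a => by simp
  · exact (A.poly_ans.poly.comp hq).congr fun a => by simp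
  · exact (hx.pair (ht.pair (PT.Poly.inr (PT.Poly.inr (PT.Poly.const true))))).pair hw
  · exact (poly_isZ hκ).congr fun a => by simp
  · exact poly_tszLe hq (hlim.comp (hx.fst.pair ht.fst))
  · exact poly_tszLe hw (hlim.comp (hx.fst.pair ht.fst))
  · exact (hx.pair (ht.pair (PT.Poly.inr (PT.Poly.inl ((poly_dec hκ).pair hs.fst))))).pair hs.snd

include hB hrep hclk hlim hbld in
theorem poly_stepC : Poly (stepC A B rep clk lim bld) := by
  have h : Poly (fun p : CSt A × A.W × Bool => Sum.elim (fun a => stepL A clk bld (p, a))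
      (fun a => Sum.elim (fun a => stepR A B rep lim (p, a))
        (fun _ : Bool => (p.1, p.2.1)) a) p.1.2.2) := by
    refine PT.Poly.sumCases (s := fun p : CSt A × A.W × Bool => p.1.2.2)
      (f := fun p a => stepL A clk bld (p, a)) (g := fun p a => Sum.elim
        (fun a => stepR A B rep lim (p, a)) (fun _ : Bool => (p.1, p.2.1)) a)
      PT.Poly.id.fst.snd.snd (poly_stepL hclk hbld) ?_
    refine PT.Poly.sumCases (s := fun p : (CSt A × A.W × Bool) × ((List Bool × A.Q) ⊕ Bool) => p.2)
      (f := fun p a => stepR A B rep lim (p.1, a)) (g := fun p _ => (p.1.1, p.1.2.1))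
      PT.Poly.id.snd ?_ ?_
    · exact (poly_stepR hB hrep hlim).comp (PT.Poly.id.fst.fst.pair PT.Poly.id.snd)
    · exact PT.Poly.id.fst.fst.fst.pair PT.Poly.id.fst.fst.snd.fst
  refine h.congr fun p => ?_
  rcases p with ⟨⟨x, tj, a | a | a⟩, w, b⟩ <;> rfl

theorem poly_addrC : Poly (addrC A) := by
  have h : Poly (fun q : CSt A => Sum.elim (fun _ : List Bool × ℕ => T.nil)
      (fun a => Sum.elim (fun a : List Bool × A.Q => T.cons (toT q.2.1) (A.addr a.2))
        (fun _ : Bool => T.nil) a) q.2.2) := by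
    refine PT.Poly.sumCases (s := fun q : CSt A => q.2.2)
      (f := fun q _ => T.nil) (g := fun q a => Sum.elim
        (fun a : List Bool × A.Q => T.cons (toT q.2.1) (A.addr a.2)) (fun _ : Bool => T.nil) a)
      PT.Poly.id.snd.snd (PT.Poly.const T.nil) ?_
    refine PT.Poly.sumCases (s := fun p : CSt A × ((List Bool × A.Q) ⊕ Bool) => p.2)
      (f := fun p a => T.cons (toT p.1.2.1) (A.addr a.2)) (g := fun _ _ => T.nil)
      PT.Poly.id.snd ?_ (PT.Poly.const T.nil)
    have h1 : Poly (fun p : (CSt A × ((List Bool × A.Q) ⊕ Bool)) × (List Bool × A.Q) =>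
        p.1.1.2.1) := PT.Poly.id.fst.fst.snd.fst
    have h2 : Poly (fun p : (CSt A × ((List Bool × A.Q) ⊕ Bool)) × (List Bool × A.Q) =>
        A.addr p.2.2) := A.poly_addr.poly.comp PT.Poly.id.snd.snd
    exact PolyT.cons h1 h2
  refine h.congr fun p => ?_
  rcases p with ⟨x, tj, a | a | a⟩ <;> rfl

theorem poly_stopC : Poly (stopC A) := by
  have h : Poly (fun q : CSt A => Sum.elim (fun _ : List Bool × ℕ => false)
      (fun a => Sum.elim (fun _ : List Bool × A.Q => false) (fun _ : Bool => true) a) q.2.2) := by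
    refine PT.Poly.sumCases (s := fun q : CSt A => q.2.2)
      (f := fun q _ => false) (g := fun q a => Sum.elim
        (fun _ : List Bool × A.Q => false) (fun _ : Bool => true) a)
      PT.Poly.id.snd.snd (PT.Poly.const false) ?_
    exact PT.Poly.sumCases (s := fun p : CSt A × ((List Bool × A.Q) ⊕ Bool) => p.2)
      (f := fun p _ => false) (g := fun _ _ => true)
      PT.Poly.id.snd (PT.Poly.const false) (PT.Poly.const true)
  refine h.congr fun p => ?_
  rcases p with ⟨x, tj, a | a | a⟩ <;> rfl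

theorem poly_ansC : Poly (ansC A) := by
  have h : Poly (fun q : CSt A => Sum.elim (fun _ : List Bool × ℕ => false)
      (fun a => Sum.elim (fun _ : List Bool × A.Q => false) (fun b : Bool => b) a) q.2.2) := by
    refine PT.Poly.sumCases (s := fun q : CSt A => q.2.2)
      (f := fun q _ => false) (g := fun q a => Sum.elim
        (fun _ : List Bool × A.Q => false) (fun b : Bool => b) a)
      PT.Poly.id.snd.snd (PT.Poly.const false) ?_
    exact PT.Poly.sumCases (s := fun p : CSt A × ((List Bool × A.Q) ⊕ Bool) => p.2)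
      (f := fun p _ => false) (g := fun _ b => b)
      PT.Poly.id.snd (PT.Poly.const false) PT.Poly.id.snd
  refine h.congr fun p => ?_
  rcases p with ⟨x, tj, a | a | a⟩ <;> rfl

variable (A bld) in
/-- The combined algorithm. -/
def comb {tm : ℕ → ℕ} (htm : Poly tm) (hB : Poly B) (hrep : Poly rep) (hclk : Poly clk) (hlim : Poly lim) (hbld : Poly bld) :
    Alg (ℕ × Frm) where
  Q := CSt A
  W := A.W
  encQ := inferInstance
  encW := inferInstance
  init := fun x => tStart A B rep x (tm x.1)
  blank := A.blank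
  addr := addrC A
  step := stepC A B rep clk lim bld
  stop := stopC A
  ans := ansC A
  poly_init := SK.Poly.polyTime (poly_tStart (A := A) hB hrep PT.Poly.id
    (htm.comp PT.Poly.id.fst))
  poly_addr := SK.Poly.polyTime poly_addrC
  poly_step := SK.Poly.polyTime (poly_stepC hB hrep hclk hlim hbld)
  poly_stop := SK.Poly.polyTime poly_stopC
  poly_ans := SK.Poly.polyTime poly_ansC

end

end Pool.Agent.Helper77.SK
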