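import Mathlib
import Pool.Agent.Helper86.Poly.Lib

/-!
# `k`-SAT, unique `k`-SAT, randomised algorithms and their exponential complexity

The data of the algorithms are the elements of types with a representation by binary trees
(`Helper86.PT.TEnc`); binary trees are written as bit strings (`Helper86.PT.T.enc`), so every
element `x` has a code `tenc x : List Bool`, of length `tsz x`. Natural numbers are represented in
unary. `PolyTime f` says that a Turing machine of Mathlib (`Turing.TM2ComputableInPolyTime`)
computes the code of `f x` from the code of `x` in polynomial time.
-/

set_option autoImplicit false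

namespace Pool.Agent.Helper77.SK

open Pool.Agent.Helper86.PT

/-! ### Formulas -/

/-- A literal: a variable and a value. -/
abbrev Lit := ℕ × Bool

/-- A clause: a list of literals. -/
abbrev Cls := List Lit

/-- A formula in conjunctive normal form: a list of clauses. -/
abbrev Frm := List Cls

/-- `F` is a `k`-CNF on the variables `0, …, n - 1`, written without repeating a clause. -/
def IsCNF (k n : ℕ) (F : Frm) : Prop :=
  F.Nodup ∧ ∀ C ∈ F, C.length ≤ k ∧ ∀ l ∈ C, l.1 < n

/-- The satisfying assignments of `F` on the variables `0, …, n - 1`: every clause contains a
literal `(i, b)` such that the variable `i` has the value `b`. -/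
def sols (n : ℕ) (F : Frm) : Set (Fin n → Bool) :=
  {x | ∀ C ∈ F, ∃ l ∈ C, ∃ h : l.1 < n, x ⟨l.1, h⟩ = l.2}

/-! ### Algorithms -/

/-- `f` is computed in polynomial time by a Turing machine of Mathlib. -/
def PolyTime {α β : Type} [TEnc α] [TEnc β] (f : α → β) : Prop :=
  Nonempty (Turing.TM2ComputableInPolyTime (tenc : α → List Bool) (tenc : β → List Bool) f)

/-- A randomised random access algorithm with inputs in `ι`. It has a state in `Q` and a memory
whose cells are addressed by binary trees and contain elements of `W`. In one step it reads
the cell at the address `addr q` given by the present state `q`, tosses a coin and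
replaces `q` and the content of this cell according to `step`. All functions are computable in
polynomial time. -/
structure Alg (ι : Type) [TEnc ι] where
  /-- the states -/
  Q : Type
  /-- the contents of the memory cells -/
  W : Type
  /-- the representation of the states -/
  [encQ : TEnc Q]
  /-- the representation of the contents of the cells -/
  [encW : TEnc W]
  /-- the initial state for an input -/
  init : ι → Q
  /-- the initial content of all cells -/
  blank : W
  /-- the address of the cell that is read and written in a state -/
  addr : Q → T
  /-- state, content of the cell and coin give the new state and the new content of the cell -/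
  step : Q × W × Bool → Q × W
  /-- the algorithm has stopped -/
  stop : Q → Bool
  /-- the answer given when the algorithm stops -/
  ans : Q → Bool
  poly_init : PolyTime init
  poly_addr : PolyTime addr
  poly_step : PolyTime step
  poly_stop : PolyTime stop
  poly_ans : PolyTime ans

namespace Alg

variable {ι : Type} [TEnc ι] (A : Alg ι)

instance : TEnc A.Q := A.encQ

instance : TEnc A.W := A.encW

/-- A configuration: the state and the memory. -/
abbrev Cfg := A.Q × (T → A.W)

/-- The initial configuration. -/
def start (x : ι) : A.Cfg := (A.init x, fun _ => A.blank)

/-- The next configuration when the coin shows `b`. -/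
def next (c : A.Cfg) (b : Bool) : A.Cfg :=
  ((A.step (c.1, c.2 (A.addr c.1), b)).1,
    Function.update c.2 (A.addr c.1) (A.step (c.1, c.2 (A.addr c.1), b)).2)

/-- Whatever the coins show, the algorithm stops after at most `t` steps when it is started in the
configuration `c`, and all states and all contents of cells it meets have size at most `m`. -/
def Halts (m : ℕ) : ℕ → A.Cfg → Prop
  | 0, c => A.stop c.1 = true ∧ tsz c.1 ≤ m
  | t + 1, c => tsz c.1 ≤ m ∧ (A.stop c.1 = true ∨
      tsz (c.2 (A.addr c.1)) ≤ m ∧ ∀ b, Halts m t (A.next c b))

/-- The probability that the algorithm stops after at most `t` steps with the answer Yes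
when it is started in the configuration `c`. -/
noncomputable def pYes : ℕ → A.Cfg → ℝ
  | 0, c => if A.stop c.1 = true ∧ A.ans c.1 = true then 1 else 0
  | t + 1, c => if A.stop c.1 = true then (if A.ans c.1 = true then 1 else 0)
      else (pYes t (A.next c true) + pYes t (A.next c false)) / 2

end Alg

/-- Some randomised algorithm solves `k`-SAT (if `u` is false) or unique `k`-SAT (if `u` is true)
with `O(2 ^ (c * n))` steps: on every `k`-CNF `F` on `n` variables (with at most one satisfying
assignment if `u` is true) it stops after at most `t ≤ C * 2 ^ (c * n)` steps, each of which deals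
with objects of size at most `n ^ d + d`; if `F` is unsatisfiable then it answers No for all coin
tosses; if `F` is satisfiable then it answers Yes with probability at least `2 / 3`. -/
def SolvedIn (k : ℕ) (u : Prop) (c : ℝ) : Prop :=
  ∃ (A : Alg (ℕ × Frm)) (C : ℝ) (d : ℕ), ∀ (n : ℕ) (F : Frm), IsCNF k n F →
    (u → (sols n F).Subsingleton) →
    ∃ t : ℕ, (t : ℝ) ≤ C * 2 ^ (c * n) ∧ A.Halts (n ^ d + d) t (A.start (n, F)) ∧
      (¬ (sols n F).Nonempty → A.pYes t (A.start (n, F)) = 0) ∧
      ((sols n F).Nonempty → 2 / 3 ≤ A.pYes t (A.start (n, F)))

/-- The exponential complexity `s_k` of `k`-SAT. -/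
noncomputable def s (k : ℕ) : ℝ := sInf {c : ℝ | 0 ≤ c ∧ SolvedIn k False c}

/-- The exponential complexity `σ_k` of unique `k`-SAT. -/
noncomputable def sigma (k : ℕ) : ℝ := sInf {c : ℝ | 0 ≤ c ∧ SolvedIn k True c}

end Pool.Agent.Helper77.SK
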