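import Pool.Agent.Helper77.SK.Basic

/-!
# Parity constraints as clauses of width at most `k` with determined new variables
-/

set_option autoImplicit false

namespace Pool.Agent.Helper77.SK

open Pool.Agent.Helper86.PT Finset

/-- satisfaction by an assignment of all variables -/
def Sat (z : ℕ → Bool) (F : Frm) : Prop := ∀ C ∈ F, ∃ l ∈ C, z l.1 = l.2

theorem sat_append {z : ℕ → Bool} {F G : Frm} : Sat z (F ++ G) ↔ Sat z F ∧ Sat z G := by
  constructor
  · intro h
    exact ⟨fun C hC => h C (List.mem_append_left _ hC), fun C hC => h C (List.mem_append_right _ hC)⟩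
  · rintro ⟨h1, h2⟩ C hC
    rcases List.mem_append.1 hC with hC | hC
    · exact h1 C hC
    · exact h2 C hC

theorem sat_map_cons (z : ℕ → Bool) (l : Lit) (F : Frm) :
    Sat z (F.map (fun C => l :: C)) ↔ z l.1 = l.2 ∨ Sat z F := by
  constructor
  · intro h
    by_cases hz : z l.1 = l.2
    · exact Or.inl hz
    · refine Or.inr fun C hC => ?_
      obtain ⟨l', hl', e⟩ := h (l :: C) (List.mem_map.2 ⟨C, hC, rfl⟩)
      rcases List.mem_cons.1 hl' with rfl | h'
      · exact absurd e hz
      · exact ⟨l', h', e⟩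
  · intro h D hD
    obtain ⟨C, hC, rfl⟩ := List.mem_map.1 hD
    rcases h with h | h
    · exact ⟨l, List.mem_cons_self, h⟩
    · obtain ⟨l', hl', e⟩ := h C hC
      exact ⟨l', List.mem_cons_of_mem _ hl', e⟩

theorem sat_congr {z z' : ℕ → Bool} {F : Frm} (h : ∀ C ∈ F, ∀ l ∈ C, z l.1 = z' l.1) (hz : Sat z F) :
    Sat z' F := by
  intro C hC
  obtain ⟨l, hl, e⟩ := hz C hC
  exact ⟨l, hl, by rw [← h C hC l hl, e]⟩

theorem par_congr {z z' : ℕ → Bool} : ∀ {V : List ℕ}, (∀ i ∈ V, z i = z' i) → par z V = par z' V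
  | [], _ => rfl
  | i :: V, h => by
    show xor (z i) (par z V) = xor (z' i) (par z' V)
    rw [h i List.mem_cons_self, par_congr fun j hj => h j (List.mem_cons_of_mem _ hj)]

theorem par_append' (z : ℕ → Bool) : ∀ (V W : List ℕ), par z (V ++ W) = xor (par z V) (par z W)
  | [], W => by simp [par]
  | i :: V, W => by
    show xor (z i) (par z (V ++ W)) = xor (xor (z i) (par z V)) (par z W)
    rw [par_append' z V W, Bool.xor_assoc]

theorem sat_direct (z : ℕ → Bool) : ∀ (V : List ℕ) (β : Bool), Sat z (direct V β) ↔ par z V = β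
  | [], β => by cases β <;> simp [Sat, direct, par]
  | i :: V, β => by
    show Sat z ((direct V β).map (fun C => (i, true) :: C) ++
      (direct V (!β)).map (fun C => (i, false) :: C)) ↔ xor (z i) (par z V) = β
    rw [sat_append, sat_map_cons, sat_map_cons, sat_direct z V β, sat_direct z V (!β)]
    cases z i <;> cases par z V <;> cases β <;> simp

theorem direct_bound : ∀ (V : List ℕ) (β : Bool), ∀ C ∈ direct V β, C.length = V.length ∧ ∀ l ∈ C, l.1 ∈ V
  | [], β, C, hC => by
    cases β
    · simp [direct] at hC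
    · simp only [direct, if_true, List.mem_singleton] at hC
      subst hC
      simp
  | i :: V, β, C, hC => by
    rcases List.mem_append.1 hC with hC | hC
    all_goals
      obtain ⟨D, hD, rfl⟩ := List.mem_map.1 hC
      obtain ⟨h1, h2⟩ := direct_bound V _ D hD
      refine ⟨by simp [h1], fun l hl => ?_⟩
      rcases List.mem_cons.1 hl with rfl | hl
      · exact List.mem_cons_self
      · exact List.mem_cons_of_mem _ (h2 l hl)

theorem flatten_length_le {α : Type*} : ∀ {V : List (List α)}, (∀ s ∈ V, s.length ≤ 1) → V.flatten.length ≤ V.length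
  | [], _ => le_rfl
  | s :: V, h => by
    rw [List.flatten_cons, List.length_append, List.length_cons]
    have h1 := h s List.mem_cons_self
    have h2 := flatten_length_le fun t ht => h t (List.mem_cons_of_mem _ ht)
    omega

section chain
variable {k : ℕ}

/-- the slots after one cut -/
theorem cut_props (hk : 3 ≤ k) {fuel y : ℕ} {V : List (List ℕ)} (hV : ∀ i ∈ V.flatten, i < y)
    (h1 : ∀ s ∈ V, s.length ≤ 1) (hf : V.length ≤ fuel + 1) (hk' : ¬ V.length ≤ k) :
    (∀ i ∈ (([y] :: V.drop (k - 1)) : List (List ℕ)).flatten, i < y + 1) ∧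
    (∀ s ∈ (([y] :: V.drop (k - 1)) : List (List ℕ)), s.length ≤ 1) ∧
    (([y] :: V.drop (k - 1)) : List (List ℕ)).length ≤ fuel ∧
    (([y] :: V.drop (k - 1)) : List (List ℕ)).length = V.length - (k - 2) := by
  refine ⟨fun i hi => ?_, fun s hs => ?_, ?_, ?_⟩
  · rw [List.flatten_cons, List.mem_append, List.mem_singleton] at hi
    rcases hi with rfl | hi
    · omega
    · obtain ⟨s, hs, his⟩ := List.mem_flatten.1 hi
      have := hV i (List.mem_flatten.2 ⟨s, List.mem_of_mem_drop hs, his⟩)
      omega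
  · rcases List.mem_cons.1 hs with rfl | hs
    · simp
    · exact h1 s (List.mem_of_mem_drop hs)
  · rw [List.length_cons, List.length_drop]
    omega
  · rw [List.length_cons, List.length_drop]
    omega

theorem take_props {y : ℕ} {V : List (List ℕ)} (hV : ∀ i ∈ V.flatten, i < y) (j : ℕ) :
    ∀ i ∈ (V.take j).flatten, i < y := by
  intro i hi
  obtain ⟨s, hs, his⟩ := List.mem_flatten.1 hi
  exact hV i (List.mem_flatten.2 ⟨s, List.mem_of_mem_take hs, his⟩)

theorem chain_bound (hk : 3 ≤ k) : ∀ (fuel y : ℕ) (V : List (List ℕ)) (β : Bool),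
    (∀ i ∈ V.flatten, i < y) → (∀ s ∈ V, s.length ≤ 1) → V.length ≤ fuel →
    ∀ C ∈ chain k fuel y V β, C.length ≤ k ∧ ∀ l ∈ C, l.1 < y + naux k fuel V.length
  | 0, y, V, β, hV, h1, hf, C, hC => by
    obtain ⟨h2, h3⟩ := direct_bound V.flatten β C hC
    have h4 := flatten_length_le h1
    refine ⟨by omega, fun l hl => ?_⟩
    have := hV _ (h3 l hl)
    omega
  | fuel + 1, y, V, β, hV, h1, hf, C, hC => by
    unfold chain at hC
    unfold naux
    by_cases hk' : V.length ≤ k
    · rw [if_pos hk'] at hC ⊢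
      obtain ⟨h2, h3⟩ := direct_bound V.flatten β C hC
      have h4 := flatten_length_le h1
      refine ⟨by omega, fun l hl => ?_⟩
      have := hV _ (h3 l hl)
      omega
    · rw [if_neg hk'] at hC ⊢
      obtain ⟨p1, p2, p3, p4⟩ := cut_props hk hV h1 hf hk'
      rcases List.mem_append.1 hC with hC | hC
      · obtain ⟨h2, h3⟩ := direct_bound _ false C hC
        have h4 : (V.take (k - 1)).flatten.length ≤ (V.take (k - 1)).length :=
          flatten_length_le fun s hs => h1 s (List.mem_of_mem_take hs)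
        rw [List.length_take] at h4
        rw [List.length_cons] at h2
        refine ⟨by omega, fun l hl => ?_⟩
        rcases List.mem_cons.1 (h3 l hl) with h5 | h5
        · omega
        · have := take_props hV _ _ h5
          omega
      · obtain ⟨h2, h3⟩ := chain_bound hk fuel (y + 1) _ β p1 p2 p3 C hC
        rw [p4] at h3
        refine ⟨h2, fun l hl => ?_⟩
        have := h3 l hl
        omega

theorem chain_sound (hk : 3 ≤ k) (z : ℕ → Bool) : ∀ (fuel y : ℕ) (V : List (List ℕ)) (β : Bool),
    Sat z (chain k fuel y V β) → par z V.flatten = β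
  | 0, y, V, β, h => (sat_direct z _ _).1 h
  | fuel + 1, y, V, β, h => by
    unfold chain at h
    by_cases hk' : V.length ≤ k
    · rw [if_pos hk'] at h
      exact (sat_direct z _ _).1 h
    · rw [if_neg hk', sat_append, sat_direct] at h
      have h2 := chain_sound hk z fuel (y + 1) _ β h.2
      have h3 : xor (z y) (par z (V.take (k - 1)).flatten) = false := h.1
      have e : V.flatten = (V.take (k - 1)).flatten ++ (V.drop (k - 1)).flatten := by
        rw [← List.flatten_append, List.take_append_drop]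
      rw [List.flatten_cons, par_append'] at h2
      rw [e, par_append', ← h2]
      have h4 : par z [y] = z y := by
        show xor (z y) false = z y
        simp
      rw [h4]
      have h5 : z y = par z (V.take (k - 1)).flatten := by
        revert h3
        cases z y <;> cases par z (V.take (k - 1)).flatten <;> simp
      rw [h5]

theorem chain_unique (hk : 3 ≤ k) (z z' : ℕ → Bool) : ∀ (fuel y : ℕ) (V : List (List ℕ)) (β : Bool),
    (∀ i ∈ V.flatten, i < y) → (∀ s ∈ V, s.length ≤ 1) → V.length ≤ fuel →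
    Sat z (chain k fuel y V β) → Sat z' (chain k fuel y V β) → (∀ i < y, z i = z' i) →
    ∀ i < y + naux k fuel V.length, z i = z' i
  | 0, y, V, β, hV, h1, hf, _, _, hag, i, hi => hag i hi
  | fuel + 1, y, V, β, hV, h1, hf, hz, hz', hag, i, hi => by
    unfold chain at hz hz'
    unfold naux at hi
    by_cases hk' : V.length ≤ k
    · rw [if_pos hk'] at hi
      exact hag i hi
    · rw [if_neg hk', sat_append, sat_direct] at hz hz'
      rw [if_neg hk'] at hi
      obtain ⟨p1, p2, p3, p4⟩ := cut_props hk hV h1 hf hk'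
      have e1 : xor (z y) (par z (V.take (k - 1)).flatten) = false := hz.1
      have e2 : xor (z' y) (par z' (V.take (k - 1)).flatten) = false := hz'.1
      have e3 : par z (V.take (k - 1)).flatten = par z' (V.take (k - 1)).flatten :=
        par_congr fun j hj => hag j (take_props hV _ _ hj)
      have e4 : z y = z' y := by
        rw [e3] at e1
        revert e1 e2
        cases z y <;> cases z' y <;> cases par z' (V.take (k - 1)).flatten <;> simp
      refine chain_unique hk z z' fuel (y + 1) _ β p1 p2 p3 hz.2 hz'.2 (fun j hj => ?_) i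
        (by rw [p4]; omega)
      rcases Nat.lt_succ_iff_lt_or_eq.1 hj with hj | rfl
      · exact hag j hj
      · exact e4

theorem chain_exists (hk : 3 ≤ k) : ∀ (fuel y : ℕ) (V : List (List ℕ)) (β : Bool) (z : ℕ → Bool),
    (∀ i ∈ V.flatten, i < y) → (∀ s ∈ V, s.length ≤ 1) → V.length ≤ fuel → par z V.flatten = β →
    ∃ z' : ℕ → Bool, (∀ i < y, z' i = z i) ∧ Sat z' (chain k fuel y V β)
  | 0, y, V, β, z, hV, h1, hf, h => ⟨z, fun _ _ => rfl, (sat_direct z _ _).2 h⟩
  | fuel + 1, y, V, β, z, hV, h1, hf, h => by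
    unfold chain
    by_cases hk' : V.length ≤ k
    · rw [if_pos hk']
      exact ⟨z, fun _ _ => rfl, (sat_direct z _ _).2 h⟩
    · rw [if_neg hk']
      obtain ⟨p1, p2, p3, p4⟩ := cut_props hk hV h1 hf hk'
      set v := par z (V.take (k - 1)).flatten with hv
      set z1 : ℕ → Bool := Function.update z y v with hz1
      have h0 : ∀ j < y, z1 j = z j := fun j hj => by
        rw [hz1, Function.update_of_ne (by omega)]
      have h2 : z1 y = v := by rw [hz1, Function.update_self]
      have e : V.flatten = (V.take (k - 1)).flatten ++ (V.drop (k - 1)).flatten := by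
        rw [← List.flatten_append, List.take_append_drop]
      have h3 : par z1 (V.take (k - 1)).flatten = v :=
        par_congr fun j hj => h0 j (take_props hV _ _ hj)
      have h4 : par z1 (V.drop (k - 1)).flatten = par z (V.drop (k - 1)).flatten := by
        refine par_congr fun j hj => h0 j ?_
        obtain ⟨s, hs, his⟩ := List.mem_flatten.1 hj
        exact hV j (List.mem_flatten.2 ⟨s, List.mem_of_mem_drop hs, his⟩)
      have h5 : par z1 (([y] :: V.drop (k - 1)) : List (List ℕ)).flatten = β := by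
        rw [List.flatten_cons, par_append', h4, ← h, e, par_append', ← hv]
        have : par z1 [y] = z1 y := by
          show xor (z1 y) false = z1 y
          simp
        rw [this, h2]
      obtain ⟨z', h6, h7⟩ := chain_exists hk fuel (y + 1) _ β z1 p1 p2 p3 h5
      refine ⟨z', fun i hi => by rw [h6 i (by omega), h0 i hi], sat_append.2 ⟨?_, h7⟩⟩
      rw [sat_direct]
      show xor (z' y) (par z' (V.take (k - 1)).flatten) = false
      have h8 : par z' (V.take (k - 1)).flatten = v := by
        rw [← h3]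
        exact par_congr fun j hj => h6 j (by have := take_props hV _ _ hj; omega)
      rw [h6 y (by omega), h2, h8]
      simp

end chain

/-! ### the slots of a constraint -/

theorem slots_length (n b w : ℕ) (u : List Bool) : (slots n b w u).length = w := by
  unfold slots
  rw [List.length_map, List.length_range]

theorem slots_le (n b w : ℕ) (u : List Bool) : ∀ s ∈ slots n b w u, s.length ≤ 1 := by
  intro s hs
  obtain ⟨i, -, rfl⟩ := List.mem_map.1 hs
  show (if bval ((u.drop (1 + i * b)).take b) < n then [bval ((u.drop (1 + i * b)).take b)] else []).length ≤ 1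
  split_ifs <;> simp

theorem slots_lt (n b w : ℕ) (u : List Bool) : ∀ i ∈ (slots n b w u).flatten, i < n := by
  intro i hi
  obtain ⟨s, hs, his⟩ := List.mem_flatten.1 hi
  obtain ⟨j, -, rfl⟩ := List.mem_map.1 hs
  have h : i ∈ (if bval ((u.drop (1 + j * b)).take b) < n then [bval ((u.drop (1 + j * b)).take b)] else []) := his
  split_ifs at h with h1
  · rw [List.mem_singleton] at h
    omega
  · simp at h

theorem nall_succ (k : ℕ) (w : ℕ → ℕ) (r : ℕ) :
    nall k w (r + 1) = nall k w r + naux k (w (r + 1)) (w (r + 1)) := Finset.sum_range_succ _ _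

theorem meets_congr {n b m : ℕ} {w : ℕ → ℕ} {z z' : ℕ → Bool} (h : ∀ i < n, z i = z' i) :
    ∀ (r : ℕ) (u : List Bool), Meets n b m w z r u → Meets n b m w z' r u
  | 0, _, _ => trivial
  | r + 1, u, hm => by
    refine ⟨?_, meets_congr h r _ hm.2⟩
    rw [← hm.1]
    exact par_congr fun i hi => (h i (slots_lt n b _ u i hi)).symm

theorem gen_isCNF {k n b m : ℕ} {w : ℕ → ℕ} (hk : 3 ≤ k) (r y : ℕ) (u : List Bool) (hy : n ≤ y) :
    ∀ C ∈ gen k n b m w r y u, C.length ≤ k ∧ ∀ l ∈ C, l.1 < y + nall k w r := by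
  induction r generalizing y u with
  | zero =>
    intro C hC
    simp [gen] at hC
  | succ r ih =>
    intro C hC
    rw [nall_succ]
    rcases List.mem_append.1 hC with hC | hC
    · obtain ⟨h1, h2⟩ := chain_bound hk (w (r + 1)) y (slots n b (w (r + 1)) u) (u.headD false)
        (fun i hi => (slots_lt n b _ u i hi).trans_le hy) (slots_le n b _ u)
        (slots_length n b _ u).le C hC
      rw [slots_length] at h2
      refine ⟨h1, fun l hl => ?_⟩
      have := h2 l hl
      omega
    · obtain ⟨h1, h2⟩ := ih (y + naux k (w (r + 1)) (w (r + 1))) (u.drop m) (by omega) C hC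
      refine ⟨h1, fun l hl => ?_⟩
      have := h2 l hl
      omega

theorem gen_sound {k n b m : ℕ} {w : ℕ → ℕ} (hk : 3 ≤ k) (z : ℕ → Bool) :
    ∀ (r y : ℕ) (u : List Bool), Sat z (gen k n b m w r y u) → Meets n b m w z r u
  | 0, _, _, _ => trivial
  | r + 1, y, u, h => by
    have h' := sat_append.1 h
    exact ⟨chain_sound hk z _ _ _ _ h'.1, gen_sound hk z r _ _ h'.2⟩

theorem gen_agree {k n b m : ℕ} {w : ℕ → ℕ} (hk : 3 ≤ k) (z z' : ℕ → Bool) :
    ∀ (r y : ℕ) (u : List Bool), n ≤ y → Sat z (gen k n b m w r y u) → Sat z' (gen k n b m w r y u) →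
      (∀ i < y, z i = z' i) → ∀ i < y + nall k w r, z i = z' i
  | 0, y, u, _, _, _, h, i, hi => h i (by simpa [nall] using hi)
  | r + 1, y, u, hy, hz, hz', h, i, hi => by
    have h1 := sat_append.1 hz
    have h2 := sat_append.1 hz'
    have h3 := chain_unique hk z z' (w (r + 1)) y (slots n b (w (r + 1)) u) (u.headD false)
        (fun i hi => (slots_lt n b _ u i hi).trans_le hy) (slots_le n b _ u)
        (slots_length n b _ u).le h1.1 h2.1 h
    rw [slots_length] at h3
    rw [nall_succ] at hi
    exact gen_agree hk z z' r (y + naux k (w (r + 1)) (w (r + 1))) (u.drop m) (by omega) h1.2 h2.2 h3 i (by omega)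

theorem gen_exists {k n b m : ℕ} {w : ℕ → ℕ} (hk : 3 ≤ k) :
    ∀ (r y : ℕ) (u : List Bool) (z : ℕ → Bool), n ≤ y → Meets n b m w z r u →
      ∃ z' : ℕ → Bool, (∀ i < y, z' i = z i) ∧ Sat z' (gen k n b m w r y u)
  | 0, y, u, z, _, _ => ⟨z, fun _ _ => rfl, fun C hC => by simp [gen] at hC⟩
  | r + 1, y, u, z, hy, hm => by
    obtain ⟨z1, h1, h2⟩ := chain_exists hk (w (r + 1)) y (slots n b (w (r + 1)) u) (u.headD false) z
        (fun i hi => (slots_lt n b _ u i hi).trans_le hy) (slots_le n b _ u)
        (slots_length n b _ u).le hm.1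
    obtain ⟨z2, h3, h4⟩ := gen_exists hk r (y + naux k (w (r + 1)) (w (r + 1))) (u.drop m) z1 (by omega)
      (meets_congr (fun i hi => (h1 i (by omega)).symm) r _ hm.2)
    refine ⟨z2, fun i hi => by rw [h3 i (by omega), h1 i hi], sat_append.2 ⟨?_, h4⟩⟩
    refine sat_congr (fun C hC l hl => (h3 _ ?_).symm) h2
    have h5 := (chain_bound hk (w (r + 1)) y (slots n b (w (r + 1)) u) (u.headD false)
        (fun i hi => (slots_lt n b _ u i hi).trans_le hy) (slots_le n b _ u)
        (slots_length n b _ u).le C hC).2 l hl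
    rwa [slots_length] at h5

/-! ### solutions -/

theorem gen_ddp_aux (F : Frm) : ∀ (acc : Frm) (C : Cls),
    C ∈ F.foldl (fun acc C => if acc.contains C then acc else C :: acc) acc ↔ C ∈ acc ∨ C ∈ F := by
  induction F with
  | nil => intro acc C; simp
  | cons D F ih =>
    intro acc C
    rw [List.foldl_cons, ih, List.mem_cons]
    by_cases h : acc.contains D
    · rw [if_pos h]
      have h' : D ∈ acc := by simpa using h
      constructor
      · rintro (h1 | h1)
        · exact Or.inl h1
        · exact Or.inr (Or.inr h1)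
      · rintro (h1 | rfl | h1)
        · exact Or.inl h1
        · exact Or.inl h'
        · exact Or.inr h1
    · rw [if_neg h, List.mem_cons]
      tauto

theorem mem_ddp_iff (F : Frm) (C : Cls) : C ∈ ddp F ↔ C ∈ F := by
  unfold ddp
  rw [gen_ddp_aux]
  simp

theorem ext_lt {n : ℕ} (x : Fin n → Bool) {i : ℕ} (h : i < n) : ext x i = x ⟨i, h⟩ := by
  unfold ext
  rw [dif_pos h]

theorem mem_sols_iff {n : ℕ} {F : Frm} (hF : ∀ C ∈ F, ∀ l ∈ C, l.1 < n) (x : Fin n → Bool) :
    x ∈ sols n F ↔ Sat (ext x) F := by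
  constructor
  · intro h C hC
    obtain ⟨l, hl, hn, e⟩ := h C hC
    exact ⟨l, hl, by rw [ext_lt x hn, e]⟩
  · intro h C hC
    obtain ⟨l, hl, e⟩ := h C hC
    refine ⟨l, hl, hF C hC l hl, ?_⟩
    rw [← ext_lt x (hF C hC l hl), e]

section final
variable {k n b m : ℕ} {w : ℕ → ℕ} {F : Frm} {r : ℕ} {u : List Bool}

/-- restriction to the first `n` variables -/
def restr (n N : ℕ) (z : Fin (n + N) → Bool) : Fin n → Bool := fun i => z (Fin.castAdd N i)

theorem ext_restr {N : ℕ} (z : Fin (n + N) → Bool) {i : ℕ} (hi : i < n) : ext (restr n N z) i = ext z i := by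
  rw [ext_lt _ hi, ext_lt _ (show i < n + N by omega)]
  rfl

theorem gen_sols (hk : 3 ≤ k) (hF : IsCNF k n F) (z : Fin (n + nall k w r) → Bool) :
    z ∈ sols (n + nall k w r) (ddp (F ++ gen k n b m w r n u)) ↔
      Sat (ext z) F ∧ Sat (ext z) (gen k n b m w r n u) := by
  rw [mem_sols_iff, ← sat_append]
  · constructor <;> intro h C hC
    · exact h C ((mem_ddp_iff _ _).2 hC)
    · exact h C ((mem_ddp_iff _ _).1 hC)
  · intro C hC l hl
    rw [mem_ddp_iff, List.mem_append] at hC
    rcases hC with hC | hC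
    · have := (hF.2 C hC).2 l hl
      omega
    · exact (gen_isCNF hk r n u le_rfl C hC).2 l hl

theorem gen_restr (hk : 3 ≤ k) (hF : IsCNF k n F) {z : Fin (n + nall k w r) → Bool}
    (hz : z ∈ sols (n + nall k w r) (ddp (F ++ gen k n b m w r n u))) :
    restr n _ z ∈ sols n F ∧ Meets n b m w (ext (restr n _ z)) r u := by
  rw [gen_sols hk hF] at hz
  refine ⟨?_, meets_congr (fun i hi => (ext_restr z hi).symm) r u (gen_sound hk _ r n u hz.2)⟩
  rw [mem_sols_iff fun C hC l hl => (hF.2 C hC).2 l hl]
  exact sat_congr (fun C hC l hl => (ext_restr z ((hF.2 C hC).2 l hl)).symm) hz.1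

theorem gen_lift (hk : 3 ≤ k) (hF : IsCNF k n F) {x : Fin n → Bool} (hx : x ∈ sols n F)
    (hm : Meets n b m w (ext x) r u) : ∃ z : Fin (n + nall k w r) → Bool,
      z ∈ sols (n + nall k w r) (ddp (F ++ gen k n b m w r n u)) ∧ restr n _ z = x := by
  obtain ⟨z', h1, h2⟩ := gen_exists (m := m) hk r n u (ext x) le_rfl hm
  set z : Fin (n + nall k w r) → Bool := fun i => z' i with hz
  have h3 : ∀ i < n + nall k w r, ext z i = z' i := fun i hi => by rw [ext_lt z hi]
  have hx' := (mem_sols_iff (fun C hC l hl => (hF.2 C hC).2 l hl) x).1 hx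
  refine ⟨z, (gen_sols hk hF z).2 ⟨?_, ?_⟩, ?_⟩
  · refine sat_congr (fun C hC l hl => ?_) hx'
    have hl' := (hF.2 C hC).2 l hl
    rw [h3 _ (by omega), h1 _ hl']
  · refine sat_congr (fun C hC l hl => ?_) h2
    rw [h3 _ ((gen_isCNF hk r n u le_rfl C hC).2 l hl)]
  · ext i
    show z' i = x i
    rw [h1 i i.2, ext_lt x i.2]

theorem gen_inj (hk : 3 ≤ k) (hF : IsCNF k n F) {z z' : Fin (n + nall k w r) → Bool}
    (hz : z ∈ sols (n + nall k w r) (ddp (F ++ gen k n b m w r n u)))
    (hz' : z' ∈ sols (n + nall k w r) (ddp (F ++ gen k n b m w r n u)))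
    (h : restr n _ z = restr n _ z') : z = z' := by
  rw [gen_sols hk hF] at hz hz'
  have h1 := gen_agree hk (ext z) (ext z') r n u le_rfl hz.2 hz'.2 fun i hi => by
    rw [← ext_restr z hi, ← ext_restr z' hi, h]
  ext i
  have h2 := h1 i i.2
  rw [ext_lt z i.2, ext_lt z' i.2] at h2
  exact h2

end final

theorem gen_nonempty {k n b m : ℕ} {w : ℕ → ℕ} (hk : 3 ≤ k) {F : Frm} (hF : IsCNF k n F) (r : ℕ)
    (u : List Bool) : (sols (n + nall k w r) (ddp (F ++ gen k n b m w r n u))).Nonempty ↔
      ∃ x, x ∈ sols n F ∧ Meets n b m w (ext x) r u := by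
  constructor
  · rintro ⟨z, hz⟩
    exact ⟨_, gen_restr hk hF hz⟩
  · rintro ⟨x, hx, hm⟩
    obtain ⟨z, hz, -⟩ := gen_lift hk hF hx hm
    exact ⟨z, hz⟩

theorem gen_unique {k n b m : ℕ} {w : ℕ → ℕ} (hk : 3 ≤ k) {F : Frm} (hF : IsCNF k n F) (r : ℕ)
    (u : List Bool) : (∃! z, z ∈ sols (n + nall k w r) (ddp (F ++ gen k n b m w r n u))) ↔
      ∃! x, x ∈ sols n F ∧ Meets n b m w (ext x) r u := by
  constructor
  · rintro ⟨z, hz, hun⟩
    refine ⟨_, gen_restr hk hF hz, fun x hx => ?_⟩
    obtain ⟨z', hz', rfl⟩ := gen_lift hk hF hx.1 hx.2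
    rw [hun z' hz']
  · rintro ⟨x, hx, hun⟩
    obtain ⟨z, hz, hzx⟩ := gen_lift hk hF hx.1 hx.2
    refine ⟨z, hz, fun z' hz' => gen_inj hk hF hz' hz ?_⟩
    rw [hzx]
    exact hun _ (gen_restr hk hF hz')

end Pool.Agent.Helper77.SK
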