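import Pool.Agent.Helper77.SK.IsoRec

/-!
# Isolation by parity constraints read from coin tosses
-/

set_option autoImplicit false

namespace Pool.Agent.Helper77.SK

open Finset Pool.Agent.Helper38.ISO

/-! ### Averages over bit strings -/

lemma E_congr {f g : List Bool → ℝ} : ∀ (r : ℕ), (∀ u : List Bool, u.length = r → f u = g u) →
    E r f = E r g
  | 0, h => h [] rfl
  | r + 1, h => by
      simp only [E]
      rw [E_congr r (f := fun w => f (true :: w)) (g := fun w => g (true :: w))
          (fun u hu => h _ (by simp [hu])),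
        E_congr r (f := fun w => f (false :: w)) (g := fun w => g (false :: w))
          (fun u hu => h _ (by simp [hu]))]

lemma E_add (s : ℕ) : ∀ (r : ℕ) (f : List Bool → ℝ),
    E (r + s) f = E r (fun u => E s (fun u' => f (u ++ u')))
  | 0, f => by simp [E]
  | r + 1, f => by
      rw [Nat.add_right_comm]
      simp only [E]
      rw [E_add s r, E_add s r]
      rfl

lemma E_const (c : ℝ) : ∀ r : ℕ, E r (fun _ => c) = c
  | 0 => rfl
  | r + 1 => by
      simp only [E]
      rw [E_const c r]
      ring

lemma E_bval : ∀ (b : ℕ) (g : ℕ → ℝ), E b (fun u => g (bval u)) = (∑ i ∈ range (2 ^ b), g i) / 2 ^ b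
  | 0, g => by simp [E, bval]
  | b + 1, g => by
      simp only [E, bval, if_true, Bool.false_eq_true, if_false, zero_add]
      rw [E_bval b (fun i => g (1 + 2 * i)), E_bval b (fun i => g (2 * i))]
      have h : ∀ m : ℕ, ∑ i ∈ range (2 * m), g i = ∑ i ∈ range m, (g (1 + 2 * i) + g (2 * i)) := by
        intro m
        induction m with
        | zero => simp
        | succ m ih =>
          rw [Nat.mul_succ, Finset.sum_range_succ, Finset.sum_range_succ, ih,
            Finset.sum_range_succ]
          rw [Nat.add_comm 1 (2 * m)]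
          ring
      rw [pow_succ' 2 b, h, Finset.sum_add_distrib, pow_succ']
      field_simp

lemma E_blocks (b : ℕ) : ∀ (w : ℕ) (g : (Fin w → ℕ) → ℝ),
    E (w * b) (fun u => g (fun i => bval ((u.drop (i * b)).take b))) =
      (∑ f : Fin w → Fin (2 ^ b), g (fun i => (f i : ℕ))) / (2 ^ b) ^ w
  | 0, g => by
      simp only [Nat.zero_mul, E, pow_zero, div_one, Finset.univ_unique, Finset.sum_singleton]
      congr 1
      funext i
      exact i.elim0
  | w + 1, g => by
      have h0 : (w + 1) * b = b + w * b := by ring
      rw [h0, E_add]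
      have h1 : ∀ u : List Bool, u.length = b →
          E (w * b) (fun u' => g (fun i : Fin (w + 1) => bval (((u ++ u').drop (i * b)).take b))) =
            (∑ f : Fin w → Fin (2 ^ b), g (Fin.cons (bval u) (fun i => (f i : ℕ)))) /
              (2 ^ b) ^ w := by
        intro u hu
        rw [← E_blocks b w (fun h => g (Fin.cons (bval u) h))]
        congr 1
        funext u'
        congr 1
        funext i
        refine Fin.cases ?_ (fun j => ?_) i
        · simp [← hu]
        · simp only [Fin.val_succ, Fin.cons_succ]
          congr 2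
          have : (j.val + 1) * b = u.length + j.val * b := by rw [hu]; ring
          rw [this, List.drop_append, List.drop_eq_nil_of_le (by omega), Nat.add_sub_cancel_left,
            List.nil_append]
      rw [E_congr b h1, E_bval b (fun x => (∑ f : Fin w → Fin (2 ^ b),
        g (Fin.cons x (fun i => (f i : ℕ)))) / (2 ^ b) ^ w)]
      rw [← Finset.sum_div, div_div, pow_succ]
      congr 1
      rw [Finset.sum_range (fun x => ∑ f : Fin w → Fin (2 ^ b), g (Fin.cons x (fun i => (f i : ℕ)))),
        ← Fintype.sum_prod_type']
      refine Fintype.sum_equiv (Fin.consEquiv (fun _ : Fin (w + 1) => Fin (2 ^ b))) _ _ ?_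
      rintro ⟨x, f⟩
      simp only [Fin.consEquiv_apply]
      congr 1
      funext i
      refine Fin.cases ?_ (fun j => ?_) i
      · simp
      · simp

/-- The bit of an element of `ZMod 2`. -/
def toB (x : ZMod 2) : Bool := decide (x = 1)

/-- The element of `ZMod 2` of a bit. -/
def toZ (x : Bool) : ZMod 2 := if x then 1 else 0

lemma E_par (b w l : ℕ) (g : (Fin w → ℕ) → Bool → ℝ) :
    E (1 + (w * b + l)) (fun u => g (fun i => bval ((u.drop (1 + i * b)).take b)) (u.headD false)) =
      (∑ c : Par (2 ^ b) w, g (fun i => (c.1 i : ℕ)) (toB c.2)) / Fintype.card (Par (2 ^ b) w) := by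
  have h1 : ∀ β : Bool, E (w * b + l) (fun u' =>
      g (fun i : Fin w => bval (((β :: u').drop (1 + i * b)).take b)) β) =
      (∑ f : Fin w → Fin (2 ^ b), g (fun i => (f i : ℕ)) β) / (2 ^ b) ^ w := by
    intro β
    rw [E_add, ← E_blocks b w (fun h => g h β)]
    apply E_congr
    intro u hu
    rw [← E_const (g (fun i : Fin w => bval ((u.drop (i * b)).take b)) β) l]
    congr 1
    funext u'
    congr 1
    funext i
    congr 1
    rw [Nat.add_comm 1 (i.val * b), List.drop_succ_cons]
    have h2 : i.val * b + b ≤ u.length := by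
      rw [hu]
      have := i.isLt
      nlinarith
    rw [List.drop_append_of_le_length (by omega), List.take_append_of_le_length
      (by rw [List.length_drop]; omega)]
  have h3 : (Fintype.card (Par (2 ^ b) w) : ℝ) = (2 ^ b : ℝ) ^ w * 2 := by
    rw [Fintype.card_prod, ZMod.card]
    simp
  rw [Nat.add_comm 1, E]
  simp only [List.headD_cons]
  rw [h1 true, h1 false, h3, Fintype.sum_prod_type]
  have h4 : ∀ f : Fin w → Fin (2 ^ b), ∑ y : ZMod 2, g (fun i => (f i : ℕ)) (toB y) =
      g (fun i => (f i : ℕ)) true + g (fun i => (f i : ℕ)) false := by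
    intro f
    have : (Finset.univ : Finset (ZMod 2)) = {1, 0} := by decide
    rw [this, Finset.sum_pair (by decide)]
    rfl
  rw [Finset.sum_congr rfl fun f _ => h4 f, Finset.sum_add_distrib]
  field_simp

/-! ### Parities -/

lemma toZ_xor (a c : Bool) : toZ (xor a c) = toZ a + toZ c := by
  cases a <;> cases c <;> decide

lemma toZ_inj {a c : Bool} : toZ a = toZ c ↔ a = c := by
  cases a <;> cases c <;> decide

lemma toZ_toB (x : ZMod 2) : toZ (toB x) = x := by
  revert x; decide

lemma par_append (x : ℕ → Bool) : ∀ (V V' : List ℕ), par x (V ++ V') = xor (par x V) (par x V')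
  | [], V' => by simp [par]
  | i :: V, V' => by simp [par, par_append x V V']

lemma toZ_par_slots {n b w : ℕ} (x : Fin n → Bool) (u : List Bool) :
    toZ (par (ext x) (slots n b w u).flatten) =
      ∑ i : Fin w, toZ (ext x (bval ((u.drop (1 + i * b)).take b))) := by
  have h : ∀ l : List ℕ, toZ (par (ext x) (l.map fun i =>
      if bval ((u.drop (1 + i * b)).take b) < n then [bval ((u.drop (1 + i * b)).take b)]
        else []).flatten) =
      (l.map fun i => toZ (ext x (bval ((u.drop (1 + i * b)).take b)))).sum := by
    intro l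
    induction l with
    | nil => rfl
    | cons i l ih =>
      rw [List.map_cons, List.flatten_cons, par_append, toZ_xor, ih, List.map_cons, List.sum_cons]
      congr 1
      split_ifs with hlt
      · simp [par]
      · simp [par, ext, hlt]
  have h1 := h (List.range w)
  have h2 : slots n b w u = (List.range w).map fun i =>
      if bval ((u.drop (1 + i * b)).take b) < n then [bval ((u.drop (1 + i * b)).take b)]
        else [] := rfl
  rw [h2, h1, ← List.sum_ofFn]
  congr 1
  apply List.ext_getElem <;> simp

/-- The vector of an assignment. -/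
def pad {n : ℕ} (N : ℕ) (x : Fin n → Bool) : Fin N → ZMod 2 := fun i => toZ (ext x i)

lemma pad_inj {n N : ℕ} (h : n ≤ N) {x y : Fin n → Bool} (hxy : pad N x = pad N y) : x = y := by
  funext i
  have h1 := congrFun hxy ⟨i, lt_of_lt_of_le i.isLt h⟩
  simp only [pad, toZ_inj] at h1
  simpa [ext] using h1

open Classical in
/-- The vectors of a set of assignments. -/
noncomputable def vecs {n : ℕ} (N : ℕ) (S : Set (Fin n → Bool)) : Finset (Fin N → ZMod 2) :=
  univ.filter fun y => ∃ x ∈ S, pad N x = y

open Classical in
lemma E_meets {n b W : ℕ} {w : ℕ → ℕ} (hb : n ≤ 2 ^ b) (hW : ∀ e, w e ≤ W) :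
    ∀ (r : ℕ) (S : Set (Fin n → Bool)),
    E (r * (W * b + 1)) (fun u => if ∃! x, x ∈ S ∧ Meets n b (W * b + 1) w (ext x) r u
      then 1 else 0) = Pw (2 ^ b) w r (vecs (2 ^ b) S)
  | 0, S => by
      simp only [Nat.zero_mul, E, Pw, sgl, Meets, and_true]
      congr 1
      rw [Finset.card_eq_one]
      apply propext
      constructor
      · rintro ⟨x, hx, hu⟩
        refine ⟨pad _ x, ?_⟩
        ext y
        simp only [vecs, Finset.mem_filter, Finset.mem_univ, true_and, Finset.mem_singleton]
        constructor
        · rintro ⟨z, hz, rfl⟩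
          rw [hu z hz]
        · rintro rfl
          exact ⟨x, hx, rfl⟩
      · rintro ⟨y, hy⟩
        have h1 : ∀ z, z ∈ S → pad (2 ^ b) z = y := by
          intro z hz
          have : pad (2 ^ b) z ∈ vecs (2 ^ b) S := by
            simp only [vecs, Finset.mem_filter, Finset.mem_univ, true_and]
            exact ⟨z, hz, rfl⟩
          rw [hy] at this
          exact Finset.mem_singleton.mp this
        have h2 : y ∈ vecs (2 ^ b) S := by rw [hy]; exact Finset.mem_singleton_self y
        simp only [vecs, Finset.mem_filter, Finset.mem_univ, true_and] at h2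
        obtain ⟨x, hx, hxy⟩ := h2
        exact ⟨x, hx, fun z hz => pad_inj hb ((h1 z hz).trans hxy.symm)⟩
  | r + 1, S => by
      have e1 : (r + 1) * (W * b + 1) = (1 + (w (r + 1) * b + (W - w (r + 1)) * b)) +
          r * (W * b + 1) := by
        have h1 : w (r + 1) * b + (W - w (r + 1)) * b = W * b := by
          rw [← Nat.add_mul, Nat.add_sub_cancel' (hW (r + 1))]
        rw [h1]; ring
      have e2 : 1 + (w (r + 1) * b + (W - w (r + 1)) * b) = W * b + 1 := by
        have h1 : w (r + 1) * b + (W - w (r + 1)) * b = W * b := by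
          rw [← Nat.add_mul, Nat.add_sub_cancel' (hW (r + 1))]
        rw [h1]; ring
      rw [e1, E_add]
      -- the function of the first block
      let g : (Fin (w (r + 1)) → ℕ) → Bool → ℝ := fun h β =>
        Pw (2 ^ b) w r (vecs (2 ^ b)
          {x | x ∈ S ∧ ∑ i, toZ (ext x (h i)) = toZ β})
      have h2 : ∀ u : List Bool, u.length = 1 + (w (r + 1) * b + (W - w (r + 1)) * b) →
          E (r * (W * b + 1)) (fun u' => if ∃! x, x ∈ S ∧
            Meets n b (W * b + 1) w (ext x) (r + 1) (u ++ u') then (1 : ℝ) else 0) =
          g (fun i => bval ((u.drop (1 + i * b)).take b)) (u.headD false) := by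
        intro u hu
        have hlen : u.length = W * b + 1 := hu.trans e2
        obtain ⟨β, u1, rfl⟩ : ∃ β u1, u = β :: u1 := by
          cases u with
          | nil => simp at hlen
          | cons β u1 => exact ⟨β, u1, rfl⟩
        simp only [g]
        rw [← E_meets hb hW r]
        apply E_congr
        intro u' _
        congr 1
        apply propext
        apply existsUnique_congr
        intro x
        simp only [Set.mem_ofPred_eq, Meets]
        rw [and_assoc]
        have h3 : (β :: u1 ++ u').drop (W * b + 1) = u' := by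
          rw [← hlen, List.drop_left]
        rw [h3]
        have h4 : (par (ext x) (slots n b (w (r + 1)) (β :: u1 ++ u')).flatten =
            (β :: u1 ++ u').headD false) ↔
            (∑ i : Fin (w (r + 1)), toZ (ext x (bval (((β :: u1).drop (1 + i * b)).take b))) =
              toZ ((β :: u1).headD false)) := by
          rw [← toZ_inj, toZ_par_slots]
          simp only [List.cons_append, List.headD_cons]
          have h5 : ∀ i : Fin (w (r + 1)), ((β :: (u1 ++ u')).drop (1 + i * b)).take b =
              ((β :: u1).drop (1 + i * b)).take b := by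
            intro i
            have h6 : 1 + i.val * b + b ≤ (β :: u1).length := by
              rw [hu]
              have := i.isLt
              nlinarith
            have h7 : β :: (u1 ++ u') = (β :: u1) ++ u' := rfl
            rw [h7, List.drop_append_of_le_length (by omega), List.take_append_of_le_length
              (by rw [List.length_drop]; omega)]
          simp only [h5]
        rw [h4]
      rw [E_congr _ h2, E_par b (w (r + 1)) _ g]
      simp only [Pw, Av]
      congr 1
      apply Finset.sum_congr rfl
      intro c _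
      simp only [g]
      congr 1
      ext y
      simp only [vecs, Finset.mem_filter, Finset.mem_univ, true_and, Set.mem_ofPred_eq, toZ_toB]
      constructor
      · rintro ⟨x, ⟨hx, hc⟩, rfl⟩
        exact ⟨⟨x, hx, rfl⟩, hc⟩
      · rintro ⟨⟨x, hx, rfl⟩, hc⟩
        exact ⟨x, ⟨hx, hc⟩, rfl⟩

lemma dm_vecs {n N : ℕ} (S : Set (Fin n → Bool)) : dm (vecs N S) ≤ n := by
  let L : (Fin n → ZMod 2) →ₗ[ZMod 2] (Fin N → ZMod 2) :=
    { toFun := fun y i => if h : i.val < n then y ⟨i.val, h⟩ else 0
      map_add' := by
        intro y z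
        funext i
        by_cases h : i.val < n <;> simp [h]
      map_smul' := by
        intro c y
        funext i
        by_cases h : i.val < n <;> simp [h] }
  have hpad : ∀ x : Fin n → Bool, pad N x = L (fun i => toZ (x i)) := by
    intro x
    funext i
    by_cases h : i.val < n <;> simp [L, pad, ext, h, toZ]
  have hle : dir (vecs N S) ≤ LinearMap.range L := by
    unfold dir
    rw [Submodule.span_le]
    rintro v ⟨x, hx, y, hy, rfl⟩
    simp only [vecs, Finset.mem_filter, Finset.mem_univ, true_and] at hx hy
    obtain ⟨x', _, rfl⟩ := hx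
    obtain ⟨y', _, rfl⟩ := hy
    rw [hpad, hpad]
    exact ⟨_, map_sub L _ _⟩
  unfold dm
  refine (Submodule.finrank_mono hle).trans ((LinearMap.finrank_range_le L).trans ?_)
  simp

lemma widv_le {v : ℕ → ℕ} {W : ℕ} (hW1 : 1 ≤ W) (hW : ∀ j, v j ≤ W) (ts : List ℕ) (e : ℕ) :
    widv v ts e ≤ W := by
  induction ts generalizing v e with
  | nil => exact hW1
  | cons t ts ih =>
    change (if e ≤ t then v 0 else widv (fun j => v (j + 1)) ts (e - t)) ≤ W
    split_ifs
    · exact hW 0
    · exact ih (fun j => hW (j + 1)) _

open Classical in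
/-- Isolation by parity constraints of the widths `v 0`, …, `v J`; the sum is over all vectors of
numbers of constraints. -/
theorem iso_vec {n b W J : ℕ} (hn : 1 ≤ n) (hb : n ≤ 2 ^ b) (v a : ℕ → ℕ) (hodd : ∀ j, Odd (v j))
    (hW : ∀ j, v j ≤ W) (ha : Monotone a) (hJ : n ≤ a J) (S : Set (Fin n → Bool))
    (hS : S.Nonempty) :
    ∏ e ∈ range n, (1 - rho (2 ^ b) (v (lev a (e + 1))) ^ (e + 1)) ≤
      ∑ t ∈ Fintype.piFinset (fun j : Fin (J + 1) => range (a j + 1)),
        E ((List.ofFn t).sum * (W * b + 1)) (fun u => if ∃! x, x ∈ S ∧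
          Meets n b (W * b + 1) (widv v (List.ofFn t)) (ext x) (List.ofFn t).sum u
          then 1 else 0) := by
  have hN : 1 ≤ 2 ^ b := Nat.one_le_two_pow
  have hW1 : 1 ≤ W := le_trans (hodd 0).pos (hW 0)
  have hne : (vecs (2 ^ b) S).Nonempty := by
    obtain ⟨x, hx⟩ := hS
    refine ⟨pad _ x, ?_⟩
    simp only [vecs, Finset.mem_filter, Finset.mem_univ, true_and]
    exact ⟨x, hx, rfl⟩
  have hdm := dm_vecs (N := 2 ^ b) S
  have h1 := FF_ge hN v a hodd ha (J + 1) (vecs (2 ^ b) S) hne
    (fun i hi => by
      have : i = J := by omega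
      subst this
      exact hdm.trans hJ) (fun h => by omega)
  have h2 : PiV (2 ^ b) v a n ≤ PiV (2 ^ b) v a (dm (vecs (2 ^ b) S)) := PiV_anti _ _ _ hdm
  rw [FF_eq] at h1
  refine (h2.trans h1).trans (le_of_eq ?_)
  apply Finset.sum_congr rfl
  intro t _
  rw [E_meets hb (widv_le hW1 hW (List.ofFn t))]

end Pool.Agent.Helper77.SK
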