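import Pool.Agent.Helper77.SK.Calc

/-!
# The reduction is computed in polynomial time
-/

set_option autoImplicit false

namespace Pool.Agent.Helper86.PT.SKBuild

open Pool.Agent.Helper77.SK

variable {α β γ : Type} [TEnc α] [TEnc β] [TEnc γ]

/-! ### Sums -/

theorem poly_sum {n : α → ℕ} {f : α → ℕ → ℕ} (hn : Poly n)
    (hf : Poly (fun p : α × ℕ => f p.1 p.2)) :
    Poly (fun a => ∑ i ∈ Finset.range (n a), f a i) := by
  have h1 : Poly (fun a => ((List.range (n a)).flatMap
      (fun i => List.replicate (f a i) true)).length) :=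
    Poly.length (Poly.flatMap (Poly.range hn) (Poly.replicate hf (Poly.const true)))
  refine h1.congr fun a => ?_
  rw [List.length_flatMap]
  simp only [List.length_replicate]
  show _ = (Multiset.map (f a) (List.range (n a) : Multiset ℕ)).sum
  rw [Multiset.map_coe, Multiset.sum_coe]

/-! ### The vectors -/

theorem poly_listSum {l : α → List ℕ} (hl : Poly l) : Poly (fun a => (l a).sum) := by
  have h1 : Poly (fun a => ((l a).flatMap (fun i => List.replicate i true)).length) :=
    Poly.length (Poly.flatMap hl (Poly.replicate (Poly.snd Poly.id) (Poly.const true)))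
  refine h1.congr fun a => ?_
  rw [List.length_flatMap]
  simp only [List.length_replicate, List.map_id']

theorem filter_range_lt (n m : ℕ) :
    (List.range n).filter (fun i => decide (i < m)) = List.range (min n m) :=
  SKCalc.filter_range_lt n m

theorem poly_div_succ {f g : α → ℕ} (hf : Poly f) (hg : Poly g) :
    Poly (fun a => f a / (g a + 1)) := by
  have h := Poly.length (Poly.filter (l := fun a => List.range (f a))
    (f := fun a i => decide ((g a + 1) * (i + 1) ≤ f a)) (Poly.range hf)
    (Poly.le (Poly.mul (Poly.succ (hg.comp (Poly.fst Poly.id))) (Poly.succ (Poly.snd Poly.id)))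
      (hf.comp (Poly.fst Poly.id))))
  refine h.congr fun a => ?_
  have h1 : (List.range (f a)).filter (fun i => decide ((g a + 1) * (i + 1) ≤ f a)) =
      (List.range (f a)).filter (fun i => decide (i < f a / (g a + 1))) := by
    refine List.filter_congr fun i _ => ?_
    rw [decide_eq_decide, ← Nat.succ_le_iff (m := i), Nat.le_div_iff_mul_le (Nat.succ_pos _),
      Nat.succ_eq_add_one, mul_comm]
  rw [h1, filter_range_lt, List.length_range, min_eq_right (Nat.div_le_self _ _)]

theorem poly_mod_succ {f g : α → ℕ} (hf : Poly f) (hg : Poly g) :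
    Poly (fun a => f a % (g a + 1)) := by
  refine (Poly.sub hf (Poly.mul (Poly.succ hg) (poly_div_succ hf hg))).congr fun a => ?_
  have := Nat.div_add_mod (f a) (g a + 1)
  omega

theorem poly_min {f g : α → ℕ} (hf : Poly f) (hg : Poly g) : Poly (fun a => min (f a) (g a)) := by
  refine (Poly.ite (c := fun a => f a ≤ g a) (Poly.le hf hg) hf hg).congr fun a => ?_
  rw [min_def]

theorem poly_vec (q J : ℕ) : ∀ (p : ℕ → ℕ) {n t : α → ℕ}, Poly n → Poly t →
    Poly (fun a => vec q p J (n a) (t a)) := by
  induction J with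
  | zero => intro p n t hn ht; exact Poly.const []
  | succ J ih =>
    intro p n t hn ht
    exact Poly.cons (poly_min (poly_mod_succ ht hn)
      (SKCalc.poly_divConst' q (Poly.mul (Poly.const (p 0)) hn)))
      (ih (fun j => p (j + 1)) hn (poly_div_succ ht hn))

theorem poly_widv (q J : ℕ) : ∀ (v p : ℕ → ℕ) {n t e : α → ℕ}, Poly n → Poly t → Poly e →
    Poly (fun a => widv v (vec q p J (n a) (t a)) (e a)) := by
  induction J with
  | zero => intro v p n t e hn ht he; exact Poly.const 1
  | succ J ih =>
    intro v p n t e hn ht he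
    have hx : Poly (fun a => min (t a % (n a + 1)) (p 0 * n a / q)) :=
      poly_min (poly_mod_succ ht hn) (SKCalc.poly_divConst' q (Poly.mul (Poly.const (p 0)) hn))
    exact Poly.ite (c := fun a => e a ≤ min (t a % (n a + 1)) (p 0 * n a / q)) (Poly.le he hx)
      (Poly.const (v 0)) (ih (fun j => v (j + 1)) (fun j => p (j + 1)) hn (poly_div_succ ht hn)
        (Poly.sub he hx))

/-- A bound for all widths. -/
def wmax : (ℕ → ℕ) → ℕ → ℕ
  | _, 0 => 1
  | v, J + 1 => max (v 0) (wmax (fun j => v (j + 1)) J)

theorem widv_le_wmax (q J : ℕ) : ∀ (v p : ℕ → ℕ) (n t e : ℕ),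
    widv v (vec q p J n t) e ≤ wmax v J := by
  induction J with
  | zero => intro v p n t e; exact le_refl _
  | succ J ih =>
    intro v p n t e
    show (if e ≤ min (t % (n + 1)) (p 0 * n / q) then v 0 else
      widv (fun j => v (j + 1)) (vec q (fun j => p (j + 1)) J n (t / (n + 1)))
        (e - min (t % (n + 1)) (p 0 * n / q))) ≤ max (v 0) (wmax (fun j => v (j + 1)) J)
    split_ifs
    · exact le_max_left _ _
    · exact le_max_of_le_right (ih _ _ _ _ _)

/-- A function on numbers which are bounded by a constant. -/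
theorem poly_table (M : ℕ) (g : ℕ → β) {w : α → ℕ} (hw : Poly w) (hM : ∀ a, w a ≤ M) :
    Poly (fun a => g (w a)) := by
  have h := Poly.getD (l := fun _ : α => (List.range (M + 1)).map g) (n := w)
    (d := fun _ => g 0) (Poly.const _) hw (Poly.const _)
  refine h.congr fun a => ?_
  have := hM a
  rw [List.getD_eq_getElem?_getD, List.getElem?_map, List.getElem?_range (by omega)]
  rfl

/-! ### Slots -/

theorem poly_slots {n b w : α → ℕ} {u : α → List Bool} (hn : Poly n) (hb : Poly b) (hw : Poly w)
    (hu : Poly u) : Poly (fun a => slots (n a) (b a) (w a) (u a)) := by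
  -- the value of a block, truncated at `n`
  have hcap : ∀ (n : ℕ) (l : List Bool),
      l.foldr (fun x s => min n ((if x then 1 else 0) + 2 * s)) 0 = min n (bval l) := by
    intro n l
    induction l with
    | nil => simp [bval]
    | cons x l ih =>
      rw [List.foldr_cons, ih, bval]
      cases x <;> simp <;> omega
  have hval : Poly (fun p : (α × ℕ) => min (n p.1)
      (bval (((u p.1).drop (1 + p.2 * b p.1)).take (b p.1)))) := by
    have hl : Poly (fun p : (α × ℕ) => (((u p.1).drop (1 + p.2 * b p.1)).take (b p.1)).reverse) :=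
      (poly_take (Poly.drop (hu.comp (Poly.fst Poly.id)) (Poly.add (Poly.const 1)
        (Poly.mul (Poly.snd Poly.id) (hb.comp (Poly.fst Poly.id)))))
        (hb.comp (Poly.fst Poly.id))).reverse
    obtain ⟨bn, hbn, -, hbn'⟩ := (hn.comp (Poly.fst Poly.id) :
      Poly (fun p : (α × ℕ) => n p.1)).size_bound
    have h := Poly.foldl (l := fun p : (α × ℕ) =>
        (((u p.1).drop (1 + p.2 * b p.1)).take (b p.1)).reverse) (g := fun _ => 0)
      (f := fun p s x => min (n p.1) ((if x then 1 else 0) + 2 * s)) hl (Poly.const 0)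
      (poly_min (hn.comp (Poly.fst (Poly.fst Poly.id))) (Poly.add
        (Poly.ite (c := fun p : (α × ℕ) × ℕ × Bool => p.2.2 = true)
          ((Poly.snd (Poly.snd Poly.id)).congr (fun a => by cases a.2.2 <;> rfl))
          (Poly.const 1) (Poly.const 0))
        (Poly.mul (Poly.const 2) (Poly.fst (Poly.snd Poly.id)))))
      (hbn.add (PB.const 1)) (by
        intro p i
        have key : ∀ (l : List Bool) (s : ℕ), s ≤ n p.1 →
            l.foldl (fun s x => min (n p.1) ((if x then 1 else 0) + 2 * s)) s ≤ n p.1 := by
          intro l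
          induction l with
          | nil => intro s hs; exact hs
          | cons x l ih => intro s _; exact ih _ (min_le_left _ _)
        have h1 := key (List.take i
          ((((u p.1).drop (1 + p.2 * b p.1)).take (b p.1)).reverse)) 0 (Nat.zero_le _)
        have h2 := hbn' p
        rw [tsz_nat] at h2 ⊢
        omega)
    refine h.congr fun p => ?_
    rw [List.foldl_reverse]
    exact hcap _ _
  have h := Poly.map (l := fun a => List.range (w a)) (f := fun a i =>
      if min (n a) (bval (((u a).drop (1 + i * b a)).take (b a))) < n a then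
        [min (n a) (bval (((u a).drop (1 + i * b a)).take (b a)))] else [])
    (Poly.range hw) (Poly.ite (Poly.lt hval (hn.comp (Poly.fst Poly.id)))
      (Poly.cons hval (Poly.const [])) (Poly.const []))
  refine h.congr fun a => ?_
  rw [slots]
  refine List.map_congr_left fun i _ => ?_
  beta_reduce
  by_cases hv : bval (((u a).drop (1 + i * b a)).take (b a)) < n a
  · rw [if_pos (by omega), if_pos hv, min_eq_right hv.le]
  · rw [if_neg (by omega), if_neg hv]

/-! ### Clauses for one constraint -/

/-- `direct` with a bound for the depth of the recursion. -/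
def directK : ℕ → List ℕ → Bool → List Cls
  | 0, _, β => if β then [[]] else []
  | K + 1, V, β =>
    match V with
    | [] => if β then [[]] else []
    | i :: V => (directK K V β).map (fun C => (i, true) :: C) ++
        (directK K V (!β)).map (fun C => (i, false) :: C)

theorem directK_eq (K : ℕ) : ∀ (V : List ℕ) (β : Bool), V.length ≤ K →
    directK K V β = direct V β := by
  induction K with
  | zero =>
    intro V β h
    have : V = [] := List.length_eq_zero_iff.mp (Nat.le_zero.mp h)
    subst this
    rfl
  | succ K ih =>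
    intro V β h
    cases V with
    | nil => rfl
    | cons i V =>
      rw [List.length_cons] at h
      rw [directK, direct, ih _ _ (by omega), ih _ _ (by omega)]

theorem poly_directK (K : ℕ) : Poly (fun p : List ℕ × Bool => directK K p.1 p.2) := by
  have hbase : ∀ {δ : Type} [TEnc δ] {f : δ → Bool}, Poly f →
      Poly (fun a => if f a then ([[]] : List Cls) else []) := by
    intro δ _ f hf
    refine Poly.ite (c := fun a => f a = true) (hf.congr fun a => ?_) (Poly.const _) (Poly.const _)
    cases f a <;> rfl
  induction K with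
  | zero => exact hbase (Poly.snd Poly.id)
  | succ K ih =>
    have hc : ∀ (bb : Bool), Poly (fun p : ((List ℕ × Bool) × ℕ × List ℕ) =>
        (directK K p.2.2 (bif bb then p.1.2 else !p.1.2)).map (fun C => (p.2.1, bb) :: C)) := by
      intro bb
      refine Poly.map (f := fun (p : (List ℕ × Bool) × ℕ × List ℕ) (C : Cls) => (p.2.1, bb) :: C)
        (Poly.comp (g := fun p : ((List ℕ × Bool) × ℕ × List ℕ) =>
          (p.2.2, (bif bb then p.1.2 else !p.1.2))) ih ?_) ?_
      · refine Poly.pair (Poly.snd (Poly.snd Poly.id)) ?_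
        cases bb
        · exact Poly.not (Poly.snd (Poly.fst Poly.id))
        · exact Poly.snd (Poly.fst Poly.id)
      · exact Poly.cons (Poly.pair (Poly.fst (Poly.snd (Poly.fst Poly.id))) (Poly.const bb))
          (Poly.snd Poly.id)
    have h := Poly.listCases (l := fun p : List ℕ × Bool => p.1)
      (f := fun p => if p.2 then ([[]] : List Cls) else [])
      (g := fun p i V => (directK K V p.2).map (fun C => (i, true) :: C) ++
        (directK K V (!p.2)).map (fun C => (i, false) :: C)) (Poly.fst Poly.id)
      (hbase (Poly.snd Poly.id)) (Poly.append (hc true) (hc false))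
    refine h.congr fun p => ?_
    rcases p with ⟨V, β⟩
    cases V <;> rfl

/-- `chain` with a bound for the depth of the recursion in `direct`. -/
def chainK (k : ℕ) : ℕ → ℕ → List (List ℕ) → Bool → List Cls
  | 0, _, V, β => directK k V.flatten β
  | fuel + 1, y, V, β =>
    if V.length ≤ k then directK k V.flatten β
    else directK k (y :: (V.take (k - 1)).flatten) false ++
      chainK k fuel (y + 1) ([y] :: V.drop (k - 1)) β

theorem length_flatten_le {V : List (List ℕ)} (hV : ∀ v ∈ V, v.length ≤ 1) :
    V.flatten.length ≤ V.length := by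
  induction V with
  | nil => simp
  | cons v V ih =>
    rw [List.flatten_cons, List.length_append, List.length_cons]
    have h1 := hV v (by simp)
    have h2 := ih fun x hx => hV x (List.mem_cons_of_mem _ hx)
    omega

theorem chainK_eq {k : ℕ} (hk : 3 ≤ k) (f : ℕ) : ∀ (f' y : ℕ) (V : List (List ℕ)) (β : Bool),
    (∀ v ∈ V, v.length ≤ 1) → V.length ≤ f → V.length ≤ f' →
    chainK k f y V β = chain k f' y V β := by
  induction f with
  | zero =>
    intro f' y V β hV h h'
    have hV0 : V = [] := List.length_eq_zero_iff.mp (Nat.le_zero.mp h)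
    subst hV0
    cases f' with
    | zero => simp only [chainK, chain]; exact directK_eq _ _ _ (by simp)
    | succ f' =>
      rw [chainK, chain, if_pos (by simp)]
      exact directK_eq _ _ _ (by simp)
  | succ f ih =>
    intro f' y V β hV h h'
    rw [chainK]
    by_cases hc : V.length ≤ k
    · rw [if_pos hc, directK_eq _ _ _ ((length_flatten_le hV).trans hc)]
      cases f' with
      | zero => rw [chain]
      | succ f' => rw [chain, if_pos hc]
    · rw [if_neg hc]
      cases f' with
      | zero => omega
      | succ f' =>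
        rw [chain, if_neg hc, directK_eq, ih f']
        · intro v hv
          rcases List.mem_cons.mp hv with rfl | hv
          · simp
          · exact hV v (List.mem_of_mem_drop hv)
        · rw [List.length_cons, List.length_drop]; omega
        · rw [List.length_cons, List.length_drop]; omega
        · rw [List.length_cons]
          have h1 : ∀ v ∈ V.take (k - 1), v.length ≤ 1 := fun v hv =>
            hV v (List.mem_of_mem_take hv)
          have h2 := length_flatten_le h1
          rw [List.length_take] at h2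
          omega

theorem poly_chainK (k f : ℕ) : Poly (fun p : ℕ × List (List ℕ) × Bool =>
    chainK k f p.1 p.2.1 p.2.2) := by
  have hd : Poly (fun p : ℕ × List (List ℕ) × Bool => directK k p.2.1.flatten p.2.2) :=
    Poly.comp (g := fun p : ℕ × List (List ℕ) × Bool => (p.2.1.flatten, p.2.2)) (poly_directK k)
      (Poly.pair (Poly.flatten (Poly.fst (Poly.snd Poly.id))) (Poly.snd (Poly.snd Poly.id)))
  induction f with
  | zero => exact hd
  | succ f ih =>
    have h1 : Poly (fun p : ℕ × List (List ℕ) × Bool =>
        directK k (p.1 :: (p.2.1.take (k - 1)).flatten) false) :=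
      Poly.comp (g := fun p : ℕ × List (List ℕ) × Bool =>
        (p.1 :: (p.2.1.take (k - 1)).flatten, false)) (poly_directK k)
        (Poly.pair (Poly.cons (Poly.fst Poly.id)
          (Poly.flatten (poly_take (Poly.fst (Poly.snd Poly.id)) (Poly.const _))))
          (Poly.const false))
    have h2 : Poly (fun p : ℕ × List (List ℕ) × Bool =>
        chainK k f (p.1 + 1) ([p.1] :: p.2.1.drop (k - 1)) p.2.2) :=
      Poly.comp (g := fun p : ℕ × List (List ℕ) × Bool =>
        (p.1 + 1, [p.1] :: p.2.1.drop (k - 1), p.2.2)) ih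
        (Poly.pair (Poly.succ (Poly.fst Poly.id)) (Poly.pair
          (Poly.cons (Poly.cons (Poly.fst Poly.id) (Poly.const []))
            (Poly.drop (Poly.fst (Poly.snd Poly.id)) (Poly.const _)))
          (Poly.snd (Poly.snd Poly.id))))
    exact Poly.ite (c := fun p : ℕ × List (List ℕ) × Bool => p.2.1.length ≤ k)
      (Poly.le (Poly.length (Poly.fst (Poly.snd Poly.id))) (Poly.const k)) hd
      (Poly.append h1 h2)

theorem length_slots (n b w : ℕ) (u : List Bool) : (slots n b w u).length = w := by
  simp [slots]

theorem mem_slots {n b w : ℕ} {u : List Bool} {v : List ℕ} (hv : v ∈ slots n b w u) :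
    v.length ≤ 1 := by
  rw [slots, List.mem_map] at hv
  obtain ⟨i, -, rfl⟩ := hv
  dsimp only
  split_ifs <;> simp

/-! ### All constraints -/

theorem gen_eq_flatMap (k n b m : ℕ) (w : ℕ → ℕ) (t : ℕ) : ∀ (y : ℕ) (u : List Bool),
    gen k n b m w t y u = (List.range t).flatMap fun j =>
      chain k (w (t - j)) (y + ∑ i ∈ Finset.range j, naux k (w (t - i)) (w (t - i)))
        (slots n b (w (t - j)) (u.drop (j * m))) ((u.drop (j * m)).headD false) := by
  induction t with
  | zero => intro y u; rfl
  | succ t ih =>
    intro y u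
    rw [gen, ih, List.range_succ_eq_map, List.flatMap_cons, List.flatMap_map]
    congr 1
    · simp
    · refine List.flatMap_congr fun j hj => ?_
      rw [List.mem_range] at hj
      have h1 : t + 1 - Nat.succ j = t - j := by omega
      have h2 : (u.drop m).drop (j * m) = u.drop (Nat.succ j * m) := by
        rw [List.drop_drop]
        congr 1
        rw [Nat.succ_mul]
        ring
      have h3 : y + naux k (w (t + 1)) (w (t + 1)) +
          ∑ i ∈ Finset.range j, naux k (w (t - i)) (w (t - i)) =
          y + ∑ i ∈ Finset.range (Nat.succ j), naux k (w (t + 1 - i)) (w (t + 1 - i)) := by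
        rw [Finset.sum_range_succ', add_assoc, add_comm (naux _ _ _)]
        congr 2
        refine Finset.sum_congr rfl fun i _ => ?_
        rw [show t + 1 - (i + 1) = t - i by omega]
      rw [h1, h2, h3]

theorem poly_build' (k q W J : ℕ) (v p : ℕ → ℕ) (hk : 3 ≤ k) :
    Poly (build k q W J v p) := by
  have hn : ∀ {δ : Type} [TEnc δ] {f : δ → (ℕ × List Cls) × (ℕ × List Bool)}, Poly f →
      Poly (fun a => (f a).1.1) := fun hf => Poly.fst (Poly.fst hf)
  have ht : ∀ {δ : Type} [TEnc δ] {f : δ → (ℕ × List Cls) × (ℕ × List Bool)}, Poly f →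
      Poly (fun a => (vec q p (J + 1) (f a).1.1 (f a).2.1).sum) := fun hf =>
    poly_listSum (poly_vec q (J + 1) p (Poly.fst (Poly.fst hf)) (Poly.fst (Poly.snd hf)))
  have hu : ∀ {δ : Type} [TEnc δ] {f : δ → (ℕ × List Cls) × (ℕ × List Bool)}, Poly f →
      Poly (fun a => (f a).2.2) := fun hf => Poly.snd (Poly.snd hf)
  have hna : ∀ {δ : Type} [TEnc δ] {f : δ → (ℕ × List Cls) × (ℕ × List Bool)} {e : δ → ℕ},
      Poly f → Poly e →
      Poly (fun a => naux k (widv v (vec q p (J + 1) (f a).1.1 (f a).2.1) (e a))
        (widv v (vec q p (J + 1) (f a).1.1 (f a).2.1) (e a))) := by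
    intro δ _ f e hf he
    exact poly_table (wmax v (J + 1)) (fun w => naux k w w)
      (poly_widv q (J + 1) v p (Poly.fst (Poly.fst hf)) (Poly.fst (Poly.snd hf)) he)
      fun a => widv_le_wmax _ _ _ _ _ _ _
  have hnall : Poly (fun x : (ℕ × List Cls) × (ℕ × List Bool) =>
      nall k (widv v (vec q p (J + 1) x.1.1 x.2.1)) (vec q p (J + 1) x.1.1 x.2.1).sum) :=
    poly_sum (n := fun x : (ℕ × List Cls) × (ℕ × List Bool) =>
        (vec q p (J + 1) x.1.1 x.2.1).sum)
      (f := fun x e => naux k (widv v (vec q p (J + 1) x.1.1 x.2.1) (e + 1))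
        (widv v (vec q p (J + 1) x.1.1 x.2.1) (e + 1)))
      (ht Poly.id) (hna (Poly.fst Poly.id) (Poly.succ (Poly.snd Poly.id)))
  have hgen : Poly (fun x : (ℕ × List Cls) × (ℕ × List Bool) =>
      gen k x.1.1 (lg x.1.1) (W * lg x.1.1 + 1) (widv v (vec q p (J + 1) x.1.1 x.2.1))
        (vec q p (J + 1) x.1.1 x.2.1).sum x.1.1 x.2.2) := by
    have hm : ∀ {δ : Type} [TEnc δ] {f : δ → (ℕ × List Cls) × (ℕ × List Bool)}, Poly f →
        Poly (fun a => W * lg (f a).1.1 + 1) := fun hf =>
      Poly.succ (Poly.mul (Poly.const W) (poly_lg (hn hf)))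
    have hdrop : Poly (fun x : ((ℕ × List Cls) × (ℕ × List Bool)) × ℕ =>
        x.1.2.2.drop (x.2 * (W * lg x.1.1.1 + 1))) :=
      Poly.drop (hu (Poly.fst Poly.id)) (Poly.mul (Poly.snd Poly.id) (hm (Poly.fst Poly.id)))
    have hw : Poly (fun x : ((ℕ × List Cls) × (ℕ × List Bool)) × ℕ =>
        widv v (vec q p (J + 1) x.1.1.1 x.1.2.1)
          ((vec q p (J + 1) x.1.1.1 x.1.2.1).sum - x.2)) :=
      poly_widv q (J + 1) v p (Poly.fst (Poly.fst (Poly.fst Poly.id)))
        (Poly.fst (Poly.snd (Poly.fst Poly.id)))
        (Poly.sub (ht (Poly.fst Poly.id)) (Poly.snd Poly.id))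
    have h := Poly.flatMap
      (l := fun x : (ℕ × List Cls) × (ℕ × List Bool) =>
        List.range (vec q p (J + 1) x.1.1 x.2.1).sum)
      (f := fun x j => chainK k (wmax v (J + 1))
        (x.1.1 + ∑ i ∈ Finset.range j,
          naux k (widv v (vec q p (J + 1) x.1.1 x.2.1) ((vec q p (J + 1) x.1.1 x.2.1).sum - i))
            (widv v (vec q p (J + 1) x.1.1 x.2.1) ((vec q p (J + 1) x.1.1 x.2.1).sum - i)))
        (slots x.1.1 (lg x.1.1)
          (widv v (vec q p (J + 1) x.1.1 x.2.1) ((vec q p (J + 1) x.1.1 x.2.1).sum - j))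
          (x.2.2.drop (j * (W * lg x.1.1 + 1))))
        ((x.2.2.drop (j * (W * lg x.1.1 + 1))).headD false))
      (Poly.range (ht Poly.id))
      (Poly.comp (g := fun x : ((ℕ × List Cls) × (ℕ × List Bool)) × ℕ =>
        (x.1.1.1 + ∑ i ∈ Finset.range x.2,
          naux k (widv v (vec q p (J + 1) x.1.1.1 x.1.2.1)
              ((vec q p (J + 1) x.1.1.1 x.1.2.1).sum - i))
            (widv v (vec q p (J + 1) x.1.1.1 x.1.2.1)
              ((vec q p (J + 1) x.1.1.1 x.1.2.1).sum - i)),
        slots x.1.1.1 (lg x.1.1.1) (widv v (vec q p (J + 1) x.1.1.1 x.1.2.1)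
            ((vec q p (J + 1) x.1.1.1 x.1.2.1).sum - x.2))
          (x.1.2.2.drop (x.2 * (W * lg x.1.1.1 + 1))),
        (x.1.2.2.drop (x.2 * (W * lg x.1.1.1 + 1))).headD false)) (poly_chainK k (wmax v (J + 1)))
        (Poly.pair
          (Poly.add (hn (Poly.fst Poly.id)) (poly_sum (n := fun x :
              ((ℕ × List Cls) × (ℕ × List Bool)) × ℕ => x.2)
            (f := fun x i => naux k (widv v (vec q p (J + 1) x.1.1.1 x.1.2.1)
                ((vec q p (J + 1) x.1.1.1 x.1.2.1).sum - i))
              (widv v (vec q p (J + 1) x.1.1.1 x.1.2.1)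
                ((vec q p (J + 1) x.1.1.1 x.1.2.1).sum - i))) (Poly.snd Poly.id)
            (hna (f := fun y : (((ℕ × List Cls) × (ℕ × List Bool)) × ℕ) × ℕ => y.1.1)
              (Poly.fst (Poly.fst Poly.id))
              (Poly.sub (ht (Poly.fst (Poly.fst Poly.id))) (Poly.snd Poly.id)))))
          (Poly.pair (poly_slots (hn (Poly.fst Poly.id)) (poly_lg (hn (Poly.fst Poly.id))) hw hdrop)
            (Poly.headD hdrop (Poly.const false)))))
    refine h.congr fun x => ?_
    rw [gen_eq_flatMap]
    refine List.flatMap_congr fun j _ => ?_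
    exact chainK_eq hk _ _ _ _ _ (fun y hy => mem_slots hy)
      (by rw [length_slots]; exact widv_le_wmax _ _ _ _ _ _ _) (by rw [length_slots])
  exact Poly.pair (Poly.add (hn Poly.id) hnall)
    (poly_ddp (Poly.append (Poly.snd (Poly.fst Poly.id)) hgen))

end Pool.Agent.Helper86.PT.SKBuild

namespace Pool.Agent.Helper77.SK

/-- The reduction is computed in polynomial time. -/
theorem poly_build (k q W J : ℕ) (v p : ℕ → ℕ) (hk : 3 ≤ k) :
    Pool.Agent.Helper86.PT.Poly (build k q W J v p) :=
  Pool.Agent.Helper86.PT.SKBuild.poly_build' k q W J v p hk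

theorem poly_vecsum (q J : ℕ) (p : ℕ → ℕ) :
    Pool.Agent.Helper86.PT.Poly (fun x : ℕ × ℕ => (vec q p (J + 1) x.1 x.2).sum) :=
  Pool.Agent.Helper86.PT.SKBuild.poly_listSum
    (Pool.Agent.Helper86.PT.SKBuild.poly_vec q (J + 1) p
      (Pool.Agent.Helper86.PT.Poly.fst Pool.Agent.Helper86.PT.Poly.id)
      (Pool.Agent.Helper86.PT.Poly.snd Pool.Agent.Helper86.PT.Poly.id))

end Pool.Agent.Helper77.SK
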