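import Pool.Agent.Helper77.SK.Transfer
import Pool.Agent.Helper77.SK.Iso
import Pool.Agent.Helper77.SK.Gen
import Pool.Agent.Helper77.SK.PBuild

/-!
# The comparison of the exponents: the reduction with wide parity constraints
-/

set_option autoImplicit false

namespace Pool.Agent.Helper77.SK

open Pool.Agent.Helper86 Pool.Agent.Helper86.PT Finset

theorem isCNF_build {k q W J : ℕ} {v p : ℕ → ℕ} (hk : 3 ≤ k) {n : ℕ} {F : Frm}
    (hF : IsCNF k n F) (t : ℕ) (u : List Bool) :
    IsCNF k (build k q W J v p ((n, F), (t, u))).1 (build k q W J v p ((n, F), (t, u))).2 := by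
  refine ⟨nodup_ddp _, ?_⟩
  intro C hC
  have h1 : C ∈ F ++ gen k n (lg n) (W * lg n + 1) (widv v (vec q p (J + 1) n t))
      (vec q p (J + 1) n t).sum n u := (mem_ddp _ _).mp hC
  rcases List.mem_append.mp h1 with h2 | h2
  · refine ⟨(hF.2 C h2).1, fun l hl => ?_⟩
    exact lt_of_lt_of_le ((hF.2 C h2).2 l hl) (Nat.le_add_right _ _)
  · exact gen_isCNF hk _ _ _ (le_refl n) C h2

open Classical in
theorem step_main {k : ℕ} (hk : 3 ≤ k) {q J W : ℕ} {v p : ℕ → ℕ} {α lam D : ℝ}
    (hlam : 0 ≤ lam) (hα : 0 ≤ α) (hq : 0 < q)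
    (hodd : ∀ j, Odd (v j)) (hW : ∀ j, v j ≤ W) (hmono : Monotone p) (hJ : p J = q)
    (hprod : ∀ n N : ℕ, 1 ≤ n → n ≤ N → N ≤ 2 * n → Real.exp (-(lam * n + D)) ≤
      ∏ e ∈ range n, (1 - Helper38.ISO.rho N (v (lev (fun j => p j * n / q) (e + 1))) ^ (e + 1)))
    (haux : ∀ n : ℕ, ((∑ j ∈ range (J + 1), p j * n / q * naux k (v j) (v j) : ℕ) : ℝ) ≤ α * n)
    {c ε : ℝ} (hc : 0 ≤ c) (hε : 0 < ε) (hsol : SolvedIn k True c) :
    SolvedIn k False (c * (1 + α) + lam / Real.log 2 + ε) := by
  have hx : Poly (fun x : ℕ × ℕ => x.1) := PT.Poly.id.fst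
  refine transfer (D := max D 0) (e := J + 1) hα hlam (fun n => (n + 1) ^ (J + 1))
    (fun x => (vec q p (J + 1) x.1 x.2).sum * (W * lg x.1 + 1)) (build k q W J v p)
    ?_ ?_ (poly_build k q W J v p hk) ?_ ?_ hc hε hsol
  · exact (PT.Poly.add PT.Poly.id (PT.Poly.const 1)).pow (J + 1)
  · exact PT.Poly.mul (poly_vecsum q J p)
      (PT.Poly.add (PT.Poly.mul (PT.Poly.const W) (poly_lg hx)) (PT.Poly.const 1))
  · intro n F hF t _ u _
    refine ⟨isCNF_build hk hF t u, ?_, ?_⟩
    · have h1 := nall_vec_le k q n (J + 1) v p t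
      have h2 : ((nall k (widv v (vec q p (J + 1) n t)) (vec q p (J + 1) n t).sum : ℕ) : ℝ)
          ≤ α * n := le_trans (by exact_mod_cast h1) (haux n)
      have h3 : (build k q W J v p ((n, F), (t, u))).1
          = n + nall k (widv v (vec q p (J + 1) n t)) (vec q p (J + 1) n t).sum := rfl
      rw [h3]
      push_cast
      linarith
    · intro h
      obtain ⟨x, hx, _⟩ := (gen_nonempty hk hF _ u).mp h
      exact ⟨x, hx⟩
  · intro n F hF hs
    rcases Nat.eq_zero_or_pos n with hn | hn
    · subst hn
      refine ⟨0, Nat.zero_le _, ?_⟩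
      have hv : ∀ (K : ℕ) (p : ℕ → ℕ), (vec q p K 0 0).sum = 0 := by
        intro K
        induction K with
        | zero => intro p; rfl
        | succ K ih => intro p; simp [vec, ih]
      simp only [hv, zero_mul, E]
      rw [if_pos]
      · rw [div_le_one (by positivity)]
        have h1 : Real.exp (-(lam * ((0 : ℕ) : ℝ) + max D 0)) ≤ 1 := by
          rw [Real.exp_le_one_iff]
          have := le_max_right D 0
          simp
        refine h1.trans (one_le_pow₀ ?_)
        norm_num
      · have h1 := (gen_unique (b := lg 0) (m := W * lg 0 + 1) (w := widv v (vec q p (J + 1) 0 0))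
          hk hF (vec q p (J + 1) 0 0).sum []).mpr
        refine h1 ?_
        obtain ⟨x, hx⟩ := hs
        refine ⟨x, ⟨hx, ?_⟩, fun y _ => Subsingleton.elim _ _⟩
        rw [hv]
        trivial
    · have hb : n ≤ 2 ^ lg n := le_lg n
      have hb2 : 2 ^ lg n ≤ 2 * n := lg_le n hn
      have ha : Monotone (fun j => p j * n / q) := fun i j hij =>
        Nat.div_le_div_right (Nat.mul_le_mul_right n (hmono hij))
      have haJ : n ≤ p J * n / q := by rw [hJ, Nat.mul_div_cancel_left _ hq]
      have h1 := (hprod n (2 ^ lg n) hn hb hb2).trans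
        (iso_vec (J := J) hn hb v (fun j => p j * n / q) hodd hW ha haJ (sols n F) hs)
      set P := Fintype.piFinset (fun j : Fin (J + 1) => range (p j * n / q + 1)) with hP
      set f : (Fin (J + 1) → ℕ) → ℝ := fun t =>
        E ((List.ofFn t).sum * (W * lg n + 1)) (fun u => if ∃! x, x ∈ sols n F ∧
          Meets n (lg n) (W * lg n + 1) (widv v (List.ofFn t)) (ext x) (List.ofFn t).sum u
          then 1 else 0) with hf
      have hne : P.Nonempty := by
        refine ⟨fun _ => 0, ?_⟩
        simp [hP, Fintype.mem_piFinset]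
      obtain ⟨t, ht, hft⟩ := Finset.exists_max_image P f hne
      have h2 : ∑ s ∈ P, f s ≤ (P.card : ℝ) * f t := by
        have := Finset.sum_le_card_nsmul P f (f t) hft
        rwa [nsmul_eq_mul] at this
      have hpq : ∀ j : Fin (J + 1), p j * n / q ≤ n := by
        intro j
        have h3 : p j ≤ q := by rw [← hJ]; exact hmono (by omega)
        calc p j * n / q ≤ q * n / q := Nat.div_le_div_right (Nat.mul_le_mul_right n h3)
          _ = n := Nat.mul_div_cancel_left _ hq
      have hcard : (P.card : ℝ) ≤ (((n + 2 : ℕ) : ℝ)) ^ (J + 1) := by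
        have h3 : P.card ≤ (n + 2) ^ (J + 1) := by
          rw [hP, Fintype.card_piFinset]
          calc ∏ j : Fin (J + 1), (range (p j * n / q + 1)).card
              ≤ ∏ _j : Fin (J + 1), (n + 2) := by
                apply Finset.prod_le_prod' 
                intro j _
                rw [card_range]
                have := hpq j
                omega
            _ = _ := by simp
        exact_mod_cast h3
      have htm := Fintype.mem_piFinset.mp (hP ▸ ht)
      have hget : ∀ j < J + 1, (List.ofFn t).getD j 0 ≤ n ∧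
          (List.ofFn t).getD j 0 ≤ p j * n / q := by
        intro j hj
        have h3 : (List.ofFn t).getD j 0 = t ⟨j, hj⟩ := by
          rw [List.getD_eq_getElem _ _ (by simpa using hj), List.getElem_ofFn]
        have h4 := htm ⟨j, hj⟩
        rw [mem_range] at h4
        have h5 := hpq ⟨j, hj⟩
        simp only at h4 h5
        rw [h3]
        omega
      obtain ⟨code, hcode, hvec⟩ := exists_code q n (J + 1) p (List.ofFn t) (by simp) hget
      refine ⟨code, hcode.le, ?_⟩
      have hpos : (0 : ℝ) < ((n + 2 : ℕ) : ℝ) ^ (J + 1) := by positivity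
      rw [div_le_iff₀ hpos]
      have hEq : E ((vec q p (J + 1) (n, code).1 (n, code).2).sum * (W * lg (n, code).1 + 1))
          (fun u => if ∃! x, x ∈ sols (build k q W J v p ((n, F), (code, u))).1
            (build k q W J v p ((n, F), (code, u))).2 then (1 : ℝ) else 0) = f t := by
        simp only [hf]
        rw [hvec]
        congr 1
        funext u
        have h6 := gen_unique (b := lg n) (m := W * lg n + 1)
          (w := widv v (vec q p (J + 1) n code)) hk hF (vec q p (J + 1) n code).sum u
        rw [hvec] at h6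
        have h7 : (∃! x, x ∈ sols (build k q W J v p ((n, F), (code, u))).1
            (build k q W J v p ((n, F), (code, u))).2) ↔ ∃! x, x ∈ sols n F ∧
            Meets n (lg n) (W * lg n + 1) (widv v (List.ofFn t)) (ext x) (List.ofFn t).sum u := by
          rw [← h6]
          show (∃! x, x ∈ sols (n + nall k (widv v (vec q p (J + 1) n code))
            (vec q p (J + 1) n code).sum) (ddp (F ++ gen k n (lg n) (W * lg n + 1)
            (widv v (vec q p (J + 1) n code)) (vec q p (J + 1) n code).sum n u))) ↔ _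
          rw [hvec]
        simp only [h7]
      have hft0 : 0 ≤ f t := by
        rw [← hEq]
        exact E_nonneg _ fun u _ => by split_ifs <;> norm_num
      have h8 : Real.exp (-(lam * n + max D 0)) ≤ Real.exp (-(lam * n + D)) := by
        apply Real.exp_le_exp.mpr
        have := le_max_left D 0
        linarith
      calc Real.exp (-(lam * n + max D 0)) ≤ (P.card : ℝ) * f t := h8.trans (h1.trans h2)
        _ ≤ ((n + 2 : ℕ) : ℝ) ^ (J + 1) * f t := mul_le_mul_of_nonneg_right hcard hft0
        _ = _ := by rw [← hEq, mul_comm]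

/-- The comparison for each constant `μ`. -/
theorem comparison_step : ∃ C : ℝ, 0 < C ∧ ∀ k : ℕ, 3 ≤ k → ∀ μ : ℝ, 0 < μ → μ ≤ 1 →
    ∀ c ε : ℝ, 0 ≤ c → 0 < ε → SolvedIn k True c →
    SolvedIn k False (c * (1 + C * (1 + Real.log (1 / μ)) ^ 2 / k) + C * μ / k / Real.log 2 + ε) := by
  obtain ⟨C, hC, h⟩ := schedule
  refine ⟨C, hC, ?_⟩
  intro k hk μ hμ0 hμ1 c ε hc hε hsol
  obtain ⟨q, J, W, v, p, D, hq, hodd, hW, hmono, -, hJ, -, hprod, haux⟩ := h k hk μ hμ0 hμ1
  exact step_main hk (by positivity) (by positivity) hq hodd hW hmono hJ hprod haux hc hε hsol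

end Pool.Agent.Helper77.SK
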