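import Pool.Agent.Helper77.SK.Final1
import Pool.Agent.Helper77.SK.Brute

/-!
# The comparison of the exponents
-/

set_option autoImplicit false

namespace Pool.Agent.Helper77.SK

theorem SolvedIn.weaken {k : ℕ} {c : ℝ} (h : SolvedIn k False c) : SolvedIn k True c := by
  obtain ⟨A, C, d, hA⟩ := h
  exact ⟨A, C, d, fun n F hF _ => hA n F hF (fun h => h.elim)⟩

theorem sset_nonempty (k : ℕ) : {c : ℝ | 0 ≤ c ∧ SolvedIn k False c}.Nonempty :=
  ⟨1, zero_le_one, solvedIn_one k⟩

theorem sset_bdd (k : ℕ) (u : Prop) : BddBelow {c : ℝ | 0 ≤ c ∧ SolvedIn k u c} :=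
  ⟨0, fun _ h => h.1⟩

theorem sigmaset_nonempty (k : ℕ) : {c : ℝ | 0 ≤ c ∧ SolvedIn k True c}.Nonempty :=
  ⟨1, zero_le_one, (solvedIn_one k).weaken⟩

theorem sigma_le_s (k : ℕ) : sigma k ≤ s k :=
  csInf_le_csInf (sset_bdd k True) (sset_nonempty k) fun _ h => ⟨h.1, h.2.weaken⟩

theorem s_le_one (k : ℕ) : s k ≤ 1 := csInf_le (sset_bdd k False) ⟨zero_le_one, solvedIn_one k⟩

theorem sigma_nonneg (k : ℕ) : 0 ≤ sigma k :=
  le_csInf (sigmaset_nonempty k) fun _ h => h.1

/-- A bound for all exponents of algorithms for unique `k`-SAT gives a bound for `s k`. -/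
theorem s_le_of_step {k : ℕ} {a b : ℝ} (ha : 0 ≤ a) (hb : 0 ≤ b)
    (h : ∀ c ε : ℝ, 0 ≤ c → 0 < ε → SolvedIn k True c → SolvedIn k False (c * a + b + ε)) :
    s k ≤ sigma k * a + b := by
  apply le_of_forall_pos_le_add
  intro ε hε
  obtain ⟨c, ⟨hc0, hc⟩, hcl⟩ := exists_lt_of_csInf_lt (sigmaset_nonempty k)
    (show sInf {c : ℝ | 0 ≤ c ∧ SolvedIn k True c} < sigma k + ε / (2 * (a + 1)) by
      have : 0 < ε / (2 * (a + 1)) := by positivity
      unfold sigma
      linarith)
  have h1 : s k ≤ c * a + b + ε / 2 :=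
    csInf_le (sset_bdd k False) ⟨by positivity, h c (ε / 2) hc0 (by positivity) hc⟩
  have h2 : c * a ≤ sigma k * a + ε / 2 := by
    have h3 : c * a ≤ (sigma k + ε / (2 * (a + 1))) * a := mul_le_mul_of_nonneg_right hcl.le ha
    have h4 : ε / (2 * (a + 1)) * a ≤ ε / 2 := by
      rw [div_mul_eq_mul_div, div_le_div_iff₀ (by positivity) (by norm_num)]
      nlinarith
    nlinarith
  linarith

theorem comparison : ∃ C : ℝ, ∀ k : ℕ, 3 ≤ k →
    s k ≤ sigma k * (1 + C * (1 + |Real.log (sigma k)|) ^ 2 / k) := by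
  obtain ⟨C, hC, hstep⟩ := comparison_step
  have hl2 : 0 < Real.log 2 := Real.log_pos (by norm_num)
  have key : ∀ k : ℕ, 3 ≤ k → ∀ μ : ℝ, 0 < μ → μ ≤ 1 →
      s k ≤ sigma k * (1 + C * (1 + Real.log (1 / μ)) ^ 2 / k) + C * μ / k / Real.log 2 := by
    intro k hk μ hμ0 hμ1
    exact s_le_of_step (by positivity) (by positivity)
      (fun c ε hc hε h => hstep k hk μ hμ0 hμ1 c ε hc hε h)
  refine ⟨C + C / Real.log 2, fun k hk => ?_⟩
  have hk0 : (0 : ℝ) < k := by exact_mod_cast (show 0 < k by omega)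
  have hs1 : sigma k ≤ 1 := (sigma_le_s k).trans (s_le_one k)
  rcases (sigma_nonneg k).eq_or_lt with h0 | h0
  · rw [← h0, zero_mul]
    apply le_of_forall_pos_le_add
    intro ε hε
    have h1 := key k hk (min 1 (ε * (k * Real.log 2) / C)) (by positivity) (min_le_left _ _)
    rw [← h0, zero_mul, zero_add] at h1
    refine h1.trans ?_
    have h2 : min 1 (ε * (k * Real.log 2) / C) ≤ ε * (k * Real.log 2) / C := min_le_right _ _
    calc C * min 1 (ε * (k * Real.log 2) / C) / k / Real.log 2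
        ≤ C * (ε * (k * Real.log 2) / C) / k / Real.log 2 := by gcongr
      _ = 0 + ε := by field_simp; ring
  · have h1 := key k hk (sigma k) h0 hs1
    have h2 : Real.log (1 / sigma k) = |Real.log (sigma k)| := by
      rw [abs_of_nonpos (Real.log_nonpos h0.le hs1), one_div, Real.log_inv]
    rw [h2] at h1
    refine h1.trans ?_
    set L := |Real.log (sigma k)| with hL
    have hL0 : 0 ≤ L := abs_nonneg _
    have h3 : (1 : ℝ) ≤ (1 + L) ^ 2 := by nlinarith
    have h4 : C * sigma k / k / Real.log 2 ≤ sigma k * (C / Real.log 2 * (1 + L) ^ 2 / k) := by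
      have h5 : C * sigma k / k / Real.log 2 = sigma k * (C / Real.log 2 * 1 / k) := by
        field_simp
      rw [h5]
      gcongr
    calc sigma k * (1 + C * (1 + L) ^ 2 / k) + C * sigma k / k / Real.log 2
        ≤ sigma k * (1 + C * (1 + L) ^ 2 / k) + sigma k * (C / Real.log 2 * (1 + L) ^ 2 / k) := by
          linarith
      _ = sigma k * (1 + (C + C / Real.log 2) * (1 + L) ^ 2 / k) := by ring

end Pool.Agent.Helper77.SK
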