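import Pool.Agent.Helper77.SK.Basic
import Pool.Agent.Helper38.ISO.Rec

/-!
# Isolation by parity constraints of several widths
-/

set_option autoImplicit false

namespace Pool.Agent.Helper77.SK

open Finset Pool.Agent.Helper38.ISO

/-- Average of `f` over the restrictions of `S` by one random parity constraint of width `m`. -/
noncomputable def Av (N m : ℕ) (f : Finset (Fin N → ZMod 2) → ℝ) (S : Finset (Fin N → ZMod 2)) : ℝ :=
  (∑ c : Par N m, f (S.filter (psat c))) / Fintype.card (Par N m)

/-- Exactly one element. -/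
noncomputable def sgl {N : ℕ} (S : Finset (Fin N → ZMod 2)) : ℝ := if S.card = 1 then 1 else 0

/-- Probability that `T` random parity constraints isolate; the `e`-th from the last one has the
width `w e`. -/
noncomputable def Pw (N : ℕ) (w : ℕ → ℕ) : ℕ → Finset (Fin N → ZMod 2) → ℝ
  | 0 => sgl
  | T + 1 => Av N (w (T + 1)) (Pw N w T)

lemma Av_nonneg {N m : ℕ} {f : Finset (Fin N → ZMod 2) → ℝ} (hf : ∀ S, 0 ≤ f S)
    (S : Finset (Fin N → ZMod 2)) : 0 ≤ Av N m f S :=
  div_nonneg (Finset.sum_nonneg fun _ _ => hf _) (Nat.cast_nonneg _)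

lemma Av_mono {N m : ℕ} {f g : Finset (Fin N → ZMod 2) → ℝ} (h : ∀ S, f S ≤ g S)
    (S : Finset (Fin N → ZMod 2)) : Av N m f S ≤ Av N m g S :=
  div_le_div_of_nonneg_right (Finset.sum_le_sum fun _ _ => h _) (Nat.cast_nonneg _)

lemma Av_sum {N m : ℕ} {ι : Type*} (s : Finset ι) (f : ι → Finset (Fin N → ZMod 2) → ℝ)
    (S : Finset (Fin N → ZMod 2)) :
    Av N m (fun S => ∑ i ∈ s, f i S) S = ∑ i ∈ s, Av N m (f i) S := by
  unfold Av
  rw [Finset.sum_comm, Finset.sum_div]

lemma Av_iter_nonneg {N m : ℕ} {f : Finset (Fin N → ZMod 2) → ℝ} (hf : ∀ S, 0 ≤ f S) (t : ℕ) :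
    ∀ S, 0 ≤ (Av N m)^[t] f S := by
  induction t with
  | zero => exact hf
  | succ t ih =>
    intro S
    rw [Function.iterate_succ_apply']
    exact Av_nonneg ih S

lemma Av_iter_sum {N m : ℕ} {ι : Type*} (s : Finset ι) (f : ι → Finset (Fin N → ZMod 2) → ℝ)
    (t : ℕ) : (Av N m)^[t] (fun S => ∑ i ∈ s, f i S) = fun S => ∑ i ∈ s, (Av N m)^[t] (f i) S := by
  induction t with
  | zero => rfl
  | succ t ih =>
    rw [Function.iterate_succ_apply', ih]
    funext S
    rw [Av_sum]
    exact Finset.sum_congr rfl fun i _ => by rw [Function.iterate_succ_apply']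

/-- Sums over all vectors of numbers of constraints. -/
noncomputable def FF (N : ℕ) (v a : ℕ → ℕ) : ℕ → Finset (Fin N → ZMod 2) → ℝ
  | 0 => sgl
  | j + 1 => fun S => ∑ t ∈ range (a j + 1), (Av N (v j))^[t] (FF N v a j) S

lemma FF_nonneg (N : ℕ) (v a : ℕ → ℕ) : ∀ j S, 0 ≤ FF N v a j S
  | 0, S => by
      simp only [FF, sgl]
      split_ifs
      · exact zero_le_one
      · exact le_refl 0
  | j + 1, S => by
      simp only [FF]
      exact Finset.sum_nonneg fun t _ => Av_iter_nonneg (FF_nonneg N v a j) t S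

/-- The product. -/
noncomputable def PiV (N : ℕ) (v a : ℕ → ℕ) (d : ℕ) : ℝ :=
  ∏ e ∈ range d, (1 - rho N (v (lev a (e + 1))) ^ (e + 1))

lemma PiV_nonneg (N : ℕ) (v a : ℕ → ℕ) (d : ℕ) : 0 ≤ PiV N v a d :=
  Finset.prod_nonneg fun _ _ => factor_nonneg _ _ _

lemma PiV_succ (N : ℕ) (v a : ℕ → ℕ) (d : ℕ) :
    PiV N v a (d + 1) = PiV N v a d * (1 - rho N (v (lev a (d + 1))) ^ (d + 1)) := by
  simp [PiV, Finset.prod_range_succ]

lemma PiV_anti (N : ℕ) (v a : ℕ → ℕ) {d d' : ℕ} (h : d ≤ d') : PiV N v a d' ≤ PiV N v a d := by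
  induction d', h using Nat.le_induction with
  | base => exact le_refl _
  | succ k _ ih =>
    rw [PiV_succ]
    have h1 := factor_le_one N (v (lev a (k + 1))) k
    have h2 := PiV_nonneg N v a k
    nlinarith

lemma lev_eq {a : ℕ → ℕ} (ha : Monotone a) {j e : ℕ} (h1 : e ≤ a j)
    (h2 : ∀ i, j = i + 1 → a i < e) : lev a e = j := by
  have hle : lev a e ≤ j := Nat.sInf_le (show j ∈ {j | e ≤ a j} from h1)
  unfold lev at hle ⊢
  apply le_antisymm hle
  by_contra hlt
  push Not at hlt
  have hm : sInf {i | e ≤ a i} ∈ {i | e ≤ a i} := Nat.sInf_mem ⟨j, h1⟩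
  have h3 := h2 (j - 1) (by omega)
  have h4 : a (sInf {i | e ≤ a i}) ≤ a (j - 1) := ha (by omega)
  have h5 : e ≤ a (sInf {i | e ≤ a i}) := hm
  omega

/-- One step with a constraint of width `m`. -/
lemma step_ge {N m d : ℕ} (hN : 1 ≤ N) (hm : Odd m) (f : Finset (Fin N → ZMod 2) → ℝ)
    (hf : ∀ S, 0 ≤ f S) (x : ℝ) (hx : 0 ≤ x)
    (h : ∀ S : Finset (Fin N → ZMod 2), S.Nonempty → dm S ≤ d → x ≤ f S)
    (S : Finset (Fin N → ZMod 2)) (hS : dm S = d + 1) :
    x * (1 - rho N m ^ (d + 1)) ≤ Av N m f S := by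
  classical
  have hcard : (0 : ℝ) < Fintype.card (Par N m) := by
    have : Nonempty (Par N m) := ⟨(fun _ => ⟨0, hN⟩, 0)⟩
    exact_mod_cast Fintype.card_pos
  unfold Av
  rw [le_div_iff₀ hcard]
  have e2 : ∀ c : Par N m, (if ¬ (∀ x ∈ dir S, ell c.1 x = 0) then x else 0)
      ≤ f (S.filter (psat c)) := by
    intro c
    split_ifs with hc
    · exact hf _
    · have hlt := dm_filter_lt S c hc
      rw [hS] at hlt
      exact h _ (filter_nonempty S c hc) (by omega)
  calc x * (1 - rho N m ^ (d + 1)) * Fintype.card (Par N m)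
      = x * ((1 - rho N m ^ dm S) * Fintype.card (Par N m)) := by rw [hS]; ring
    _ ≤ x * ((univ.filter fun c : Par N m => ¬ ∀ x ∈ dir S, ell c.1 x = 0).card : ℝ) :=
        mul_le_mul_of_nonneg_left (card_nonconst hN hm S) hx
    _ = ∑ c : Par N m, (if ¬ (∀ x ∈ dir S, ell c.1 x = 0) then x else 0) := by
        rw [← Finset.sum_filter, Finset.sum_const, nsmul_eq_mul]; ring
    _ ≤ _ := Finset.sum_le_sum fun c _ => e2 c

/-- The recursion in one block. -/
lemma block_ge {N : ℕ} (hN : 1 ≤ N) (v a : ℕ → ℕ) (hodd : ∀ j, Odd (v j)) (ha : Monotone a)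
    (j : ℕ) (ih : ∀ S : Finset (Fin N → ZMod 2), S.Nonempty → (∀ i, j = i + 1 → dm S ≤ a i) →
      (j = 0 → dm S = 0) → PiV N v a (dm S) ≤ FF N v a j S) :
    ∀ (d m : ℕ) (S : Finset (Fin N → ZMod 2)), S.Nonempty → dm S ≤ d → d ≤ m → dm S ≤ a j →
      PiV N v a (dm S) ≤ ∑ t ∈ range (m + 1), (Av N (v j))^[t] (FF N v a j) S := by
  intro d
  induction d with
  | zero =>
    intro m S hS hd _ _
    have h0 : dm S = 0 := by omega
    have h1 := ih S hS (fun i _ => by omega) (fun _ => h0)
    refine h1.trans ?_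
    have := Finset.single_le_sum (f := fun t => (Av N (v j))^[t] (FF N v a j) S)
      (fun t _ => Av_iter_nonneg (FF_nonneg N v a j) t S)
      (Finset.mem_range.mpr (Nat.succ_pos m))
    simpa using this
  | succ d ihd =>
    intro m S hS hd hm haj
    by_cases hc : (∀ i, j = i + 1 → dm S ≤ a i) ∧ (j = 0 → dm S = 0)
    · refine (ih S hS hc.1 hc.2).trans ?_
      have := Finset.single_le_sum (f := fun t => (Av N (v j))^[t] (FF N v a j) S)
        (fun t _ => Av_iter_nonneg (FF_nonneg N v a j) t S)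
        (Finset.mem_range.mpr (Nat.succ_pos m))
      simpa using this
    · obtain ⟨e, he⟩ : ∃ e, dm S = e + 1 := by
        refine ⟨dm S - 1, ?_⟩
        by_contra hne
        have h0 : dm S = 0 := by omega
        exact hc ⟨fun i _ => by omega, fun _ => h0⟩
      have hlev : lev a (e + 1) = j := by
        apply lev_eq ha (by omega)
        intro i hi
        by_contra hle
        push Not at hle
        apply hc
        constructor
        · intro i' hi'
          have : i' = i := by omega
          subst this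
          omega
        · intro h0; omega
      obtain ⟨m', rfl⟩ : ∃ m', m = m' + 1 := ⟨m - 1, by omega⟩
      have h1 : PiV N v a (e + 1) ≤
          Av N (v j) (fun S => ∑ t ∈ range (m' + 1), (Av N (v j))^[t] (FF N v a j) S) S := by
        rw [PiV_succ, hlev]
        apply step_ge hN (hodd j) _ _ _ (PiV_nonneg N v a e)
        · intro S' hS' hd'
          refine (PiV_anti N v a hd').trans ?_
          exact ihd m' S' hS' (by omega) (by omega) (by omega)
        · exact he
        · intro S'
          exact Finset.sum_nonneg fun t _ => Av_iter_nonneg (FF_nonneg N v a j) t S'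
      rw [he]
      refine h1.trans ?_
      rw [Av_sum, Finset.sum_range_succ' _ (m' + 1)]
      have h2 : 0 ≤ (Av N (v j))^[0] (FF N v a j) S := Av_iter_nonneg (FF_nonneg N v a j) 0 S
      have h3 : ∑ i ∈ range (m' + 1), Av N (v j) ((Av N (v j))^[i] (FF N v a j)) S =
          ∑ k ∈ range (m' + 1), (Av N (v j))^[k + 1] (FF N v a j) S :=
        Finset.sum_congr rfl fun i _ => by rw [Function.iterate_succ_apply']
      rw [h3]
      linarith

theorem FF_ge {N : ℕ} (hN : 1 ≤ N) (v a : ℕ → ℕ) (hodd : ∀ j, Odd (v j)) (ha : Monotone a) :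
    ∀ (j : ℕ) (S : Finset (Fin N → ZMod 2)), S.Nonempty → (∀ i, j = i + 1 → dm S ≤ a i) →
      (j = 0 → dm S = 0) → PiV N v a (dm S) ≤ FF N v a j S := by
  intro j
  induction j with
  | zero =>
    intro S hS _ h0
    have h1 := h0 rfl
    have := card_one_of_dm_zero S hS h1
    simp [FF, sgl, this, h1, PiV]
  | succ j ih =>
    intro S hS h1 _
    have h2 := h1 j rfl
    exact block_ge hN v a hodd ha j ih (a j) (a j) S hS h2 le_rfl h2

/-! ### From the recursion to vectors -/

lemma widv_append (v : ℕ → ℕ) (ts : List ℕ) (t e : ℕ) (he : 1 ≤ e) (ht : e ≤ ts.sum + t) :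
    widv v (ts ++ [t]) e = if e ≤ ts.sum then widv v ts e else v ts.length := by
  induction ts generalizing v e with
  | nil =>
    have h1 : e ≤ t := by simpa using ht
    have h2 : ¬ e ≤ ([] : List ℕ).sum := by simp; omega
    rw [if_neg h2]
    change (if e ≤ t then v 0 else _) = v 0
    rw [if_pos h1]
  | cons s ts ih =>
    have hs : (s :: ts).sum = s + ts.sum := List.sum_cons
    change (if e ≤ s then v 0 else widv (fun j => v (j + 1)) (ts ++ [t]) (e - s)) =
      if e ≤ (s :: ts).sum then (if e ≤ s then v 0 else widv (fun j => v (j + 1)) ts (e - s))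
        else v (ts.length + 1)
    rw [hs] at ht
    by_cases h : e ≤ s
    · have h3 : e ≤ (s :: ts).sum := by omega
      rw [if_pos h, if_pos h3, if_pos h]
    · rw [if_neg h, if_neg h, ih (fun j => v (j + 1)) (e - s) (by omega) (by omega)]
      by_cases h2 : e ≤ s + ts.sum
      · have h3 : e ≤ (s :: ts).sum := by omega
        have h4 : e - s ≤ ts.sum := by omega
        rw [if_pos h3, if_pos h4]
      · have h3 : ¬ e ≤ (s :: ts).sum := by omega
        have h4 : ¬ e - s ≤ ts.sum := by omega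
        rw [if_neg h3, if_neg h4]

lemma Pw_congr {N : ℕ} {w w' : ℕ → ℕ} : ∀ (T : ℕ), (∀ e, 1 ≤ e → e ≤ T → w e = w' e) →
    Pw N w T = Pw N w' T
  | 0, _ => rfl
  | T + 1, h => by
      simp only [Pw]
      rw [Pw_congr T (fun e h1 h2 => h e h1 (by omega)), h (T + 1) (by omega) le_rfl]

lemma Pw_block {N : ℕ} {w : ℕ → ℕ} (m T : ℕ) : ∀ t : ℕ, (∀ e, T < e → e ≤ T + t → w e = m) →
    Pw N w (T + t) = (Av N m)^[t] (Pw N w T)
  | 0, _ => rfl
  | t + 1, h => by
      rw [← Nat.add_assoc, Function.iterate_succ_apply', ← Pw_block m T t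
        (fun e h1 h2 => h e h1 (by omega))]
      simp only [Pw]
      rw [h (T + t + 1) (by omega) (by omega)]

lemma Pw_widv {N : ℕ} (v : ℕ → ℕ) (ts : List ℕ) (t : ℕ) :
    Pw N (widv v (ts ++ [t])) (ts ++ [t]).sum =
      (Av N (v ts.length))^[t] (Pw N (widv v ts) ts.sum) := by
  have h1 : (ts ++ [t]).sum = ts.sum + t := by simp
  rw [h1, Pw_block (v ts.length) ts.sum t]
  · congr 1
    apply Pw_congr
    intro e h2 h3
    rw [widv_append v ts t e h2 (by omega), if_pos h3]
  · intro e h2 h3
    rw [widv_append v ts t e (by omega) h3, if_neg (by omega)]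

theorem FF_eq {N : ℕ} (v a : ℕ → ℕ) : ∀ (J : ℕ) (S : Finset (Fin N → ZMod 2)),
    FF N v a J S = ∑ t ∈ Fintype.piFinset (fun j : Fin J => range (a j + 1)),
      Pw N (widv v (List.ofFn t)) (List.ofFn t).sum S
  | 0, S => by
      simp [FF, Pw]
  | J + 1, S => by
      have ih := funext (FF_eq (N := N) v a J)
      simp only [FF]
      rw [ih]
      simp only [Av_iter_sum]
      rw [Finset.sum_sigma' (range (a J + 1))
        (fun _ => Fintype.piFinset (fun j : Fin J => range (a j + 1)))]
      symm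
      refine Finset.sum_bij' (fun t _ => ⟨t (Fin.last J), fun j => t j.castSucc⟩)
        (fun p _ => Fin.snoc (α := fun _ => ℕ) p.2 p.1) ?_ ?_ ?_ ?_ ?_
      · intro t ht
        rw [Fintype.mem_piFinset] at ht
        simp only [Finset.mem_sigma, Fintype.mem_piFinset]
        exact ⟨by simpa using ht (Fin.last J), fun j => by simpa using ht j.castSucc⟩
      · intro p hp
        simp only [Finset.mem_sigma, Fintype.mem_piFinset] at hp
        rw [Fintype.mem_piFinset]
        intro j
        refine Fin.lastCases ?_ (fun i => ?_) j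
        · simpa using hp.1
        · simpa using hp.2 i
      · intro t _
        funext j
        refine Fin.lastCases ?_ (fun i => ?_) j <;> simp
      · intro p _
        simp
      · intro t _
        have h1 : List.ofFn t = List.ofFn (fun j : Fin J => t j.castSucc) ++ [t (Fin.last J)] := by
          rw [List.ofFn_succ', List.concat_eq_append]
        rw [h1, Pw_widv, List.length_ofFn]

end Pool.Agent.Helper77.SK
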