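import Pool.Agent.Helper77.SK.Mach4

/-!
# The machine theorem: from unique `k`-SAT to `k`-SAT by random formulas
-/

set_option autoImplicit false

namespace Pool.Agent.Helper77.SK

open Pool.Agent.Helper86 Pool.Agent.Helper86.PT Alg Finset

theorem pb_pow {f : ℕ → ℕ} (hf : PB f) : ∃ d : ℕ, ∀ n, f n ≤ n ^ d + d := by
  obtain ⟨k, hk⟩ := hf
  refine ⟨2 * k + 3 ^ k, fun n => (hk n).trans ?_⟩
  rcases Nat.lt_or_ge n 2 with h | h
  · have h1 : (n + 2) ^ k ≤ 3 ^ k := Nat.pow_le_pow_left (by omega) k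
    exact h1.trans ((Nat.le_add_left _ _).trans (Nat.le_add_left _ _))
  · have h1 : (n + 2) ^ k ≤ (n ^ 2) ^ k := Nat.pow_le_pow_left (by nlinarith) k
    have h2 : (n ^ 2) ^ k ≤ n ^ (2 * k + 3 ^ k) := by
      rw [← pow_mul]
      exact Nat.pow_le_pow_right (by omega) (Nat.le_add_right _ _)
    exact h1.trans (h2.trans (Nat.le_add_right _ _))

theorem tsz_bools (l : List Bool) : tsz l ≤ 4 * l.length + 1 := by
  induction l with
  | nil => simp [tsz_nil]
  | cons b l ih =>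
    rw [tsz_cons, List.length_cons]
    have := tsz_bool_le b
    omega

theorem tsz_inl {α β : Type} [TEnc α] [TEnc β] (a : α) : tsz (Sum.inl a : α ⊕ β) = tsz a + 2 := by
  show (T.cons T.nil (toT a)).size = _
  rw [T.size_cons, T.size_nil]
  show 1 + tsz a + 1 = _
  omega

theorem tsz_inr {α β : Type} [TEnc α] [TEnc β] (b : β) : tsz (Sum.inr b : α ⊕ β) = tsz b + 4 := by
  show (T.cons (T.cons T.nil T.nil) (toT b)).size = _
  rw [T.size_cons, T.size_cons, T.size_nil]
  show 1 + 1 + 1 + tsz b + 1 = _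
  omega

theorem tsz_state (A : Alg (ℕ × Frm)) (x : ℕ × Frm) (t : ℕ) (j : List Bool) (ph : Ph A) :
    tsz ((x, ((t, j), ph)) : CSt A) = tsz x + ((2 * t + 1 + tsz j + 1) + tsz ph + 1) + 1 := by
  have h1 : tsz ((x, ((t, j), ph)) : CSt A) = tsz x + tsz (((t, j), ph) : (ℕ × List Bool) × Ph A)
    + 1 := tsz_pair _ _
  have h2 : tsz (((t, j), ph) : (ℕ × List Bool) × Ph A) = tsz ((t, j) : ℕ × List Bool) + tsz ph
    + 1 := tsz_pair _ _
  have h3 : tsz ((t, j) : ℕ × List Bool) = tsz t + tsz j + 1 := tsz_pair _ _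
  rw [h1, h2, h3, tsz_nat]

open Classical in
theorem machine {k : ℕ} {c C : ℝ} {d : ℕ} (A : Alg (ℕ × Frm))
    (hA : ∀ (n : ℕ) (F : Frm), IsCNF k n F → (sols n F).Subsingleton →
      ∃ t : ℕ, (t : ℝ) ≤ C * 2 ^ (c * n) ∧ A.Halts (n ^ d + d) t (A.start (n, F)) ∧
        (¬ (sols n F).Nonempty → A.pYes t (A.start (n, F)) = 0) ∧
        ((sols n F).Nonempty → 2 / 3 ≤ A.pYes t (A.start (n, F))))
    (tm : ℕ → ℕ) (B rep clk : ℕ × ℕ → ℕ) (bld : (ℕ × Frm) × (ℕ × List Bool) → ℕ × Frm)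
    (htm : Poly tm) (hB : Poly B) (hrep : Poly rep) (hclk : Poly clk) (hbld : Poly bld)
    (h1 : ∀ (n : ℕ) (F : Frm), IsCNF k n F → ∀ t ≤ tm n, ∀ u : List Bool, u.length = B (n, t) →
      IsCNF k (bld ((n, F), (t, u))).1 (bld ((n, F), (t, u))).2 ∧
      C * 2 ^ (c * (bld ((n, F), (t, u))).1) < 2 ^ clk (n, t) ∧
      ((sols (bld ((n, F), (t, u))).1 (bld ((n, F), (t, u))).2).Nonempty → (sols n F).Nonempty))
    (h2 : ∀ (n : ℕ) (F : Frm), IsCNF k n F → (sols n F).Nonempty → ∃ t ≤ tm n,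
      (1 / 2 : ℝ) ^ rep (n, t) ≤ E (B (n, t)) (fun u =>
        if ∃! x, x ∈ sols (bld ((n, F), (t, u))).1 (bld ((n, F), (t, u))).2 then 1 else 0)) :
    ∃ (A' : Alg (ℕ × Frm)) (d' : ℕ), ∀ (n : ℕ) (F : Frm), IsCNF k n F → ∃ τ : ℕ,
      τ ≤ ∑ t ∈ range (tm n + 1), 2 ^ (rep (n, t) + 1) * (B (n, t) + 2 ^ clk (n, t) + 3) ∧
      A'.Halts (n ^ d' + d') τ (A'.start (n, F)) ∧
      (¬ (sols n F).Nonempty → A'.pYes τ (A'.start (n, F)) = 0) ∧
      ((sols n F).Nonempty → 2 / 3 ≤ A'.pYes τ (A'.start (n, F))) := by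
  obtain ⟨d0, hd0⟩ := size_frm k
  obtain ⟨bt, pt, mt, st⟩ := htm.size_bound
  obtain ⟨bB, pB, mB, sB⟩ := hB.size_bound
  obtain ⟨br, pr', mr, sr⟩ := hrep.size_bound
  obtain ⟨bc, pc, mc, sc⟩ := hclk.size_bound
  obtain ⟨bb, pb, mb, sb⟩ := hbld.size_bound
  obtain ⟨bi, pi', mi, si⟩ := A.poly_init.poly.size_bound
  obtain ⟨bs, ps, ms, ss⟩ := A.poly_step.poly.size_bound
  set RT : ℕ → ℕ := fun n => bt (2 * n + 1) with hRT
  have pRT : PB RT := pt.comp (((PB.const 2).mul PB.id).add (PB.const 1))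
  set NT : ℕ → ℕ := fun n => 2 * n + 2 * RT n + 3 with hNT
  have pnt : PB NT := (((PB.const 2).mul PB.id).add ((PB.const 2).mul pRT)).add (PB.const 3)
  have hTle : ∀ n, tm n ≤ RT n := by
    intro n
    have h3 := st n
    rw [tsz_nat, tsz_nat] at h3
    simp only [hRT]
    omega
  set RB : ℕ → ℕ := fun n => bB (NT n) with hRB
  set Rr : ℕ → ℕ := fun n => br (NT n) with hRr
  set Rc : ℕ → ℕ := fun n => bc (NT n) with hRc
  set X : ℕ → ℕ := fun n => n ^ d0 + d0 with hX
  set Y : ℕ → ℕ := fun n => bb (X n + (2 * RT n + 1) + (4 * RB n + 1) + 2) with hY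
  have pRB : PB RB := pB.comp pnt
  have pRr : PB Rr := pr'.comp pnt
  have pRc : PB Rc := pc.comp pnt
  have pX : PB X := (PB.id.pow d0).add (PB.const d0)
  have pY : PB Y := pb.comp (((pX.add (((PB.const 2).mul pRT).add (PB.const 1))).add
    (((PB.const 4).mul pRB).add (PB.const 1))).add (PB.const 2))
  obtain ⟨e, he⟩ := pY
  set L : ℕ → ℕ := fun n => ((n + 2) ^ e) ^ d + d with hL
  set lim : ℕ × ℕ → ℕ := fun p => ((p.1 + 2) ^ e) ^ d + d with hlimdef
  have pL : PB L := (((PB.id.add (PB.const 2)).pow e).pow d).add (PB.const d)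
  have hlim : Poly lim :=
    PT.Poly.add (((PT.Poly.add PT.Poly.id.fst (PT.Poly.const 2)).pow e).pow d) (PT.Poly.const d)
  set mQ : ℕ → ℕ := fun n => bi (Y n) + bs (2 * L n + 5) with hmQ
  set mW : ℕ → ℕ := fun n => tsz A.blank + bs (2 * L n + 5) with hmW
  have pS : PB (fun n => bs (2 * L n + 5)) := ps.comp (((PB.const 2).mul pL).add (PB.const 5))
  have pmQ : PB mQ := (pi'.comp ⟨e, he⟩).add pS
  have pmW : PB mW := (PB.const _).add pS
  set m : ℕ → ℕ := fun n => X n + (2 * RT n + 1) + (4 * (Rr n + 1) + 1) + (4 * RB n + 1) +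
    (2 * RB n + 1) + (4 * Rc n + 1) + mQ n + mW n + 20 with hm
  have pm : PB m := by
    refine PB.add (PB.add (PB.add (PB.add (PB.add (PB.add (PB.add (PB.add pX ?_) ?_) ?_) ?_) ?_)
      pmQ) pmW) (PB.const 20)
    · exact ((PB.const 2).mul pRT).add (PB.const 1)
    · exact ((PB.const 4).mul (pRr.add (PB.const 1))).add (PB.const 1)
    · exact ((PB.const 4).mul pRB).add (PB.const 1)
    · exact ((PB.const 2).mul pRB).add (PB.const 1)
    · exact ((PB.const 4).mul pRc).add (PB.const 1)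
  obtain ⟨d', hd'⟩ := pb_pow pm
  refine ⟨comb A bld htm hB hrep hclk hlim hbld, d', fun n F hF => ?_⟩
  have hxs : tsz ((n, F) : ℕ × Frm) ≤ X n := hd0 n F hF
  have hTn := hTle n
  have hnt : ∀ t ≤ tm n, tsz ((n, t) : ℕ × ℕ) ≤ NT n := by
    intro t ht
    rw [tsz_pair, tsz_nat, tsz_nat]
    simp only [hNT]
    omega
  have hBle : ∀ t ≤ tm n, B (n, t) ≤ RB n := by
    intro t ht
    have h3 := (sB (n, t)).trans (mB (hnt t ht))
    rw [tsz_nat] at h3
    simp only [hRB]
    omega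
  have hrle : ∀ t ≤ tm n, rep (n, t) ≤ Rr n := by
    intro t ht
    have h3 := (sr (n, t)).trans (mr (hnt t ht))
    rw [tsz_nat] at h3
    simp only [hRr]
    omega
  have hcle : ∀ t ≤ tm n, clk (n, t) ≤ Rc n := by
    intro t ht
    have h3 := (sc (n, t)).trans (mc (hnt t ht))
    rw [tsz_nat] at h3
    simp only [hRc]
    omega
  have hbs : ∀ t ≤ tm n, ∀ u : List Bool, u.length = B (n, t) →
      tsz (bld ((n, F), (t, u))) ≤ Y n := by
    intro t ht u hu
    refine (sb _).trans (mb ?_)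
    have h5 : tsz (((n, F), (t, u)) : (ℕ × Frm) × (ℕ × List Bool)) = tsz ((n, F) : ℕ × Frm)
      + tsz ((t, u) : ℕ × List Bool) + 1 := tsz_pair _ _
    have h6 : tsz ((t, u) : ℕ × List Bool) = tsz t + tsz u + 1 := tsz_pair _ _
    rw [h5, h6, tsz_nat]
    have h3 := tsz_bools u
    have h4 := hBle t ht
    omega
  have S : Sz A tm B rep clk lim bld (n, F) (m n) (mQ n) (mW n) := by
    refine ⟨?_, ?_, ?_, ?_, ?_, ?_, ?_⟩
    · intro t ht j hj u r hu
      have h7 : tsz ((u, r) : List Bool × ℕ) = tsz u + tsz r + 1 := tsz_pair _ _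
      rw [tsz_state, tsz_inl, h7, tsz_nat]
      have h3 := tsz_bools u
      have h4 := tsz_bools j
      have h5 := hBle t ht
      have h6 := hrle t ht
      simp only at ht hj hu
      simp only [hm]
      omega
    · intro t ht j hj κ hκ q hq
      have h7 : tsz ((κ, q) : List Bool × A.Q) = tsz κ + tsz q + 1 := tsz_pair _ _
      rw [tsz_state, tsz_inr, tsz_inl, h7]
      have h3 := tsz_bools κ
      have h4 := tsz_bools j
      have h5 := hcle t ht
      have h6 := hrle t ht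
      simp only at ht hj hκ
      simp only [hm]
      omega
    · intro t ht j hj b
      rw [tsz_state, tsz_inr, tsz_inr]
      have h3 := tsz_bool_le b
      have h4 := tsz_bools j
      have h6 := hrle t ht
      simp only at ht hj
      simp only [hm]
      omega
    · intro t ht u hu
      refine ((si _).trans (mi (hbs t ht u hu))).trans ?_
      simp only [hmQ]
      omega
    · intro t ht q w b hq hw
      have h3 : tsz ((q, (w, b)) : A.Q × A.W × Bool) ≤ 2 * L n + 5 := by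
        rw [tsz_pair, tsz_pair]
        have := tsz_bool_le b
        simp only [hlimdef] at hq hw
        simp only [hL]
        omega
      have h4 := (ss (q, w, b)).trans (ms h3)
      have h5 : tsz (A.step (q, w, b)) = tsz (A.step (q, w, b)).1 + tsz (A.step (q, w, b)).2 + 1 :=
        tsz_pair _ _
      simp only [hmQ, hmW]
      constructor <;> omega
    · simp only [hmW]; omega
    · simp only [hm]; omega
  have hC : Cond k d c C tm B clk lim bld (n, F) := by
    intro t ht u hu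
    obtain ⟨g1, g2, g3⟩ := h1 n F hF t ht u hu
    refine ⟨g1, g2, g3, ?_⟩
    have h3 := hbs t ht u hu
    have h4 : tsz (bld ((n, F), (t, u))) = tsz (bld ((n, F), (t, u))).1
        + tsz (bld ((n, F), (t, u))).2 + 1 := tsz_pair _ _
    rw [tsz_nat] at h4
    have h5 : (bld ((n, F), (t, u))).1 ≤ (n + 2) ^ e := by
      have := he n
      omega
    exact Nat.add_le_add_right (Nat.pow_le_pow_left h5 d) d
  have hA' : Good k c C d A := hA
  have hmain := loop_t (htm := htm) (hB := hB) (hrep := hrep) (hclk := hclk) (hlim := hlim) (hbld := hbld)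
    hA' S hC (tm n) (le_refl _) (fun _ => A.blank) (fun _ => S.w0) (fun _ _ _ => rfl)
  refine ⟨_, ?_, (Alg.halts_mono_size _ (hd' n) _ _ hmain.1), ?_, ?_⟩
  · refine Finset.sum_le_sum fun t _ => Nat.mul_le_mul_left _ ?_
    simp only
    omega
  · intro hun
    exact sound_pYes hA' hC hun _ sound_start
  · intro hne
    refine le_trans (le_of_eq ?_) hmain.2
    rw [if_pos]
    exact h2 n F hF hne

end Pool.Agent.Helper77.SK
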