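import Pool.Agent.Helper77.SK.Comb

/-!
# Analysis of the combined algorithm
-/

set_option autoImplicit false

namespace Pool.Agent.Helper77.SK

open Pool.Agent.Helper86 Pool.Agent.Helper86.PT Alg

section

variable {A : Alg (ℕ × Frm)} {B rep clk lim : ℕ × ℕ → ℕ}
  {bld : (ℕ × Frm) × (ℕ × List Bool) → ℕ × Frm}
  {tm : ℕ → ℕ} {htm : Poly tm} {hB : Poly B} {hrep : Poly rep} {hclk : Poly clk} {hlim : Poly lim} {hbld : Poly bld}

/-- The part of the memory that belongs to the run with number `j` for `t` constraints. -/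
def view {W : Type} (M : T → W) (t : ℕ) (j : List Bool) : T → W :=
  fun a => M (T.cons (toT (t, j)) a)

theorem view_update_same {W : Type} (M : T → W) (t : ℕ) (j : List Bool) (a : T) (w : W) :
    view (Function.update M (T.cons (toT (t, j)) a) w) t j = Function.update (view M t j) a w := by
  funext a'
  unfold view
  by_cases h : a' = a
  · subst h; simp
  · rw [Function.update_of_ne h, Function.update_of_ne]
    intro h'
    exact h (T.cons.inj h').2

theorem view_update_other {W : Type} (M : T → W) (t t' : ℕ) (j j' : List Bool) (a : T) (w : W)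
    (h : (t', j') ≠ (t, j)) :
    view (Function.update M (T.cons (toT (t, j)) a) w) t' j' = view M t' j' := by
  funext a'
  unfold view
  rw [Function.update_of_ne]
  intro h'
  exact h (TEnc.inj (T.cons.inj h').1)

/-- All later runs find empty memory. -/
def Fresh (A : Alg (ℕ × Frm)) (t : ℕ) (j : List Bool) (M : T → A.W) : Prop :=
  ∀ t' j', (t' < t ∨ (t' = t ∧ bval j' < bval j)) → view M t' j' = fun _ => A.blank

/-- This run and all later runs find empty memory. -/
def Fresh' (A : Alg (ℕ × Frm)) (t : ℕ) (j : List Bool) (M : T → A.W) : Prop :=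
  ∀ t' j', (t' < t ∨ (t' = t ∧ bval j' ≤ bval j)) → view M t' j' = fun _ => A.blank

theorem Fresh'.fresh {t : ℕ} {j : List Bool} {M : T → A.W} (h : Fresh' A t j M) : Fresh A t j M :=
  fun t' j' h' => h t' j' (by omega)

theorem Fresh.update {t : ℕ} {j : List Bool} {M : T → A.W} (h : Fresh A t j M) (a : T) (w : A.W) :
    Fresh A t j (Function.update M (T.cons (toT (t, j)) a) w) := by
  intro t' j' h'
  rw [view_update_other _ _ _ _ _ _ _ ?_]
  · exact h t' j' h'
  · intro he
    obtain ⟨h1, h2⟩ := Prod.mk.inj he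
    subst h1 h2
    omega

/-- All cells have size at most `m`. -/
def Small (A : Alg (ℕ × Frm)) (m : ℕ) (M : T → A.W) : Prop := ∀ a, tsz (M a) ≤ m

theorem Small.update {m : ℕ} {M : T → A.W} (h : Small A m M) (a : T) {w : A.W} (hw : tsz w ≤ m) :
    Small A m (Function.update M a w) := by
  intro a'
  by_cases h' : a' = a
  · subst h'; rw [Function.update_self]; exact hw
  · rw [Function.update_of_ne h']; exact h a'

/-! ### Transitions -/


theorem next_bits_succ (x : ℕ × Frm) (t : ℕ) (j : List Bool) (u : List Bool) (r : ℕ)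
    (M : T → A.W) (b : Bool) :
    (comb A bld htm hB hrep hclk hlim hbld).next ((x, ((t, j), .inl (u, r + 1))), M) b
      = ((x, ((t, j), .inl (b :: u, r))), M) := by
  have e : stepC A B rep clk lim bld ((x, ((t, j), .inl (u, r + 1))), M T.nil, b)
      = ((x, ((t, j), .inl (b :: u, r))), M T.nil) := by
    simp [stepC, stepL]
  show ((stepC A B rep clk lim bld ((x, ((t, j), .inl (u, r + 1))), M T.nil, b)).1,
    Function.update M T.nil (stepC A B rep clk lim bld
      ((x, ((t, j), .inl (u, r + 1))), M T.nil, b)).2) = _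
  rw [e]
  simp

theorem next_bits_zero (x : ℕ × Frm) (t : ℕ) (j : List Bool) (u : List Bool)
    (M : T → A.W) (b : Bool) :
    (comb A bld htm hB hrep hclk hlim hbld).next ((x, ((t, j), .inl (u, 0))), M) b
      = ((x, ((t, j), .inr (.inl (List.replicate (clk (x.1, t)) true,
        A.init (bld (x, (t, u))))))), M) := by
  have e : stepC A B rep clk lim bld ((x, ((t, j), .inl (u, 0))), M T.nil, b)
      = ((x, ((t, j), .inr (.inl (List.replicate (clk (x.1, t)) true,
        A.init (bld (x, (t, u))))))), M T.nil) := by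
    simp [stepC, stepL]
  show ((stepC A B rep clk lim bld ((x, ((t, j), .inl (u, 0))), M T.nil, b)).1,
    Function.update M T.nil (stepC A B rep clk lim bld
      ((x, ((t, j), .inl (u, 0))), M T.nil, b)).2) = _
  rw [e]
  simp

theorem next_run_yes (x : ℕ × Frm) (t : ℕ) (j κ : List Bool) (q : A.Q)
    (M : T → A.W) (b : Bool) (h1 : A.stop q = true) (h2 : A.ans q = true) :
    (comb A bld htm hB hrep hclk hlim hbld).next ((x, ((t, j), .inr (.inl (κ, q)))), M) b
      = ((x, ((t, j), .inr (.inr true))), M) := by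
  have e : stepC A B rep clk lim bld ((x, ((t, j), .inr (.inl (κ, q)))),
      M (T.cons (toT (t, j)) (A.addr q)), b)
      = ((x, ((t, j), .inr (.inr true))), M (T.cons (toT (t, j)) (A.addr q))) := by
    simp [stepC, stepR, h1, h2]
  show ((stepC A B rep clk lim bld ((x, ((t, j), .inr (.inl (κ, q)))),
      M (T.cons (toT (t, j)) (A.addr q)), b)).1,
    Function.update M (T.cons (toT (t, j)) (A.addr q)) (stepC A B rep clk lim bld
      ((x, ((t, j), .inr (.inl (κ, q)))), M (T.cons (toT (t, j)) (A.addr q)), b)).2) = _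
  rw [e]
  simp

theorem next_run_no (x : ℕ × Frm) (t : ℕ) (j κ : List Bool) (q : A.Q)
    (M : T → A.W) (b : Bool) (h1 : A.stop q = true) (h2 : A.ans q = false) :
    (comb A bld htm hB hrep hclk hlim hbld).next ((x, ((t, j), .inr (.inl (κ, q)))), M) b
      = (nextRun A B rep x t j, M) := by
  have e : stepC A B rep clk lim bld ((x, ((t, j), .inr (.inl (κ, q)))),
      M (T.cons (toT (t, j)) (A.addr q)), b)
      = (nextRun A B rep x t j, M (T.cons (toT (t, j)) (A.addr q))) := by
    simp [stepC, stepR, h1, h2]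
  show ((stepC A B rep clk lim bld ((x, ((t, j), .inr (.inl (κ, q)))),
      M (T.cons (toT (t, j)) (A.addr q)), b)).1,
    Function.update M (T.cons (toT (t, j)) (A.addr q)) (stepC A B rep clk lim bld
      ((x, ((t, j), .inr (.inl (κ, q)))), M (T.cons (toT (t, j)) (A.addr q)), b)).2) = _
  rw [e]
  simp

theorem next_run_abort (x : ℕ × Frm) (t : ℕ) (j κ : List Bool) (q : A.Q)
    (M : T → A.W) (b : Bool) (h1 : A.stop q = false)
    (h2 : ¬ (isZ κ = false ∧ tsz q ≤ lim (x.1, t) ∧ tsz (view M t j (A.addr q)) ≤ lim (x.1, t))) :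
    (comb A bld htm hB hrep hclk hlim hbld).next ((x, ((t, j), .inr (.inl (κ, q)))), M) b
      = (nextRun A B rep x t j, M) := by
  have e : stepC A B rep clk lim bld ((x, ((t, j), .inr (.inl (κ, q)))),
      M (T.cons (toT (t, j)) (A.addr q)), b)
      = (nextRun A B rep x t j, M (T.cons (toT (t, j)) (A.addr q))) := by
    have h1' : ¬ A.stop q = true := by simp [h1]
    simp only [stepC, stepR, if_neg h1']
    by_cases h3 : isZ κ = true
    · rw [if_pos h3]
    · rw [if_neg h3]
      by_cases h4 : tsz q ≤ lim (x.1, t)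
      · rw [if_pos h4]
        by_cases h5 : tsz (M (T.cons (toT (t, j)) (A.addr q))) ≤ lim (x.1, t)
        · exact absurd ⟨by simpa using h3, h4, h5⟩ h2
        · rw [if_neg h5]
      · rw [if_neg h4]
  show ((stepC A B rep clk lim bld ((x, ((t, j), .inr (.inl (κ, q)))),
      M (T.cons (toT (t, j)) (A.addr q)), b)).1,
    Function.update M (T.cons (toT (t, j)) (A.addr q)) (stepC A B rep clk lim bld
      ((x, ((t, j), .inr (.inl (κ, q)))), M (T.cons (toT (t, j)) (A.addr q)), b)).2) = _
  rw [e]
  simp

theorem next_run_go (x : ℕ × Frm) (t : ℕ) (j κ : List Bool) (q : A.Q)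
    (M : T → A.W) (b : Bool) (h1 : A.stop q = false) (h2 : isZ κ = false)
    (h3 : tsz q ≤ lim (x.1, t)) (h4 : tsz (view M t j (A.addr q)) ≤ lim (x.1, t)) :
    (comb A bld htm hB hrep hclk hlim hbld).next ((x, ((t, j), .inr (.inl (κ, q)))), M) b
      = ((x, ((t, j), .inr (.inl (dec κ, (A.next (q, view M t j) b).1)))),
        Function.update M (T.cons (toT (t, j)) (A.addr q))
          (A.step (q, view M t j (A.addr q), b)).2) := by
  have e : stepC A B rep clk lim bld ((x, ((t, j), .inr (.inl (κ, q)))),
      M (T.cons (toT (t, j)) (A.addr q)), b)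
      = ((x, ((t, j), .inr (.inl (dec κ, (A.next (q, view M t j) b).1)))),
          (A.step (q, view M t j (A.addr q), b)).2) := by
    have h1' : ¬ A.stop q = true := by simp [h1]
    have h2' : ¬ isZ κ = true := by simp [h2]
    have h4' : tsz (M (T.cons (toT (t, j)) (A.addr q))) ≤ lim (x.1, t) := h4
    simp only [stepC, stepR, if_neg h1', if_neg h2', if_pos h3, if_pos h4']
    rfl
  show ((stepC A B rep clk lim bld ((x, ((t, j), .inr (.inl (κ, q)))),
      M (T.cons (toT (t, j)) (A.addr q)), b)).1,
    Function.update M (T.cons (toT (t, j)) (A.addr q)) (stepC A B rep clk lim bld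
      ((x, ((t, j), .inr (.inl (κ, q)))), M (T.cons (toT (t, j)) (A.addr q)), b)).2) = _
  rw [e]

theorem view_next (t : ℕ) (j : List Bool) (q : A.Q) (M : T → A.W) (b : Bool) :
    ((A.next (q, view M t j) b).1, view (Function.update M (T.cons (toT (t, j)) (A.addr q))
      (A.step (q, view M t j (A.addr q), b)).2) t j) = A.next (q, view M t j) b := by
  rw [view_update_same]
  rfl

end

end Pool.Agent.Helper77.SK
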