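import Pool.Agent.Helper77.SK.Mach1

/-!
# Analysis of the combined algorithm: running times and probabilities
-/

set_option autoImplicit false

namespace Pool.Agent.Helper77.SK

open Pool.Agent.Helper86 Pool.Agent.Helper86.PT Alg

/-- Size bounds for the states of the combined algorithm on the input `x`. -/
structure Sz (A : Alg (ℕ × Frm)) (tm : ℕ → ℕ) (B rep clk lim : ℕ × ℕ → ℕ)
    (bld : (ℕ × Frm) × (ℕ × List Bool) → ℕ × Frm) (x : ℕ × Frm) (m mQ mW : ℕ) : Prop where
  bits : ∀ t ≤ tm x.1, ∀ j : List Bool, j.length ≤ rep (x.1, t) + 1 → ∀ (u : List Bool) (r : ℕ),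
    u.length + r ≤ B (x.1, t) → tsz ((x, ((t, j), .inl (u, r))) : CSt A) ≤ m
  run : ∀ t ≤ tm x.1, ∀ j : List Bool, j.length ≤ rep (x.1, t) + 1 → ∀ κ : List Bool,
    κ.length ≤ clk (x.1, t) → ∀ q : A.Q, tsz q ≤ mQ →
    tsz ((x, ((t, j), .inr (.inl (κ, q)))) : CSt A) ≤ m
  done : ∀ t ≤ tm x.1, ∀ j : List Bool, j.length ≤ rep (x.1, t) + 1 → ∀ b : Bool,
    tsz ((x, ((t, j), .inr (.inr b))) : CSt A) ≤ m
  q0 : ∀ t ≤ tm x.1, ∀ u : List Bool, u.length = B (x.1, t) → tsz (A.init (bld (x, (t, u)))) ≤ mQ
  q1 : ∀ t ≤ tm x.1, ∀ (q : A.Q) (w : A.W) (b : Bool), tsz q ≤ lim (x.1, t) →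
    tsz w ≤ lim (x.1, t) → tsz (A.step (q, w, b)).1 ≤ mQ ∧ tsz (A.step (q, w, b)).2 ≤ mW
  w0 : tsz A.blank ≤ mW
  wm : mW ≤ m

section

variable {A : Alg (ℕ × Frm)} {B rep clk lim : ℕ × ℕ → ℕ}
  {bld : (ℕ × Frm) × (ℕ × List Bool) → ℕ × Frm}
  {tm : ℕ → ℕ} {htm : Poly tm} {hB : Poly B} {hrep : Poly rep} {hclk : Poly clk} {hlim : Poly lim} {hbld : Poly bld}
  {x : ℕ × Frm} {m mQ mW : ℕ}

theorem ok_done (S : Sz A tm B rep clk lim bld x m mQ mW) {t : ℕ} (ht : t ≤ tm x.1) {j : List Bool}
    (hj : j.length ≤ rep (x.1, t) + 1) (b : Bool) (M : T → A.W) :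
    (comb A bld htm hB hrep hclk hlim hbld).Ok m 0 (if b = true then 1 else 0)
      ((x, ((t, j), .inr (.inr b))), M) := by
  refine ⟨⟨rfl, S.done t ht j hj b⟩, ?_⟩
  have h1 : (comb A bld htm hB hrep hclk hlim hbld).stop (x, ((t, j), .inr (.inr b))) = true := rfl
  have h2 : (comb A bld htm hB hrep hclk hlim hbld).ans (x, ((t, j), .inr (.inr b))) = b := rfl
  simp only [pYes, h1, h2, true_and]
  exact le_refl _

theorem run_any (S : Sz A tm B rep clk lim bld x m mQ mW) {t : ℕ} (ht : t ≤ tm x.1) {j : List Bool}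
    (hj : j.length ≤ rep (x.1, t) + 1) {τ : ℕ} {v : ℝ} (hv : v ≤ 1)
    (hn : ∀ M, Small A mW M → Fresh A t j M →
      (comb A bld htm hB hrep hclk hlim hbld).Ok m τ v (nextRun A B rep x t j, M)) :
    ∀ (N : ℕ) (κ : List Bool) (q : A.Q) (M : T → A.W), bval κ = N → κ.length ≤ clk (x.1, t) →
      tsz q ≤ mQ → Small A mW M → Fresh A t j M →
      (comb A bld htm hB hrep hclk hlim hbld).Ok m (τ + N + 1) v
        ((x, ((t, j), .inr (.inl (κ, q)))), M) := by
  intro N
  induction N with
  | zero =>
    intro κ q M hN hκ hq hM hF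
    have hz : isZ κ = true := (isZ_iff κ).mpr hN
    refine Ok.step' rfl (S.run t ht j hj κ hκ q hq) ((hM _).trans S.wm) fun b => ?_
    by_cases h1 : A.stop q = true
    · by_cases h2 : A.ans q = true
      · rw [next_run_yes x t j κ q M b h1 h2]
        exact (ok_done S ht hj true M).mono (Nat.zero_le _) (by simpa using hv)
      · rw [next_run_no x t j κ q M b h1 (by simpa using h2)]
        exact (hn M hM hF).mono (by omega) (le_refl _)
    · rw [next_run_abort x t j κ q M b (by simpa using h1) (by simp [hz])]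
      exact (hn M hM hF).mono (by omega) (le_refl _)
  | succ N ih =>
    intro κ q M hN hκ hq hM hF
    have hz : isZ κ = false := by
      by_contra h
      have := (isZ_iff κ).mp (by simpa using h)
      omega
    refine Ok.step' rfl (S.run t ht j hj κ hκ q hq) ((hM _).trans S.wm) fun b => ?_
    by_cases h1 : A.stop q = true
    · by_cases h2 : A.ans q = true
      · rw [next_run_yes x t j κ q M b h1 h2]
        exact (ok_done S ht hj true M).mono (Nat.zero_le _) (by simpa using hv)
      · rw [next_run_no x t j κ q M b h1 (by simpa using h2)]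
        exact (hn M hM hF).mono (by omega) (le_refl _)
    · by_cases h3 : tsz q ≤ lim (x.1, t) ∧ tsz (view M t j (A.addr q)) ≤ lim (x.1, t)
      · rw [next_run_go x t j κ q M b (by simpa using h1) hz h3.1 h3.2]
        have hs := S.q1 t ht q (view M t j (A.addr q)) b h3.1 h3.2
        have hd := bval_dec κ hz
        exact (ih (dec κ) _ _ (by omega) (by rw [length_dec]; exact hκ) hs.1
          (hM.update _ hs.2) (hF.update _ _)).mono (by omega) (le_refl _)
      · rw [next_run_abort x t j κ q M b (by simpa using h1) (by tauto)]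
        exact (hn M hM hF).mono (by omega) (le_refl _)

theorem run_good (S : Sz A tm B rep clk lim bld x m mQ mW) {t : ℕ} (ht : t ≤ tm x.1) {j : List Bool}
    (hj : j.length ≤ rep (x.1, t) + 1) {τ : ℕ} {v : ℝ}
    (hn : ∀ M, Small A mW M → Fresh A t j M →
      (comb A bld htm hB hrep hclk hlim hbld).Ok m τ v (nextRun A B rep x t j, M)) :
    ∀ (N : ℕ) (κ : List Bool) (q : A.Q) (M : T → A.W), N ≤ bval κ → κ.length ≤ clk (x.1, t) →
      tsz q ≤ mQ → Small A mW M → Fresh A t j M → A.Halts (lim (x.1, t)) N (q, view M t j) →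
      (comb A bld htm hB hrep hclk hlim hbld).Ok m (τ + bval κ + 1)
        (A.pYes N (q, view M t j) + (1 - A.pYes N (q, view M t j)) * v)
        ((x, ((t, j), .inr (.inl (κ, q)))), M) := by
  intro N
  have hstop : ∀ (N : ℕ) (κ : List Bool) (q : A.Q) (M : T → A.W), κ.length ≤ clk (x.1, t) →
      tsz q ≤ mQ → Small A mW M → Fresh A t j M → A.stop q = true →
      (comb A bld htm hB hrep hclk hlim hbld).Ok m (τ + bval κ + 1)
        (A.pYes N (q, view M t j) + (1 - A.pYes N (q, view M t j)) * v)
        ((x, ((t, j), .inr (.inl (κ, q)))), M) := by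
    intro N κ q M hκ hq hM hF h1
    refine Ok.step' rfl (S.run t ht j hj κ hκ q hq) ((hM _).trans S.wm) fun b => ?_
    rw [A.pYes_stop (c := (q, view M t j)) h1]
    by_cases h2 : A.ans q = true
    · rw [next_run_yes x t j κ q M b h1 h2]
      refine (ok_done S ht hj true M).mono (Nat.zero_le _) ?_
      simp [h2]
    · rw [next_run_no x t j κ q M b h1 (by simpa using h2)]
      refine (hn M hM hF).mono (by omega) ?_
      simp [h2]
  induction N with
  | zero =>
    intro κ q M _ hκ hq hM hF hH
    exact hstop 0 κ q M hκ hq hM hF hH.1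
  | succ N ih =>
    intro κ q M hN hκ hq hM hF hH
    by_cases h1 : A.stop q = true
    · exact hstop (N + 1) κ q M hκ hq hM hF h1
    · have hz : isZ κ = false := by
        by_contra h
        have := (isZ_iff κ).mp (by simpa using h)
        omega
      obtain ⟨h3, h4⟩ := hH
      rcases h4 with h4 | ⟨h4, h5⟩
      · exact absurd h4 h1
      · have hd := bval_dec κ hz
        have hb : ∀ b, (comb A bld htm hB hrep hclk hlim hbld).Ok m (τ + bval κ)
            (A.pYes N (A.next (q, view M t j) b) + (1 - A.pYes N (A.next (q, view M t j) b)) * v)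
            ((comb A bld htm hB hrep hclk hlim hbld).next ((x, ((t, j), .inr (.inl (κ, q)))), M) b) := by
          intro b
          rw [next_run_go x t j κ q M b (by simpa using h1) hz h3 h4]
          have hs := S.q1 t ht q (view M t j (A.addr q)) b h3 h4
          have h6 := h5 b
          rw [← view_next] at h6 ⊢
          exact (ih (dec κ) _ _ (by omega) (by rw [length_dec]; exact hκ) hs.1
            (hM.update _ hs.2) (hF.update _ _) h6).mono (by omega) (le_refl _)
        have h6 := Ok.step (A := comb A bld htm hB hrep hclk hlim hbld) (m := m)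
          (c := ((x, ((t, j), .inr (.inl (κ, q)))), M)) rfl
          (S.run t ht j hj κ hκ q hq) ((hM _).trans S.wm) (hb true) (hb false)
        refine h6.mono (le_refl _) (le_of_eq ?_)
        have h7 : A.pYes (N + 1) (q, view M t j) = (A.pYes N (A.next (q, view M t j) true)
            + A.pYes N (A.next (q, view M t j) false)) / 2 := by
          simp only [pYes, if_neg h1]
        rw [h7]
        ring

theorem bits_phase (S : Sz A tm B rep clk lim bld x m mQ mW) {t : ℕ} (ht : t ≤ tm x.1) {j : List Bool}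
    (hj : j.length ≤ rep (x.1, t) + 1) {τ : ℕ} {f : List Bool → ℝ}
    {M : T → A.W} (hM : Small A mW M)
    (hn : ∀ u : List Bool, u.length = B (x.1, t) → (comb A bld htm hB hrep hclk hlim hbld).Ok m τ (f u)
      ((x, ((t, j), .inr (.inl (List.replicate (clk (x.1, t)) true,
        A.init (bld (x, (t, u))))))), M)) :
    ∀ (r : ℕ) (u : List Bool), u.length + r = B (x.1, t) →
      (comb A bld htm hB hrep hclk hlim hbld).Ok m (τ + r + 1) (E r (fun w => f (w ++ u)))
        ((x, ((t, j), .inl (u, r))), M) := by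
  intro r
  induction r with
  | zero =>
    intro u hu
    refine Ok.step' rfl (S.bits t ht j hj u 0 hu.le) ((hM _).trans S.wm) fun b => ?_
    rw [next_bits_zero]
    exact hn u (by simpa using hu)
  | succ r ih =>
    intro u hu
    have h := Ok.step (c := ((x, ((t, j), .inl (u, r + 1))), M)) (m := m) (τ := τ + r + 1)
      (v1 := E r (fun w => f (w ++ true :: u))) (v2 := E r (fun w => f (w ++ false :: u)))
      (A := comb A bld htm hB hrep hclk hlim hbld) rfl (S.bits t ht j hj u (r + 1) hu.le)
      ((hM _).trans S.wm)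
      (by rw [next_bits_succ]; exact ih (true :: u) (by simp; omega))
      (by rw [next_bits_succ]; exact ih (false :: u) (by simp; omega))
    refine h.mono (by omega) (le_of_eq ?_)
    rw [E_snoc]
    simp only [List.append_assoc, List.cons_append, List.nil_append]

end

end Pool.Agent.Helper77.SK
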