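import Pool.Agent.Helper77.SK.Mach2

/-!
# Analysis of the combined algorithm: all runs
-/

set_option autoImplicit false

namespace Pool.Agent.Helper77.SK

open Pool.Agent.Helper86 Pool.Agent.Helper86.PT Alg Finset

theorem Alg.halts_mono_size {ι : Type} [TEnc ι] (A : Alg ι) {m m' : ℕ} (h : m ≤ m') :
    ∀ (t : ℕ) (c : A.Cfg), A.Halts m t c → A.Halts m' t c := by
  intro t
  induction t with
  | zero => intro c hc; exact ⟨hc.1, hc.2.trans h⟩
  | succ t ih =>
    intro c hc
    refine ⟨hc.1.trans h, ?_⟩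
    rcases hc.2 with h2 | h2
    · exact Or.inl h2
    · exact Or.inr ⟨h2.1.trans h, fun b => ih _ (h2.2 b)⟩

/-- What the algorithm `A` does on inputs which satisfy the promise. -/
def Good (k : ℕ) (c C : ℝ) (d : ℕ) (A : Alg (ℕ × Frm)) : Prop :=
  ∀ (n : ℕ) (F : Frm), IsCNF k n F → (sols n F).Subsingleton →
      ∃ t : ℕ, (t : ℝ) ≤ C * 2 ^ (c * n) ∧ A.Halts (n ^ d + d) t (A.start (n, F)) ∧
        (¬ (sols n F).Nonempty → A.pYes t (A.start (n, F)) = 0) ∧
        ((sols n F).Nonempty → 2 / 3 ≤ A.pYes t (A.start (n, F)))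

section

variable {A : Alg (ℕ × Frm)} {B rep clk lim : ℕ × ℕ → ℕ}
  {bld : (ℕ × Frm) × (ℕ × List Bool) → ℕ × Frm}
  {tm : ℕ → ℕ} {htm : Poly tm} {hB : Poly B} {hrep : Poly rep} {hclk : Poly clk} {hlim : Poly lim} {hbld : Poly bld}
  {x : ℕ × Frm} {m mQ mW : ℕ} {k d : ℕ} {c C : ℝ}

open Classical in
/-- The probability that a random formula for `t` has exactly one satisfying assignment. -/
noncomputable def pr (B : ℕ × ℕ → ℕ) (bld : (ℕ × Frm) × (ℕ × List Bool) → ℕ × Frm) (x : ℕ × Frm)
    (t : ℕ) : ℝ :=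
  E (B (x.1, t)) (fun u => if ∃! y, y ∈ sols (bld (x, (t, u))).1 (bld (x, (t, u))).2 then 1 else 0)

theorem pr_nonneg (t : ℕ) : 0 ≤ pr B bld x t := by
  unfold pr
  exact E_nonneg _ fun w _ => by split_ifs <;> norm_num

theorem pr_le_one (t : ℕ) : pr B bld x t ≤ 1 := by
  unfold pr
  exact E_le_one _ fun w _ => by split_ifs <;> norm_num

/-- What is needed of the random formulas. -/
def Cond (k d : ℕ) (c C : ℝ) (tm : ℕ → ℕ) (B clk lim : ℕ × ℕ → ℕ)
    (bld : (ℕ × Frm) × (ℕ × List Bool) → ℕ × Frm) (x : ℕ × Frm) : Prop :=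
  ∀ t ≤ tm x.1, ∀ u : List Bool, u.length = B (x.1, t) →
    IsCNF k (bld (x, (t, u))).1 (bld (x, (t, u))).2 ∧
    C * 2 ^ (c * (bld (x, (t, u))).1) < 2 ^ clk (x.1, t) ∧
    ((sols (bld (x, (t, u))).1 (bld (x, (t, u))).2).Nonempty → (sols x.1 x.2).Nonempty) ∧
    (bld (x, (t, u))).1 ^ d + d ≤ lim (x.1, t)

open Classical in
theorem one_run (hA : Good k c C d A) (S : Sz A tm B rep clk lim bld x m mQ mW)
    (h1 : Cond k d c C tm B clk lim bld x) {t : ℕ} (ht : t ≤ tm x.1)
    {j : List Bool} (hj : j.length ≤ rep (x.1, t) + 1) {τ : ℕ} {v : ℝ} (hv : v ≤ 1)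
    (hn : ∀ M, Small A mW M → Fresh A t j M →
      (comb A bld htm hB hrep hclk hlim hbld).Ok m τ v (nextRun A B rep x t j, M))
    {M : T → A.W} (hM : Small A mW M) (hF : Fresh' A t j M) :
    (comb A bld htm hB hrep hclk hlim hbld).Ok m (τ + (B (x.1, t) + 2 ^ clk (x.1, t) + 1))
      (1 - (1 - 2 / 3 * pr B bld x t) * (1 - v)) (runStart A B x t j, M) := by
  have hview : view M t j = fun _ => A.blank := hF t j (Or.inr ⟨rfl, le_refl _⟩)
  have hrepl := bval_replicate (clk (x.1, t))
  have key : ∀ u : List Bool, u.length = B (x.1, t) →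
      (comb A bld htm hB hrep hclk hlim hbld).Ok m (τ + 2 ^ clk (x.1, t))
        (v + (2 / 3 * (1 - v)) *
          (if ∃! y, y ∈ sols (bld (x, (t, u))).1 (bld (x, (t, u))).2 then 1 else 0))
        ((x, ((t, j), .inr (.inl (List.replicate (clk (x.1, t)) true,
          A.init (bld (x, (t, u))))))), M) := by
    intro u hu
    obtain ⟨g1, g2, g3, g4⟩ := h1 t ht u hu
    by_cases hun : ∃! y, y ∈ sols (bld (x, (t, u))).1 (bld (x, (t, u))).2
    · rw [if_pos hun]
      obtain ⟨y, hy, hyu⟩ := hun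
      obtain ⟨T', hT1, hT2, -, hT4⟩ := hA _ _ g1 (fun a ha b hb => (hyu a ha).trans (hyu b hb).symm)
      have hπ := hT4 ⟨y, hy⟩
      have hTle : T' ≤ bval (List.replicate (clk (x.1, t)) true) := by
        have h3 : (T' : ℝ) < ((2 ^ clk (x.1, t) : ℕ) : ℝ) := by
          push_cast
          exact lt_of_le_of_lt hT1 g2
        have h4 : T' < 2 ^ clk (x.1, t) := by exact_mod_cast h3
        omega
      have hst : A.start ((bld (x, (t, u))).1, (bld (x, (t, u))).2)
          = (A.init (bld (x, (t, u))), view M t j) := by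
        rw [hview]; rfl
      rw [hst] at hT2 hπ
      have h5 := run_good (htm := htm) (hB := hB) (hrep := hrep) (hclk := hclk) (hlim := hlim) (hbld := hbld)
        S ht hj hn T' (List.replicate (clk (x.1, t)) true)
        (A.init (bld (x, (t, u)))) M hTle (by simp) (S.q0 t ht u hu) hM hF.fresh
        (A.halts_mono_size g4 _ _ hT2)
      refine h5.mono (by omega) ?_
      have h6 : 0 ≤ 1 - v := by linarith
      nlinarith
    · rw [if_neg hun]
      have h5 := run_any (htm := htm) (hB := hB) (hrep := hrep) (hclk := hclk) (hlim := hlim) (hbld := hbld)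
        S ht hj hv hn _ (List.replicate (clk (x.1, t)) true)
        (A.init (bld (x, (t, u)))) M rfl (by simp) (S.q0 t ht u hu) hM hF.fresh
      refine h5.mono (by omega) ?_
      simp
  have h6 := bits_phase S ht hj hM key (B (x.1, t)) [] (by simp)
  refine h6.mono (by omega) (le_of_eq ?_)
  have e : (fun w : List Bool => v + (2 / 3 * (1 - v)) *
          (if ∃! y, y ∈ sols (bld (x, (t, w ++ []))).1 (bld (x, (t, w ++ []))).2 then (1 : ℝ) else 0))
      = fun w => v + (2 / 3 * (1 - v)) *
          (if ∃! y, y ∈ sols (bld (x, (t, w))).1 (bld (x, (t, w))).2 then (1 : ℝ) else 0) := by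
    funext w
    rw [List.append_nil]
  rw [e, E_affine]
  unfold pr
  ring

open Classical in
theorem loop_j (hA : Good k c C d A) (S : Sz A tm B rep clk lim bld x m mQ mW)
    (h1 : Cond k d c C tm B clk lim bld x) {t : ℕ} (ht : t ≤ tm x.1)
    {τ : ℕ} {v : ℝ} (hv : v ≤ 1)
    (hn : ∀ j M, isZ j = true → j.length ≤ rep (x.1, t) + 1 → Small A mW M → Fresh A t j M →
      (comb A bld htm hB hrep hclk hlim hbld).Ok m τ v (nextRun A B rep x t j, M)) :
    ∀ (N : ℕ) (j : List Bool) (M : T → A.W), bval j = N → j.length ≤ rep (x.1, t) + 1 →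
      Small A mW M → Fresh' A t j M →
      (comb A bld htm hB hrep hclk hlim hbld).Ok m
        (τ + (N + 1) * (B (x.1, t) + 2 ^ clk (x.1, t) + 1))
        (1 - (1 - 2 / 3 * pr B bld x t) ^ (N + 1) * (1 - v)) (runStart A B x t j, M) := by
  have hp0 := pr_nonneg (B := B) (bld := bld) (x := x) t
  have hp1 := pr_le_one (B := B) (bld := bld) (x := x) t
  intro N
  induction N with
  | zero =>
    intro j M hN hj hM hF
    have hz : isZ j = true := (isZ_iff j).mpr hN
    have := one_run (htm := htm) (hB := hB) (hrep := hrep) (hclk := hclk) (hlim := hlim) (hbld := hbld)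
      hA S h1 ht hj hv (fun M hM hF => hn j M hz hj hM hF) hM hF
    simpa using this
  | succ N ih =>
    intro j M hN hj hM hF
    have hz : isZ j = false := by
      by_contra h
      have := (isZ_iff j).mp (by simpa using h)
      omega
    have hd := bval_dec j hz
    have hv' : 1 - (1 - 2 / 3 * pr B bld x t) ^ (N + 1) * (1 - v) ≤ 1 := by
      have h2 : (0 : ℝ) ≤ 1 - 2 / 3 * pr B bld x t := by linarith
      have h3 : 0 ≤ 1 - v := by linarith
      have := mul_nonneg (pow_nonneg h2 (N + 1)) h3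
      linarith
    have := one_run (htm := htm) (hB := hB) (hrep := hrep) (hclk := hclk) (hlim := hlim) (hbld := hbld)
      hA S h1 ht hj hv' (fun M hM hF => by
        have e : nextRun A B rep x t j = runStart A B x t (dec j) := by
          simp [nextRun, hz]
        rw [e]
        exact ih (dec j) M (by omega) (by rw [length_dec]; exact hj) hM
          (fun t' j' h' => hF t' j' (by omega))) hM hF
    refine this.mono (le_of_eq (by ring)) (le_of_eq (by ring))

theorem two_thirds (r : ℕ) {p : ℝ} (hp : (1 / 2 : ℝ) ^ r ≤ p) (hp1 : p ≤ 1) :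
    (1 - 2 / 3 * p) ^ (2 ^ (r + 1)) ≤ 1 / 3 := by
  have h0 : (0 : ℝ) ≤ 1 - 2 / 3 * p := by linarith
  have h1 : 1 - 2 / 3 * p ≤ Real.exp (-(2 / 3 * (1 / 2 : ℝ) ^ r)) := by
    have := Real.add_one_le_exp (-(2 / 3 * (1 / 2 : ℝ) ^ r))
    linarith
  calc (1 - 2 / 3 * p) ^ (2 ^ (r + 1))
      ≤ (Real.exp (-(2 / 3 * (1 / 2 : ℝ) ^ r))) ^ (2 ^ (r + 1)) := pow_le_pow_left₀ h0 h1 _
    _ = Real.exp (-(4 / 3)) := by
        rw [← Real.exp_nat_mul]
        congr 1
        push_cast
        rw [pow_succ]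
        have : (2 : ℝ) ^ r * (1 / 2) ^ r = 1 := by rw [← mul_pow]; norm_num
        linear_combination (-(4 / 3 : ℝ)) * this
    _ ≤ 1 / 3 := by
        have h2 : (3 : ℝ) ≤ Real.exp (4 / 3) := by
          have h3 := Real.sum_le_exp_of_nonneg (x := (4 / 3 : ℝ)) (by norm_num) 4
          norm_num [Finset.sum_range_succ, Nat.factorial] at h3
          linarith
        rw [Real.exp_neg, ← one_div]
        exact one_div_le_one_div_of_le (by norm_num) h2

open Classical in
theorem loop_t (hA : Good k c C d A) (S : Sz A tm B rep clk lim bld x m mQ mW)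
    (h1 : Cond k d c C tm B clk lim bld x) :
    ∀ (t : ℕ), t ≤ tm x.1 → ∀ (M : T → A.W), Small A mW M →
      (∀ t' j', t' ≤ t → view M t' j' = fun _ => A.blank) →
      (comb A bld htm hB hrep hclk hlim hbld).Ok m
        (∑ t' ∈ range (t + 1), 2 ^ (rep (x.1, t') + 1) * (B (x.1, t') + 2 ^ clk (x.1, t') + 1))
        (if ∃ t' ≤ t, (1 / 2 : ℝ) ^ rep (x.1, t') ≤ pr B bld x t' then 2 / 3 else 0)
        (tStart A B rep x t, M) := by
  intro t
  induction t with
  | zero =>
    intro ht M hM hF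
    have h2 := loop_j (htm := htm) (hB := hB) (hrep := hrep) (hclk := hclk) (hlim := hlim) (hbld := hbld)
      hA S h1 ht (τ := 0) (v := 0) (by norm_num) (fun j M hz hj hM hF => by
        have e : nextRun A B rep x 0 j = (x, ((0, j), .inr (.inr false))) := by
          simp [nextRun, hz]
        rw [e]
        exact (ok_done S ht hj false M).mono (le_refl _) (by simp))
      _ (List.replicate (rep (x.1, 0) + 1) true) M rfl (by simp) hM
      (fun t' j' h' => hF t' j' (by omega))
    have e : bval (List.replicate (rep (x.1, 0) + 1) true) + 1 = 2 ^ (rep (x.1, 0) + 1) :=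
      bval_replicate _
    rw [e] at h2
    refine h2.mono (by simp) ?_
    have hp0 := pr_nonneg (B := B) (bld := bld) (x := x) 0
    have hp1 := pr_le_one (B := B) (bld := bld) (x := x) 0
    split_ifs with hex
    · obtain ⟨t', ht', hp⟩ := hex
      have : t' = 0 := by omega
      subst this
      have := two_thirds _ hp hp1
      linarith
    · have h3 : (1 - 2 / 3 * pr B bld x 0) ^ (2 ^ (rep (x.1, 0) + 1)) ≤ 1 :=
        pow_le_one₀ (by linarith) (by linarith)
      linarith
  | succ t ih =>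
    intro ht M hM hF
    set v0 : ℝ := if ∃ t' ≤ t, (1 / 2 : ℝ) ^ rep (x.1, t') ≤ pr B bld x t' then 2 / 3 else 0 with hv0
    have hv01 : v0 ≤ 1 := by rw [hv0]; split_ifs <;> norm_num
    have hv00 : 0 ≤ v0 := by rw [hv0]; split_ifs <;> norm_num
    have h2 := loop_j (htm := htm) (hB := hB) (hrep := hrep) (hclk := hclk) (hlim := hlim) (hbld := hbld)
      hA S h1 ht hv01 (fun j M hz hj hM hF => by
        have e : nextRun A B rep x (t + 1) j = tStart A B rep x t := by
          simp [nextRun, hz]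
        rw [e]
        exact ih (by omega) M hM (fun t' j' h' => hF t' j' (by omega)))
      _ (List.replicate (rep (x.1, t + 1) + 1) true) M rfl (by simp) hM
      (fun t' j' h' => hF t' j' (by omega))
    have e : bval (List.replicate (rep (x.1, t + 1) + 1) true) + 1 = 2 ^ (rep (x.1, t + 1) + 1) :=
      bval_replicate _
    rw [e] at h2
    refine h2.mono (by rw [sum_range_succ _ (t + 1)]) ?_
    have hp0 := pr_nonneg (B := B) (bld := bld) (x := x) (t + 1)
    have hp1 := pr_le_one (B := B) (bld := bld) (x := x) (t + 1)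
    have h3 : (1 - 2 / 3 * pr B bld x (t + 1)) ^ (2 ^ (rep (x.1, t + 1) + 1)) ≤ 1 :=
      pow_le_one₀ (by linarith) (by linarith)
    have h30 : 0 ≤ (1 - 2 / 3 * pr B bld x (t + 1)) ^ (2 ^ (rep (x.1, t + 1) + 1)) :=
      pow_nonneg (by linarith) _
    have h4 : v0 ≤ 1 - (1 - 2 / 3 * pr B bld x (t + 1)) ^ (2 ^ (rep (x.1, t + 1) + 1)) * (1 - v0) := by
      nlinarith
    split_ifs with hex
    · obtain ⟨t', ht', hp⟩ := hex
      rcases Nat.lt_or_ge t t' with h5 | h5
      · have : t' = t + 1 := by omega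
        subst this
        have := two_thirds _ hp hp1
        nlinarith
      · have h6 : v0 = 2 / 3 := by rw [hv0, if_pos ⟨t', h5, hp⟩]
        linarith
    · linarith

end

end Pool.Agent.Helper77.SK
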