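import Pool.Agent.Helper77.SK.Mach3

/-!
# Analysis of the combined algorithm: soundness
-/

set_option autoImplicit false

namespace Pool.Agent.Helper77.SK

open Pool.Agent.Helper86 Pool.Agent.Helper86.PT Alg Finset

section

variable {A : Alg (ℕ × Frm)} {B rep clk lim : ℕ × ℕ → ℕ}
  {bld : (ℕ × Frm) × (ℕ × List Bool) → ℕ × Frm}
  {tm : ℕ → ℕ} {htm : Poly tm} {hB : Poly B} {hrep : Poly rep} {hclk : Poly clk} {hlim : Poly lim} {hbld : Poly bld}
  {x : ℕ × Frm} {m mQ mW : ℕ} {k d : ℕ} {c C : ℝ}

/-- Configurations from which the answer Yes is impossible. -/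
inductive Sound (A : Alg (ℕ × Frm)) (tm : ℕ → ℕ) (B : ℕ × ℕ → ℕ) (x : ℕ × Frm) :
    CSt A → (T → A.W) → Prop
  | bits (t : ℕ) (j u : List Bool) (r : ℕ) (M : T → A.W) : t ≤ tm x.1 → u.length + r = B (x.1, t) →
      Fresh' A t j M → Sound A tm B x (x, ((t, j), .inl (u, r))) M
  | run (t : ℕ) (j κ : List Bool) (q : A.Q) (M : T → A.W) : t ≤ tm x.1 → Fresh A t j M →
      (∀ s, A.pYes s (q, view M t j) = 0) → Sound A tm B x (x, ((t, j), .inr (.inl (κ, q)))) M
  | done (t : ℕ) (j : List Bool) (M : T → A.W) : Sound A tm B x (x, ((t, j), .inr (.inr false))) M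

theorem sound_nextRun {t : ℕ} {j : List Bool} {M : T → A.W} (ht : t ≤ tm x.1) (hF : Fresh A t j M) :
    Sound A tm B x (nextRun A B rep x t j) M := by
  unfold nextRun
  split_ifs with hz h0
  · exact Sound.done t j M
  · refine Sound.bits _ _ _ _ _ (by omega) (by simp) ?_
    intro t' j' h'
    exact hF t' j' (by omega)
  · refine Sound.bits _ _ _ _ _ ht (by simp) ?_
    intro t' j' h'
    have hd := bval_dec j (by simpa using hz)
    exact hF t' j' (by omega)

theorem sound_next (hA : Good k c C d A) (h1 : Cond k d c C tm B clk lim bld x)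
    (hun : ¬ (sols x.1 x.2).Nonempty) {q : CSt A} {M : T → A.W} (h : Sound A tm B x q M) (b : Bool)
    (hs : stopC A q = false) :
    Sound A tm B x ((comb A bld htm hB hrep hclk hlim hbld).next (q, M) b).1
      ((comb A bld htm hB hrep hclk hlim hbld).next (q, M) b).2 := by
  cases h with
  | bits t j u r M ht hu hF =>
    cases r with
    | zero =>
      rw [next_bits_zero]
      refine Sound.run t j _ _ M ht hF.fresh ?_
      have hview : view M t j = fun _ => A.blank := hF t j (Or.inr ⟨rfl, le_refl _⟩)
      obtain ⟨g1, g2, g3, g4⟩ := h1 t ht u (by simpa using hu)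
      have hne : ¬ (sols (bld (x, (t, u))).1 (bld (x, (t, u))).2).Nonempty := fun h => hun (g3 h)
      have hss : (sols (bld (x, (t, u))).1 (bld (x, (t, u))).2).Subsingleton := by
        intro a ha
        exact absurd ⟨a, ha⟩ hne
      obtain ⟨T', -, hT2, hT3, -⟩ := hA _ _ g1 hss
      have hst : A.start ((bld (x, (t, u))).1, (bld (x, (t, u))).2)
          = (A.init (bld (x, (t, u))), view M t j) := by
        rw [hview]; rfl
      rw [hst] at hT2 hT3
      exact fun s => A.pYes_zero hT2 (hT3 hne) s
    | succ r =>
      rw [next_bits_succ]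
      exact Sound.bits t j _ r M ht (by simp; omega) hF
  | run t j κ q M ht hF hp =>
    by_cases h2 : A.stop q = true
    · have h3 : A.ans q = false := by
        have := hp 0
        rw [A.pYes_stop (c := (q, view M t j)) h2] at this
        by_contra h4
        simp [h4] at this
      rw [next_run_no x t j κ q M b h2 h3]
      exact sound_nextRun ht hF
    · by_cases h3 : isZ κ = false ∧ tsz q ≤ lim (x.1, t) ∧
        tsz (view M t j (A.addr q)) ≤ lim (x.1, t)
      · rw [next_run_go x t j κ q M b (by simpa using h2) h3.1 h3.2.1 h3.2.2]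
        refine Sound.run t j _ _ _ ht (hF.update _ _) ?_
        intro s
        rw [view_next]
        have h4 := hp (s + 1)
        simp only [pYes, if_neg h2] at h4
        have h5 := A.pYes_nonneg s (A.next (q, view M t j) true)
        have h6 := A.pYes_nonneg s (A.next (q, view M t j) false)
        cases b <;> linarith
      · rw [next_run_abort x t j κ q M b (by simpa using h2) h3]
        exact sound_nextRun ht hF
  | done t j M => simp [stopC] at hs

theorem sound_pYes (hA : Good k c C d A) (h1 : Cond k d c C tm B clk lim bld x)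
    (hun : ¬ (sols x.1 x.2).Nonempty) : ∀ (τ : ℕ) {q : CSt A} {M : T → A.W}, Sound A tm B x q M →
      (comb A bld htm hB hrep hclk hlim hbld).pYes τ (q, M) = 0 := by
  intro τ
  have hans : ∀ {q : CSt A} {M : T → A.W}, Sound A tm B x q M →
      (comb A bld htm hB hrep hclk hlim hbld).ans q = false := by
    intro q M h
    cases h <;> rfl
  induction τ with
  | zero =>
    intro q M h
    have h2 := hans h
    simp only [pYes]
    rw [if_neg]
    simp [h2]
  | succ τ ih =>
    intro q M h
    by_cases hs : (comb A bld htm hB hrep hclk hlim hbld).stop q = true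
    · rw [Alg.pYes_stop _ hs, if_neg]
      simp [hans h]
    · simp only [pYes, if_neg hs]
      have h2 := sound_next (htm := htm) (hB := hB) (hrep := hrep) (hclk := hclk) (hlim := hlim) (hbld := hbld)
        hA h1 hun h true (Bool.eq_false_of_not_eq_true hs)
      have h3 := sound_next (htm := htm) (hB := hB) (hrep := hrep) (hclk := hclk) (hlim := hlim) (hbld := hbld)
        hA h1 hun h false (Bool.eq_false_of_not_eq_true hs)
      have h4 := ih h2
      have h5 := ih h3
      simp only [Prod.mk.eta] at h4 h5
      rw [h4, h5]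
      norm_num

theorem sound_start : Sound A tm B x (tStart A B rep x (tm x.1)) (fun _ => A.blank) :=
  Sound.bits _ _ _ _ _ (le_refl _) (by simp) (fun _ _ _ => rfl)

end

end Pool.Agent.Helper77.SK
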