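import Pool.Agent.Helper77.SK.Basic
import Pool.Agent.Helper38.ISO.Bnd

/-!
# The schedule of widths
-/

set_option autoImplicit false

namespace Pool.Agent.Helper77.SK

open Finset Pool.Agent.Helper38.ISO

lemma lev_le {a : ℕ → ℕ} {e J : ℕ} (h : e ≤ a J) : lev a e ≤ J := Nat.sInf_le h

lemma le_lev {a : ℕ → ℕ} {e J : ℕ} (h : e ≤ a J) : e ≤ a (lev a e) :=
  Nat.sInf_mem (s := {j | e ≤ a j}) ⟨J, h⟩

lemma lt_of_lt_lev {a : ℕ → ℕ} {e j : ℕ} (h : j < lev a e) : a j < e := by
  by_contra h1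
  exact absurd (Nat.sInf_le (s := {j | e ≤ a j}) (not_lt.mp h1)) (not_le.mpr h)

lemma naux_le (k : ℕ) (hk : 3 ≤ k) (fuel : ℕ) : ∀ w : ℕ, (k - 2) * naux k fuel w ≤ w := by
  induction fuel with
  | zero => intro w; simp [naux]
  | succ f ih =>
    intro w
    simp only [naux]
    split_ifs with h
    · simp
    · have := ih (w - (k - 2))
      rw [mul_add]
      omega

lemma naux_self (k f w : ℕ) (h : w ≤ k) : naux k f w = 0 := by
  cases f with
  | zero => rfl
  | succ f => simp [naux, h]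

lemma rho_anti (n : ℕ) {m m' : ℕ} (h : m ≤ m') : rho n m' ≤ rho n m := by
  unfold rho
  have h1 : (m : ℝ) ≤ m' := by exact_mod_cast h
  have h2 : (2 * (m : ℝ) / n) ≤ 2 * m' / n := by
    apply div_le_div_of_nonneg_right _ (Nat.cast_nonneg n)
    linarith
  have h3 : Real.exp (-(2 * m' / n : ℝ)) ≤ Real.exp (-(2 * m / n : ℝ)) :=
    Real.exp_le_exp.mpr (by linarith)
  linarith

/-- `ρ ^ e` is small when `e` is large. -/
lemma rho_pow_le {n N v e : ℕ} (hn : 1 ≤ n) (hN : n ≤ N) (hN2 : N ≤ 2 * n) (hv : 1 ≤ v) {L : ℝ}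
    (hL : 0 ≤ L) (hnv : L * v ≤ n) (he : 4 * L * n / v ≤ e) :
    rho N v ^ e ≤ Real.exp (1 - L) * Real.exp (-((v : ℝ) / (4 * ((n : ℝ) + v)))) ^ e := by
  have hn0 : (1 : ℝ) ≤ n := by exact_mod_cast hn
  have hv0 : (1 : ℝ) ≤ v := by exact_mod_cast hv
  have hN0 : (n : ℝ) ≤ N := by exact_mod_cast hN
  have hN3 : (N : ℝ) ≤ 2 * n := by exact_mod_cast hN2
  have h1 := rho_le_exp (n := N) (m := v) (by omega) hv
  have h2 : (v : ℝ) / (2 * ((n : ℝ) + v)) ≤ 1 / ((N : ℝ) / v + 2) := by
    rw [div_le_div_iff₀ (by positivity) (by positivity)]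
    have : (v : ℝ) * ((N : ℝ) / v + 2) = N + 2 * v := by field_simp
    rw [this]
    linarith
  have h3 : rho N v ≤ Real.exp (-((v : ℝ) / (2 * ((n : ℝ) + v)))) :=
    h1.trans (Real.exp_le_exp.mpr (by linarith))
  have h4 := pow_le_pow_left₀ (rho_pos N v).le h3 e
  refine h4.trans ?_
  rw [← Real.exp_nat_mul, ← Real.exp_nat_mul, ← Real.exp_add]
  apply Real.exp_le_exp.mpr
  have h5 : (v : ℝ) / (2 * ((n : ℝ) + v)) = 2 * ((v : ℝ) / (4 * ((n : ℝ) + v))) := by
    field_simp; ring
  rw [h5]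
  set δ : ℝ := (v : ℝ) / (4 * ((n : ℝ) + v)) with hδ
  -- `e * δ ≥ L n / (n + v) ≥ L - 1`
  have h6 : L - 1 ≤ e * δ := by
    have h7 : 4 * L * n / v * δ = L * n / ((n : ℝ) + v) := by
      rw [hδ]; field_simp
    have h8 : L - 1 ≤ L * n / ((n : ℝ) + v) := by
      rw [le_div_iff₀ (by positivity)]
      nlinarith
    have h9 : 0 ≤ δ := by positivity
    calc L - 1 ≤ 4 * L * n / v * δ := by rw [h7]; exact h8
      _ ≤ e * δ := mul_le_mul_of_nonneg_right he h9
  nlinarith

lemma one_sub_ge {x : ℝ} (h0 : 0 ≤ x) (h1 : x ≤ 1 / 2) : Real.exp (-(2 * x)) ≤ 1 - x := by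
  have h2 := Real.add_one_le_exp (2 * x)
  have h3 : Real.exp (-(2 * x)) * Real.exp (2 * x) = 1 := by rw [← Real.exp_add]; simp
  have h4 := Real.exp_pos (-(2 * x))
  have h5 : Real.exp (-(2 * x)) * (1 + 2 * x) ≤ 1 := by nlinarith
  have h6 : 1 ≤ (1 - x) * (1 + 2 * x) := by nlinarith
  nlinarith

/-- The product over all constraints, for large `n`. -/
theorem prod_large {n N J : ℕ} {v : ℕ → ℕ} {lv : ℕ → ℕ} {L : ℝ} (hn : 1 ≤ n) (hN : n ≤ N)
    (hN2 : N ≤ 2 * n) (hv : ∀ j, 1 ≤ v j) (hL : 2 ≤ L) (hnv : ∀ j, L * v j ≤ n)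
    (hlv : ∀ e, e < n → lv (e + 1) ≤ J ∧
      (lv (e + 1) ≠ 0 → 4 * L * n / v (lv (e + 1)) ≤ ((e + 1 : ℕ) : ℝ))) :
    Real.exp (-(Real.pi ^ 2 / 6 * ((N : ℝ) / v 0 + 2)) -
        2 * Real.exp (1 - L) * ∑ i ∈ range J, 4 * ((n : ℝ) + v (i + 1)) / v (i + 1)) ≤
      ∏ e ∈ range n, (1 - rho N (v (lv (e + 1))) ^ (e + 1)) := by
  set y : ℕ → ℝ := fun i => Real.exp (-((v i : ℝ) / (4 * ((n : ℝ) + v i)))) with hy
  have hn0 : (1 : ℝ) ≤ n := by exact_mod_cast hn
  have hy0 : ∀ i, 0 < y i := fun i => Real.exp_pos _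
  have hEL : Real.exp (1 - L) ≤ 1 / 2 := by
    have h1 : Real.exp (1 - L) ≤ Real.exp (-1) := Real.exp_le_exp.mpr (by linarith)
    have h2 := Real.add_one_le_exp (1 : ℝ)
    have h3 : Real.exp (-1) * Real.exp 1 = 1 := by rw [← Real.exp_add]; simp
    have h4 := Real.exp_pos (-1 : ℝ)
    nlinarith
  have hy1 : ∀ i, y i ≤ 1 := by
    intro i
    apply Real.exp_le_one_iff.mpr
    have : (0 : ℝ) ≤ (v i : ℝ) / (4 * ((n : ℝ) + v i)) := by positivity
    linarith
  -- each factor
  have key : ∀ e ∈ range n, (1 - rho N (v 0) ^ (e + 1)) *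
      Real.exp (-(2 * (Real.exp (1 - L) * ∑ i ∈ range J, y (i + 1) ^ (e + 1)))) ≤
      1 - rho N (v (lv (e + 1))) ^ (e + 1) := by
    intro e he
    obtain ⟨h1, h2⟩ := hlv e (Finset.mem_range.mp he)
    have hs : 0 ≤ ∑ i ∈ range J, y (i + 1) ^ (e + 1) :=
      Finset.sum_nonneg fun i _ => pow_nonneg (hy0 _).le _
    have hE := Real.exp_pos (1 - L)
    by_cases h0 : lv (e + 1) = 0
    · rw [h0]
      have h3 : Real.exp (-(2 * (Real.exp (1 - L) * ∑ i ∈ range J, y (i + 1) ^ (e + 1)))) ≤ 1 := by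
        apply Real.exp_le_one_iff.mpr
        have := mul_nonneg hE.le hs
        linarith
      exact mul_le_of_le_one_right (factor_nonneg N (v 0) e) h3
    · have h3 := rho_pow_le hn hN hN2 (hv (lv (e + 1))) (by linarith : (0 : ℝ) ≤ L) (hnv _) (h2 h0)
      set x : ℝ := Real.exp (1 - L) * y (lv (e + 1)) ^ (e + 1) with hx
      have hx0 : 0 ≤ x := by positivity
      have hx1 : x ≤ 1 / 2 := by
        have h5 := pow_le_one₀ (n := e + 1) (hy0 (lv (e + 1))).le (hy1 _)
        have h6 := pow_nonneg (hy0 (lv (e + 1))).le (e + 1)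
        rw [hx]
        nlinarith
      have h4 := one_sub_ge hx0 hx1
      have h5 : y (lv (e + 1)) ^ (e + 1) ≤ ∑ i ∈ range J, y (i + 1) ^ (e + 1) := by
        have h6 : lv (e + 1) - 1 ∈ range J := Finset.mem_range.mpr (by omega)
        have h7 := Finset.single_le_sum (f := fun i => y (i + 1) ^ (e + 1))
          (fun i _ => pow_nonneg (hy0 _).le _) h6
        have h8 : lv (e + 1) - 1 + 1 = lv (e + 1) := by omega
        simpa [h8] using h7
      have h6 : Real.exp (-(2 * (Real.exp (1 - L) * ∑ i ∈ range J, y (i + 1) ^ (e + 1)))) ≤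
          Real.exp (-(2 * x)) := by
        apply Real.exp_le_exp.mpr
        have := mul_le_mul_of_nonneg_left h5 hE.le
        rw [hx]
        linarith
      calc _ ≤ 1 * Real.exp (-(2 * (Real.exp (1 - L) * ∑ i ∈ range J, y (i + 1) ^ (e + 1)))) :=
            mul_le_mul_of_nonneg_right (factor_le_one N (v 0) e) (Real.exp_pos _).le
        _ ≤ Real.exp (-(2 * x)) := by rw [one_mul]; exact h6
        _ ≤ 1 - x := h4
        _ ≤ _ := by linarith
  refine le_trans ?_ (Finset.prod_le_prod (fun e _ =>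
    mul_nonneg (factor_nonneg N (v 0) e) (Real.exp_pos _).le) key)
  rw [Finset.prod_mul_distrib, ← Real.exp_sum, sub_eq_add_neg, Real.exp_add]
  apply mul_le_mul (Pi_ge (n := N) (m := v 0) (by omega) (hv 0) n) _ (Real.exp_pos _).le
    (Pi_nonneg N (v 0) n)
  apply Real.exp_le_exp.mpr
  rw [Finset.sum_neg_distrib, neg_le_neg_iff, ← Finset.mul_sum, ← Finset.mul_sum, mul_assoc]
  apply mul_le_mul_of_nonneg_left _ (by norm_num)
  apply mul_le_mul_of_nonneg_left _ (Real.exp_pos _).le
  rw [Finset.sum_comm]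
  apply Finset.sum_le_sum
  intro i _
  have h1 : 0 < (v (i + 1) : ℝ) / (4 * ((n : ℝ) + v (i + 1))) := by
    have : (1 : ℝ) ≤ v (i + 1) := by exact_mod_cast hv (i + 1)
    positivity
  have h2 := geo_le _ h1 n
  refine h2.trans (le_of_eq ?_)
  rw [one_div_div]

/-- The product over all constraints, for all `n`. -/
theorem prod_small {n N n0 : ℕ} {v : ℕ → ℕ} {lv : ℕ → ℕ} (hn : 1 ≤ n) (hN : n ≤ N)
    (hN2 : N ≤ 2 * n) (hn0 : n ≤ n0) (hv : ∀ j, 1 ≤ v j) :
    Real.exp (-(Real.pi ^ 2 / 6 * (2 * (n0 : ℝ) + 2))) ≤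
      ∏ e ∈ range n, (1 - rho N (v (lv (e + 1))) ^ (e + 1)) := by
  have h1 : Pi N 1 n ≤ ∏ e ∈ range n, (1 - rho N (v (lv (e + 1))) ^ (e + 1)) := by
    unfold Pi
    apply Finset.prod_le_prod
    · intro e _
      exact factor_nonneg N 1 e
    · intro e _
      have := pow_le_pow_left₀ (rho_pos N _).le (rho_anti N (hv (lv (e + 1)))) (e + 1)
      linarith
  refine le_trans ?_ h1
  refine le_trans ?_ (Pi_ge (n := N) (m := 1) (by omega) le_rfl n)
  apply Real.exp_le_exp.mpr
  have h2 : (N : ℝ) ≤ 2 * n0 := by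
    have : N ≤ 2 * n0 := by omega
    exact_mod_cast this
  have h3 : (0 : ℝ) ≤ Real.pi ^ 2 / 6 := by positivity
  have h4 : (N : ℝ) / ((1 : ℕ) : ℝ) = N := by simp
  rw [h4]
  nlinarith

lemma sum_third (J : ℕ) : ∑ j ∈ range J, ((1 : ℝ) / 3) ^ j ≤ 3 / 2 := by
  have h : ∀ J : ℕ, ∑ j ∈ range J, ((1 : ℝ) / 3) ^ j = 3 / 2 * (1 - (1 / 3) ^ J) := by
    intro J
    induction J with
    | zero => simp
    | succ J ih => rw [Finset.sum_range_succ, ih]; ring
  rw [h]
  have : (0 : ℝ) < (1 / 3) ^ J := by positivity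
  linarith

theorem schedule : ∃ C : ℝ, 0 < C ∧ ∀ k : ℕ, 3 ≤ k → ∀ μ : ℝ, 0 < μ → μ ≤ 1 →
    ∃ (q J W : ℕ) (v p : ℕ → ℕ) (D : ℝ), 0 < q ∧ (∀ j, Odd (v j)) ∧ (∀ j, v j ≤ W) ∧
      Monotone p ∧ (∀ j, p j ≤ q) ∧ p J = q ∧ Antitone v ∧
      (∀ n N : ℕ, 1 ≤ n → n ≤ N → N ≤ 2 * n → Real.exp (-(C * μ / k * n + D)) ≤
        ∏ e ∈ range n, (1 - rho N (v (lev (fun j => p j * n / q) (e + 1))) ^ (e + 1))) ∧
      (∀ n : ℕ, ((∑ j ∈ range (J + 1), p j * n / q * naux k (v j) (v j) : ℕ) : ℝ) ≤
        C * (1 + Real.log (1 / μ)) ^ 2 / k * n) := by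
  refine ⟨144, by norm_num, ?_⟩
  intro k hk μ hμ0 hμ1
  have hk0 : (3 : ℝ) ≤ k := by exact_mod_cast hk
  set ℓ : ℝ := Real.log (1 / μ) with hℓ
  have hℓ0 : 0 ≤ ℓ := Real.log_nonneg (by rw [le_div_iff₀ hμ0]; linarith)
  set L : ℝ := 2 + ℓ with hL
  set J : ℕ := ⌈ℓ⌉₊ with hJ
  have hJ1 : ℓ ≤ J := Nat.le_ceil ℓ
  have hJ2 : (J : ℝ) < ℓ + 1 := Nat.ceil_lt_add_one hℓ0
  set w0 : ℕ := 2 * ((k - 1) / 2) + 1 with hw0
  have hw0k : w0 ≤ k := by omega
  have hw0k' : 2 * k ≤ 3 * w0 := by omega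
  have hw0odd : Odd w0 := ⟨(k - 1) / 2, rfl⟩
  have hw0pos : 0 < w0 := by omega
  have hw0r : (0 : ℝ) < w0 := by exact_mod_cast hw0pos
  have hw0r' : 2 * (k : ℝ) ≤ 3 * w0 := by exact_mod_cast hw0k'
  set v : ℕ → ℕ := fun j => 3 ^ (J - j) * w0 with hv
  have hvpos : ∀ j, 1 ≤ v j := by
    intro j
    have : 0 < v j := by rw [hv]; positivity
    omega
  have hvr : ∀ j, (1 : ℝ) ≤ v j := fun j => by exact_mod_cast hvpos j
  have hvanti : Antitone v := by
    intro i j hij
    simp only [hv]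
    apply Nat.mul_le_mul_right
    exact Nat.pow_le_pow_right (by norm_num) (by omega)
  have hvodd : ∀ j, Odd (v j) := by
    intro j
    exact (Odd.pow (by decide)).mul hw0odd
  have hvJ : v J = w0 := by simp [hv]
  have hvsucc : ∀ j, j < J → v j = 3 * v (j + 1) := by
    intro j hj
    simp only [hv]
    have : J - j = (J - (j + 1)) + 1 := by omega
    rw [this, pow_succ]
    ring
  set q : ℕ := v 0 with hq
  have hqpos : 0 < q := hvpos 0
  have hqr : (0 : ℝ) < q := by exact_mod_cast hqpos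
  have hvq : ∀ j, v j ≤ q := fun j => hvanti (Nat.zero_le j)
  have hvqr : ∀ j, (v j : ℝ) ≤ q := fun j => by exact_mod_cast hvq j
  have hq3 : 1 / μ * w0 ≤ q := by
    have h1 : 1 / μ ≤ 3 ^ J := by
      have h2 : 1 / μ = Real.exp ℓ := by rw [hℓ, Real.exp_log (by positivity)]
      rw [h2]
      calc Real.exp ℓ ≤ Real.exp J := Real.exp_le_exp.mpr hJ1
        _ = Real.exp 1 ^ J := by rw [← Real.exp_nat_mul, mul_one]
        _ ≤ 3 ^ J := pow_le_pow_left₀ (Real.exp_pos 1).le (by
            have := Real.exp_one_lt_d9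
            linarith) J
    have h3 : (q : ℝ) = 3 ^ J * w0 := by
      rw [hq, hv]
      push_cast
      simp
    rw [h3]
    exact mul_le_mul_of_nonneg_right h1 hw0r.le
  set p : ℕ → ℕ := fun j => if j < J then min q ⌈4 * L * q / v (j + 1)⌉₊ else q with hp
  have hL2 : 2 ≤ L := by linarith
  have hpq : ∀ j, p j ≤ q := by
    intro j
    simp only [hp]
    split_ifs
    · exact min_le_left _ _
    · exact le_rfl
  have hpJ : p J = q := by simp [hp]
  have hpmono : Monotone p := by
    apply monotone_nat_of_le_succ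
    intro j
    by_cases h1 : j + 1 < J
    · have h2 : j < J := by omega
      simp only [hp, h1, h2, if_true]
      apply min_le_min le_rfl
      apply Nat.ceil_mono
      apply div_le_div_of_nonneg_left (by positivity) (by linarith [hvr (j + 1 + 1)])
      exact_mod_cast hvanti (Nat.le_succ (j + 1))
    · have h2 : p (j + 1) = q := by simp [hp, h1]
      rw [h2]
      exact hpq j
  set n0 : ℕ := ⌈L * q⌉₊ with hn0
  have hE : Real.exp (1 - L) ≤ μ / 2 := by
    have h1 : Real.exp (1 - L) = Real.exp (-1) * μ := by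
      have h2 : (1 - L) = -1 + Real.log μ := by
        rw [hL, hℓ, one_div, Real.log_inv]
        ring
      rw [h2, Real.exp_add, Real.exp_log hμ0]
    have h2 := Real.add_one_le_exp (1 : ℝ)
    have h3 : Real.exp (-1) * Real.exp 1 = 1 := by rw [← Real.exp_add]; simp
    have h4 := Real.exp_pos (-1 : ℝ)
    have h5 : Real.exp (-1) ≤ 1 / 2 := by nlinarith
    rw [h1]
    nlinarith
  have hpi : Real.pi ^ 2 / 6 ≤ 2 := by
    have h1 := Real.pi_lt_d2
    have h2 := Real.pi_pos
    nlinarith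
  refine ⟨q, J, q, v, p, 4 * J + 4 + 2 * (2 * (n0 : ℝ) + 2), hqpos, hvodd, hvq, hpmono, hpq, hpJ,
    hvanti, ?_, ?_⟩
  · intro n N hn hN hN2
    have hnr : (1 : ℝ) ≤ n := by exact_mod_cast hn
    rcases le_total n n0 with hc | hc
    · refine le_trans ?_ (prod_small (v := v) (lv := lev (fun j => p j * n / q)) hn hN hN2 hc hvpos)
      apply Real.exp_le_exp.mpr
      have h1 : 0 ≤ 144 * μ / k * n := by positivity
      have h2 : Real.pi ^ 2 / 6 * (2 * (n0 : ℝ) + 2) ≤ 2 * (2 * (n0 : ℝ) + 2) :=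
        mul_le_mul_of_nonneg_right hpi (by positivity)
      have h3 : (0 : ℝ) ≤ J := Nat.cast_nonneg J
      linarith
    · have hLn : ∀ j, L * v j ≤ n := by
        intro j
        calc L * v j ≤ L * q := mul_le_mul_of_nonneg_left (hvqr j) (by linarith)
          _ ≤ n0 := Nat.le_ceil _
          _ ≤ n := by exact_mod_cast hc
      have hlv : ∀ e, e < n → lev (fun j => p j * n / q) (e + 1) ≤ J ∧
          (lev (fun j => p j * n / q) (e + 1) ≠ 0 →
            4 * L * n / v (lev (fun j => p j * n / q) (e + 1)) ≤ ((e + 1 : ℕ) : ℝ)) := by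
        intro e he
        set a : ℕ → ℕ := fun j => p j * n / q with ha
        have haJ : e + 1 ≤ a J := by
          simp only [ha, hpJ]
          rw [Nat.mul_div_cancel_left n hqpos]
          omega
        refine ⟨lev_le haJ, ?_⟩
        intro h0
        set i : ℕ := lev a (e + 1) - 1 with hi
        have hi1 : i + 1 = lev a (e + 1) := by omega
        have hi2 : i < lev a (e + 1) := by omega
        have hi3 : i < J := lt_of_lt_of_le hi2 (lev_le haJ)
        have h1 : a i < e + 1 := lt_of_lt_lev hi2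
        have h2 : p i * n < (e + 1) * q := by
          simp only [ha] at h1
          rwa [Nat.div_lt_iff_lt_mul hqpos] at h1
        have h3 : p i = min q ⌈4 * L * q / v (i + 1)⌉₊ := by simp [hp, hi3]
        have h4 : ¬ (q ≤ ⌈4 * L * q / v (i + 1)⌉₊) := by
          intro h5
          rw [min_eq_left h5] at h3
          rw [h3, mul_comm] at h2
          have := Nat.lt_of_mul_lt_mul_right h2
          omega
        rw [min_eq_right (by omega)] at h3
        have h5 : 4 * L * q / v (i + 1) ≤ p i := by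
          rw [h3]
          exact Nat.le_ceil _
        have h6 : (p i : ℝ) * n < ((e + 1 : ℕ) : ℝ) * q := by exact_mod_cast h2
        rw [← hi1]
        have h7 : 0 < (v (i + 1) : ℝ) := by linarith [hvr (i + 1)]
        rw [div_le_iff₀ h7] at h5 ⊢
        have h8 : 4 * L * q * n < ((e + 1 : ℕ) : ℝ) * v (i + 1) * q := by
          calc 4 * L * q * n ≤ (p i : ℝ) * v (i + 1) * n :=
                mul_le_mul_of_nonneg_right h5 (by linarith)
            _ = ((p i : ℝ) * n) * v (i + 1) := by ring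
            _ < (((e + 1 : ℕ) : ℝ) * q) * v (i + 1) := mul_lt_mul_of_pos_right h6 h7
            _ = _ := by ring
        have h9 : 4 * L * n * q < ((e + 1 : ℕ) : ℝ) * v (i + 1) * q := by linarith
        exact (lt_of_mul_lt_mul_right h9 hqr.le).le
      refine le_trans ?_ (prod_large (v := v) (lv := lev (fun j => p j * n / q)) hn hN hN2 hvpos hL2
        hLn hlv)
      apply Real.exp_le_exp.mpr
      -- the sum over the levels
      have hS : ∑ i ∈ range J, 4 * ((n : ℝ) + v (i + 1)) / v (i + 1) ≤ 6 * n / w0 + 4 * J := by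
        have h1 : ∀ i ∈ range J, 4 * ((n : ℝ) + v (i + 1)) / v (i + 1) =
            4 * n / w0 * (1 / 3) ^ (J - 1 - i) + 4 := by
          intro i hi
          have hi' := Finset.mem_range.mp hi
          have h2 : (v (i + 1) : ℝ) = 3 ^ (J - 1 - i) * w0 := by
            simp only [hv]
            push_cast
            rw [show J - (i + 1) = J - 1 - i by omega]
          rw [h2, one_div, inv_pow]
          field_simp
        rw [Finset.sum_congr rfl h1, Finset.sum_add_distrib, ← Finset.mul_sum,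
          Finset.sum_range_reflect (fun j => ((1 : ℝ) / 3) ^ j) J]
        have h2 := sum_third J
        have h3 : 0 ≤ 4 * (n : ℝ) / w0 := by positivity
        have h4 := mul_le_mul_of_nonneg_left h2 h3
        simp only [Finset.sum_const, Finset.card_range, nsmul_eq_mul]
        have h5 : 4 * (n : ℝ) / w0 * (3 / 2) = 6 * n / w0 := by ring
        linarith
      have hw : 2 / (w0 : ℝ) ≤ 3 / k := by
        rw [div_le_div_iff₀ hw0r (by linarith)]
        exact hw0r'
      have hN4 : (N : ℝ) / v 0 ≤ 3 * n * μ / k := by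
        have h1 : (N : ℝ) ≤ 2 * n := by exact_mod_cast hN2
        have h2 : (1 : ℝ) / q ≤ μ / w0 := by
          rw [div_le_div_iff₀ hqr hw0r]
          have h3 : μ * (1 / μ * w0) = w0 := by field_simp
          have := mul_le_mul_of_nonneg_left hq3 hμ0.le
          rw [h3] at this
          linarith
        calc (N : ℝ) / v 0 = N * (1 / q) := by rw [hq]; ring
          _ ≤ (2 * n) * (μ / w0) := mul_le_mul h1 h2 (by positivity) (by positivity)
          _ = n * μ * (2 / w0) := by ring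
          _ ≤ n * μ * (3 / k) := mul_le_mul_of_nonneg_left hw (by positivity)
          _ = _ := by ring
      have h1 : Real.pi ^ 2 / 6 * ((N : ℝ) / v 0 + 2) ≤ 2 * (3 * n * μ / k + 2) := by
        apply mul_le_mul hpi (by linarith) _ (by norm_num)
        have : (0 : ℝ) ≤ (N : ℝ) / v 0 := by positivity
        linarith
      have h2 : 2 * Real.exp (1 - L) * ∑ i ∈ range J, 4 * ((n : ℝ) + v (i + 1)) / v (i + 1) ≤
          μ * (6 * n / w0 + 4 * J) := by
        apply mul_le_mul (by linarith) hS _ hμ0.le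
        apply Finset.sum_nonneg
        intro i _
        have := hvr (i + 1)
        positivity
      have h3 : μ * (6 * n / w0 + 4 * J) ≤ 9 * μ * n / k + 4 * J := by
        have h4 : μ * (6 * n / w0) ≤ 9 * μ * n / k := by
          calc μ * (6 * n / w0) = 3 * μ * n * (2 / w0) := by ring
            _ ≤ 3 * μ * n * (3 / k) := mul_le_mul_of_nonneg_left hw (by positivity)
            _ = _ := by ring
        have h5 : μ * (4 * J) ≤ 4 * J := mul_le_of_le_one_left (by positivity) hμ1
        rw [mul_add]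
        linarith
      have h4 : 2 * (3 * n * μ / k + 2) + (9 * μ * n / k + 4 * J) = 15 * μ / k * n + 4 + 4 * J := by
        ring
      have h5 : 15 * μ / k * n ≤ 144 * μ / k * n := by
        apply mul_le_mul_of_nonneg_right _ (by linarith)
        apply div_le_div_of_nonneg_right _ (by linarith)
        linarith
      have h6 : (0 : ℝ) ≤ 2 * (2 * (n0 : ℝ) + 2) := by positivity
      linarith
  · intro n
    have hnr : (0 : ℝ) ≤ n := Nat.cast_nonneg n
    have hk2 : ((k - 2 : ℕ) : ℝ) = (k : ℝ) - 2 := by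
      rw [Nat.cast_sub (by omega)]
      norm_num
    have hk3 : (k : ℝ) / 3 ≤ ((k - 2 : ℕ) : ℝ) := by
      rw [hk2]
      linarith
    have hterm : ∀ j ∈ range J, ((p j * n / q * naux k (v j) (v j) : ℕ) : ℝ) ≤ 72 * L * n / k := by
      intro j hj
      have hj' := Finset.mem_range.mp hj
      have hv1 := hvr (j + 1)
      have hv1' : (0 : ℝ) < v (j + 1) := by linarith
      have h1 : (p j : ℝ) ≤ 8 * L * q / v (j + 1) := by
        have h2 : p j ≤ ⌈4 * L * q / v (j + 1)⌉₊ := by
          simp only [hp, hj', if_true]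
          exact min_le_right _ _
        have h3 : (p j : ℝ) ≤ ⌈4 * L * q / v (j + 1)⌉₊ := by exact_mod_cast h2
        have h4 := Nat.ceil_lt_add_one (a := 4 * L * q / v (j + 1)) (by positivity)
        have h5 : 1 ≤ 4 * L * q / v (j + 1) := by
          rw [le_div_iff₀ hv1']
          have := hvqr (j + 1)
          nlinarith
        have h6 : 8 * L * q / v (j + 1) = 4 * L * q / v (j + 1) + 4 * L * q / v (j + 1) := by ring
        linarith
      have h2 : ((p j * n / q : ℕ) : ℝ) ≤ 8 * L * n / v (j + 1) := by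
        have h3 : ((p j * n / q : ℕ) : ℝ) ≤ (p j : ℝ) * n / q := by
          have := Nat.cast_div_le (α := ℝ) (m := p j * n) (n := q)
          push_cast at this ⊢
          exact this
        refine h3.trans ?_
        rw [div_le_iff₀ hqr]
        calc (p j : ℝ) * n ≤ 8 * L * q / v (j + 1) * n := mul_le_mul_of_nonneg_right h1 hnr
          _ = _ := by ring
      have h3 : (naux k (v j) (v j) : ℝ) ≤ 9 * v (j + 1) / k := by
        have h4 := naux_le k hk (v j) (v j)
        have h5 : ((k - 2 : ℕ) : ℝ) * naux k (v j) (v j) ≤ v j := by exact_mod_cast h4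
        have h6 : (v j : ℝ) = 3 * v (j + 1) := by exact_mod_cast hvsucc j hj'
        rw [le_div_iff₀ (by linarith)]
        have h7 : (k : ℝ) / 3 * naux k (v j) (v j) ≤ ((k - 2 : ℕ) : ℝ) * naux k (v j) (v j) :=
          mul_le_mul_of_nonneg_right hk3 (Nat.cast_nonneg _)
        nlinarith
      push_cast
      calc ((p j * n / q : ℕ) : ℝ) * (naux k (v j) (v j) : ℝ)
          ≤ (8 * L * n / v (j + 1)) * (9 * v (j + 1) / k) :=
            mul_le_mul h2 h3 (Nat.cast_nonneg _) (by positivity)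
        _ = 72 * L * n / k := by field_simp; ring
    rw [Finset.sum_range_succ]
    have h0 : naux k (v J) (v J) = 0 := by
      rw [hvJ]
      exact naux_self k w0 w0 hw0k
    rw [h0, mul_zero, add_zero, Nat.cast_sum]
    have h1 := Finset.sum_le_sum hterm
    simp only [Finset.sum_const, Finset.card_range, nsmul_eq_mul] at h1
    refine h1.trans ?_
    have h2 : (J : ℝ) * (72 * L * n / k) = 72 * (J * L) * (n / k) := by ring
    have h3 : 144 * (1 + ℓ) ^ 2 / k * n = 72 * (2 * (1 + ℓ) ^ 2) * (n / k) := by ring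
    rw [h2, h3]
    apply mul_le_mul_of_nonneg_right _ (by positivity)
    have h4 : (J : ℝ) * L ≤ (1 + ℓ) * (2 * (1 + ℓ)) := by
      apply mul_le_mul (by linarith) (by linarith) (by linarith) (by linarith)
    nlinarith

/-! ### The number of new variables -/

lemma nall_add (k : ℕ) (w : ℕ → ℕ) (t r : ℕ) :
    nall k w (t + r) = nall k w t + nall k (fun e => w (e + t)) r := by
  unfold nall
  rw [Finset.sum_range_add]
  congr 1
  apply Finset.sum_congr rfl
  intro e _
  have h : t + e + 1 = e + 1 + t := by omega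
  rw [h]

lemma nall_congr {k : ℕ} {w w' : ℕ → ℕ} {r : ℕ} (h : ∀ e, 1 ≤ e → e ≤ r → w e = w' e) :
    nall k w r = nall k w' r := by
  unfold nall
  apply Finset.sum_congr rfl
  intro e he
  have := Finset.mem_range.mp he
  rw [h (e + 1) (by omega) (by omega)]

lemma nall_widv_cons (k : ℕ) (v : ℕ → ℕ) (t : ℕ) (ts : List ℕ) :
    nall k (widv v (t :: ts)) (t :: ts).sum =
      t * naux k (v 0) (v 0) + nall k (widv (fun j => v (j + 1)) ts) ts.sum := by
  rw [List.sum_cons, nall_add]
  congr 1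
  · have h : nall k (widv v (t :: ts)) t = nall k (fun _ => v 0) t := by
      apply nall_congr
      intro e _ h2
      simp [widv, h2]
    rw [h]
    simp [nall]
  · apply nall_congr
    intro e h1 _
    simp only [widv]
    rw [if_neg (by omega)]
    congr 1
    omega

/-- The number of new variables of the reduction is at most the number in `schedule`. -/
lemma nall_vec_le (k q n : ℕ) : ∀ (J : ℕ) (v p : ℕ → ℕ) (t : ℕ),
    nall k (widv v (vec q p J n t)) (vec q p J n t).sum ≤
      ∑ j ∈ range J, p j * n / q * naux k (v j) (v j) := by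
  intro J
  induction J with
  | zero => intro v p t; simp [vec, nall]
  | succ J ih =>
    intro v p t
    rw [vec, nall_widv_cons, Finset.sum_range_succ', add_comm]
    exact Nat.add_le_add (ih (fun j => v (j + 1)) (fun j => p (j + 1)) (t / (n + 1)))
      (Nat.mul_le_mul_right _ (min_le_right _ _))

/-- The number of constraints. -/
lemma sum_vec_le (q n : ℕ) : ∀ (J : ℕ) (p : ℕ → ℕ) (t : ℕ),
    (vec q p J n t).sum ≤ ∑ j ∈ range J, p j * n / q := by
  intro J
  induction J with
  | zero => intro p t; simp [vec]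
  | succ J ih =>
    intro p t
    rw [vec, List.sum_cons, Finset.sum_range_succ', add_comm]
    exact Nat.add_le_add (ih (fun j => p (j + 1)) (t / (n + 1))) (min_le_right _ _)

end Pool.Agent.Helper77.SK
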