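import Pool.Agent.Helper77.SK.Basic

/-!
# General facts on algorithms, averages and counters
-/

set_option autoImplicit false

namespace Pool.Agent.Helper77.SK

open Pool.Agent.Helper86.PT

/-! ### Averages -/

theorem E_mono {f g : List Bool → ℝ} : ∀ (r : ℕ), (∀ w, w.length = r → f w ≤ g w) → E r f ≤ E r g := by
  intro r
  induction r generalizing f g with
  | zero => intro h; exact h [] rfl
  | succ r ih =>
    intro h
    have h1 := ih (f := fun w => f (true :: w)) (g := fun w => g (true :: w))
      (fun w hw => h _ (by simp [hw]))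
    have h2 := ih (f := fun w => f (false :: w)) (g := fun w => g (false :: w))
      (fun w hw => h _ (by simp [hw]))
    simp only [E]
    linarith

theorem E_congr' {f g : List Bool → ℝ} (r : ℕ) (h : ∀ w, w.length = r → f w = g w) :
    E r f = E r g :=
  le_antisymm (E_mono r fun w hw => (h w hw).le) (E_mono r fun w hw => (h w hw).ge)

theorem E_affine (a b : ℝ) : ∀ (r : ℕ) (f : List Bool → ℝ), E r (fun w => a + b * f w) = a + b * E r f := by
  intro r
  induction r with
  | zero => intro f; rfl
  | succ r ih =>
    intro f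
    simp only [E]
    rw [ih, ih]
    ring

theorem E_const' (a : ℝ) (r : ℕ) : E r (fun _ => a) = a := by
  have := E_affine a 0 r (fun _ => 0)
  simpa using this

theorem E_add' : ∀ (r : ℕ) (f g : List Bool → ℝ), E r (fun w => f w + g w) = E r f + E r g := by
  intro r
  induction r with
  | zero => intro f g; rfl
  | succ r ih =>
    intro f g
    simp only [E]
    rw [ih, ih]
    ring

theorem E_nonneg {f : List Bool → ℝ} (r : ℕ) (h : ∀ w, w.length = r → 0 ≤ f w) : 0 ≤ E r f := by
  have := E_mono (f := fun _ => 0) r h
  rwa [E_const'] at this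

theorem E_le_one {f : List Bool → ℝ} (r : ℕ) (h : ∀ w, w.length = r → f w ≤ 1) : E r f ≤ 1 := by
  have := E_mono (g := fun _ => 1) r h
  rwa [E_const'] at this

/-- Splitting off the last toss. -/
theorem E_snoc : ∀ (r : ℕ) (f : List Bool → ℝ),
    E (r + 1) f = (E r (fun w => f (w ++ [true])) + E r (fun w => f (w ++ [false]))) / 2 := by
  intro r
  induction r with
  | zero => intro f; rfl
  | succ r ih =>
    intro f
    have h1 : E (r + 1 + 1) f
        = (E (r + 1) (fun w => f (true :: w)) + E (r + 1) (fun w => f (false :: w))) / 2 := rfl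
    rw [h1, ih, ih]
    simp only [E, List.cons_append]
    ring

/-! ### Counters -/

theorem bval_dec : ∀ (l : List Bool), isZ l = false → bval (dec l) + 1 = bval l := by
  intro l
  induction l with
  | nil => intro h; simp [isZ] at h
  | cons b l ih =>
    intro h
    cases b with
    | true => simp only [dec, bval]; simp; omega
    | false =>
      have h' : isZ l = false := by simpa [isZ] using h
      have := ih h'
      simp only [dec, bval]
      simp
      omega

theorem length_dec : ∀ (l : List Bool), (dec l).length = l.length := by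
  intro l
  induction l with
  | nil => rfl
  | cons b l ih => cases b <;> simp [dec, ih]

theorem isZ_iff : ∀ (l : List Bool), isZ l = true ↔ bval l = 0 := by
  intro l
  induction l with
  | nil => simp [isZ, bval]
  | cons b l ih =>
    cases b with
    | true => simp [isZ, bval]
    | false =>
      simp only [bval]
      rw [show isZ (false :: l) = isZ l from by simp [isZ], ih]
      simp

theorem bval_replicate (m : ℕ) : bval (List.replicate m true) + 1 = 2 ^ m := by
  induction m with
  | zero => rfl
  | succ m ih =>
    rw [List.replicate_succ, bval, pow_succ]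
    simp
    omega

/-! ### Algorithms -/

namespace Alg

variable {ι : Type} [TEnc ι] (A : Alg ι)

theorem pYes_nonneg : ∀ (t : ℕ) (c : A.Cfg), 0 ≤ A.pYes t c := by
  intro t
  induction t with
  | zero => intro c; simp only [pYes]; split_ifs <;> norm_num
  | succ t ih =>
    intro c
    simp only [pYes]
    have h1 := ih (A.next c true)
    have h2 := ih (A.next c false)
    split_ifs <;> linarith

theorem pYes_le_one : ∀ (t : ℕ) (c : A.Cfg), A.pYes t c ≤ 1 := by
  intro t
  induction t with
  | zero => intro c; simp only [pYes]; split_ifs <;> norm_num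
  | succ t ih =>
    intro c
    simp only [pYes]
    have h1 := ih (A.next c true)
    have h2 := ih (A.next c false)
    split_ifs <;> linarith

theorem pYes_stop {c : A.Cfg} (h : A.stop c.1 = true) (t : ℕ) :
    A.pYes t c = if A.ans c.1 = true then 1 else 0 := by
  cases t with
  | zero => simp [pYes, h]
  | succ t => simp [pYes, h]

theorem pYes_mono_succ : ∀ (t : ℕ) (c : A.Cfg), A.pYes t c ≤ A.pYes (t + 1) c := by
  intro t
  induction t with
  | zero =>
    intro c
    by_cases h : A.stop c.1 = true
    · rw [pYes_stop A h, pYes_stop A h]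
    · have : A.pYes 0 c = 0 := by simp [pYes, h]
      rw [this]
      exact A.pYes_nonneg _ _
  | succ t ih =>
    intro c
    by_cases h : A.stop c.1 = true
    · rw [pYes_stop A h, pYes_stop A h]
    · have e1 : A.pYes (t + 1) c = (A.pYes t (A.next c true) + A.pYes t (A.next c false)) / 2 := by
        simp [pYes, h]
      have e2 : A.pYes (t + 1 + 1) c
          = (A.pYes (t + 1) (A.next c true) + A.pYes (t + 1) (A.next c false)) / 2 := by
        rw [pYes, if_neg h]
      rw [e1, e2]
      have h1 := ih (A.next c true)
      have h2 := ih (A.next c false)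
      linarith

theorem pYes_mono {t t' : ℕ} (h : t ≤ t') (c : A.Cfg) : A.pYes t c ≤ A.pYes t' c := by
  induction t', h using Nat.le_induction with
  | base => exact le_refl _
  | succ k _ ih => exact ih.trans (A.pYes_mono_succ k c)

theorem halts_mono_succ (m : ℕ) : ∀ (t : ℕ) (c : A.Cfg), A.Halts m t c → A.Halts m (t + 1) c := by
  intro t
  induction t with
  | zero => intro c h; exact ⟨h.2, Or.inl h.1⟩
  | succ t ih =>
    intro c h
    refine ⟨h.1, ?_⟩
    rcases h.2 with h2 | h2
    · exact Or.inl h2
    · exact Or.inr ⟨h2.1, fun b => ih _ (h2.2 b)⟩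

theorem halts_mono {m t t' : ℕ} (h : t ≤ t') {c : A.Cfg} (hc : A.Halts m t c) :
    A.Halts m t' c := by
  induction t', h using Nat.le_induction with
  | base => exact hc
  | succ k _ ih => exact A.halts_mono_succ m k c ih

theorem pYes_halts_succ (m : ℕ) : ∀ (t : ℕ) (c : A.Cfg), A.Halts m t c →
    A.pYes (t + 1) c = A.pYes t c := by
  intro t
  induction t with
  | zero => intro c h; rw [pYes_stop A h.1, pYes_stop A h.1]
  | succ t ih =>
    intro c h
    by_cases hs : A.stop c.1 = true
    · rw [pYes_stop A hs, pYes_stop A hs]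
    · rcases h.2 with h2 | h2
      · exact absurd h2 hs
      · have e1 : A.pYes (t + 1) c = (A.pYes t (A.next c true) + A.pYes t (A.next c false)) / 2 := by
          simp [pYes, hs]
        have e2 : A.pYes (t + 1 + 1) c
            = (A.pYes (t + 1) (A.next c true) + A.pYes (t + 1) (A.next c false)) / 2 := by
          rw [pYes, if_neg hs]
        rw [e1, e2, ih _ (h2.2 true), ih _ (h2.2 false)]

theorem pYes_halts {m t t' : ℕ} (h : t ≤ t') {c : A.Cfg} (hc : A.Halts m t c) :
    A.pYes t' c = A.pYes t c := by
  induction t', h using Nat.le_induction with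
  | base => rfl
  | succ k hk ih => rw [A.pYes_halts_succ m k c (A.halts_mono hk hc), ih]

/-- The algorithm never says Yes from `c` if it does not within the time in which it halts. -/
theorem pYes_zero {m t : ℕ} {c : A.Cfg} (hc : A.Halts m t c) (h : A.pYes t c = 0) (t' : ℕ) :
    A.pYes t' c = 0 := by
  rcases le_total t t' with h1 | h1
  · rw [A.pYes_halts h1 hc, h]
  · exact le_antisymm ((A.pYes_mono h1 c).trans h.le) (A.pYes_nonneg _ _)

/-- Halting with objects of size at most `m` after at most `τ` steps, with probability of Yes at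
least `v`. -/
def Ok (m τ : ℕ) (v : ℝ) (c : A.Cfg) : Prop := A.Halts m τ c ∧ v ≤ A.pYes τ c

variable {A}

theorem Ok.mono {m τ τ' : ℕ} {v v' : ℝ} {c : A.Cfg} (h : A.Ok m τ v c) (hτ : τ ≤ τ') (hv : v' ≤ v) :
    A.Ok m τ' v' c :=
  ⟨A.halts_mono hτ h.1, hv.trans (h.2.trans (A.pYes_mono hτ c))⟩

theorem Ok.step {m τ : ℕ} {v1 v2 : ℝ} {c : A.Cfg} (hs : A.stop c.1 = false) (h1 : tsz c.1 ≤ m)
    (h2 : tsz (c.2 (A.addr c.1)) ≤ m) (ht : A.Ok m τ v1 (A.next c true))
    (hf : A.Ok m τ v2 (A.next c false)) : A.Ok m (τ + 1) ((v1 + v2) / 2) c := by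
  refine ⟨⟨h1, Or.inr ⟨h2, fun b => ?_⟩⟩, ?_⟩
  · cases b
    · exact hf.1
    · exact ht.1
  · have hn : ¬ A.stop c.1 = true := by simp [hs]
    simp only [pYes, if_neg hn]
    have h3 := ht.2
    have h4 := hf.2
    linarith

theorem Ok.step' {m τ : ℕ} {v : ℝ} {c : A.Cfg} (hs : A.stop c.1 = false) (h1 : tsz c.1 ≤ m)
    (h2 : tsz (c.2 (A.addr c.1)) ≤ m) (h : ∀ b, A.Ok m τ v (A.next c b)) :
    A.Ok m (τ + 1) v c := by
  have := Ok.step hs h1 h2 (h true) (h false)
  rwa [add_self_div_two] at this

end Alg

end Pool.Agent.Helper77.SK
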