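import Pool.Agent.Helper77.SK.Sched

/-!
# The codes of the vectors of numbers of constraints
-/

set_option autoImplicit false

namespace Pool.Agent.Helper77.SK

open Pool.Agent.Helper86.PT Finset

theorem nall_widv (k : ℕ) : ∀ (ts : List ℕ) (v : ℕ → ℕ),
    nall k (widv v ts) ts.sum = ∑ j ∈ range ts.length, ts.getD j 0 * naux k (v j) (v j)
  | [], v => by simp [nall]
  | t :: ts, v => by
    rw [nall_widv_cons, nall_widv k ts, List.length_cons, Finset.sum_range_succ', add_comm]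
    rfl

theorem exists_code (q n : ℕ) : ∀ (J : ℕ) (p : ℕ → ℕ) (ts : List ℕ), ts.length = J →
    (∀ j < J, ts.getD j 0 ≤ n ∧ ts.getD j 0 ≤ p j * n / q) →
    ∃ t < (n + 1) ^ J, vec q p J n t = ts
  | 0, p, ts, hl, _ => ⟨0, by simp, by rw [List.length_eq_zero_iff.1 hl]; rfl⟩
  | J + 1, p, [], hl, _ => by simp at hl
  | J + 1, p, t0 :: ts, hl, h => by
    obtain ⟨t, ht, hv⟩ := exists_code q n J (fun j => p (j + 1)) ts (by simpa using hl)
      fun j hj => h (j + 1) (by omega)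
    have h0 := h 0 (by omega)
    have h1 : t0 ≤ n := h0.1
    have h2 : t0 ≤ p 0 * n / q := h0.2
    refine ⟨t0 + (n + 1) * t, ?_, ?_⟩
    · calc t0 + (n + 1) * t < (n + 1) + (n + 1) * t := by omega
        _ = (n + 1) * (t + 1) := by ring
        _ ≤ (n + 1) * (n + 1) ^ J := Nat.mul_le_mul_left _ ht
        _ = (n + 1) ^ (J + 1) := (pow_succ' _ _).symm
    · have e1 : (t0 + (n + 1) * t) % (n + 1) = t0 := by
        rw [Nat.add_mul_mod_self_left, Nat.mod_eq_of_lt (by omega)]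
      have e2 : (t0 + (n + 1) * t) / (n + 1) = t := by
        rw [Nat.add_mul_div_left _ _ (by omega), Nat.div_eq_of_lt (by omega), zero_add]
      unfold vec
      rw [e1, e2, hv, min_eq_left h2]

theorem vec_length (q n : ℕ) : ∀ (J : ℕ) (p : ℕ → ℕ) (t : ℕ), (vec q p J n t).length = J
  | 0, _, _ => rfl
  | J + 1, p, t => by
    unfold vec
    rw [List.length_cons, vec_length q n J]

theorem vec_getD_le (q n : ℕ) : ∀ (J : ℕ) (p : ℕ → ℕ) (t j : ℕ),
    (vec q p J n t).getD j 0 ≤ p j * n / q ∧ (vec q p J n t).getD j 0 ≤ n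
  | 0, _, _, j => by simp [vec]
  | J + 1, p, t, 0 => by
    unfold vec
    rw [List.getD_cons_zero]
    refine ⟨min_le_right _ _, (min_le_left _ _).trans ?_⟩
    have := Nat.mod_lt t (show 0 < n + 1 by omega)
    omega
  | J + 1, p, t, j + 1 => by
    unfold vec
    rw [List.getD_cons_succ]
    exact vec_getD_le q n J (fun j => p (j + 1)) _ j

theorem vec_sum_le (q n : ℕ) : ∀ (J : ℕ) (p : ℕ → ℕ) (t : ℕ), (vec q p J n t).sum ≤ J * n
  | 0, _, _ => by simp [vec]
  | J + 1, p, t => by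
    unfold vec
    rw [List.sum_cons, add_mul, one_mul, add_comm]
    have h1 := vec_sum_le q n J (fun j => p (j + 1)) (t / (n + 1))
    have h2 : min (t % (n + 1)) (p 0 * n / q) ≤ n := by
      refine (min_le_left _ _).trans ?_
      have := Nat.mod_lt t (show 0 < n + 1 by omega)
      omega
    omega

theorem vec_le (q n : ℕ) (J : ℕ) (p : ℕ → ℕ) (t : ℕ) :
    (∀ j, (vec q p J n t).getD j 0 ≤ p j * n / q ∧ (vec q p J n t).getD j 0 ≤ n) ∧
      (vec q p J n t).length = J ∧ (vec q p J n t).sum ≤ J * n :=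
  ⟨vec_getD_le q n J p t, vec_length q n J p t, vec_sum_le q n J p t⟩

theorem exp_growth (e : ℕ) {δ : ℝ} (h : 0 < δ) :
    ∃ K : ℝ, 0 < K ∧ ∀ n : ℕ, ((n + 2 : ℕ) : ℝ) ^ e ≤ K * 2 ^ (δ * n) := by
  have hl : 0 < Real.log 2 := Real.log_pos (by norm_num)
  set c : ℝ := δ * Real.log 2 with hc
  have hc0 : 0 < c := mul_pos h hl
  refine ⟨(e.factorial : ℝ) / c ^ e * Real.exp (2 * c), by positivity, fun n => ?_⟩
  have h1 := Real.pow_div_factorial_le_exp (c * ((n + 2 : ℕ) : ℝ)) (by positivity) e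
  have h2 : Real.exp (c * ((n + 2 : ℕ) : ℝ)) = Real.exp (2 * c) * 2 ^ (δ * n) := by
    rw [Real.rpow_def_of_pos (by norm_num), ← Real.exp_add]
    congr 1
    push_cast
    rw [hc]
    ring
  rw [h2, mul_pow, div_le_iff₀ (by positivity)] at h1
  have h3 : 0 < c ^ e := by positivity
  calc ((n + 2 : ℕ) : ℝ) ^ e = (c ^ e * ((n + 2 : ℕ) : ℝ) ^ e) / c ^ e := by field_simp
    _ ≤ (Real.exp (2 * c) * 2 ^ (δ * n) * e.factorial) / c ^ e := by gcongr
    _ = _ := by ring

end Pool.Agent.Helper77.SK
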