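import Pool.Agent.Helper77.SK.Mach
import Pool.Agent.Helper77.SK.Vec

/-!
# From random reductions to exponents
-/

set_option autoImplicit false

namespace Pool.Agent.Helper77.SK

open Pool.Agent.Helper86 Pool.Agent.Helper86.PT Finset

theorem lg_le (m : ℕ) (hm : 1 ≤ m) : 2 ^ lg m ≤ 2 * m := by
  unfold lg
  rcases Nat.lt_or_ge 1 m with h | h
  · have h1 := Nat.pow_pred_clog_lt_self (b := 2) (by norm_num) h
    have h2 : 0 < Nat.clog 2 m := Nat.clog_pos (by norm_num) h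
    obtain ⟨j, hj⟩ : ∃ j, Nat.clog 2 m = j + 1 := ⟨Nat.clog 2 m - 1, by omega⟩
    rw [hj] at h1 ⊢
    rw [pow_succ]
    have : 2 ^ (j + 1).pred = 2 ^ j := rfl
    omega
  · have : m = 1 := by omega
    subst this
    simp

theorem le_lg (m : ℕ) : m ≤ 2 ^ lg m := Nat.le_pow_clog (by norm_num) m

/-- Rational upper approximation with floors. -/
theorem exists_rat (x ε : ℝ) (hx : 0 ≤ x) (hε : 0 < ε) : ∃ P Q : ℕ, 0 < Q ∧
    (∀ n : ℕ, x * n ≤ ((P * n / Q : ℕ) : ℝ) + 1) ∧ (∀ n : ℕ, ((P * n / Q : ℕ) : ℝ) ≤ (x + ε) * n) := by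
  obtain ⟨r, hr1, hr2⟩ := exists_rat_btwn (show x < x + ε by linarith)
  have hr0 : 0 < r := by
    have : (0 : ℝ) < r := lt_of_le_of_lt hx hr1
    exact_mod_cast this
  have hnum : (0 : ℤ) < r.num := Rat.num_pos.mpr hr0
  have hr : (r : ℝ) = (r.num.toNat : ℝ) / (r.den : ℝ) := by
    have h1 : ((r.num.toNat : ℤ) : ℝ) = (r.num : ℝ) := by
      rw [Int.toNat_of_nonneg hnum.le]
    have h2 : (r.num.toNat : ℝ) = (r.num : ℝ) := by exact_mod_cast h1
    rw [h2]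
    exact_mod_cast (Rat.num_div_den r).symm
  have hQ : (0 : ℝ) < r.den := by exact_mod_cast r.den_pos
  refine ⟨r.num.toNat, r.den, r.den_pos, fun n => ?_, fun n => ?_⟩
  · have h1 : (r.num.toNat * n : ℕ) < (r.num.toNat * n / r.den + 1) * r.den := by
      have := Nat.lt_div_mul_add (a := r.num.toNat * n) r.den_pos
      rw [add_mul, one_mul]
      exact this
    have h2 : ((r.num.toNat * n : ℕ) : ℝ)
        < (((r.num.toNat * n / r.den : ℕ) : ℝ) + 1) * (r.den : ℝ) := by exact_mod_cast h1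
    have h3 : (r : ℝ) * n ≤ ((r.num.toNat * n / r.den : ℕ) : ℝ) + 1 := by
      rw [hr, div_mul_eq_mul_div, div_le_iff₀ hQ]
      push_cast at h2 ⊢
      exact h2.le
    have h4 : x * n ≤ r * n := mul_le_mul_of_nonneg_right hr1.le (Nat.cast_nonneg n)
    linarith
  · have h1 : ((r.num.toNat * n / r.den : ℕ) : ℝ) ≤ ((r.num.toNat * n : ℕ) : ℝ) / (r.den : ℝ) :=
      Nat.cast_div_le
    have h2 : ((r.num.toNat * n : ℕ) : ℝ) / (r.den : ℝ) = r * n := by
      rw [hr]; push_cast; ring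
    have h4 : r * n ≤ (x + ε) * n := mul_le_mul_of_nonneg_right hr2.le (Nat.cast_nonneg n)
    linarith

open Classical in
/-- **Transfer.** A polynomial time randomised reduction from a `k`-CNF on `n` variables to `k`-CNFs on at
most `(1 + α) n` variables which isolates with probability about `exp (-λ n)` transfers the
exponents. -/
theorem transfer {k : ℕ} {α lam D : ℝ} {e : ℕ} (hα : 0 ≤ α) (hlam : 0 ≤ lam)
    (tm : ℕ → ℕ) (B : ℕ × ℕ → ℕ) (bld : (ℕ × Frm) × (ℕ × List Bool) → ℕ × Frm)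
    (htm : Poly tm) (hB : Poly B) (hbld : Poly bld)
    (h1 : ∀ (n : ℕ) (F : Frm), IsCNF k n F → ∀ t ≤ tm n, ∀ u : List Bool, u.length = B (n, t) →
      IsCNF k (bld ((n, F), (t, u))).1 (bld ((n, F), (t, u))).2 ∧
      ((bld ((n, F), (t, u))).1 : ℝ) ≤ (1 + α) * n ∧
      ((sols (bld ((n, F), (t, u))).1 (bld ((n, F), (t, u))).2).Nonempty → (sols n F).Nonempty))
    (h2 : ∀ (n : ℕ) (F : Frm), IsCNF k n F → (sols n F).Nonempty → ∃ t ≤ tm n,
      Real.exp (-(lam * n + D)) / ((n + 2 : ℕ) : ℝ) ^ e ≤ E (B (n, t)) (fun u =>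
        if ∃! x, x ∈ sols (bld ((n, F), (t, u))).1 (bld ((n, F), (t, u))).2 then 1 else 0))
    {c ε : ℝ} (hc : 0 ≤ c) (hε : 0 < ε) (hsol : SolvedIn k True c) :
    SolvedIn k False (c * (1 + α) + lam / Real.log 2 + ε) := by
  have hl2 : 0 < Real.log 2 := Real.log_pos (by norm_num)
  obtain ⟨A, C, d, hA⟩ := hsol
  obtain ⟨P1, Q1, hQ1, hP1, hP1'⟩ := exists_rat (c * (1 + α)) (ε / 4) (by positivity)
    (by positivity)
  obtain ⟨P2, Q2, hQ2, hP2, hP2'⟩ := exists_rat (lam / Real.log 2) (ε / 4) (by positivity)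
    (by positivity)
  obtain ⟨K1, hK1⟩ := pow_unbounded_of_one_lt (2 * C) (show (1 : ℝ) < 2 by norm_num)
  obtain ⟨K2, hK2⟩ := exists_nat_ge (D / Real.log 2 + 1)
  set rep : ℕ × ℕ → ℕ := fun x => P2 * x.1 / Q2 + e * lg (x.1 + 2) + K2 with hrep
  set clk : ℕ × ℕ → ℕ := fun x => P1 * x.1 / Q1 + K1 with hclk
  have pn : Poly (fun x : ℕ × ℕ => x.1) := PT.Poly.id.fst
  have prep : Poly rep :=
    PT.Poly.add (PT.Poly.add (poly_divConst Q2 (PT.Poly.mul (PT.Poly.const P2) pn))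
      (PT.Poly.mul (PT.Poly.const e) (poly_lg (PT.Poly.add pn (PT.Poly.const 2)))))
      (PT.Poly.const K2)
  have pclk : Poly clk :=
    PT.Poly.add (poly_divConst Q1 (PT.Poly.mul (PT.Poly.const P1) pn)) (PT.Poly.const K1)
  obtain ⟨A', d', hA'⟩ := machine (k := k) (c := c) (C := C) (d := d) A
    (fun n F hF hs => hA n F hF (fun _ => hs)) tm B rep clk bld htm hB prep pclk hbld
    (by
      intro n F hF t ht u hu
      obtain ⟨g1, g2, g3⟩ := h1 n F hF t ht u hu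
      refine ⟨g1, ?_, g3⟩
      have h3 : (2 : ℝ) ^ (c * ((bld ((n, F), (t, u))).1 : ℝ)) ≤ 2 ^ (((P1 * n / Q1 : ℕ) : ℝ) + 1) := by
        apply Real.rpow_le_rpow_of_exponent_le (by norm_num)
        calc c * ((bld ((n, F), (t, u))).1 : ℝ) ≤ c * ((1 + α) * n) :=
              mul_le_mul_of_nonneg_left g2 hc
          _ = c * (1 + α) * n := by ring
          _ ≤ _ := hP1 n
      have h4 : (2 : ℝ) ^ (((P1 * n / Q1 : ℕ) : ℝ) + 1) = 2 ^ (P1 * n / Q1) * 2 := by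
        rw [Real.rpow_add (by norm_num), Real.rpow_natCast, Real.rpow_one]
      have h5 : (2 : ℝ) ^ clk (n, t) = 2 ^ (P1 * n / Q1) * 2 ^ K1 := by
        simp only [hclk]; rw [pow_add]
      rw [h5]
      rw [h4] at h3
      have h6 : (0 : ℝ) < 2 ^ (P1 * n / Q1) := by positivity
      have h7 : (0 : ℝ) < 2 ^ (c * ((bld ((n, F), (t, u))).1 : ℝ)) := Real.rpow_pos_of_pos (by norm_num) _
      rcases le_or_gt C 0 with hC | hC
      · have h8 : C * 2 ^ (c * ((bld ((n, F), (t, u))).1 : ℝ)) ≤ 0 :=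
          mul_nonpos_of_nonpos_of_nonneg hC h7.le
        have h9 : (0 : ℝ) < 2 ^ (P1 * n / Q1) * 2 ^ K1 := by positivity
        linarith
      · calc C * 2 ^ (c * ((bld ((n, F), (t, u))).1 : ℝ)) ≤ C * (2 ^ (P1 * n / Q1) * 2) :=
              mul_le_mul_of_nonneg_left h3 hC.le
          _ = 2 ^ (P1 * n / Q1) * (2 * C) := by ring
          _ < _ := mul_lt_mul_of_pos_left hK1 h6)
    (by
      intro n F hF hs
      obtain ⟨t, ht, h3⟩ := h2 n F hF hs
      refine ⟨t, ht, le_trans ?_ h3⟩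
      have h4 : (0 : ℝ) < ((n + 2 : ℕ) : ℝ) ^ e := by positivity
      rw [le_div_iff₀ h4]
      have h5 : (((n + 2 : ℕ) : ℝ)) ^ e ≤ 2 ^ (e * lg (n + 2)) := by
        have h6 : ((n + 2 : ℕ) : ℝ) ≤ 2 ^ lg (n + 2) := by exact_mod_cast le_lg (n + 2)
        calc (((n + 2 : ℕ) : ℝ)) ^ e ≤ (2 ^ lg (n + 2)) ^ e := pow_le_pow_left₀ (by positivity) h6 e
          _ = _ := by rw [← pow_mul, mul_comm]
      have h7 : (1 / 2 : ℝ) ^ rep (n, t)
          = (1 / 2) ^ (P2 * n / Q2 + K2) * (1 / 2) ^ (e * lg (n + 2)) := by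
        simp only [hrep]
        rw [← pow_add]
        congr 1
        ring
      have h8 : (1 / 2 : ℝ) ^ (e * lg (n + 2)) * ((n + 2 : ℕ) : ℝ) ^ e ≤ 1 := by
        calc (1 / 2 : ℝ) ^ (e * lg (n + 2)) * ((n + 2 : ℕ) : ℝ) ^ e
            ≤ (1 / 2 : ℝ) ^ (e * lg (n + 2)) * 2 ^ (e * lg (n + 2)) :=
              mul_le_mul_of_nonneg_left h5 (by positivity)
          _ = 1 := by rw [← mul_pow]; norm_num
      have h9 : (1 / 2 : ℝ) ^ (P2 * n / Q2 + K2) ≤ Real.exp (-(lam * n + D)) := by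
        have e1 : (1 / 2 : ℝ) ^ (P2 * n / Q2 + K2)
            = Real.exp (-(((P2 * n / Q2 + K2 : ℕ) : ℝ) * Real.log 2)) := by
          rw [one_div, inv_pow, Real.exp_neg, Real.exp_nat_mul, Real.exp_log (by norm_num)]
        rw [e1]
        apply Real.exp_le_exp.mpr
        apply neg_le_neg
        have h10 := hP2 n
        have h11 : lam * n + D ≤ (((P2 * n / Q2 : ℕ) : ℝ) + K2) * Real.log 2 := by
          have h12 : lam * n = (lam / Real.log 2 * n) * Real.log 2 := by field_simp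
          have h13 : D = (D / Real.log 2) * Real.log 2 := by field_simp
          rw [h12, h13, ← add_mul]
          apply mul_le_mul_of_nonneg_right _ hl2.le
          linarith
        push_cast
        exact h11
      calc (1 / 2 : ℝ) ^ rep (n, t) * ((n + 2 : ℕ) : ℝ) ^ e
          = (1 / 2) ^ (P2 * n / Q2 + K2) * ((1 / 2 : ℝ) ^ (e * lg (n + 2)) * ((n + 2 : ℕ) : ℝ) ^ e) := by
            rw [h7]; ring
        _ ≤ (1 / 2) ^ (P2 * n / Q2 + K2) * 1 := mul_le_mul_of_nonneg_left h8 (by positivity)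
        _ ≤ _ := by rw [mul_one]; exact h9)
  -- the number of steps
  obtain ⟨bt, pt, mt, st⟩ := htm.size_bound
  obtain ⟨bB, pB, mB, sB⟩ := hB.size_bound
  set RT : ℕ → ℕ := fun n => bt (2 * n + 1) with hRT
  have pRT : PB RT := pt.comp (((PB.const 2).mul PB.id).add (PB.const 1))
  have hTle : ∀ n, tm n ≤ RT n := by
    intro n
    have h3 := st n
    rw [tsz_nat, tsz_nat] at h3
    simp only [hRT]
    omega
  set RB : ℕ → ℕ := fun n => bB (2 * n + 2 * RT n + 3) with hRB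
  have pRB : PB RB := pB.comp ((((PB.const 2).mul PB.id).add ((PB.const 2).mul pRT)).add (PB.const 3))
  have hBle : ∀ n, ∀ t ≤ tm n, B (n, t) ≤ RB n := by
    intro n t ht
    have h3 : tsz ((n, t) : ℕ × ℕ) ≤ 2 * n + 2 * RT n + 3 := by
      rw [tsz_pair, tsz_nat, tsz_nat]
      have := hTle n
      omega
    have h4 := (sB (n, t)).trans (mB h3)
    rw [tsz_nat] at h4
    simp only [hRB]
    omega
  set G : ℕ → ℕ := fun n => (RT n + 1) * (2 * (RB n + 4)) * (2 * (n + 2)) ^ e * 2 ^ (K1 + K2) with hG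
  have pG : PB G := by
    refine PB.mul (PB.mul (PB.mul (pRT.add (PB.const 1)) ((PB.const 2).mul (pRB.add (PB.const 4)))) ?_)
      (PB.const _)
    exact ((PB.const 2).mul (PB.id.add (PB.const 2))).pow e
  obtain ⟨g, hg⟩ := pG
  obtain ⟨K, hK0, hK⟩ := exp_growth g (show 0 < ε / 2 by positivity)
  refine ⟨A', K, d', fun n F hF _ => ?_⟩
  obtain ⟨τ, hτ, hH, hno, hyes⟩ := hA' n F hF
  refine ⟨τ, ?_, hH, hno, hyes⟩
  have h3 : ∀ t ∈ range (tm n + 1), 2 ^ (rep (n, t) + 1) * (B (n, t) + 2 ^ clk (n, t) + 3)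
      ≤ 2 * (RB n + 4) * (2 * (n + 2)) ^ e * 2 ^ (K1 + K2) * 2 ^ (P1 * n / Q1 + P2 * n / Q2) := by
    intro t ht
    have h4 := hBle n t (by simpa [Nat.lt_succ_iff] using ht)
    have h5 : 2 ^ (e * lg (n + 2)) ≤ (2 * (n + 2)) ^ e := by
      rw [mul_comm e, pow_mul]
      exact Nat.pow_le_pow_left (lg_le (n + 2) (by omega)) e
    have h6 : B (n, t) + 2 ^ clk (n, t) + 3 ≤ (RB n + 4) * 2 ^ clk (n, t) := by
      have : 1 ≤ 2 ^ clk (n, t) := Nat.one_le_two_pow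
      nlinarith
    have h7 : 2 ^ (rep (n, t) + 1) = 2 * (2 ^ (e * lg (n + 2)) * 2 ^ K2 * 2 ^ (P2 * n / Q2)) := by
      simp only [hrep]
      rw [pow_succ, pow_add, pow_add]
      ring
    have h8 : 2 ^ clk (n, t) = 2 ^ (P1 * n / Q1) * 2 ^ K1 := by
      simp only [hclk]; rw [pow_add]
    calc 2 ^ (rep (n, t) + 1) * (B (n, t) + 2 ^ clk (n, t) + 3)
        ≤ 2 * (2 ^ (e * lg (n + 2)) * 2 ^ K2 * 2 ^ (P2 * n / Q2)) *
          ((RB n + 4) * (2 ^ (P1 * n / Q1) * 2 ^ K1)) := by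
          rw [h7, ← h8]
          exact Nat.mul_le_mul_left _ h6
      _ ≤ 2 * ((2 * (n + 2)) ^ e * 2 ^ K2 * 2 ^ (P2 * n / Q2)) *
          ((RB n + 4) * (2 ^ (P1 * n / Q1) * 2 ^ K1)) := by
          apply Nat.mul_le_mul_right
          apply Nat.mul_le_mul_left
          apply Nat.mul_le_mul_right
          exact Nat.mul_le_mul_right _ h5
      _ = _ := by rw [pow_add, pow_add]; ring
  have h4 : τ ≤ G n * 2 ^ (P1 * n / Q1 + P2 * n / Q2) := by
    refine hτ.trans ((Finset.sum_le_card_nsmul _ _ _ h3).trans ?_)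
    rw [card_range, smul_eq_mul]
    calc (tm n + 1) * (2 * (RB n + 4) * (2 * (n + 2)) ^ e * 2 ^ (K1 + K2)
          * 2 ^ (P1 * n / Q1 + P2 * n / Q2))
        ≤ (RT n + 1) * (2 * (RB n + 4) * (2 * (n + 2)) ^ e * 2 ^ (K1 + K2)
          * 2 ^ (P1 * n / Q1 + P2 * n / Q2)) :=
          Nat.mul_le_mul_right _ (Nat.add_le_add_right (hTle n) 1)
      _ = _ := by simp only [hG]; ring
  have h5 : (τ : ℝ) ≤ (((n + 2 : ℕ) : ℝ)) ^ g * 2 ^ (P1 * n / Q1 + P2 * n / Q2) := by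
    have h6 : τ ≤ (n + 2) ^ g * 2 ^ (P1 * n / Q1 + P2 * n / Q2) :=
      h4.trans (Nat.mul_le_mul_right _ (hg n))
    exact_mod_cast h6
  have h6 : (2 : ℝ) ^ (P1 * n / Q1 + P2 * n / Q2)
      ≤ 2 ^ ((c * (1 + α) + lam / Real.log 2 + ε / 2) * n) := by
    rw [← Real.rpow_natCast]
    apply Real.rpow_le_rpow_of_exponent_le (by norm_num)
    push_cast
    have h7 := hP1' n
    have h8 := hP2' n
    linarith
  calc (τ : ℝ) ≤ (((n + 2 : ℕ) : ℝ)) ^ g * 2 ^ (P1 * n / Q1 + P2 * n / Q2) := h5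
    _ ≤ (K * 2 ^ (ε / 2 * n)) * 2 ^ ((c * (1 + α) + lam / Real.log 2 + ε / 2) * n) :=
        mul_le_mul (hK n) h6 (by positivity) (by positivity)
    _ = K * 2 ^ ((c * (1 + α) + lam / Real.log 2 + ε) * n) := by
        rw [mul_assoc, ← Real.rpow_add (by norm_num)]
        congr 2
        ring

end Pool.Agent.Helper77.SK
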