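import Pool.Agent.Helper77.SK.Defs
import Pool.Agent.Helper38.ISO.CubeCnf

/-!
# The barrier for oblivious isolation with new variables
-/

set_option autoImplicit false

namespace Pool.Agent.Helper77.SK

open Finset

namespace UBar

open Pool.Agent.Helper38.ISO

/-! ### Translation of formulas -/

/-- The clause as a finite set of literals. -/
def cl (N : ℕ) (C : Cls) : Clause N :=
  (C.filterMap fun l => if h : l.1 < N then some (⟨l.1, h⟩, l.2) else none).toFinset

/-- The formula as a finite set of clauses. -/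
def cnf (N : ℕ) (G : Frm) : CNF N := (G.map (cl N)).toFinset

theorem mem_cl {N : ℕ} {C : Cls} {l : Fin N × Bool} : l ∈ cl N C ↔ ((l.1 : ℕ), l.2) ∈ C := by
  unfold cl
  rw [List.mem_toFinset, List.mem_filterMap]
  constructor
  · rintro ⟨l', h1, h2⟩
    split at h2
    · obtain rfl : _ = l := Option.some.inj h2
      exact h1
    · exact absurd h2 (by simp)
  · intro h
    exact ⟨_, h, by rw [dif_pos l.1.2]⟩

theorem sat_cnf {N : ℕ} {G : Frm} {x : Fin N → Bool} : Sat x (cnf N G) ↔ x ∈ sols N G := by
  unfold Sat cnf sols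
  simp only [List.mem_toFinset, List.mem_map, forall_exists_index, and_imp,
    forall_apply_eq_imp_iff₂, Set.mem_ofPred_eq]
  refine forall₂_congr fun C hC => ?_
  constructor
  · rintro ⟨l, h1, h2⟩
    exact ⟨_, mem_cl.1 h1, l.1.2, h2⟩
  · rintro ⟨l, h1, h2, h3⟩
    exact ⟨(⟨l.1, h2⟩, l.2), mem_cl.2 h1, h3⟩

theorem isK_cnf {k N : ℕ} {G : Frm} (h : IsCNF k N G) : IsK k (cnf N G) := by
  intro C hC
  unfold cnf at hC
  rw [List.mem_toFinset, List.mem_map] at hC
  obtain ⟨C, hC, rfl⟩ := hC
  refine (List.toFinset_card_le _).trans (le_trans ?_ (h.2 C hC).1)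
  exact List.length_filterMap_le _ _

/-- The formula which fixes the variables outside `M`. -/
noncomputable def fix {n : ℕ} (M : Finset (Fin n)) (a : Fin n → Bool) : Frm :=
  (univ.filter fun i : Fin n => i ∉ M).toList.map fun i : Fin n => [((i : ℕ), a i)]

theorem isCNF_fix {n : ℕ} (M : Finset (Fin n)) (a : Fin n → Bool) : IsCNF 1 n (fix M a) := by
  constructor
  · unfold fix
    refine List.Nodup.map ?_ (Finset.nodup_toList _)
    intro i j h
    simp only [List.cons.injEq, Prod.mk.injEq, and_true] at h
    exact Fin.ext h.1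
  · intro C hC
    unfold fix at hC
    rw [List.mem_map] at hC
    obtain ⟨i, _, rfl⟩ := hC
    refine ⟨le_rfl, ?_⟩
    intro l hl
    rw [List.mem_singleton] at hl
    subst hl
    exact i.2

theorem mem_sols_fix {n c : ℕ} (M : Finset (Fin n)) (a : Fin n → Bool)
    (z : Fin (n + c) → Bool) :
    z ∈ sols (n + c) (fix M a) ↔ (fun i => z (Fin.castAdd c i)) ∈ cube M a := by
  unfold sols fix cube
  simp only [List.mem_map, Finset.mem_toList, mem_filter, mem_univ, true_and,
    forall_exists_index, and_imp, forall_apply_eq_imp_iff₂, Set.mem_ofPred_eq,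
    List.mem_singleton, exists_eq_left]
  refine forall₂_congr fun i _ => ?_
  constructor
  · rintro ⟨h1, h2⟩
    exact h2
  · intro h
    exact ⟨by omega, h⟩

theorem sols_fix {n : ℕ} (M : Finset (Fin n)) (a : Fin n → Bool) :
    sols n (fix M a) = cube M a := by
  ext z
  exact mem_sols_fix (c := 0) M a z

theorem card_fix {n : ℕ} (M : Finset (Fin n)) (a : Fin n → Bool) :
    Nat.card (sols n (fix M a)) = 2 ^ M.card := by
  rw [sols_fix, ← card_cubeCnf M a]
  exact Nat.card_congr (Equiv.subtypeEquivRight fun x => (sat_cubeCnf M a x).symm)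

theorem mem_sols_append {N : ℕ} {F G : Frm} {z : Fin N → Bool} :
    z ∈ sols N (F ++ G) ↔ z ∈ sols N F ∧ z ∈ sols N G := by
  unfold sols
  simp only [Set.mem_ofPred_eq, List.mem_append, or_imp, forall_and]

/-! ### Counting -/

/-- `G` isolates the subcube, with new variables. -/
def Iso {n c : ℕ} (G : CNF (n + c)) (M : Finset (Fin n)) (a : Fin n → Bool) : Prop :=
  ∃! z : Fin (n + c) → Bool, (fun i => z (Fin.castAdd c i)) ∈ cube M a ∧ Sat z G

/-- the old isolated directions -/
noncomputable def old {n c : ℕ} (G : CNF (n + c)) (z : Fin (n + c) → Bool) : Finset (Fin n) :=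
  univ.filter fun i => Fin.castAdd c i ∈ isol G z

theorem card_old {n c : ℕ} (G : CNF (n + c)) (z : Fin (n + c) → Bool) :
    (old G z).card ≤ (isol G z).card := by
  refine Finset.card_le_card_of_injOn (Fin.castAdd c) (fun i hi => ?_)
    ((Fin.castAdd_injective n c).injOn)
  have h : i ∈ old G z := hi
  unfold old at h
  rw [mem_filter] at h
  exact h.2

open Classical in
theorem iso_count {n c D : ℕ} (G : CNF (n + c)) (M : Finset (Fin n)) (hM : M.card = D) :
    (univ.filter fun a : Fin n → Bool => Iso G M a).card ≤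
      2 ^ D * (univ.filter fun z : Fin (n + c) → Bool => Sat z G ∧ M ⊆ old G z).card := by
  have hpow : 2 ^ D = M.powerset.card := by rw [Finset.card_powerset, hM]
  rw [hpow, ← Finset.card_product]
  have hex : ∀ a : Fin n → Bool, ∃ z : Fin (n + c) → Bool, Iso G M a →
      ((fun i => z (Fin.castAdd c i)) ∈ cube M a ∧ Sat z G ∧ M ⊆ old G z) := by
    intro a
    by_cases h : Iso G M a
    · obtain ⟨z, ⟨h1, h2⟩, h3⟩ := h
      refine ⟨z, fun _ => ⟨h1, h2, ?_⟩⟩
      intro i hi
      simp only [old, isol, mem_filter, mem_univ, true_and]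
      intro hsat
      have hmem : (fun j => Helper38.ISO.flip z (Fin.castAdd c i) (Fin.castAdd c j)) ∈ cube M a := by
        intro j hj
        have hji : Fin.castAdd c j ≠ Fin.castAdd c i := fun hh => hj
          ((Fin.castAdd_injective n c hh) ▸ hi)
        show Helper38.ISO.flip z (Fin.castAdd c i) (Fin.castAdd c j) = a j
        rw [Helper38.ISO.flip, Function.update_of_ne hji]
        exact h1 j hj
      have := congrFun (h3 _ ⟨hmem, hsat⟩) (Fin.castAdd c i)
      rw [Helper38.ISO.flip, Function.update_self] at this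
      cases hh : z (Fin.castAdd c i) <;> simp [hh] at this
    · exact ⟨fun _ => false, fun h' => absurd h' h⟩
  choose s hs using hex
  apply Finset.card_le_card_of_injOn (fun a => (M.filter (fun i => a i = true), s a))
  · intro a ha
    simp only [coe_filter, mem_univ, true_and, Set.mem_ofPred_eq] at ha
    simp only [coe_product, Set.mem_prod, Finset.mem_coe, Finset.mem_powerset,
      Finset.mem_filter, mem_univ, true_and]
    exact ⟨Finset.filter_subset _ _, (hs a ha).2⟩
  · intro a ha a' ha' heq
    simp only [coe_filter, mem_univ, true_and, Set.mem_ofPred_eq] at ha ha'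
    simp only [Prod.mk.injEq] at heq
    obtain ⟨h1, h2⟩ := heq
    funext i
    by_cases hi : i ∈ M
    · have h3 : i ∈ M.filter (fun i => a i = true) ↔ i ∈ M.filter (fun i => a' i = true) := by
        rw [h1]
      simp only [Finset.mem_filter, hi, true_and] at h3
      cases h4 : a i <;> cases h5 : a' i <;> simp_all
    · have h3 := (hs a ha).1 i hi
      have h4 := (hs a' ha').1 i hi
      rw [← h3, ← h4, h2]

open Classical in
theorem total_count {n c k D : ℕ} (hn : 0 < n) (hk : 1 ≤ k)
    (hD : 2 * (D : ℝ) * k ≤ n * Real.log 2) (G : CNF (n + c)) (hG : IsK k G) :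
    ∑ M ∈ powersetCard D (univ : Finset (Fin n)),
      ((univ.filter fun a : Fin n → Bool => Iso G M a).card : ℝ)
      ≤ Real.exp (-D) * (n.choose D : ℝ) * 2 ^ (n + c) := by
  have hk0 : (0 : ℝ) < k := by exact_mod_cast hk
  calc ∑ M ∈ powersetCard D (univ : Finset (Fin n)),
      ((univ.filter fun a : Fin n → Bool => Iso G M a).card : ℝ)
      ≤ ∑ M ∈ powersetCard D (univ : Finset (Fin n)), (2 : ℝ) ^ D *
        ((univ.filter fun z : Fin (n + c) → Bool => Sat z G ∧ M ⊆ old G z).card : ℝ) := by
        apply Finset.sum_le_sum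
        intro M hM
        have := iso_count G M (Finset.mem_powersetCard.mp hM).2
        exact_mod_cast this
    _ = (2 : ℝ) ^ D * ∑ M ∈ powersetCard D (univ : Finset (Fin n)),
        ∑ z ∈ univ.filter (fun z : Fin (n + c) → Bool => Sat z G),
          (if M ⊆ old G z then (1 : ℝ) else 0) := by
        rw [Finset.mul_sum]
        apply Finset.sum_congr rfl
        intro M _
        rw [Finset.sum_boole, Finset.filter_filter]
    _ = (2 : ℝ) ^ D * ∑ z ∈ univ.filter (fun z : Fin (n + c) → Bool => Sat z G),
          ((old G z).card.choose D : ℝ) := by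
        rw [Finset.sum_comm]
        congr 1
        apply Finset.sum_congr rfl
        intro z _
        rw [Finset.sum_boole, ← Finset.card_powersetCard]
        congr 2
        ext M
        simp only [mem_filter, mem_powersetCard, subset_univ, true_and]
        tauto
    _ = ∑ z ∈ univ.filter (fun z : Fin (n + c) → Bool => Sat z G),
          (2 : ℝ) ^ D * ((old G z).card.choose D : ℝ) := by
        rw [Finset.mul_sum]
    _ ≤ ∑ z ∈ univ.filter (fun z : Fin (n + c) → Bool => Sat z G),
        Real.exp (-D) * (n.choose D : ℝ) * (2 : ℝ) ^ (((isol G z).card : ℝ) / k) := by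
        apply Finset.sum_le_sum
        intro z _
        refine (key_ineq hn hk ?_ hD).trans ?_
        · have := Finset.card_le_univ (old G z)
          simpa using this
        · refine mul_le_mul_of_nonneg_left ?_ (by positivity)
          refine Real.rpow_le_rpow_of_exponent_le (by norm_num) ?_
          have h := card_old G z
          have h' : ((old G z).card : ℝ) ≤ ((isol G z).card : ℝ) := by exact_mod_cast h
          exact div_le_div_of_nonneg_right h' hk0.le
    _ = Real.exp (-D) * (n.choose D : ℝ) *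
        ∑ z ∈ univ.filter (fun z : Fin (n + c) → Bool => Sat z G),
          (2 : ℝ) ^ (((isol G z).card : ℝ) / k) := by rw [Finset.mul_sum]
    _ ≤ _ := by
        apply mul_le_mul_of_nonneg_left (ppz hk hG) (by positivity)

open Classical in
/-- **Barrier**, for finite sets of clauses. -/
theorem barrier' {n c k D : ℕ} (hk : 1 ≤ k) (hD : 2 * (D : ℝ) * k ≤ n * Real.log 2)
    {ι : Type} [Fintype ι] (w : ι → ℝ) (G : ι → CNF (n + c)) (hw : ∀ i, 0 ≤ w i)
    (hw1 : ∑ i, w i = 1) (hG : ∀ i, IsK k (G i)) :
    ∃ M : Finset (Fin n), M.card = D ∧ ∃ a : Fin n → Bool,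
      ∑ i ∈ univ.filter (fun i => Iso (G i) M a), w i ≤ 2 ^ c * Real.exp (-D) := by
  rcases Nat.eq_zero_or_pos D with h0 | hDpos
  · subst h0
    refine ⟨∅, rfl, fun _ => false, ?_⟩
    simp only [Nat.cast_zero, neg_zero, Real.exp_zero, mul_one]
    calc ∑ i ∈ univ.filter (fun i => Iso (G i) ∅ fun _ => false), w i ≤ ∑ i, w i :=
          Finset.sum_le_sum_of_subset_of_nonneg (Finset.filter_subset _ _) fun i _ _ => hw i
      _ = 1 := hw1
      _ ≤ 2 ^ c := one_le_pow₀ (by norm_num)
  have hk0 : (1 : ℝ) ≤ k := by exact_mod_cast hk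
  have hDr : (1 : ℝ) ≤ D := by exact_mod_cast hDpos
  have hlog1 : Real.log 2 ≤ 1 := by
    have := Real.log_two_lt_d9
    linarith
  have hn0 : (D : ℝ) ≤ n := by nlinarith [Real.log_pos (by norm_num : (1 : ℝ) < 2)]
  have hDn : D ≤ n := by exact_mod_cast hn0
  have hn : 0 < n := by omega
  set pr : Finset (Finset (Fin n) × (Fin n → Bool)) :=
    powersetCard D (univ : Finset (Fin n)) ×ˢ univ with hpr
  have hprne : pr.Nonempty := by
    rw [hpr, Finset.nonempty_product]
    refine ⟨?_, ⟨fun _ => false, mem_univ _⟩⟩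
    rw [Finset.powersetCard_nonempty]
    simpa using hDn
  have hsum : ∑ p ∈ pr, ∑ i ∈ univ.filter (fun i => Iso (G i) p.1 p.2), w i
      ≤ ∑ _p ∈ pr, 2 ^ c * Real.exp (-D) := by
    have hcard : (pr.card : ℝ) = (n.choose D : ℝ) * 2 ^ n := by
      rw [hpr, Finset.card_product, Finset.card_powersetCard]
      simp
    rw [Finset.sum_const, nsmul_eq_mul, hcard]
    calc ∑ p ∈ pr, ∑ i ∈ univ.filter (fun i => Iso (G i) p.1 p.2), w i
        = ∑ p ∈ pr, ∑ i, w i * (if Iso (G i) p.1 p.2 then (1 : ℝ) else 0) := by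
          apply Finset.sum_congr rfl
          intro p _
          rw [Finset.sum_filter]
          apply Finset.sum_congr rfl
          intro i _
          split_ifs <;> simp
      _ = ∑ i, w i * ∑ p ∈ pr, (if Iso (G i) p.1 p.2 then (1 : ℝ) else 0) := by
          rw [Finset.sum_comm]
          apply Finset.sum_congr rfl
          intro i _
          rw [Finset.mul_sum]
      _ ≤ ∑ i, w i * (Real.exp (-D) * (n.choose D : ℝ) * 2 ^ (n + c)) := by
          apply Finset.sum_le_sum
          intro i _
          apply mul_le_mul_of_nonneg_left _ (hw i)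
          refine le_trans (le_of_eq ?_) (total_count hn hk hD (G i) (hG i))
          rw [hpr, Finset.sum_product]
          apply Finset.sum_congr rfl
          intro M _
          rw [Finset.sum_boole]
      _ = (n.choose D : ℝ) * 2 ^ n * (2 ^ c * Real.exp (-D)) := by
          rw [← Finset.sum_mul, hw1, pow_add]; ring
  obtain ⟨p, hp, hle⟩ := Finset.exists_le_of_sum_le hprne hsum
  rw [hpr, Finset.mem_product, Finset.mem_powersetCard] at hp
  exact ⟨p.1, hp.1.2, p.2, hle⟩

end UBar

/-- No oblivious isolation with few new variables: if `2 D k ≤ n ln 2` then, for any probability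
distribution on the `k`-CNFs `G` on `n + a` variables, some subcube of dimension `D` (the solutions of
a `1`-CNF `F`) is isolated (`F` and `G` have together exactly one solution) with probability at most
`2 ^ a * e ^ (- D)`. -/
theorem barrier_aux {n k D a : ℕ} (hk : 1 ≤ k) (hD : 2 * (D : ℝ) * k ≤ n * Real.log 2)
    (ι : Type) [Fintype ι] (wt : ι → ℝ) (G : ι → Frm) (h0 : ∀ i, 0 ≤ wt i) (h1 : ∑ i, wt i = 1)
    (hG : ∀ i, IsCNF k (n + a) (G i)) :
    ∃ F : Frm, IsCNF 1 n F ∧ Nat.card (sols n F) = 2 ^ D ∧
      (open Classical in ∑ i ∈ univ.filter (fun i => ∃! z, z ∈ sols (n + a) (F ++ G i)), wt i) ≤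
        2 ^ a * Real.exp (-D) := by
  obtain ⟨M, hM, x, h⟩ := UBar.barrier' (c := a) hk hD wt (fun i => UBar.cnf (n + a) (G i)) h0 h1
    (fun i => UBar.isK_cnf (hG i))
  refine ⟨UBar.fix M x, UBar.isCNF_fix M x, by rw [UBar.card_fix, hM], ?_⟩
  refine le_trans (le_of_eq ?_) h
  refine Finset.sum_congr ?_ fun _ _ => rfl
  ext i
  simp only [mem_filter, mem_univ, true_and]
  unfold UBar.Iso
  refine existsUnique_congr fun z => ?_
  rw [UBar.mem_sols_append, UBar.mem_sols_fix, UBar.sat_cnf]

end Pool.Agent.Helper77.SK
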