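import Pool.Agent.Helper77.SK.Basic

/-!
# Definitions for the reduction with an explicit constant: parity constraints of one width, with
almost uniformly distributed variables
-/

set_option autoImplicit false

namespace Pool.Agent.Helper77.SK

/-- The slots of the constraint that is read from the bits `u`: the first bit is the right hand side,
then there are `w` blocks of `b` bits; a block of value `v` is the variable `v % n` if
`v < n * (2 ^ b / n)` and empty otherwise. -/
def slotsU (n b w : ℕ) (u : List Bool) : List (List ℕ) :=
  (List.range w).map fun i =>
    let v := bval ((u.drop (1 + i * b)).take b)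
    if v < n * (2 ^ b / n) then [v % n] else []

/-- The clauses of `r` parity constraints with `w` slots which are read from `u`. -/
def genU (n b w : ℕ) : ℕ → List Bool → Frm
  | 0, _ => []
  | r + 1, u => direct (slotsU n b w u).flatten (u.headD false) ++
      genU n b w r (u.drop (w * b + 1))

/-- The assignment `x` satisfies all `r` parity constraints read from `u`. -/
def MeetsU (n b w : ℕ) (x : ℕ → Bool) : ℕ → List Bool → Prop
  | 0, _ => True
  | r + 1, u => par x (slotsU n b w u).flatten = u.headD false ∧
      MeetsU n b w x r (u.drop (w * b + 1))

/-- The reduction. -/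
def buildU (b0 w : ℕ) (x : (ℕ × Frm) × (ℕ × List Bool)) : ℕ × Frm :=
  (x.1.1, ddp (x.1.2 ++ genU x.1.1 (lg x.1.1 + b0) w x.2.1 x.2.2))

/-- The rate: for a subspace of dimension `d`, a random parity functional with `w` slots vanishes on it
with probability at most `rhoU n b w ^ d`. -/
noncomputable def rhoU (n b w : ℕ) : ℝ :=
  (1 + Real.exp (-(2 * w * ((2 ^ b / n : ℕ) : ℝ) / 2 ^ b))) / 2

end Pool.Agent.Helper77.SK
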