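import Pool.Agent.Helper77.SK.UBasic
import Pool.Agent.Helper77.SK.Gen

/-!
# Parity constraints of one width as clauses
-/

set_option autoImplicit false

namespace Pool.Agent.Helper77.SK

open Pool.Agent.Helper86.PT Finset

theorem slotsU_length (n b w : ℕ) (u : List Bool) : (slotsU n b w u).length = w := by
  unfold slotsU
  rw [List.length_map, List.length_range]

theorem slotsU_le (n b w : ℕ) (u : List Bool) : ∀ s ∈ slotsU n b w u, s.length ≤ 1 := by
  intro s hs
  obtain ⟨i, -, rfl⟩ := List.mem_map.1 hs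
  show (if bval ((u.drop (1 + i * b)).take b) < n * (2 ^ b / n) then
    [bval ((u.drop (1 + i * b)).take b) % n] else []).length ≤ 1
  split_ifs <;> simp

theorem slotsU_lt (n b w : ℕ) (u : List Bool) : ∀ i ∈ (slotsU n b w u).flatten, i < n := by
  intro i hi
  obtain ⟨s, hs, his⟩ := List.mem_flatten.1 hi
  obtain ⟨j, -, rfl⟩ := List.mem_map.1 hs
  have h : i ∈ (if bval ((u.drop (1 + j * b)).take b) < n * (2 ^ b / n) then
    [bval ((u.drop (1 + j * b)).take b) % n] else []) := his
  split_ifs at h with h1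
  · rw [List.mem_singleton] at h
    have hn : 0 < n := by
      rcases Nat.eq_zero_or_pos n with h0 | h0
      · rw [h0] at h1
        simp at h1
      · exact h0
    rw [h]
    exact Nat.mod_lt _ hn
  · simp at h

theorem genU_isCNF {k n b w : ℕ} (hwk : w ≤ k) (r : ℕ) (u : List Bool) :
    ∀ C ∈ genU n b w r u, C.length ≤ k ∧ ∀ l ∈ C, l.1 < n := by
  induction r generalizing u with
  | zero =>
    intro C hC
    simp [genU] at hC
  | succ r ih =>
    intro C hC
    rcases List.mem_append.1 hC with hC | hC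
    · obtain ⟨h1, h2⟩ := direct_bound _ _ C hC
      have h3 := flatten_length_le (slotsU_le n b w u)
      rw [slotsU_length] at h3
      exact ⟨by omega, fun l hl => slotsU_lt n b w u _ (h2 l hl)⟩
    · exact ih _ C hC

theorem sat_genU {n b w : ℕ} (z : ℕ → Bool) : ∀ (r : ℕ) (u : List Bool),
    Sat z (genU n b w r u) ↔ MeetsU n b w z r u
  | 0, _ => ⟨fun _ => trivial, fun _ C hC => by simp [genU] at hC⟩
  | r + 1, u => by
    show Sat z (direct (slotsU n b w u).flatten (u.headD false) ++
      genU n b w r (u.drop (w * b + 1))) ↔ _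
    rw [sat_append, sat_direct, sat_genU z r]
    rfl

theorem sols_U {k n b w : ℕ} {F : Frm} (hF : IsCNF k n F) (r : ℕ) (u : List Bool) (x : Fin n → Bool) :
    x ∈ sols n (ddp (F ++ genU n b w r u)) ↔ x ∈ sols n F ∧ MeetsU n b w (ext x) r u := by
  have h1 : ∀ C ∈ F, ∀ l ∈ C, l.1 < n := fun C hC l hl => (hF.2 C hC).2 l hl
  have h2 : ∀ C ∈ genU n b w r u, ∀ l ∈ C, l.1 < n := fun C hC l hl =>
    (genU_isCNF le_rfl r u C hC).2 l hl
  rw [mem_sols_iff, mem_sols_iff h1, ← sat_genU, ← sat_append]
  · constructor <;> intro h C hC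
    · exact h C ((mem_ddp_iff _ _).2 hC)
    · exact h C ((mem_ddp_iff _ _).1 hC)
  · intro C hC
    rw [mem_ddp_iff, List.mem_append] at hC
    rcases hC with hC | hC
    · exact h1 C hC
    · exact h2 C hC

end Pool.Agent.Helper77.SK
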