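import Pool.Agent.Helper77.SK.Iso
import Pool.Agent.Helper77.SK.UBasic

/-!
# Isolation by parity constraints of one width, failures counted
-/

set_option autoImplicit false

namespace Pool.Agent.Helper77.SK

open Finset Pool.Agent.Helper38.ISO

/-! ### Replicated coordinates -/

/-- Every coordinate `i < n` is repeated `N / n` times; the remaining coordinates are zero. -/
def repL {n : ℕ} (hn : 1 ≤ n) (N : ℕ) : (Fin n → ZMod 2) →ₗ[ZMod 2] (Fin N → ZMod 2) where
  toFun y v := if (v : ℕ) < n * (N / n) then y ⟨(v : ℕ) % n, Nat.mod_lt _ hn⟩ else 0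
  map_add' := by
    intro y z
    funext v
    by_cases h : (v : ℕ) < n * (N / n) <;> simp [h]
  map_smul' := by
    intro c y
    funext v
    by_cases h : (v : ℕ) < n * (N / n) <;> simp [h]

lemma repL_apply {n N : ℕ} (hn : 1 ≤ n) (y : Fin n → ZMod 2) (v : Fin N) :
    repL hn N y v = if (v : ℕ) < n * (N / n) then y ⟨(v : ℕ) % n, Nat.mod_lt _ hn⟩ else 0 := rfl

lemma repL_inj {n N : ℕ} (hn : 1 ≤ n) (hN : n ≤ N) : Function.Injective (repL hn N) := by
  intro y z h
  funext i
  have h1 : 1 ≤ N / n := Nat.div_pos hN hn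
  have hi : (i : ℕ) < n * (N / n) := lt_of_lt_of_le i.isLt (Nat.le_mul_of_pos_right n h1)
  have h2 := congrFun h ⟨i, lt_of_lt_of_le i.isLt hN⟩
  have h3 : (i : ℕ) % n = i := Nat.mod_eq_of_lt i.isLt
  simpa [repL, hi, h3] using h2

lemma card_mod {n q : ℕ} (hn : 1 ≤ n) (s : Finset (Fin n)) :
    ((range (n * q)).filter fun v => (⟨v % n, Nat.mod_lt _ hn⟩ : Fin n) ∈ s).card = q * s.card := by
  induction q with
  | zero => simp
  | succ q ih =>
    have e : (range (n * (q + 1))).filter (fun v => (⟨v % n, Nat.mod_lt _ hn⟩ : Fin n) ∈ s) =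
        ((range (n * q)).filter fun v => (⟨v % n, Nat.mod_lt _ hn⟩ : Fin n) ∈ s) ∪
          s.image (fun i : Fin n => n * q + (i : ℕ)) := by
      ext v
      simp only [mem_filter, mem_range, mem_union, mem_image]
      constructor
      · rintro ⟨h1, h2⟩
        by_cases h : v < n * q
        · exact Or.inl ⟨h, h2⟩
        · push Not at h
          have h3 : v - n * q < n := by rw [Nat.mul_succ] at h1; omega
          have h4 : v % n = v - n * q := by
            have : v = n * q + (v - n * q) := by omega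
            rw [this, Nat.mul_add_mod, Nat.mod_eq_of_lt h3]
            omega
          refine Or.inr ⟨⟨v - n * q, h3⟩, ?_, by simp; omega⟩
          have h5 : (⟨v % n, Nat.mod_lt _ hn⟩ : Fin n) = ⟨v - n * q, h3⟩ := Fin.ext h4
          rwa [h5] at h2
      · rintro (⟨h1, h2⟩ | ⟨i, hi, rfl⟩)
        · exact ⟨by rw [Nat.mul_succ]; omega, h2⟩
        · have := i.isLt
          refine ⟨by rw [Nat.mul_succ]; omega, ?_⟩
          have h4 : (⟨(n * q + (i : ℕ)) % n, Nat.mod_lt _ hn⟩ : Fin n) = i := by
            apply Fin.ext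
            simp [Nat.mod_eq_of_lt this]
          rwa [h4]
    rw [e, card_union_of_disjoint, ih, card_image_of_injective]
    · ring
    · intro i j h
      apply Fin.ext
      simp only at h
      omega
    · rw [Finset.disjoint_left]
      intro v h1 h2
      simp only [mem_filter, mem_range, mem_image] at h1 h2
      obtain ⟨i, _, rfl⟩ := h2
      omega

lemma wt_repL {n N : ℕ} (hn : 1 ≤ n) (y : Fin n → ZMod 2) :
    wt (repL hn N y) = N / n * wt y := by
  unfold wt
  rw [← card_mod (q := N / n) hn (univ.filter fun i => y i ≠ 0)]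
  have hle : n * (N / n) ≤ N := Nat.mul_div_le N n
  refine Finset.card_bij (fun v _ => (v : ℕ)) ?_ ?_ ?_
  · intro v hv
    rw [mem_filter, repL_apply] at hv
    replace hv := hv.2
    simp only [mem_filter, mem_range, mem_univ, true_and]
    by_cases h : (v : ℕ) < n * (N / n)
    · rw [if_pos h] at hv
      exact ⟨h, hv⟩
    · rw [if_neg h] at hv
      exact absurd rfl hv
  · intro v _ v' _ h
    exact Fin.ext h
  · intro v hv
    simp only [mem_filter, mem_range, mem_univ, true_and] at hv
    refine ⟨⟨v, by omega⟩, ?_, rfl⟩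
    rw [mem_filter, repL_apply]
    refine ⟨mem_univ _, ?_⟩
    rw [if_pos hv.1]
    exact hv.2

/-- The weight enumerator bound for the number of parity functionals vanishing on a subspace. -/
lemma card_vanish_wt {n m : ℕ} (hn : 1 ≤ n) (hm : Odd m)
    (W : Submodule (ZMod 2) (Fin n → ZMod 2)) [DecidablePred (· ∈ W)] :
    ((univ.filter fun i : Fin m → Fin n => ∀ x ∈ W, ell i x = 0).card : ℝ) *
        2 ^ Module.finrank (ZMod 2) W ≤
      (n : ℝ) ^ m * ∑ x ∈ univ.filter (· ∈ W), Real.exp (-(2 * m / n)) ^ wt x := by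
  classical
  set D := Module.finrank (ZMod 2) W
  set z := Real.exp (-(2 * m / n : ℝ)) with hz
  have hn0 : (0 : ℝ) < n := by exact_mod_cast hn
  have hcardW : ((univ.filter (· ∈ W)).card : ℝ) = 2 ^ D := by
    have h1 : (univ.filter (· ∈ W)).card = Nat.card W := by
      rw [Nat.card_eq_fintype_card, Fintype.card_subtype]
    have h2 : Nat.card W = 2 ^ D := by
      have := Module.natCard_eq_pow_finrank (K := ZMod 2) (V := W)
      rw [this]
      simp [D]
    rw [h1, h2]
    push_cast
    rfl
  have h1 : ((univ.filter fun i : Fin m → Fin n => ∀ x ∈ W, ell i x = 0).card : ℝ) * 2 ^ D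
      ≤ ∑ x ∈ univ.filter (· ∈ W), ((n : ℝ) - 2 * wt x) ^ m := by
    calc ((univ.filter fun i : Fin m → Fin n => ∀ x ∈ W, ell i x = 0).card : ℝ) * 2 ^ D
        = ∑ i : Fin m → Fin n, (if (∀ x ∈ W, ell i x = 0) then
            ((univ.filter (· ∈ W)).card : ℝ) else 0) := by
          rw [← Finset.sum_filter, Finset.sum_const, nsmul_eq_mul, hcardW]
      _ ≤ ∑ i : Fin m → Fin n, ∑ x ∈ univ.filter (· ∈ W), sgn (ell i x) :=
          Finset.sum_le_sum fun i _ => sum_sgn_ell_nonneg W i
      _ = ∑ x ∈ univ.filter (· ∈ W), ∑ i : Fin m → Fin n, sgn (ell i x) := Finset.sum_comm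
      _ = ∑ x ∈ univ.filter (· ∈ W), ((n : ℝ) - 2 * wt x) ^ m := by
          apply Finset.sum_congr rfl
          intro x _
          rw [← sum_sgn x]
          have e : (∑ i : Fin n, sgn (x i)) ^ m = ∏ _j : Fin m, ∑ i : Fin n, sgn (x i) := by
            simp
          rw [e, Finset.prod_univ_sum]
          simp only [Fintype.piFinset_univ]
          apply Finset.sum_congr rfl
          intro i _
          rw [ell, sgn_sum]
  have h2 : ∀ x : Fin n → ZMod 2, ((n : ℝ) - 2 * wt x) ^ m ≤ (n : ℝ) ^ m * z ^ wt x := by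
    intro x
    have e1 : ((n : ℝ) - 2 * wt x) ≤ n * Real.exp (-(2 * wt x / n)) := by
      have h := Real.add_one_le_exp (-(2 * wt x / n : ℝ))
      calc ((n : ℝ) - 2 * wt x) = n * (-(2 * wt x / n : ℝ) + 1) := by field_simp; ring
        _ ≤ _ := by apply mul_le_mul_of_nonneg_left h hn0.le
    have e2 : ((n : ℝ) - 2 * wt x) ^ m ≤ (n * Real.exp (-(2 * wt x / n))) ^ m := by
      exact hm.strictMono_pow.monotone e1
    refine e2.trans (le_of_eq ?_)
    rw [mul_pow, hz, ← Real.exp_nat_mul, ← Real.exp_nat_mul]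
    congr 2
    ring
  calc _ ≤ ∑ x ∈ univ.filter (· ∈ W), ((n : ℝ) - 2 * wt x) ^ m := h1
    _ ≤ ∑ x ∈ univ.filter (· ∈ W), (n : ℝ) ^ m * z ^ wt x := Finset.sum_le_sum fun x _ => h2 x
    _ = _ := by rw [Finset.mul_sum]

/-- The rate. -/
noncomputable def rhoN (n N w : ℕ) : ℝ :=
  (1 + Real.exp (-(2 * w * ((N / n : ℕ) : ℝ) / N))) / 2

lemma rhoN_eq (n b w : ℕ) : rhoN n (2 ^ b) w = rhoU n b w := by
  unfold rhoN rhoU
  push_cast
  rfl

lemma rhoN_pos (n N w : ℕ) : 0 < rhoN n N w := by
  unfold rhoN
  positivity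

lemma rhoN_le_one (n N w : ℕ) : rhoN n N w ≤ 1 := by
  unfold rhoN
  have : Real.exp (-(2 * w * ((N / n : ℕ) : ℝ) / N)) ≤ 1 := by
    apply Real.exp_le_one_iff.mpr
    have : (0 : ℝ) ≤ 2 * w * ((N / n : ℕ) : ℝ) / N := by positivity
    linarith
  linarith

/-- The number of parity functionals vanishing on a subspace of replicated vectors. -/
lemma card_vanish_rep {n N w : ℕ} (hn : 1 ≤ n) (hN : n ≤ N) (hw : Odd w)
    (W : Submodule (ZMod 2) (Fin N → ZMod 2)) [DecidablePred (· ∈ W)]
    (hW : W ≤ LinearMap.range (repL hn N)) :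
    ((univ.filter fun i : Fin w → Fin N => ∀ x ∈ W, ell i x = 0).card : ℝ) ≤
      (N : ℝ) ^ w * rhoN n N w ^ Module.finrank (ZMod 2) W := by
  classical
  have hN1 : 1 ≤ N := hn.trans hN
  have h1 := card_vanish_wt hN1 hw W
  set z := Real.exp (-(2 * w / N : ℝ)) with hz
  set V := W.comap (repL hn N) with hV
  have hmap : V.map (repL hn N) = W := Submodule.map_comap_eq_of_le hW
  have hfin : Module.finrank (ZMod 2) V = Module.finrank (ZMod 2) W := by
    rw [← hmap]
    exact (Submodule.equivMapOfInjective _ (repL_inj hn hN) V).finrank_eq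
  have hsum : ∑ x ∈ univ.filter (· ∈ W), z ^ wt x =
      ∑ y ∈ univ.filter (· ∈ V), (z ^ (N / n)) ^ wt y := by
    symm
    refine Finset.sum_bij (fun y _ => repL hn N y) ?_ ?_ ?_ ?_
    · intro y hy
      simp only [mem_filter, mem_univ, true_and] at hy ⊢
      exact hy
    · intro y _ y' _ h
      exact repL_inj hn hN h
    · intro x hx
      simp only [mem_filter, mem_univ, true_and] at hx
      rw [← hmap] at hx
      obtain ⟨y, hy, rfl⟩ := hx
      exact ⟨y, by simpa using hy, rfl⟩
    · intro y _
      rw [wt_repL, pow_mul]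
  have hz0 : 0 ≤ z := (Real.exp_pos _).le
  have hz1 : z ≤ 1 := by
    apply Real.exp_le_one_iff.mpr
    have : (0 : ℝ) ≤ 2 * w / N := by positivity
    linarith
  have h2 := sum_pow_wt_le V (z ^ (N / n)) (pow_nonneg hz0 _) (pow_le_one₀ hz0 hz1)
  have h3 : z ^ (N / n) = Real.exp (-(2 * w * ((N / n : ℕ) : ℝ) / N)) := by
    rw [hz, ← Real.exp_nat_mul]
    congr 1
    ring
  have hpos : (0 : ℝ) < 2 ^ Module.finrank (ZMod 2) W := by positivity
  rw [hsum] at h1
  have h4 : ((univ.filter fun i : Fin w → Fin N => ∀ x ∈ W, ell i x = 0).card : ℝ) *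
      2 ^ Module.finrank (ZMod 2) W ≤
      (N : ℝ) ^ w * (1 + z ^ (N / n)) ^ Module.finrank (ZMod 2) W := by
    refine h1.trans ?_
    rw [← hfin]
    exact mul_le_mul_of_nonneg_left h2 (by positivity)
  unfold rhoN
  rw [← h3, div_pow, ← mul_div_assoc, le_div_iff₀ hpos]
  exact h4

open Classical in
lemma card_nonconst_rep {n N w : ℕ} (hn : 1 ≤ n) (hN : n ≤ N) (hw : Odd w)
    (S : Finset (Fin N → ZMod 2)) (hS : dir S ≤ LinearMap.range (repL hn N)) :
    (1 - rhoN n N w ^ dm S) * Fintype.card (Par N w) ≤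
      ((univ.filter fun c : Par N w => ¬ ∀ x ∈ dir S, ell c.1 x = 0).card : ℝ) := by
  have h1 := card_vanish_rep hn hN hw (dir S) hS
  have hcardP : (Fintype.card (Par N w) : ℝ) = (N : ℝ) ^ w * 2 := by
    rw [Fintype.card_prod, ZMod.card]
    simp
  have h2 : ((univ.filter fun c : Par N w => ∀ x ∈ dir S, ell c.1 x = 0).card : ℝ)
      = ((univ.filter fun i : Fin w → Fin N => ∀ x ∈ dir S, ell i x = 0).card : ℝ) * 2 := by
    have e : (univ.filter fun c : Par N w => ∀ x ∈ dir S, ell c.1 x = 0)
        = (univ.filter fun i : Fin w → Fin N => ∀ x ∈ dir S, ell i x = 0) ×ˢ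
          (univ : Finset (ZMod 2)) := by
      ext c
      simp
    rw [e, Finset.card_product, Finset.card_univ, ZMod.card]
    push_cast
    rfl
  have h3 : ((univ.filter fun c : Par N w => ∀ x ∈ dir S, ell c.1 x = 0).card : ℝ)
      + ((univ.filter fun c : Par N w => ¬ ∀ x ∈ dir S, ell c.1 x = 0).card : ℝ)
      = Fintype.card (Par N w) := by
    rw [← Finset.card_univ (α := Par N w)]
    exact_mod_cast Finset.card_filter_add_card_filter_not
      (s := (univ : Finset (Par N w))) (fun c : Par N w => ∀ x ∈ dir S, ell c.1 x = 0)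
  have h4 : ((univ.filter fun i : Fin w → Fin N => ∀ x ∈ dir S, ell i x = 0).card : ℝ) * 2
      ≤ rhoN n N w ^ dm S * ((N : ℝ) ^ w * 2) := by
    unfold dm
    calc _ ≤ ((N : ℝ) ^ w * rhoN n N w ^ Module.finrank (ZMod 2) (dir S)) * 2 := by linarith
      _ = _ := by ring
  rw [hcardP] at h3 ⊢
  rw [h2] at h3
  have h5 : (1 - rhoN n N w ^ dm S) * ((N : ℝ) ^ w * 2)
      = (N : ℝ) ^ w * 2 - rhoN n N w ^ dm S * ((N : ℝ) ^ w * 2) := by ring
  rw [h5]
  linarith

/-! ### The recursion -/

/-- The product of the success probabilities. -/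
noncomputable def GU (n N w d : ℕ) : ℝ :=
  ∏ e ∈ range d, (2 * (1 - rhoN n N w ^ (e + 1)) / (2 - rhoN n N w ^ (e + 1)))

lemma GU_factor (n N w e : ℕ) : 0 ≤ 2 * (1 - rhoN n N w ^ (e + 1)) / (2 - rhoN n N w ^ (e + 1)) ∧
    2 * (1 - rhoN n N w ^ (e + 1)) / (2 - rhoN n N w ^ (e + 1)) ≤ 1 := by
  have h1 := pow_le_one₀ (n := e + 1) (rhoN_pos n N w).le (rhoN_le_one n N w)
  have h0 := pow_pos (rhoN_pos n N w) (e + 1)
  have h2 : 0 < 2 - rhoN n N w ^ (e + 1) := by linarith
  constructor
  · apply div_nonneg _ h2.le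
    linarith
  · rw [div_le_one h2]
    linarith

lemma GU_nonneg (n N w d : ℕ) : 0 ≤ GU n N w d :=
  Finset.prod_nonneg fun e _ => (GU_factor n N w e).1

lemma GU_succ (n N w d : ℕ) : GU n N w (d + 1) =
    GU n N w d * (2 * (1 - rhoN n N w ^ (d + 1)) / (2 - rhoN n N w ^ (d + 1))) := by
  unfold GU
  rw [Finset.prod_range_succ]

lemma GU_anti (n N w : ℕ) {d d' : ℕ} (h : d ≤ d') : GU n N w d' ≤ GU n N w d := by
  induction d', h using Nat.le_induction with
  | base => exact le_refl _
  | succ k _ ih =>
    rw [GU_succ]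
    have h1 := (GU_factor n N w k).2
    have h2 := GU_nonneg n N w k
    exact (mul_le_of_le_one_right h2 h1).trans ih

lemma GU_le_one (n N w d : ℕ) : GU n N w d ≤ 1 := by
  have := GU_anti n N w (Nat.zero_le d)
  simpa [GU] using this

/-- Success with at most `T` constraints. -/
noncomputable def FT (N w : ℕ) (T : ℕ) (S : Finset (Fin N → ZMod 2)) : ℝ :=
  ∑ t ∈ range (T + 1), (Av N w)^[t] sgl S

lemma sgl_nonneg {N : ℕ} (S : Finset (Fin N → ZMod 2)) : 0 ≤ sgl S := by
  unfold sgl
  split_ifs
  · exact zero_le_one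
  · exact le_refl 0

lemma FT_nonneg (N w T : ℕ) (S : Finset (Fin N → ZMod 2)) : 0 ≤ FT N w T S :=
  Finset.sum_nonneg fun t _ => Av_iter_nonneg sgl_nonneg t S

lemma FT_succ (N w T : ℕ) (S : Finset (Fin N → ZMod 2)) :
    FT N w (T + 1) S = sgl S + Av N w (FT N w T) S := by
  unfold FT
  rw [Finset.sum_range_succ']
  have h1 : Av N w (fun S => ∑ t ∈ range (T + 1), (Av N w)^[t] sgl S) S =
      ∑ t ∈ range (T + 1), Av N w ((Av N w)^[t] sgl) S := Av_sum _ _ _
  have h2 : (fun S => ∑ t ∈ range (T + 1), (Av N w)^[t] sgl S) = FT N w T := rfl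
  rw [h2] at h1
  have h3 : Av N w (FT N w T) S = ∑ t ∈ range (T + 1), (Av N w)^[t + 1] sgl S := by
    rw [h1]
    exact Finset.sum_congr rfl fun t _ => by rw [Function.iterate_succ_apply']
  change _ = sgl S + Av N w (FT N w T) S
  rw [h3]
  simp only [Function.iterate_zero, id_eq]
  ring

lemma dir_filter_le {N m : ℕ} (S : Finset (Fin N → ZMod 2)) (c : Par N m) :
    dir (S.filter (psat c)) ≤ dir S := by
  apply Submodule.span_mono
  rintro v ⟨x, hx, y, hy, rfl⟩
  exact ⟨x, (Finset.mem_filter.mp hx).1, y, (Finset.mem_filter.mp hy).1, rfl⟩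

/-- The values of a functional that vanishes on the differences. -/
lemma const_filter {N w : ℕ} (S : Finset (Fin N → ZMod 2)) (i : Fin w → Fin N)
    (h : ∀ x ∈ dir S, ell i x = 0) {x : Fin N → ZMod 2} (hx : x ∈ S) :
    S.filter (psat ((i, ell i x) : Par N w)) = S := by
  rw [Finset.filter_eq_self]
  intro y hy
  have h1 : ell i (y - x) = 0 := h _ (Submodule.subset_span ⟨y, hy, x, hx, rfl⟩)
  rw [ell_sub, sub_eq_zero] at h1
  exact h1

theorem FT_ge {n N w : ℕ} (hn : 1 ≤ n) (hN : n ≤ N) (hw : Odd w) :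
    ∀ (T d : ℕ) (S : Finset (Fin N → ZMod 2)), S.Nonempty →
      dir S ≤ LinearMap.range (repL hn N) → dm S ≤ d →
      GU n N w d - 2 ^ d / 2 ^ T ≤ FT N w T S := by
  classical
  intro T
  induction T with
  | zero =>
    intro d S _ _ _
    have h1 := FT_nonneg N w 0 S
    have h2 := GU_le_one n N w d
    have h3 : (1 : ℝ) ≤ 2 ^ d := one_le_pow₀ (by norm_num)
    simp only [pow_zero, div_one]
    linarith
  | succ T ih =>
    intro d S hS hR hd
    -- it suffices to treat the exact dimension
    suffices hmain : GU n N w (dm S) - 2 ^ (dm S) / 2 ^ (T + 1) ≤ FT N w (T + 1) S by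
      have h1 := GU_anti n N w hd
      have h2 : (2 : ℝ) ^ (dm S) / 2 ^ (T + 1) ≤ 2 ^ d / 2 ^ (T + 1) := by
        apply div_le_div_of_nonneg_right _ (by positivity)
        exact pow_le_pow_right₀ (by norm_num) hd
      linarith
    have hcard : (0 : ℝ) < Fintype.card (Par N w) := by
      have : Nonempty (Par N w) := ⟨(fun _ => ⟨0, hn.trans hN⟩, 0)⟩
      exact_mod_cast Fintype.card_pos
    have hAv : 0 ≤ Av N w (FT N w T) S := Av_nonneg (FT_nonneg N w T) S
    rcases Nat.eq_zero_or_pos (dm S) with h0 | hpos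
    · have h1 := card_one_of_dm_zero S hS h0
      have h2 : sgl S = 1 := by simp [sgl, h1]
      have h3 : (0 : ℝ) ≤ 2 ^ (dm S) / 2 ^ (T + 1) := by positivity
      have h4 := GU_le_one n N w (dm S)
      rw [FT_succ, h2]
      linarith
    · obtain ⟨e, he⟩ : ∃ e, dm S = e + 1 := ⟨dm S - 1, by omega⟩
      rw [FT_succ, he]
      have hsg := sgl_nonneg S
      set L : ℝ := GU n N w e - 2 ^ e / 2 ^ T with hL
      set L' : ℝ := GU n N w (e + 1) - 2 ^ (e + 1) / 2 ^ T with hL'
      set p : ℝ := 1 - rhoN n N w ^ (e + 1) with hp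
      have hpr := pow_le_one₀ (n := e + 1) (rhoN_pos n N w).le (rhoN_le_one n N w)
      have hpr0 := pow_pos (rhoN_pos n N w) (e + 1)
      -- lower bounds for the single constraints
      have hnc : ∀ c : Par N w, ¬ (∀ x ∈ dir S, ell c.1 x = 0) →
          L ≤ FT N w T (S.filter (psat c)) := by
        intro c hc
        have hlt := dm_filter_lt S c hc
        rw [he] at hlt
        exact ih e _ (filter_nonempty S c hc) ((dir_filter_le S c).trans hR) (by omega)
      have hS' : L' ≤ FT N w T S := ih (e + 1) S hS hR (by omega)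
      obtain ⟨x0, hx0⟩ := hS
      -- the sum over the constraints
      set A := univ.filter (fun i : Fin w → Fin N => ∀ x ∈ dir S, ell i x = 0) with hA
      set B := univ.filter (fun c : Par N w => ¬ ∀ x ∈ dir S, ell c.1 x = 0) with hB
      have hsum : (B.card : ℝ) * L + (A.card : ℝ) * L' ≤
          ∑ c : Par N w, FT N w T (S.filter (psat c)) := by
        rw [← Finset.sum_filter_add_sum_filter_not univ
          (fun c : Par N w => ¬ ∀ x ∈ dir S, ell c.1 x = 0)]
        apply add_le_add
        · rw [← nsmul_eq_mul, ← Finset.sum_const]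
          apply Finset.sum_le_sum
          intro c hc
          exact hnc c (Finset.mem_filter.mp hc).2
        · calc (A.card : ℝ) * L' = ∑ i ∈ A, L' := by rw [Finset.sum_const, nsmul_eq_mul]
            _ ≤ ∑ i ∈ A, FT N w T (S.filter (psat ((i, ell i x0) : Par N w))) := by
                apply Finset.sum_le_sum
                intro i hi
                rw [const_filter S i (Finset.mem_filter.mp hi).2 hx0]
                exact hS'
            _ = ∑ c ∈ A.image (fun i => ((i, ell i x0) : Par N w)),
                  FT N w T (S.filter (psat c)) := by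
                rw [Finset.sum_image]
                intro i _ j _ hij
                exact congrArg Prod.fst hij
            _ ≤ _ := by
                apply Finset.sum_le_sum_of_subset_of_nonneg
                · intro c hc
                  rw [Finset.mem_image] at hc
                  obtain ⟨i, hi, rfl⟩ := hc
                  rw [Finset.mem_filter]
                  exact ⟨Finset.mem_univ _, not_not.mpr (Finset.mem_filter.mp hi).2⟩
                · intro c _ _
                  exact FT_nonneg N w T _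
      have hBcard := card_nonconst_rep hn hN hw S hR
      rw [he] at hBcard
      -- card B + 2 card A = card
      have hAB : (B.card : ℝ) + 2 * A.card = Fintype.card (Par N w) := by
        have h2 : ((univ.filter fun c : Par N w => ∀ x ∈ dir S, ell c.1 x = 0).card : ℝ)
            = (A.card : ℝ) * 2 := by
          have e1 : (univ.filter fun c : Par N w => ∀ x ∈ dir S, ell c.1 x = 0)
              = A ×ˢ (univ : Finset (ZMod 2)) := by
            ext c
            simp [hA]
          rw [e1, Finset.card_product, Finset.card_univ, ZMod.card]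
          push_cast
          rfl
        have h3 : ((univ.filter fun c : Par N w => ∀ x ∈ dir S, ell c.1 x = 0).card : ℝ)
            + (B.card : ℝ) = Fintype.card (Par N w) := by
          rw [← Finset.card_univ (α := Par N w)]
          exact_mod_cast Finset.card_filter_add_card_filter_not
            (s := (univ : Finset (Par N w))) (fun c : Par N w => ∀ x ∈ dir S, ell c.1 x = 0)
        rw [h2] at h3
        linarith
      have hLL : L' / 2 ≤ L := by
        have h1 := GU_anti n N w (Nat.le_succ e)
        have h2 := GU_nonneg n N w (e + 1)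
        rw [hL, hL', pow_succ]
        have h3 : (2 : ℝ) ^ e * 2 / 2 ^ T / 2 = 2 ^ e / 2 ^ T := by ring
        have h4 : (GU n N w (e + 1) - 2 ^ e * 2 / 2 ^ T) / 2 =
            GU n N w (e + 1) / 2 - 2 ^ e * 2 / 2 ^ T / 2 := by ring
        rw [h4, h3]
        linarith
      have hkey : Fintype.card (Par N w) * (p * L + (1 - p) / 2 * L') ≤
          ∑ c : Par N w, FT N w T (S.filter (psat c)) := by
        refine le_trans ?_ hsum
        have hAe : (A.card : ℝ) = (Fintype.card (Par N w) - B.card) / 2 := by linarith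
        rw [hAe]
        have h1 : p * Fintype.card (Par N w) * (L - L' / 2) ≤ B.card * (L - L' / 2) :=
          mul_le_mul_of_nonneg_right hBcard (by linarith)
        nlinarith
      have hG : p * GU n N w e = (1 + p) / 2 * GU n N w (e + 1) := by
        rw [GU_succ]
        have h2 : (2 : ℝ) - rhoN n N w ^ (e + 1) = 1 + p := by rw [hp]; ring
        have h3 : (1 : ℝ) - rhoN n N w ^ (e + 1) = p := rfl
        have h4 : 0 < 1 + p := by rw [hp]; linarith
        rw [h2, h3]
        field_simp
      have hAvge : p * L + (1 - p) / 2 * L' ≤ Av N w (FT N w T) S := by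
        unfold Av
        rw [le_div_iff₀ hcard]
        linarith
      have hid : p * L + (1 - p) / 2 * L' = GU n N w (e + 1) - 2 ^ (e + 1) / 2 ^ (T + 1) := by
        have h5 : (2 : ℝ) ^ (e + 1) / 2 ^ (T + 1) = 2 ^ e / 2 ^ T := by
          rw [pow_succ, pow_succ]
          field_simp
        rw [h5, hL, hL', pow_succ]
        have h6 : (2 : ℝ) ^ e * 2 / 2 ^ T = 2 * (2 ^ e / 2 ^ T) := by ring
        rw [h6]
        linear_combination hG
      rw [← hid]
      linarith

/-! ### From bit strings to constraints -/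

lemma toZ_par_slotsU {n b w : ℕ} (x : Fin n → Bool) (u : List Bool) :
    toZ (par (ext x) (slotsU n b w u).flatten) =
      ∑ i : Fin w, (if bval ((u.drop (1 + i * b)).take b) < n * (2 ^ b / n) then
        toZ (ext x (bval ((u.drop (1 + i * b)).take b) % n)) else 0) := by
  have h : ∀ l : List ℕ, toZ (par (ext x) (l.map fun i =>
      if bval ((u.drop (1 + i * b)).take b) < n * (2 ^ b / n) then
        [bval ((u.drop (1 + i * b)).take b) % n] else []).flatten) =
      (l.map fun i => (if bval ((u.drop (1 + i * b)).take b) < n * (2 ^ b / n) then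
        toZ (ext x (bval ((u.drop (1 + i * b)).take b) % n)) else 0)).sum := by
    intro l
    induction l with
    | nil => rfl
    | cons i l ih =>
      rw [List.map_cons, List.flatten_cons, par_append, toZ_xor, ih, List.map_cons, List.sum_cons]
      congr 1
      split_ifs with hlt
      · simp [par]
      · rfl
  have h1 := h (List.range w)
  have h2 : slotsU n b w u = (List.range w).map fun i =>
      if bval ((u.drop (1 + i * b)).take b) < n * (2 ^ b / n) then
        [bval ((u.drop (1 + i * b)).take b) % n] else [] := rfl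
  rw [h2, h1, ← List.sum_ofFn]
  congr 1
  apply List.ext_getElem <;> simp

/-- The replicated vector of an assignment. -/
def padU {n : ℕ} (hn : 1 ≤ n) (N : ℕ) (x : Fin n → Bool) : Fin N → ZMod 2 :=
  repL hn N fun i => toZ (x i)

lemma padU_inj {n N : ℕ} (hn : 1 ≤ n) (h : n ≤ N) {x y : Fin n → Bool}
    (hxy : padU hn N x = padU hn N y) : x = y := by
  have h1 := repL_inj hn h hxy
  funext i
  have h2 := congrFun h1 i
  simpa [toZ_inj] using h2

lemma padU_apply {n N : ℕ} (hn : 1 ≤ n) (x : Fin n → Bool) (v : Fin N) :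
    padU hn N x v = if (v : ℕ) < n * (N / n) then toZ (ext x ((v : ℕ) % n)) else 0 := by
  have h : (v : ℕ) % n < n := Nat.mod_lt _ hn
  simp [padU, repL, ext, h]

open Classical in
/-- The replicated vectors of a set of assignments. -/
noncomputable def vecsU {n : ℕ} (hn : 1 ≤ n) (N : ℕ) (S : Set (Fin n → Bool)) :
    Finset (Fin N → ZMod 2) :=
  univ.filter fun y => ∃ x ∈ S, padU hn N x = y

lemma mem_vecsU {n N : ℕ} (hn : 1 ≤ n) (S : Set (Fin n → Bool)) (y : Fin N → ZMod 2) :
    y ∈ vecsU hn N S ↔ ∃ x ∈ S, padU hn N x = y := by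
  simp [vecsU]

open Classical in
lemma E_meetsU {n b w : ℕ} (hn : 1 ≤ n) (hb : n ≤ 2 ^ b) :
    ∀ (r : ℕ) (S : Set (Fin n → Bool)),
    E (r * (w * b + 1)) (fun u => if ∃! x, x ∈ S ∧ MeetsU n b w (ext x) r u
      then 1 else 0) = (Av (2 ^ b) w)^[r] sgl (vecsU hn (2 ^ b) S)
  | 0, S => by
      simp only [Nat.zero_mul, E, Function.iterate_zero, id_eq, sgl, MeetsU, and_true]
      congr 1
      rw [Finset.card_eq_one]
      apply propext
      constructor
      · rintro ⟨x, hx, hu⟩
        refine ⟨padU hn _ x, ?_⟩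
        ext y
        rw [mem_vecsU, Finset.mem_singleton]
        constructor
        · rintro ⟨z, hz, rfl⟩
          rw [hu z hz]
        · rintro rfl
          exact ⟨x, hx, rfl⟩
      · rintro ⟨y, hy⟩
        have h1 : ∀ z, z ∈ S → padU hn (2 ^ b) z = y := by
          intro z hz
          have : padU hn (2 ^ b) z ∈ vecsU hn (2 ^ b) S := (mem_vecsU hn S _).2 ⟨z, hz, rfl⟩
          rw [hy] at this
          exact Finset.mem_singleton.mp this
        have h2 : y ∈ vecsU hn (2 ^ b) S := by rw [hy]; exact Finset.mem_singleton_self y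
        obtain ⟨x, hx, hxy⟩ := (mem_vecsU hn S _).1 h2
        exact ⟨x, hx, fun z hz => padU_inj hn hb ((h1 z hz).trans hxy.symm)⟩
  | r + 1, S => by
      have e1 : (r + 1) * (w * b + 1) = (1 + (w * b + 0)) + r * (w * b + 1) := by ring
      rw [e1, E_add]
      -- the function of the first block
      let g : (Fin w → ℕ) → Bool → ℝ := fun h β =>
        (Av (2 ^ b) w)^[r] sgl (vecsU hn (2 ^ b)
          {x | x ∈ S ∧ ∑ i, (if h i < n * (2 ^ b / n) then toZ (ext x (h i % n)) else 0) = toZ β})
      have h2 : ∀ u : List Bool, u.length = 1 + (w * b + 0) →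
          E (r * (w * b + 1)) (fun u' => if ∃! x, x ∈ S ∧
            MeetsU n b w (ext x) (r + 1) (u ++ u') then (1 : ℝ) else 0) =
          g (fun i => bval ((u.drop (1 + i * b)).take b)) (u.headD false) := by
        intro u hu
        have hlen : u.length = w * b + 1 := by omega
        obtain ⟨β, u1, rfl⟩ : ∃ β u1, u = β :: u1 := by
          cases u with
          | nil => simp at hlen
          | cons β u1 => exact ⟨β, u1, rfl⟩
        simp only [g]
        rw [← E_meetsU hn hb r]
        apply E_congr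
        intro u' _
        congr 1
        apply propext
        apply existsUnique_congr
        intro x
        simp only [Set.mem_ofPred_eq, MeetsU]
        rw [and_assoc]
        have h3 : (β :: u1 ++ u').drop (w * b + 1) = u' := by
          rw [← hlen, List.drop_left]
        rw [h3]
        have h4 : (par (ext x) (slotsU n b w (β :: u1 ++ u')).flatten =
            (β :: u1 ++ u').headD false) ↔
            (∑ i : Fin w, (if bval (((β :: u1).drop (1 + i * b)).take b) < n * (2 ^ b / n) then
              toZ (ext x (bval (((β :: u1).drop (1 + i * b)).take b) % n)) else 0) =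
              toZ ((β :: u1).headD false)) := by
          rw [← toZ_inj, toZ_par_slotsU]
          simp only [List.cons_append, List.headD_cons]
          have h5 : ∀ i : Fin w, ((β :: (u1 ++ u')).drop (1 + i * b)).take b =
              ((β :: u1).drop (1 + i * b)).take b := by
            intro i
            have h6 : 1 + i.val * b + b ≤ (β :: u1).length := by
              rw [hu]
              have := i.isLt
              nlinarith
            have h7 : β :: (u1 ++ u') = (β :: u1) ++ u' := rfl
            rw [h7, List.drop_append_of_le_length (by omega), List.take_append_of_le_length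
              (by rw [List.length_drop]; omega)]
          simp only [h5]
        rw [h4]
      rw [E_congr _ h2, E_par b w 0 g]
      rw [Function.iterate_succ_apply']
      change _ = (∑ c : Par (2 ^ b) w, (Av (2 ^ b) w)^[r] sgl
        ((vecsU hn (2 ^ b) S).filter (psat c))) / Fintype.card (Par (2 ^ b) w)
      congr 1
      apply Finset.sum_congr rfl
      intro c _
      simp only [g]
      refine congrArg ((Av (2 ^ b) w)^[r] sgl) ?_
      ext y
      rw [Finset.mem_filter, mem_vecsU, mem_vecsU]
      simp only [Set.mem_ofPred_eq, toZ_toB]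
      have hpar : ∀ x : Fin n → Bool, psat c (padU hn (2 ^ b) x) ↔
          ∑ i, (if (c.1 i : ℕ) < n * (2 ^ b / n) then toZ (ext x ((c.1 i : ℕ) % n)) else 0) =
            c.2 := by
        intro x
        unfold psat ell
        simp only [padU_apply]
      constructor
      · rintro ⟨x, ⟨hx, hc⟩, rfl⟩
        exact ⟨⟨x, hx, rfl⟩, (hpar x).2 hc⟩
      · rintro ⟨⟨x, hx, rfl⟩, hc⟩
        exact ⟨x, ⟨hx, (hpar x).1 hc⟩, rfl⟩

lemma dir_vecsU {n N : ℕ} (hn : 1 ≤ n) (S : Set (Fin n → Bool)) :
    dir (vecsU hn N S) ≤ LinearMap.range (repL hn N) := by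
  unfold dir
  rw [Submodule.span_le]
  rintro v ⟨x, hx, y, hy, rfl⟩
  rw [mem_vecsU] at hx hy
  obtain ⟨x', _, rfl⟩ := hx
  obtain ⟨y', _, rfl⟩ := hy
  exact ⟨_, map_sub (repL hn N) _ _⟩

lemma dm_vecsU {n N : ℕ} (hn : 1 ≤ n) (S : Set (Fin n → Bool)) : dm (vecsU hn N S) ≤ n := by
  unfold dm
  refine (Submodule.finrank_mono (dir_vecsU hn S)).trans
    ((LinearMap.finrank_range_le (repL hn N)).trans ?_)
  simp

open Classical in
/-- Isolation by parity constraints of width `w`, whose number is random. -/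
theorem iso_U {n b w : ℕ} (hn : 1 ≤ n) (hb : n ≤ 2 ^ b) (hw : Odd w) (T : ℕ)
    (S : Set (Fin n → Bool)) (hS : S.Nonempty) :
    ∏ e ∈ range n, (2 * (1 - rhoU n b w ^ (e + 1)) / (2 - rhoU n b w ^ (e + 1))) - 2 ^ n / 2 ^ T ≤
      ∑ t ∈ range (T + 1), E (t * (w * b + 1))
        (fun u => if ∃! x, x ∈ S ∧ MeetsU n b w (ext x) t u then 1 else 0) := by
  have hne : (vecsU hn (2 ^ b) S).Nonempty := by
    obtain ⟨x, hx⟩ := hS
    exact ⟨padU hn _ x, (mem_vecsU hn S _).2 ⟨x, hx, rfl⟩⟩
  have h1 := FT_ge hn hb hw T n (vecsU hn (2 ^ b) S) hne (dir_vecsU hn S) (dm_vecsU hn S)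
  unfold GU at h1
  simp only [rhoN_eq] at h1
  refine h1.trans (le_of_eq ?_)
  unfold FT
  apply Finset.sum_congr rfl
  intro t _
  rw [E_meetsU hn hb]

end Pool.Agent.Helper77.SK
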