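import Pool.Agent.Helper77.SK.PBuild
import Pool.Agent.Helper77.SK.UBasic

/-!
# The reduction with one width is computed in polynomial time
-/

set_option autoImplicit false

namespace Pool.Agent.Helper86.PT.SKBuild

open Pool.Agent.Helper77.SK

variable {α β γ : Type} [TEnc α] [TEnc β] [TEnc γ]

/-! ### Arithmetic -/

theorem poly_two_pow_lg {f : α → ℕ} (hf : Poly f) : Poly (fun a => 2 ^ lg (f a)) := by
  obtain ⟨b, hb, -, hb'⟩ := hf.size_bound
  have h := Poly.natIter (n := f) (g := fun _ => ((1, 0) : ℕ × ℕ))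
    (f := fun a s => if s.1 < f a then (2 * s.1, s.2 + 1) else s) hf (Poly.const _)
    (Poly.ite (c := fun p : α × (ℕ × ℕ) => p.2.1 < f p.1)
      (Poly.lt (Poly.fst (Poly.snd Poly.id)) (hf.comp (Poly.fst Poly.id)))
      (Poly.pair (Poly.mul (Poly.const 2) (Poly.fst (Poly.snd Poly.id)))
        (Poly.succ (Poly.snd (Poly.snd Poly.id)))) (Poly.snd Poly.id))
    (B := fun k => 3 * b k + 6) (((PB.const 3).mul hb).add (PB.const 6)) (by
      intro a i hi
      rw [SKCalc.lg_iter, tsz_pair, tsz_nat, tsz_nat]
      have h1 := SKCalc.two_pow_min_le (f a) i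
      have h2 := hb' a
      rw [tsz_nat] at h2
      have h3 : min i (Nat.clog 2 (f a)) ≤ f a := (min_le_left _ _).trans hi
      omega)
  refine (Poly.fst h).congr fun a => ?_
  rw [SKCalc.lg_iter, lg, min_eq_right (SKCalc.clog_le _)]

theorem poly_div {f g : α → ℕ} (hf : Poly f) (hg : Poly g) : Poly (fun a => f a / g a) := by
  refine (Poly.ite (c := fun a => g a = 0) (Poly.isZero hg) (Poly.const 0)
    (poly_div_succ hf (Poly.pred hg))).congr fun a => ?_
  by_cases h : g a = 0
  · rw [if_pos h, h, Nat.div_zero]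
  · rw [if_neg h, Nat.sub_add_cancel (Nat.pos_of_ne_zero h)]

theorem poly_mod {f g : α → ℕ} (hf : Poly f) (hg : Poly g) : Poly (fun a => f a % g a) := by
  refine (Poly.ite (c := fun a => g a = 0) (Poly.isZero hg) hf
    (poly_mod_succ hf (Poly.pred hg))).congr fun a => ?_
  by_cases h : g a = 0
  · rw [if_pos h, h, Nat.mod_zero]
  · rw [if_neg h, Nat.sub_add_cancel (Nat.pos_of_ne_zero h)]

/-! ### Slots -/

/-- The truncated value of a block. -/
theorem poly_cap {m : α → ℕ} {l : α → List Bool} (hm : Poly m) (hl : Poly l) :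
    Poly (fun a => min (m a) (bval (l a))) := by
  have hcap : ∀ (n : ℕ) (l : List Bool),
      l.foldr (fun x s => min n ((if x then 1 else 0) + 2 * s)) 0 = min n (bval l) := by
    intro n l
    induction l with
    | nil => simp [bval]
    | cons x l ih =>
      rw [List.foldr_cons, ih, bval]
      cases x <;> simp <;> omega
  obtain ⟨bn, hbn, -, hbn'⟩ := hm.size_bound
  have h := Poly.foldl (l := fun a => (l a).reverse) (g := fun _ => 0)
    (f := fun a s x => min (m a) ((if x then 1 else 0) + 2 * s)) hl.reverse (Poly.const 0)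
    (poly_min (hm.comp (Poly.fst Poly.id)) (Poly.add
      (Poly.ite (c := fun p : α × ℕ × Bool => p.2.2 = true)
        ((Poly.snd (Poly.snd Poly.id)).congr (fun a => by cases a.2.2 <;> rfl))
        (Poly.const 1) (Poly.const 0))
      (Poly.mul (Poly.const 2) (Poly.fst (Poly.snd Poly.id)))))
    (hbn.add (PB.const 1)) (by
      intro a i
      have key : ∀ (l : List Bool) (s : ℕ), s ≤ m a →
          l.foldl (fun s x => min (m a) ((if x then 1 else 0) + 2 * s)) s ≤ m a := by
        intro l
        induction l with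
        | nil => intro s hs; exact hs
        | cons x l ih => intro s _; exact ih _ (min_le_left _ _)
      have h1 := key (List.take i (l a).reverse) 0 (Nat.zero_le _)
      have h2 := hbn' a
      rw [tsz_nat] at h2 ⊢
      omega)
  refine h.congr fun a => ?_
  rw [List.foldl_reverse]
  exact hcap _ _

theorem poly_slotsU (w : ℕ) {n b m : α → ℕ} {u : α → List Bool} (hn : Poly n) (hb : Poly b)
    (hm : Poly m) (hu : Poly u) (e : ∀ a, m a = n a * (2 ^ b a / n a)) :
    Poly (fun a => slotsU (n a) (b a) w (u a)) := by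
  have hl : Poly (fun p : (α × ℕ) => ((u p.1).drop (1 + p.2 * b p.1)).take (b p.1)) :=
    poly_take (Poly.drop (hu.comp (Poly.fst Poly.id)) (Poly.add (Poly.const 1)
      (Poly.mul (Poly.snd Poly.id) (hb.comp (Poly.fst Poly.id)))))
      (hb.comp (Poly.fst Poly.id))
  have hval := poly_cap (hm.comp (Poly.fst Poly.id) : Poly (fun p : (α × ℕ) => m p.1)) hl
  have h := Poly.map (l := fun _ : α => List.range w) (f := fun a i =>
      if min (m a) (bval (((u a).drop (1 + i * b a)).take (b a))) < m a then
        [min (m a) (bval (((u a).drop (1 + i * b a)).take (b a))) % n a] else [])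
    (Poly.const (List.range w)) (Poly.ite (Poly.lt hval (hm.comp (Poly.fst Poly.id)))
      (Poly.cons (poly_mod hval (hn.comp (Poly.fst Poly.id))) (Poly.const [])) (Poly.const []))
  refine h.congr fun a => ?_
  rw [slotsU]
  refine List.map_congr_left fun i _ => ?_
  beta_reduce
  by_cases hv : bval (((u a).drop (1 + i * b a)).take (b a)) < m a
  · rw [if_pos (by omega), if_pos (by rw [← e]; exact hv), min_eq_right hv.le]
  · rw [if_neg (by omega), if_neg (by rw [← e]; exact hv)]

theorem length_slotsU (n b w : ℕ) (u : List Bool) : (slotsU n b w u).length = w := by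
  simp [slotsU]

theorem mem_slotsU {n b w : ℕ} {u : List Bool} {v : List ℕ} (hv : v ∈ slotsU n b w u) :
    v.length ≤ 1 := by
  rw [slotsU, List.mem_map] at hv
  obtain ⟨i, -, rfl⟩ := hv
  dsimp only
  split_ifs <;> simp

/-! ### All constraints -/

theorem genU_eq_flatMap (n b w : ℕ) (r : ℕ) : ∀ (u : List Bool),
    genU n b w r u = (List.range r).flatMap fun j =>
      direct (slotsU n b w (u.drop (j * (w * b + 1)))).flatten
        ((u.drop (j * (w * b + 1))).headD false) := by
  induction r with
  | zero => intro u; rfl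
  | succ r ih =>
    intro u
    rw [genU, ih, List.range_succ_eq_map, List.flatMap_cons, List.flatMap_map]
    congr 1
    · simp
    · refine List.flatMap_congr fun j _ => ?_
      have h2 : (u.drop (w * b + 1)).drop (j * (w * b + 1)) = u.drop (Nat.succ j * (w * b + 1)) := by
        rw [List.drop_drop]
        congr 1
        rw [Nat.succ_mul]
        ring
      rw [h2]

theorem poly_buildU' (b0 w : ℕ) : Poly (buildU b0 w) := by
  have hgen : Poly (fun x : (ℕ × List Cls) × (ℕ × List Bool) =>
      genU x.1.1 (lg x.1.1 + b0) w x.2.1 x.2.2) := by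
    have hb : ∀ {δ : Type} [TEnc δ] {f : δ → ℕ}, Poly f → Poly (fun a => lg (f a) + b0) :=
      fun hf => Poly.add (poly_lg hf) (Poly.const b0)
    have hdrop : Poly (fun x : ((ℕ × List Cls) × (ℕ × List Bool)) × ℕ =>
        x.1.2.2.drop (x.2 * (w * (lg x.1.1.1 + b0) + 1))) :=
      Poly.drop (Poly.snd (Poly.snd (Poly.fst Poly.id))) (Poly.mul (Poly.snd Poly.id)
        (Poly.succ (Poly.mul (Poly.const w) (hb (Poly.fst (Poly.fst (Poly.fst Poly.id)))))))
    have hn : Poly (fun x : ((ℕ × List Cls) × (ℕ × List Bool)) × ℕ => x.1.1.1) :=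
      Poly.fst (Poly.fst (Poly.fst Poly.id))
    have hm : Poly (fun x : ((ℕ × List Cls) × (ℕ × List Bool)) × ℕ =>
        x.1.1.1 * (2 ^ lg x.1.1.1 * 2 ^ b0 / x.1.1.1)) :=
      Poly.mul hn (poly_div (Poly.mul (poly_two_pow_lg hn) (Poly.const _)) hn)
    have hs := poly_slotsU w hn (hb hn) hm hdrop (fun a => by rw [pow_add])
    have h := Poly.flatMap
      (l := fun x : (ℕ × List Cls) × (ℕ × List Bool) => List.range x.2.1)
      (f := fun x j => directK w
        (slotsU x.1.1 (lg x.1.1 + b0) w (x.2.2.drop (j * (w * (lg x.1.1 + b0) + 1)))).flatten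
        ((x.2.2.drop (j * (w * (lg x.1.1 + b0) + 1))).headD false))
      (Poly.range (Poly.fst (Poly.snd Poly.id)))
      (Poly.comp (g := fun x : ((ℕ × List Cls) × (ℕ × List Bool)) × ℕ =>
        ((slotsU x.1.1.1 (lg x.1.1.1 + b0) w
            (x.1.2.2.drop (x.2 * (w * (lg x.1.1.1 + b0) + 1)))).flatten,
          (x.1.2.2.drop (x.2 * (w * (lg x.1.1.1 + b0) + 1))).headD false)) (poly_directK w)
        (Poly.pair (Poly.flatten hs) (Poly.headD hdrop (Poly.const false))))
    refine h.congr fun x => ?_
    rw [genU_eq_flatMap]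
    refine List.flatMap_congr fun j _ => ?_
    refine directK_eq _ _ _ ((length_flatten_le fun v hv => mem_slotsU hv).trans ?_)
    rw [length_slotsU]
  exact Poly.pair (Poly.fst (Poly.fst Poly.id))
    (poly_ddp (Poly.append (Poly.snd (Poly.fst Poly.id)) hgen))

end Pool.Agent.Helper86.PT.SKBuild

namespace Pool.Agent.Helper77.SK

/-- The reduction with one width is computed in polynomial time. -/
theorem poly_buildU (b0 w : ℕ) : Pool.Agent.Helper86.PT.Poly (buildU b0 w) :=
  Pool.Agent.Helper86.PT.SKBuild.poly_buildU' b0 w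

end Pool.Agent.Helper77.SK
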