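import Pool.Agent.Helper77.SK.UBasic
import Pool.Agent.Helper38.ISO.Bnd

/-!
# The product bound for the reduction with an explicit constant
-/

set_option autoImplicit false

namespace Pool.Agent.Helper77.SK

open Finset Pool.Agent.Helper38.ISO

/-- The constant: `∑ (1 - 2 ^ (-j)) / j ^ 2 ≤ 1.063`. -/
lemma exists_constU : ∃ S : ℝ, HasSum (fun j : ℕ => (1 - (1 / 2 : ℝ) ^ (j + 1)) / ((j : ℝ) + 1) ^ 2) S ∧
    S ≤ 1063 / 1000 := by
  have hB : HasSum (fun j : ℕ => 1 / ((j : ℝ) + 1) ^ 2) (Real.pi ^ 2 / 6) := by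
    have h := hasSum_zeta_two
    rw [← hasSum_nat_add_iff' 1] at h
    simpa using h
  have hs : Summable (fun j : ℕ => (1 / 2 : ℝ) ^ (j + 1) / ((j : ℝ) + 1) ^ 2) := by
    refine Summable.of_nonneg_of_le (fun j => by positivity) (fun j => ?_) hB.summable
    apply div_le_div_of_nonneg_right _ (by positivity)
    exact pow_le_one₀ (by norm_num) (by norm_num)
  obtain ⟨T, hT⟩ := hs
  refine ⟨Real.pi ^ 2 / 6 - T, ?_, ?_⟩
  · have h := hB.sub hT
    have e : (fun j : ℕ => (1 - (1 / 2 : ℝ) ^ (j + 1)) / ((j : ℝ) + 1) ^ 2) =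
        fun j : ℕ => 1 / ((j : ℝ) + 1) ^ 2 - (1 / 2 : ℝ) ^ (j + 1) / ((j : ℝ) + 1) ^ 2 := by
      funext j
      rw [sub_div]
    rw [e]
    exact h
  · have h1 : ∑ j ∈ range 6, (1 / 2 : ℝ) ^ (j + 1) / ((j : ℝ) + 1) ^ 2 ≤ T :=
      sum_le_hasSum _ (fun j _ => by positivity) hT
    have h2 : (0.5819 : ℝ) ≤ ∑ j ∈ range 6, (1 / 2 : ℝ) ^ (j + 1) / ((j : ℝ) + 1) ^ 2 := by
      simp only [Finset.sum_range_succ, Finset.sum_range_zero]
      norm_num
    have h3 := Real.pi_lt_d4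
    have h4 := Real.pi_pos
    nlinarith

/-- The logarithm of a factor. -/
lemma log_factorU {q : ℝ} (h0 : 0 ≤ q) (h1 : q < 1) :
    HasSum (fun j : ℕ => q ^ (j + 1) * (1 - (1 / 2 : ℝ) ^ (j + 1)) / ((j : ℝ) + 1))
      (-Real.log (2 * (1 - q) / (2 - q))) := by
  have a1 := Real.hasSum_pow_div_log_of_abs_lt_one (x := q) (by rw [abs_of_nonneg h0]; exact h1)
  have a2 := Real.hasSum_pow_div_log_of_abs_lt_one (x := q / 2)
    (by rw [abs_of_nonneg (by positivity)]; linarith)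
  have a3 := a1.sub a2
  have e1 : -Real.log (2 * (1 - q) / (2 - q)) = -Real.log (1 - q) - -Real.log (1 - q / 2) := by
    have : 2 * (1 - q) / (2 - q) = (1 - q) / (1 - q / 2) := by
      rw [div_eq_div_iff (by linarith) (by linarith)]
      ring
    rw [this, Real.log_div (by linarith) (by linarith)]
    ring
  have e2 : (fun j : ℕ => q ^ (j + 1) * (1 - (1 / 2 : ℝ) ^ (j + 1)) / ((j : ℝ) + 1)) =
      fun j : ℕ => q ^ (j + 1) / ((j : ℝ) + 1) - (q / 2) ^ (j + 1) / ((j : ℝ) + 1) := by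
    funext j
    rw [← sub_div]
    congr 1
    rw [div_pow, one_pow, div_pow]
    ring
  rw [e1, e2]
  exact a3

lemma neg_log_sumU (μ : ℝ) (hμ : 0 < μ) (d : ℕ) :
    ∑ e ∈ range d, -Real.log (2 * (1 - Real.exp (-μ) ^ (e + 1)) / (2 - Real.exp (-μ) ^ (e + 1))) ≤
      1063 / 1000 * (1 / μ) := by
  set q := Real.exp (-μ)
  have hq0 : 0 < q := Real.exp_pos _
  have hq1 : q < 1 := by
    rw [Real.exp_lt_one_iff]
    linarith
  have hA : HasSum (fun j : ℕ => ∑ e ∈ range d,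
      (q ^ (e + 1)) ^ (j + 1) * (1 - (1 / 2 : ℝ) ^ (j + 1)) / ((j : ℝ) + 1))
      (∑ e ∈ range d, -Real.log (2 * (1 - q ^ (e + 1)) / (2 - q ^ (e + 1)))) := by
    apply hasSum_sum
    intro e _
    exact log_factorU (by positivity) (pow_lt_one₀ hq0.le hq1 (by omega))
  obtain ⟨S, hS, hS1⟩ := exists_constU
  have hB : HasSum (fun j : ℕ => (1 - (1 / 2 : ℝ) ^ (j + 1)) / ((j : ℝ) + 1) ^ 2 * (1 / μ))
      (S * (1 / μ)) := hS.mul_right _
  have h0 : ∑ e ∈ range d, -Real.log (2 * (1 - q ^ (e + 1)) / (2 - q ^ (e + 1))) ≤ S * (1 / μ) := by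
    refine hasSum_le ?_ hA hB
    intro j
    have hj : (0 : ℝ) < (j : ℝ) + 1 := by positivity
    have hc : (0 : ℝ) ≤ 1 - (1 / 2 : ℝ) ^ (j + 1) := by
      have := pow_le_one₀ (n := j + 1) (by norm_num : (0 : ℝ) ≤ 1 / 2) (by norm_num)
      linarith
    have h1 : ∑ e ∈ range d, (q ^ (e + 1)) ^ (j + 1) * (1 - (1 / 2 : ℝ) ^ (j + 1)) / ((j : ℝ) + 1)
        = (∑ e ∈ range d, Real.exp (-(μ * (j + 1))) ^ (e + 1)) *
          ((1 - (1 / 2 : ℝ) ^ (j + 1)) / ((j : ℝ) + 1)) := by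
      rw [Finset.sum_mul]
      apply Finset.sum_congr rfl
      intro e _
      rw [mul_div_assoc]
      congr 1
      rw [← pow_mul, ← Real.exp_nat_mul, ← Real.exp_nat_mul]
      congr 1
      push_cast
      ring
    rw [h1]
    have h2 := geo_le (μ * (j + 1)) (by positivity) d
    calc _ ≤ (1 / (μ * (j + 1))) * ((1 - (1 / 2 : ℝ) ^ (j + 1)) / ((j : ℝ) + 1)) :=
          mul_le_mul_of_nonneg_right h2 (by positivity)
      _ = _ := by field_simp
  refine h0.trans ?_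
  exact mul_le_mul_of_nonneg_right hS1 (by positivity)

lemma prod_geU {n m : ℕ} (hn : 1 ≤ n) (hm : 1 ≤ m) (d : ℕ) :
    Real.exp (-(1063 / 1000 * ((n : ℝ) / m + 2))) ≤
      ∏ e ∈ range d, (2 * (1 - rho n m ^ (e + 1)) / (2 - rho n m ^ (e + 1))) := by
  have hn0 : (0 : ℝ) < n := by exact_mod_cast hn
  have hm0 : (0 : ℝ) < m := by exact_mod_cast hm
  set μ : ℝ := 1 / ((n : ℝ) / m + 2) with hμ
  have hμ0 : 0 < μ := by positivity
  have hrho := rho_le_exp hn hm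
  rw [← hμ] at hrho
  have hq1 : Real.exp (-μ) < 1 := by
    rw [Real.exp_lt_one_iff]
    linarith
  have h1 := neg_log_sumU μ hμ0 d
  have h2 : (1 : ℝ) / μ = (n : ℝ) / m + 2 := by rw [hμ, one_div_one_div]
  rw [h2, Finset.sum_neg_distrib] at h1
  have h3 : ∏ e ∈ range d, (2 * (1 - Real.exp (-μ) ^ (e + 1)) / (2 - Real.exp (-μ) ^ (e + 1))) ≤
      ∏ e ∈ range d, (2 * (1 - rho n m ^ (e + 1)) / (2 - rho n m ^ (e + 1))) := by
    apply Finset.prod_le_prod
    · intro e _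
      have := pow_le_one₀ (n := e + 1) (Real.exp_pos (-μ)).le hq1.le
      apply div_nonneg <;> linarith
    · intro e _
      have a1 := pow_le_pow_left₀ (rho_pos n m).le hrho (e + 1)
      have a2 := pow_le_one₀ (n := e + 1) (Real.exp_pos (-μ)).le hq1.le
      rw [div_le_div_iff₀ (by linarith) (by linarith)]
      nlinarith
  refine le_trans ?_ h3
  have h4 : ∏ e ∈ range d, (2 * (1 - Real.exp (-μ) ^ (e + 1)) / (2 - Real.exp (-μ) ^ (e + 1)))
      = Real.exp (∑ e ∈ range d,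
        Real.log (2 * (1 - Real.exp (-μ) ^ (e + 1)) / (2 - Real.exp (-μ) ^ (e + 1)))) := by
    rw [Real.exp_sum]
    apply Finset.prod_congr rfl
    intro e _
    rw [Real.exp_log]
    have := pow_lt_one₀ (n := e + 1) (Real.exp_pos (-μ)).le hq1 (by omega)
    apply div_pos <;> linarith
  rw [h4]
  apply Real.exp_le_exp.mpr
  linarith

theorem prod_U {w : ℕ} (hw : 1 ≤ w) {ε : ℝ} (hε : 0 < ε) : ∃ (b0 : ℕ) (D : ℝ), ∀ n : ℕ, 1 ≤ n →
    Real.exp (-((154 / 100 * Real.log 2 / w + ε) * n + D)) ≤ ∏ e ∈ range n,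
      (2 * (1 - rhoU n (lg n + b0) w ^ (e + 1)) / (2 - rhoU n (lg n + b0) w ^ (e + 1))) := by
  refine ⟨9, 3, fun n hn => ?_⟩
  have hw0 : (1 : ℝ) ≤ w := by exact_mod_cast hw
  have hn0 : (1 : ℝ) ≤ n := by exact_mod_cast hn
  set N : ℕ := 2 ^ (lg n + 9) with hN
  have hN1 : 1 ≤ N := Nat.one_le_two_pow
  have hnN : 512 * n ≤ N := by
    have h1 : n ≤ 2 ^ lg n := Nat.le_pow_clog (by norm_num) n
    rw [hN, pow_add]
    norm_num
    omega
  have hq : 1 ≤ N / n := by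
    rw [Nat.le_div_iff_mul_le (by omega)]
    omega
  have hm : 1 ≤ w * (N / n) := Nat.one_le_iff_ne_zero.mpr (by positivity)
  have hr : rhoU n (lg n + 9) w = rho N (w * (N / n)) := by
    unfold rhoU rho
    rw [← hN]
    push_cast
    congr 4
    rw [hN]
    push_cast
    ring
  rw [hr]
  refine le_trans (Real.exp_le_exp.mpr ?_) (prod_geU hN1 hm n)
  have hNr : (512 : ℝ) * n ≤ N := by exact_mod_cast hnN
  have hfl : (N : ℝ) / n - 1 ≤ ((N / n : ℕ) : ℝ) := by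
    have := Nat.lt_floor_add_one ((N : ℝ) / n)
    rw [Nat.floor_div_eq_div] at this
    linarith
  have hfl2 : (511 / 512 : ℝ) * (N / n) ≤ ((N / n : ℕ) : ℝ) := by
    have : (1 : ℝ) ≤ (1 / 512) * (N / n) := by
      rw [← mul_div_assoc, le_div_iff₀ (by linarith)]
      linarith
    linarith
  have hN0 : (0 : ℝ) < N := by exact_mod_cast hN1
  have hkey : (N : ℝ) / ((w * (N / n) : ℕ) : ℝ) ≤ 512 / 511 * (n / w) := by
    push_cast
    have h1 : (w : ℝ) * ((511 / 512 : ℝ) * (N / n)) ≤ w * ((N / n : ℕ) : ℝ) :=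
      mul_le_mul_of_nonneg_left hfl2 (by linarith)
    have h2 : (0 : ℝ) < (w : ℝ) * ((511 / 512 : ℝ) * (N / n)) := by positivity
    calc (N : ℝ) / (w * ((N / n : ℕ) : ℝ)) ≤ N / ((w : ℝ) * ((511 / 512 : ℝ) * (N / n))) :=
          div_le_div_of_nonneg_left hN0.le h2 h1
      _ = _ := by field_simp
  have hlog := Real.log_two_gt_d9
  have hnw : (0 : ℝ) ≤ n / w := by positivity
  have h5 : 154 / 100 * Real.log 2 / w * n = 154 / 100 * Real.log 2 * (n / w) := by ring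
  have h6 : 0 ≤ ε * n := by positivity
  have h7 : (1063 / 1000 : ℝ) * (512 / 511 * (n / w)) ≤ 154 / 100 * Real.log 2 * (n / w) := by
    have : (1063 / 1000 : ℝ) * (512 / 511) ≤ 154 / 100 * Real.log 2 := by linarith
    nlinarith
  rw [add_mul, h5]
  linarith

end Pool.Agent.Helper77.SK
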