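import Pool.Agent.Helper77.SK.Final2
import Pool.Agent.Helper77.SK.UIso
import Pool.Agent.Helper77.SK.UGen
import Pool.Agent.Helper77.SK.UPoly
import Pool.Agent.Helper77.SK.UProd

/-!
# The additive comparison with an explicit constant
-/

set_option autoImplicit false

namespace Pool.Agent.Helper77.SK

open Pool.Agent.Helper86 Pool.Agent.Helper86.PT Finset

theorem isCNF_buildU {k b0 w : ℕ} (hwk : w ≤ k) {n : ℕ} {F : Frm}
    (hF : IsCNF k n F) (t : ℕ) (u : List Bool) :
    IsCNF k (buildU b0 w ((n, F), (t, u))).1 (buildU b0 w ((n, F), (t, u))).2 := by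
  refine ⟨nodup_ddp _, ?_⟩
  intro C hC
  have h1 : C ∈ F ++ genU n (lg n + b0) w t u := (mem_ddp _ _).mp hC
  rcases List.mem_append.mp h1 with h2 | h2
  · exact hF.2 C h2
  · exact genU_isCNF hwk _ _ C h2

open Classical in
theorem step_U {k w : ℕ} (hw : Odd w) (hwk : w ≤ k) {c ε : ℝ} (hc : 0 ≤ c) (hε : 0 < ε)
    (hsol : SolvedIn k True c) : SolvedIn k False (c * 1 + 154 / 100 / w + ε) := by
  have hl2 : 0 < Real.log 2 := Real.log_pos (by norm_num)
  have hl2' : Real.log 2 < 0.7 := by
    have := Real.log_two_lt_d9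
    linarith
  have hl2'' : 0.69 < Real.log 2 := by
    have := Real.log_two_gt_d9
    linarith
  have hw1 : 1 ≤ w := hw.pos
  have hw1' : (1 : ℝ) ≤ w := by exact_mod_cast hw1
  set ε' : ℝ := min (ε / 2 * Real.log 2) (1 / 10) with hε'
  have hε'0 : 0 < ε' := by
    rw [hε']
    exact lt_min (by positivity) (by norm_num)
  obtain ⟨b0, D, hD⟩ := prod_U hw1 hε'0
  set lam : ℝ := 154 / 100 * Real.log 2 / w + ε' with hlam
  have hlam0 : 0 ≤ lam := by positivity
  have hlam1 : lam ≤ 2 * Real.log 2 := by
    have h1 : 154 / 100 * Real.log 2 / w ≤ 154 / 100 * Real.log 2 :=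
      div_le_self (by positivity) hw1'
    have h2 : ε' ≤ 1 / 10 := min_le_right _ _
    rw [hlam]
    linarith
  obtain ⟨K, hK⟩ := exists_nat_ge ((D + Real.log 2) / Real.log 2)
  have hx : Poly (fun x : ℕ × ℕ => x.1) := PT.Poly.id.fst
  have hx2 : Poly (fun x : ℕ × ℕ => x.2) := PT.Poly.id.snd
  set D' : ℝ := max (D + Real.log 2 + Real.log (K + 3)) 0 with hD'
  have htr := transfer (k := k) (α := 0) (lam := lam) (D := D') (e := 1) (le_refl 0) hlam0
    (fun n => 3 * n + K) (fun x => x.2 * (w * (lg x.1 + b0) + 1)) (buildU b0 w)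
    (PT.Poly.add (PT.Poly.mul (PT.Poly.const 3) PT.Poly.id) (PT.Poly.const K))
    (PT.Poly.mul hx2 (PT.Poly.add (PT.Poly.mul (PT.Poly.const w)
      (PT.Poly.add (poly_lg hx) (PT.Poly.const b0))) (PT.Poly.const 1)))
    (poly_buildU b0 w) ?_ ?_ hc (show 0 < ε / 2 by positivity) hsol
  · obtain ⟨A, C, d, hA⟩ := htr
    refine ⟨A, max C 0, d, fun n F hF hu => ?_⟩
    obtain ⟨t, ht, hrest⟩ := hA n F hF hu
    refine ⟨t, ht.trans ?_, hrest⟩
    have h1 : c * (1 + 0) + lam / Real.log 2 + ε / 2 ≤ c * 1 + 154 / 100 / w + ε := by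
      have h2 : lam / Real.log 2 = 154 / 100 / w + ε' / Real.log 2 := by
        rw [hlam]
        field_simp
      have h3 : ε' / Real.log 2 ≤ ε / 2 := by
        rw [div_le_iff₀ hl2]
        exact min_le_left _ _
      rw [h2]
      linarith
    calc C * 2 ^ ((c * (1 + 0) + lam / Real.log 2 + ε / 2) * n)
        ≤ max C 0 * 2 ^ ((c * (1 + 0) + lam / Real.log 2 + ε / 2) * n) :=
          mul_le_mul_of_nonneg_right (le_max_left _ _) (by positivity)
      _ ≤ max C 0 * 2 ^ ((c * 1 + 154 / 100 / w + ε) * n) := by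
          apply mul_le_mul_of_nonneg_left _ (le_max_right _ _)
          exact Real.rpow_le_rpow_of_exponent_le (by norm_num)
            (mul_le_mul_of_nonneg_right h1 (Nat.cast_nonneg n))
  · intro n F hF t _ u _
    refine ⟨isCNF_buildU hwk hF t u, ?_, ?_⟩
    · show ((n : ℕ) : ℝ) ≤ (1 + 0) * n
      linarith
    · rintro ⟨x, hx⟩
      exact ⟨x, ((sols_U hF t u x).mp hx).1⟩
  · intro n F hF hs
    have hiff : ∀ t u, (∃! x, x ∈ sols (buildU b0 w ((n, F), (t, u))).1
        (buildU b0 w ((n, F), (t, u))).2) ↔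
        ∃! x, x ∈ sols n F ∧ MeetsU n (lg n + b0) w (ext x) t u := by
      intro t u
      exact existsUnique_congr fun x => sols_U hF t u x
    simp only [hiff]
    have hD'0 : 0 ≤ D' := le_max_right _ _
    rcases Nat.eq_zero_or_pos n with hn | hn
    · subst hn
      refine ⟨0, Nat.zero_le _, ?_⟩
      simp only [zero_mul, E]
      rw [if_pos]
      · rw [div_le_one (by positivity)]
        have h1 : Real.exp (-(lam * ((0 : ℕ) : ℝ) + D')) ≤ 1 := by
          rw [Real.exp_le_one_iff]
          simp only [Nat.cast_zero, mul_zero, zero_add]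
          linarith
        refine h1.trans ?_
        norm_num
      · obtain ⟨x, hx⟩ := hs
        exact ⟨x, ⟨hx, trivial⟩, fun y _ => Subsingleton.elim _ _⟩
    · have hb : n ≤ 2 ^ (lg n + b0) :=
        (le_lg n).trans (Nat.pow_le_pow_right (by norm_num) (Nat.le_add_right _ _))
      have h1 := iso_U hn hb hw (3 * n + K) (sols n F) hs
      have h2 := hD n hn
      set f : ℕ → ℝ := fun t => E (t * (w * (lg n + b0) + 1)) (fun u =>
        if ∃! x, x ∈ sols n F ∧ MeetsU n (lg n + b0) w (ext x) t u then 1 else 0) with hf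
      obtain ⟨t, ht, hft⟩ := Finset.exists_max_image (range (3 * n + K + 1)) f ⟨0, by simp⟩
      have h3 : ∑ s ∈ range (3 * n + K + 1), f s ≤ ((3 * n + K + 1 : ℕ) : ℝ) * f t := by
        have := Finset.sum_le_card_nsmul (range (3 * n + K + 1)) f (f t) hft
        rwa [nsmul_eq_mul, card_range] at this
      have hft0 : 0 ≤ f t := by
        simp only [hf]
        exact E_nonneg _ fun u _ => by split_ifs <;> norm_num
      refine ⟨t, by simpa [Nat.lt_succ_iff] using ht, ?_⟩
      have h4 : (2 : ℝ) ^ n / 2 ^ (3 * n + K) ≤ Real.exp (-(lam * n + D)) / 2 := by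
        have h5 : (2 : ℝ) ^ n / 2 ^ (3 * n + K) = Real.exp (-((2 * n + K : ℕ) * Real.log 2)) := by
          rw [Real.exp_neg, Real.exp_nat_mul, Real.exp_log (by norm_num),
            show 3 * n + K = (2 * n + K) + n by ring, pow_add 2 (2 * n + K) n]
          field_simp
        have h6 : Real.exp (-(lam * n + D)) / 2 = Real.exp (-(lam * n + D + Real.log 2)) := by
          rw [show -(lam * n + D + Real.log 2) = -(lam * n + D) + -Real.log 2 by ring, Real.exp_add,
            Real.exp_neg (Real.log 2), Real.exp_log (by norm_num)]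
          ring
        rw [h5, h6]
        apply Real.exp_le_exp.mpr
        apply neg_le_neg
        push_cast
        have h7 : D + Real.log 2 ≤ K * Real.log 2 := by
          rwa [div_le_iff₀ hl2] at hK
        have h8 : lam * n ≤ 2 * Real.log 2 * n := mul_le_mul_of_nonneg_right hlam1 (Nat.cast_nonneg n)
        linarith
      have h5 : Real.exp (-(lam * n + D)) / 2 ≤ ((3 * n + K + 1 : ℕ) : ℝ) * f t := by
        have h6 := h1.trans h3
        linarith
      have h6 : Real.exp (-(lam * n + D')) ≤ Real.exp (-(lam * n + D)) / 2 / (K + 3) := by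
        have h7 : Real.exp (-(lam * n + D)) / 2 / (K + 3)
            = Real.exp (-(lam * n + (D + Real.log 2 + Real.log (K + 3)))) := by
          rw [show -(lam * n + (D + Real.log 2 + Real.log (K + 3))) = -(lam * n + D)
            + (-Real.log 2) + (-Real.log (K + 3)) by ring, Real.exp_add, Real.exp_add,
            Real.exp_neg (Real.log 2), Real.exp_neg (Real.log (K + 3)),
            Real.exp_log (by norm_num), Real.exp_log (by positivity)]
          field_simp
        rw [h7]
        apply Real.exp_le_exp.mpr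
        have := le_max_left (D + Real.log 2 + Real.log (K + 3)) 0
        linarith
      have h7 : ((3 * n + K + 1 : ℕ) : ℝ) ≤ (K + 3) * ((n + 2 : ℕ) : ℝ) := by
        push_cast
        have h8 : (0 : ℝ) ≤ K * n := by positivity
        have h9 : (0 : ℝ) ≤ K := by positivity
        nlinarith
      rw [pow_one, div_le_iff₀ (by positivity)]
      have h8 : (0 : ℝ) < (K : ℝ) + 3 := by positivity
      calc Real.exp (-(lam * n + D')) ≤ Real.exp (-(lam * n + D)) / 2 / (K + 3) := h6
        _ ≤ ((3 * n + K + 1 : ℕ) : ℝ) * f t / (K + 3) := div_le_div_of_nonneg_right h5 h8.le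
        _ ≤ (K + 3) * ((n + 2 : ℕ) : ℝ) * f t / (K + 3) :=
            div_le_div_of_nonneg_right (mul_le_mul_of_nonneg_right h7 hft0) h8.le
        _ = f t * ((n + 2 : ℕ) : ℝ) := by field_simp

/-- The additive comparison. -/
theorem comparison_U {k m : ℕ} (hm : Odd m) (hmk : m ≤ k) : s k ≤ sigma k + 154 / 100 / m := by
  have hm0 : (0 : ℝ) < m := by exact_mod_cast hm.pos
  have h := s_le_of_step (k := k) (a := 1) (b := 154 / 100 / m) (by norm_num) (by positivity)
    (fun c ε hc hε h => step_U hm hmk hc hε h)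
  linarith

end Pool.Agent.Helper77.SK
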